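import Pool.Agent.H12.EH.Basic

/-!
[H12 EH PAIR]  Two and three points with the same label: algebra.

`B_eq`: `hM` and finite sums.  `B_symm`: `M` is symmetric by `hM`.
`B_self`: `B ζ ζ = ∑ w_v γ_v u_v² = m² ∑ w_v (l_v r + k_v s) = 0`.
`B_ne`: suppose `B ζ ζ' = 0`, `c_v = w_v γ_v ≠ 0`, `u = Λ.u ζ`, `u' = Λ.u ζ'`: `∑ c_v u_v² = ∑ c_v u_v u'_v =
∑ c_v u'_v² = 0`, so the determinant of the matrix with the rows `(u_v²), (u_v u'_v), (u'_v²)` vanishes; it is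
`± (u₀ u'₁ - u₁ u'₀)(u₀ u'₂ - u₂ u'₀)(u₁ u'₂ - u₂ u'₁)`.  (Without matrices: multiply the three equations by suitable
cofactors to get `c₀ · ∏ = 0`.)  So `u_v u'_w = u_w u'_v` for some `v ≠ w`; squaring and multiplying with `γ_v γ_w`:
`m⁴ α_v α'_w = m⁴ α_w α'_v` with `α_v = l_v r + k_v s`, and
`α_v α'_w - α_w α'_v = (l_v k_w - l_w k_v)(r s' - r' s)`, contradiction to `ind`.
`B_prod`: for `V` with the columns `ζ₁, ζ₂, ζ₃` the matrix `Vᵀ M V` has the entries `B ζ_i ζ_j`, zero diagonal, so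
`det(V)² det M = 2 B₁₂ B₁₃ B₂₃`.
`B_trans`: modulo `p` (over the field `ZMod p`, or with integers).  If `det V ≢ 0` then `M ζ₂` is orthogonal to three
independent vectors (`B₁₂ = B₂₂ = B₃₂ = 0`), so `M ζ₂ ≡ 0`, contradiction.  If `det V ≡ 0` there is a relation
`a ζ₁ + b ζ₂ + c ζ₃ ≡ 0`, not all `≡ 0` (`Matrix.exists_mulVec_eq_zero_iff`); pairing with `ζ₁`: `c B₁₃ ≡ 0`; with `ζ₃`:
`a B₁₃ ≡ 0`.  If `B₁₃ ≢ 0` then `a ≡ c ≡ 0`, `b ≢ 0`, `ζ₂ ≡ 0`, `M ζ₂ ≡ 0`, contradiction.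
`cls`: for a prime `q ∣ g'`: if `q ∣ B ζ₀ ζ` then `q` divides the common gcd, so `q ∣ B ζ₀ ζ'` and `B_trans` (with
`ζ₂ = ζ₀`, symmetry); otherwise `q ∤ B ζ₀ ζ, B ζ₀ ζ'` and by `B_prod`, `q ≠ 2`, `q ∣ det M`: `q ∣ B ζ ζ'`.  `g'` is squarefree
(`Nat.squarefree...`/`UniqueFactorizationMonoid.dvd_of_squarefree...`: a squarefree number divides `N` if all its prime
factors do).
-/

set_option autoImplicit false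

open Matrix

namespace Pool.Agent.H12.EH

namespace Lab

variable {Λ : Lab}

theorem B_eq (h : Λ.Ok) (ζ ζ' : Fin 3 → ℤ) :
    ((Λ.B ζ ζ' : ℤ) : ℂ) = ∑ v, Λ.w v * Λ.γ v * Λ.u ζ v * Λ.u ζ' v := by
  unfold B u dotProduct Matrix.mulVec
  simp only [dotProduct, Fin.sum_univ_three, Int.cast_add, Int.cast_mul, h.hM]
  ring

theorem B_symm (h : Λ.Ok) (ζ ζ' : Fin 3 → ℤ) : Λ.B ζ ζ' = Λ.B ζ' ζ := by
  have h1 := B_eq h ζ ζ'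
  have h2 := B_eq h ζ' ζ
  have h3 : ((Λ.B ζ ζ' : ℤ) : ℂ) = ((Λ.B ζ' ζ : ℤ) : ℂ) := by
    rw [h1, h2]
    refine Finset.sum_congr rfl fun v _ => ?_
    ring
  exact_mod_cast h3

theorem B_self (h : Λ.Ok) {r s : ℤ} {ζ : Fin 3 → ℤ} (hp : Λ.Pt r s ζ) : Λ.B ζ ζ = 0 := by
  have h1 := B_eq h ζ ζ
  have h3 : ((Λ.B ζ ζ : ℤ) : ℂ) = 0 := by
    rw [h1]
    have h4 : ∀ v, Λ.w v * Λ.γ v * Λ.u ζ v * Λ.u ζ v =
        (Λ.m : ℂ) ^ 2 * (r * (Λ.w v * Λ.l v) + s * (Λ.w v * Λ.k v)) := by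
      intro v
      linear_combination Λ.w v * hp v
    rw [Finset.sum_congr rfl fun v _ => h4 v, ← Finset.mul_sum, Finset.sum_add_distrib,
      ← Finset.mul_sum, ← Finset.mul_sum, h.wl, h.wk]
    ring
  exact_mod_cast h3

theorem pair_cross (h : Λ.Ok) {r s r' s' : ℤ} {ζ ζ' : Fin 3 → ℤ} (hp : Λ.Pt r s ζ)
    (hp' : Λ.Pt r' s' ζ') (hne : r * s' ≠ r' * s) {v w : Fin 3} (hvw : v ≠ w) :
    Λ.u ζ v * Λ.u ζ' w - Λ.u ζ w * Λ.u ζ' v ≠ 0 := by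
  intro h0
  have hm : (Λ.m : ℂ) ≠ 0 := by
    have := h.m0.ne'
    exact_mod_cast this
  have h1 := hp v
  have h2 := hp w
  have h3 := hp' v
  have h4 := hp' w
  have h5 : (Λ.m : ℂ) ^ 4 * ((Λ.l v * Λ.k w - Λ.l w * Λ.k v) * (r * s' - r' * s)) = 0 := by
    have h6 : Λ.γ v * Λ.γ w * ((Λ.u ζ v * Λ.u ζ' w) ^ 2 - (Λ.u ζ w * Λ.u ζ' v) ^ 2) = 0 := by
      linear_combination Λ.γ v * Λ.γ w * (Λ.u ζ v * Λ.u ζ' w + Λ.u ζ w * Λ.u ζ' v) * h0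
    linear_combination h6 - Λ.γ w * Λ.u ζ' w ^ 2 * h1 - (Λ.m : ℂ) ^ 2 * (Λ.l v * r + Λ.k v * s) * h4
      + Λ.γ v * Λ.u ζ' v ^ 2 * h2 + (Λ.m : ℂ) ^ 2 * (Λ.l w * r + Λ.k w * s) * h3
  rcases mul_eq_zero.1 h5 with h6 | h6
  · exact pow_ne_zero 4 hm h6
  rcases mul_eq_zero.1 h6 with h7 | h7
  · exact h.ind v w hvw (sub_eq_zero.1 h7)
  · apply hne
    have : ((r * s' : ℤ) : ℂ) = ((r' * s : ℤ) : ℂ) := by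
      push_cast
      exact sub_eq_zero.1 h7
    exact_mod_cast this

theorem B_ne (h : Λ.Ok) {r s r' s' : ℤ} {ζ ζ' : Fin 3 → ℤ} (hp : Λ.Pt r s ζ) (hp' : Λ.Pt r' s' ζ')
    (hne : r * s' ≠ r' * s) : Λ.B ζ ζ' ≠ 0 := by
  intro hB
  have e1 : ∑ v, Λ.w v * Λ.γ v * Λ.u ζ v * Λ.u ζ v = 0 := by
    rw [← B_eq h ζ ζ, B_self h hp, Int.cast_zero]
  have e2 : ∑ v, Λ.w v * Λ.γ v * Λ.u ζ v * Λ.u ζ' v = 0 := by
    rw [← B_eq h ζ ζ', hB, Int.cast_zero]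
  have e3 : ∑ v, Λ.w v * Λ.γ v * Λ.u ζ' v * Λ.u ζ' v = 0 := by
    rw [← B_eq h ζ' ζ', B_self h hp', Int.cast_zero]
  rw [Fin.sum_univ_three] at e1 e2 e3
  have c01 := pair_cross h hp hp' hne (v := 0) (w := 1) (by decide)
  have c02 := pair_cross h hp hp' hne (v := 0) (w := 2) (by decide)
  have c12 := pair_cross h hp hp' hne (v := 1) (w := 2) (by decide)
  have h1 : (Λ.w 0 * Λ.γ 0) * ((Λ.u ζ 0 * Λ.u ζ' 1 - Λ.u ζ 1 * Λ.u ζ' 0) *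
      (Λ.u ζ 0 * Λ.u ζ' 2 - Λ.u ζ 2 * Λ.u ζ' 0) * (Λ.u ζ 1 * Λ.u ζ' 2 - Λ.u ζ 2 * Λ.u ζ' 1)) = 0 := by
    linear_combination
      (Λ.u ζ' 1 * Λ.u ζ' 2 * (Λ.u ζ 1 * Λ.u ζ' 2 - Λ.u ζ 2 * Λ.u ζ' 1)) * e1 -
      ((Λ.u ζ 1 * Λ.u ζ' 2 - Λ.u ζ 2 * Λ.u ζ' 1) * (Λ.u ζ 1 * Λ.u ζ' 2 + Λ.u ζ 2 * Λ.u ζ' 1)) * e2 +
      (Λ.u ζ 1 * Λ.u ζ 2 * (Λ.u ζ 1 * Λ.u ζ' 2 - Λ.u ζ 2 * Λ.u ζ' 1)) * e3
  exact mul_ne_zero (mul_ne_zero (h.w0 0) (h.γ0 0)) (mul_ne_zero (mul_ne_zero c01 c02) c12) h1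

theorem B_prod (h : Λ.Ok) {ζ₁ ζ₂ ζ₃ : Fin 3 → ℤ} (h1 : Λ.B ζ₁ ζ₁ = 0) (h2 : Λ.B ζ₂ ζ₂ = 0)
    (h3 : Λ.B ζ₃ ζ₃ = 0) : ∃ v : ℤ, v ^ 2 * Λ.M.det = 2 * Λ.B ζ₁ ζ₂ * Λ.B ζ₁ ζ₃ * Λ.B ζ₂ ζ₃ := by
  refine ⟨(Matrix.of ![ζ₁, ζ₂, ζ₃]).det, ?_⟩
  have hG : (Matrix.of ![ζ₁, ζ₂, ζ₃] * Λ.M * (Matrix.of ![ζ₁, ζ₂, ζ₃])ᵀ).det =
      (Matrix.of ![ζ₁, ζ₂, ζ₃]).det ^ 2 * Λ.M.det := by
    rw [Matrix.det_mul, Matrix.det_mul, Matrix.det_transpose]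
    ring
  rw [← hG]
  have hent : ∀ i j, (Matrix.of ![ζ₁, ζ₂, ζ₃] * Λ.M * (Matrix.of ![ζ₁, ζ₂, ζ₃])ᵀ) i j =
      Λ.B (![ζ₁, ζ₂, ζ₃] i) (![ζ₁, ζ₂, ζ₃] j) := by
    intro i j
    unfold B Matrix.mulVec
    simp only [Matrix.mul_apply, Matrix.transpose_apply, Matrix.of_apply, dotProduct,
      Fin.sum_univ_three]
    ring
  rw [Matrix.det_fin_three]
  simp only [hent]
  have e0 : (![ζ₁, ζ₂, ζ₃] : Fin 3 → Fin 3 → ℤ) 0 = ζ₁ := rfl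
  have e1 : (![ζ₁, ζ₂, ζ₃] : Fin 3 → Fin 3 → ℤ) 1 = ζ₂ := rfl
  have e2 : (![ζ₁, ζ₂, ζ₃] : Fin 3 → Fin 3 → ℤ) 2 = ζ₃ := rfl
  rw [e0, e1, e2, h1, h2, h3, B_symm h ζ₂ ζ₁, B_symm h ζ₃ ζ₁, B_symm h ζ₃ ζ₂]
  ring

theorem B_trans (h : Λ.Ok) {ζ₁ ζ₂ ζ₃ : Fin 3 → ℤ} (h1 : Λ.B ζ₁ ζ₁ = 0) (h2 : Λ.B ζ₂ ζ₂ = 0)
    (h3 : Λ.B ζ₃ ζ₃ = 0) {q : ℕ} (hq : q.Prime) (hM : ∃ i, ¬ (q : ℤ) ∣ (Λ.M.mulVec ζ₂) i)
    (h12 : (q : ℤ) ∣ Λ.B ζ₁ ζ₂) (h23 : (q : ℤ) ∣ Λ.B ζ₂ ζ₃) : (q : ℤ) ∣ Λ.B ζ₁ ζ₃ := by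
  have : Fact q.Prime := ⟨hq⟩
  obtain ⟨V, hV⟩ : ∃ V : Matrix (Fin 3) (Fin 3) (ZMod q),
      V = Matrix.of fun i j => (((![ζ₁, ζ₂, ζ₃] : Fin 3 → Fin 3 → ℤ) i j : ℤ) : ZMod q) := ⟨_, rfl⟩
  have hV0 : ∀ j, V 0 j = ((ζ₁ j : ℤ) : ZMod q) := fun j => by rw [hV]; rfl
  have hV1 : ∀ j, V 1 j = ((ζ₂ j : ℤ) : ZMod q) := fun j => by rw [hV]; rfl
  have hV2 : ∀ j, V 2 j = ((ζ₃ j : ℤ) : ZMod q) := fun j => by rw [hV]; rfl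
  have hz : ∀ x : ℤ, (q : ℤ) ∣ x ↔ ((x : ℤ) : ZMod q) = 0 := fun x =>
    (ZMod.intCast_zmod_eq_zero_iff_dvd x q).symm
  have hB : ∀ ζ ζ' : Fin 3 → ℤ, ((Λ.B ζ ζ' : ℤ) : ZMod q) =
      ∑ j, ((ζ j : ℤ) : ZMod q) * (((Λ.M.mulVec ζ') j : ℤ) : ZMod q) := by
    intro ζ ζ'
    unfold B dotProduct
    push_cast
    rfl
  have b12 := (hz _).1 h12
  have b23 := (hz _).1 h23
  have b32 := b23
  rw [B_symm h] at b32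
  obtain ⟨i₀, hi₀⟩ := hM
  have hdet : V.det = 0 := by
    by_contra hdet
    have h4 : V.mulVec (fun j => (((Λ.M.mulVec ζ₂) j : ℤ) : ZMod q)) = 0 := by
      funext i
      change ∑ j, V i j * (((Λ.M.mulVec ζ₂) j : ℤ) : ZMod q) = 0
      fin_cases i
      · change ∑ j, V 0 j * _ = 0
        rw [Finset.sum_congr rfl fun j _ => by rw [hV0 j], ← hB]
        exact b12
      · change ∑ j, V 1 j * _ = 0
        rw [Finset.sum_congr rfl fun j _ => by rw [hV1 j], ← hB, h2, Int.cast_zero]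
      · change ∑ j, V 2 j * _ = 0
        rw [Finset.sum_congr rfl fun j _ => by rw [hV2 j], ← hB]
        exact b32
    have h5 := Matrix.eq_zero_of_mulVec_eq_zero hdet h4
    exact hi₀ ((hz _).2 (congrFun h5 i₀))
  obtain ⟨a, ha, ha0⟩ := Matrix.exists_vecMul_eq_zero_iff.2 hdet
  have hrel : ∀ j, a 0 * ((ζ₁ j : ℤ) : ZMod q) + a 1 * ((ζ₂ j : ℤ) : ZMod q) +
      a 2 * ((ζ₃ j : ℤ) : ZMod q) = 0 := by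
    intro j
    have h4 := congrFun ha0 j
    simp only [Matrix.vecMul, dotProduct, Fin.sum_univ_three, hV0, hV1, hV2, Pi.zero_apply] at h4
    exact h4
  have hpair : ∀ ζ' : Fin 3 → ℤ, a 0 * ((Λ.B ζ₁ ζ' : ℤ) : ZMod q) +
      a 1 * ((Λ.B ζ₂ ζ' : ℤ) : ZMod q) + a 2 * ((Λ.B ζ₃ ζ' : ℤ) : ZMod q) = 0 := by
    intro ζ'
    rw [hB, hB, hB]
    simp only [Fin.sum_univ_three]
    linear_combination (((Λ.M.mulVec ζ') 0 : ℤ) : ZMod q) * hrel 0 +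
      (((Λ.M.mulVec ζ') 1 : ℤ) : ZMod q) * hrel 1 + (((Λ.M.mulVec ζ') 2 : ℤ) : ZMod q) * hrel 2
  by_contra hcon
  have b13 : ((Λ.B ζ₁ ζ₃ : ℤ) : ZMod q) ≠ 0 := fun h4 => hcon ((hz _).2 h4)
  have p1 := hpair ζ₁
  have p3 := hpair ζ₃
  rw [h1, Int.cast_zero, B_symm h ζ₂ ζ₁, b12, B_symm h ζ₃ ζ₁] at p1
  rw [h3, Int.cast_zero, b23] at p3
  have a2 : a 2 = 0 := by
    have h4 : a 2 * ((Λ.B ζ₁ ζ₃ : ℤ) : ZMod q) = 0 := by linear_combination p1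
    exact (mul_eq_zero.1 h4).resolve_right b13
  have a0 : a 0 = 0 := by
    have h4 : a 0 * ((Λ.B ζ₁ ζ₃ : ℤ) : ZMod q) = 0 := by linear_combination p3
    exact (mul_eq_zero.1 h4).resolve_right b13
  have a1 : a 1 ≠ 0 := by
    intro h4
    apply ha
    funext i
    fin_cases i
    · exact a0
    · exact h4
    · exact a2
  have hζ : ∀ j, ((ζ₂ j : ℤ) : ZMod q) = 0 := by
    intro j
    have h4 := hrel j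
    rw [a0, a2] at h4
    have h5 : a 1 * ((ζ₂ j : ℤ) : ZMod q) = 0 := by linear_combination h4
    exact (mul_eq_zero.1 h5).resolve_left a1
  apply hi₀
  rw [hz]
  unfold Matrix.mulVec dotProduct
  push_cast
  exact Finset.sum_eq_zero fun j _ => by rw [hζ j, mul_zero]

theorem cls (h : Λ.Ok) {g : ℕ} (hg : Squarefree g) (hodd : ¬ 2 ∣ g)
    (hdet : ∀ q : ℕ, q.Prime → q ∣ g → (q : ℤ) ∣ Λ.M.det) {ζ₀ ζ ζ' : Fin 3 → ℤ} (h0 : Λ.B ζ₀ ζ₀ = 0)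
    (h1 : Λ.B ζ ζ = 0) (h2 : Λ.B ζ' ζ' = 0)
    (hM : ∀ q : ℕ, q.Prime → q ∣ g → ∃ i, ¬ (q : ℤ) ∣ (Λ.M.mulVec ζ₀) i)
    (he : Nat.gcd g (Λ.B ζ₀ ζ).natAbs = Nat.gcd g (Λ.B ζ₀ ζ').natAbs) : (g : ℤ) ∣ Λ.B ζ ζ' := by
  have key : ∀ q : ℕ, q.Prime → q ∣ g → (q : ℤ) ∣ Λ.B ζ ζ' := by
    intro q hq hqg
    have hqint : Prime (q : ℤ) := Nat.prime_iff_prime_int.1 hq
    have hiff : (q : ℤ) ∣ Λ.B ζ₀ ζ ↔ (q : ℤ) ∣ Λ.B ζ₀ ζ' := by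
      rw [Int.natCast_dvd, Int.natCast_dvd]
      constructor
      · intro h3
        have h4 : q ∣ Nat.gcd g (Λ.B ζ₀ ζ).natAbs := Nat.dvd_gcd hqg h3
        rw [he] at h4
        exact h4.trans (Nat.gcd_dvd_right _ _)
      · intro h3
        have h4 : q ∣ Nat.gcd g (Λ.B ζ₀ ζ').natAbs := Nat.dvd_gcd hqg h3
        rw [← he] at h4
        exact h4.trans (Nat.gcd_dvd_right _ _)
    by_cases h3 : (q : ℤ) ∣ Λ.B ζ₀ ζ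
    · refine B_trans h h1 h0 h2 hq (hM q hq hqg) ?_ (hiff.1 h3)
      rw [B_symm h]
      exact h3
    · have h4 : ¬ (q : ℤ) ∣ Λ.B ζ₀ ζ' := fun h5 => h3 (hiff.2 h5)
      obtain ⟨v, hv⟩ := B_prod h h0 h1 h2
      have h5 : (q : ℤ) ∣ 2 * Λ.B ζ₀ ζ * Λ.B ζ₀ ζ' * Λ.B ζ ζ' := by
        rw [← hv]
        exact Dvd.dvd.mul_left (hdet q hq hqg) _
      rcases hqint.dvd_or_dvd h5 with h6 | h6
      · rcases hqint.dvd_or_dvd h6 with h7 | h7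
        · rcases hqint.dvd_or_dvd h7 with h8 | h8
          · exfalso
            have h9 : q ∣ 2 := by exact_mod_cast h8
            have h10 : q = 2 := (Nat.prime_dvd_prime_iff_eq hq Nat.prime_two).1 h9
            rw [h10] at hqg
            exact hodd hqg
          · exact absurd h8 h3
        · exact absurd h7 h4
      · exact h6
  rw [Int.natCast_dvd, ← Nat.prod_primeFactors_of_squarefree hg]
  refine Finset.prod_primes_dvd _ (fun q hq => (Nat.prime_of_mem_primeFactors hq).prime) ?_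
  intro q hq
  rw [← Int.natCast_dvd]
  exact key q (Nat.prime_of_mem_primeFactors hq) (Nat.dvd_of_mem_primeFactors hq)

end Lab

end Pool.Agent.H12.EH
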