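import Pool.Agent.H12.EH.Alg2
import Pool.Agent.H12.EH.Pair

/-!
[H12 EH LABB]  The label `(a, c)` (one rational factor and one element of the quadratic order) as a `Lab`.

`μ = ![1, e]` for the form `r - e s`, `μ = ![0, -1]` for the form `s`; the rational form is `μ₀ r - μ₁ s`, the functional on
the quadratic order is `mu μ x = μ₀ x₀ + μ₁ x₁`, and `mu μ ![r, -s] = μ₀ r - μ₁ s`.
`mu μ x = w₁ ev2 x ρ₁ + w₂ ev2 x ρ₂` with `w₁ = (μ₁ - μ₀ ρ₂) / (ρ₁ - ρ₂)`, `w₂ = (μ₀ ρ₁ - μ₁) / (ρ₁ - ρ₂)`.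
`lab1_ok`: `w₁, w₂ ≠ 0`: `e ≠ ρ₁, ρ₂`.  `hM`: the functional.  `γ`: `ev2 c ρ_v ≠ 0` from `nrm2_prod`.
`lab1_pt`: the coordinates of `E ζ'` for `ζ' = ![m y, ζ₀, ζ₁]` are `m y, ev2 ζ ρ₁, ev2 ζ ρ₂`.
`lab1_det`: `det M = - a nrm2 c δ`, `δ = μ(1) μ(T²) - μ(T)²`, `δ = - (3 e² + A)` resp. `- 1` (`ring`).
`lab1_ne`: entries 1 and 2 of `M ζ'` are `mu μ x`, `mu μ (x T)` with `x = mul2 c ζ`; if `q` divides both and `q ∤ δ` then
`q ∣ x`, so `q ∣ mul2 x ζ = ![m² r, - m² s]`, `q ∣ m`.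
-/

set_option autoImplicit false

namespace Pool.Agent.H12.EH

/-- the functional -/
def mu (μ c : Fin 2 → ℤ) : ℤ := μ 0 * c 0 + μ 1 * c 1

/-- the label -/
noncomputable def lab1 (A e : ℤ) (ρ : Fin 3 → ℂ) (μ : Fin 2 → ℤ) (a : ℤ) (c : Fin 2 → ℤ) (m : ℕ) : Lab where
  l := ![(μ 0 : ℂ), 1, 1]
  k := ![-(μ 1 : ℂ), -ρ 1, -ρ 2]
  w := ![-1, ((μ 1 : ℂ) - μ 0 * ρ 2) / (ρ 1 - ρ 2), ((μ 0 : ℂ) * ρ 1 - μ 1) / (ρ 1 - ρ 2)]
  γ := ![(a : ℂ), ev2 c (ρ 1), ev2 c (ρ 2)]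
  E := ![![1, 0, 0], ![0, 1, ρ 1], ![0, 1, ρ 2]]
  M := !![-a, 0, 0; 0, mu μ c, mu μ (mul2 A e c ![0, 1]);
    0, mu μ (mul2 A e c ![0, 1]), mu μ (mul2 A e (mul2 A e c ![0, 1]) ![0, 1])]
  m := m

/-- the functional as a combination of the two values -/
private theorem mu_eq (μ x : Fin 2 → ℤ) {p t : ℂ} (h : p - t ≠ 0) :
    ((mu μ x : ℤ) : ℂ) = ((μ 1 : ℂ) - μ 0 * t) / (p - t) * ev2 x p +
      ((μ 0 : ℂ) * p - μ 1) / (p - t) * ev2 x t := by
  unfold mu ev2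
  push_cast
  field_simp
  ring

theorem lab1_ok {A B : ℤ} {ρ : Fin 3 → ℂ} (hρ : Roots A B ρ) {e : ℤ} (he : ρ 0 = e) {μ : Fin 2 → ℤ}
    (hμ : μ = ![1, e] ∨ μ = ![0, -1]) {a : ℤ} (ha : a ≠ 0) {c : Fin 2 → ℤ} (hc : nrm2 A e c ≠ 0)
    {m : ℕ} (hm : 0 < m) : (lab1 A e ρ μ a c m).Ok := by
  have h12 : ρ 1 - ρ 2 ≠ 0 := sub_ne_zero.mpr (hρ.ne 1 2 (by decide))
  have h21 : ρ 2 - ρ 1 ≠ 0 := sub_ne_zero.mpr (hρ.ne 2 1 (by decide))
  have h01 : (e : ℂ) - ρ 1 ≠ 0 := by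
    rw [← he]
    exact sub_ne_zero.mpr (hρ.ne 0 1 (by decide))
  have h02 : (e : ℂ) - ρ 2 ≠ 0 := by
    rw [← he]
    exact sub_ne_zero.mpr (hρ.ne 0 2 (by decide))
  have hm1 : (μ 1 : ℂ) - μ 0 * ρ 1 ≠ 0 := by
    rcases hμ with rfl | rfl
    · simpa using h01
    · simp
  have hm2 : (μ 1 : ℂ) - μ 0 * ρ 2 ≠ 0 := by
    rcases hμ with rfl | rfl
    · simpa using h02
    · simp
  have hm1' : (μ 0 : ℂ) * ρ 1 - μ 1 ≠ 0 := by
    intro h
    apply hm1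
    linear_combination -h
  have hn := nrm2_prod hρ he c
  have hc' : ev2 c (ρ 1) * ev2 c (ρ 2) ≠ 0 := by
    rw [← hn]
    exact_mod_cast hc
  obtain ⟨hr1, hr2⟩ := q_root hρ he
  have hT1 : ev2 (mul2 A e c ![0, 1]) (ρ 1) = ev2 c (ρ 1) * ρ 1 := by
    rw [ev2_mul2 hr1]
    simp [ev2]
  have hT2 : ev2 (mul2 A e c ![0, 1]) (ρ 2) = ev2 c (ρ 2) * ρ 2 := by
    rw [ev2_mul2 hr2]
    simp [ev2]
  have hS1 : ev2 (mul2 A e (mul2 A e c ![0, 1]) ![0, 1]) (ρ 1) = ev2 c (ρ 1) * ρ 1 * ρ 1 := by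
    rw [ev2_mul2 hr1, hT1]
    simp [ev2]
  have hS2 : ev2 (mul2 A e (mul2 A e c ![0, 1]) ![0, 1]) (ρ 2) = ev2 c (ρ 2) * ρ 2 * ρ 2 := by
    rw [ev2_mul2 hr2, hT2]
    simp [ev2]
  refine ⟨?_, ?_, ?_, ?_, hm, ?_, ?_⟩
  · rw [Fin.sum_univ_three]
    simp only [lab1, Matrix.cons_val_zero, Matrix.cons_val_one, Matrix.cons_val]
    field_simp
    ring
  · rw [Fin.sum_univ_three]
    simp only [lab1, Matrix.cons_val_zero, Matrix.cons_val_one, Matrix.cons_val]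
    field_simp
    ring
  · intro v
    fin_cases v
    · simp [lab1]
    · simpa [lab1] using ⟨hm2, h12⟩
    · simpa [lab1] using ⟨hm1', h12⟩
  · intro v
    fin_cases v
    · simpa [lab1] using ha
    · simpa [lab1] using left_ne_zero_of_mul hc'
    · simpa [lab1] using right_ne_zero_of_mul hc'
  · intro u v huv h
    fin_cases u <;> fin_cases v <;> first | exact absurd rfl huv | skip
    · simp only [lab1, Fin.zero_eta, Fin.mk_one, Fin.reduceFinMk, Matrix.cons_val_zero, Matrix.cons_val_one, Matrix.cons_val] at h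
      apply hm1
      linear_combination h
    · simp only [lab1, Fin.zero_eta, Fin.mk_one, Fin.reduceFinMk, Matrix.cons_val_zero, Matrix.cons_val_one, Matrix.cons_val] at h
      apply hm2
      linear_combination h
    · simp only [lab1, Fin.zero_eta, Fin.mk_one, Fin.reduceFinMk, Matrix.cons_val_zero, Matrix.cons_val_one, Matrix.cons_val] at h
      apply hm1
      linear_combination -h
    · simp only [lab1, Fin.zero_eta, Fin.mk_one, Fin.reduceFinMk, Matrix.cons_val_zero, Matrix.cons_val_one, Matrix.cons_val] at h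
      apply h12
      linear_combination h
    · simp only [lab1, Fin.zero_eta, Fin.mk_one, Fin.reduceFinMk, Matrix.cons_val_zero, Matrix.cons_val_one, Matrix.cons_val] at h
      apply hm2
      linear_combination -h
    · simp only [lab1, Fin.zero_eta, Fin.mk_one, Fin.reduceFinMk, Matrix.cons_val_zero, Matrix.cons_val_one, Matrix.cons_val] at h
      apply h12
      linear_combination -h
  · intro i j
    have e0 := mu_eq μ c h12
    have e1 := mu_eq μ (mul2 A e c ![0, 1]) h12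
    have e2 := mu_eq μ (mul2 A e (mul2 A e c ![0, 1]) ![0, 1]) h12
    rw [hT1, hT2] at e1
    rw [hS1, hS2] at e2
    rw [Fin.sum_univ_three]
    fin_cases i <;> fin_cases j <;>
      simp only [lab1, Fin.zero_eta, Fin.mk_one, Fin.reduceFinMk, Matrix.cons_val_zero, Matrix.cons_val_one, Matrix.cons_val,
        Matrix.of_apply]
    · push_cast
      ring
    · push_cast
      ring
    · push_cast
      ring
    · push_cast
      ring
    · rw [e0]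
      ring
    · rw [e1]
      ring
    · push_cast
      ring
    · rw [e1]
      ring
    · rw [e2]
      ring

theorem lab1_pt {A B : ℤ} {ρ : Fin 3 → ℂ} (hρ : Roots A B ρ) {e : ℤ} (he : ρ 0 = e) {μ : Fin 2 → ℤ}
    {a y : ℤ} {c ζ : Fin 2 → ℤ} {m : ℕ} {r s : ℤ} (hy : μ 0 * r - μ 1 * s = a * y ^ 2)
    (h : mul2 A e c (mul2 A e ζ ζ) = ![(m : ℤ) ^ 2 * r, -((m : ℤ) ^ 2 * s)]) :
    (lab1 A e ρ μ a c m).Pt r s ![(m : ℤ) * y, ζ 0, ζ 1] := by
  obtain ⟨hr1, hr2⟩ := q_root hρ he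
  have key : ∀ x : ℂ, x ^ 2 + e * x + (e ^ 2 + A) = 0 →
      ev2 c x * (ev2 ζ x) ^ 2 = (m : ℂ) ^ 2 * (r - x * s) := by
    intro x hx
    have h1 := congrArg (fun f => ev2 f x) h
    rw [ev2_mul2 hx, ev2_mul2 hx] at h1
    rw [pow_two, h1]
    simp only [ev2, Matrix.cons_val_zero, Matrix.cons_val_one]
    push_cast
    ring
  have hy' : (μ 0 : ℂ) * r - μ 1 * s = a * (y : ℂ) ^ 2 := by exact_mod_cast hy
  intro v
  unfold Lab.u
  rw [Fin.sum_univ_three]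
  fin_cases v
  · simp only [lab1, Fin.zero_eta, Fin.mk_one, Fin.reduceFinMk, Matrix.cons_val_zero, Matrix.cons_val_one, Matrix.cons_val]
    push_cast
    linear_combination (-(m : ℂ) ^ 2) * hy'
  · simp only [lab1, Fin.zero_eta, Fin.mk_one, Fin.reduceFinMk, Matrix.cons_val_zero, Matrix.cons_val_one, Matrix.cons_val]
    have := key _ hr1
    unfold ev2 at this ⊢
    linear_combination this
  · simp only [lab1, Fin.zero_eta, Fin.mk_one, Fin.reduceFinMk, Matrix.cons_val_zero, Matrix.cons_val_one, Matrix.cons_val]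
    have := key _ hr2
    unfold ev2 at this ⊢
    linear_combination this

theorem lab1_det (A e : ℤ) (ρ : Fin 3 → ℂ) {μ : Fin 2 → ℤ} (hμ : μ = ![1, e] ∨ μ = ![0, -1]) (a : ℤ)
    (c : Fin 2 → ℤ) (m : ℕ) : a * nrm2 A e c ∣ (lab1 A e ρ μ a c m).M.det := by
  rcases hμ with rfl | rfl
  · refine ⟨3 * e ^ 2 + A, ?_⟩
    rw [Matrix.det_fin_three]
    simp only [lab1, mu, mul2, nrm2, Matrix.cons_val_zero, Matrix.cons_val_one, Matrix.cons_val, Matrix.of_apply]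
    ring
  · refine ⟨1, ?_⟩
    rw [Matrix.det_fin_three]
    simp only [lab1, mu, mul2, nrm2, Matrix.cons_val_zero, Matrix.cons_val_one, Matrix.cons_val, Matrix.of_apply]
    ring

theorem lab1_ne {A e : ℤ} (ρ : Fin 3 → ℂ) {μ : Fin 2 → ℤ} (hμ : μ = ![1, e] ∨ μ = ![0, -1]) {a y : ℤ}
    {c ζ : Fin 2 → ℤ} {m : ℕ} {r s : ℤ} (hrs : IsCoprime r s)
    (h : mul2 A e c (mul2 A e ζ ζ) = ![(m : ℤ) ^ 2 * r, -((m : ℤ) ^ 2 * s)]) {q : ℕ} (hq : q.Prime)
    (hqm : ¬ q ∣ m) (hqe : ¬ (q : ℤ) ∣ 3 * e ^ 2 + A) :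
    ∃ i, ¬ (q : ℤ) ∣ ((lab1 A e ρ μ a c m).M.mulVec ![(m : ℤ) * y, ζ 0, ζ 1]) i := by
  by_contra hcon
  push Not at hcon
  have hqp : Prime (q : ℤ) := Nat.prime_iff_prime_int.mp hq
  obtain ⟨x, hx⟩ : ∃ x, mul2 A e c ζ = x := ⟨_, rfl⟩
  have hx0 : c 0 * ζ 0 - (e ^ 2 + A) * (c 1 * ζ 1) = x 0 := by
    rw [← hx]
    simp [mul2]
  have hx1 : c 0 * ζ 1 + c 1 * ζ 0 - e * (c 1 * ζ 1) = x 1 := by
    rw [← hx]
    simp [mul2]
  have h1 : (q : ℤ) ∣ μ 0 * x 0 + μ 1 * x 1 := by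
    have h0 := hcon 1
    simp only [lab1, mu, mul2, Matrix.mulVec, dotProduct, Fin.sum_univ_three, Matrix.cons_val_zero,
      Matrix.cons_val_one, Matrix.cons_val, Matrix.of_apply] at h0
    rw [← hx0, ← hx1]
    convert h0 using 1
    ring
  have h2 : (q : ℤ) ∣ μ 1 * x 0 + (-(μ 0 * (e ^ 2 + A)) - μ 1 * e) * x 1 := by
    have h0 := hcon 2
    simp only [lab1, mu, mul2, Matrix.mulVec, dotProduct, Fin.sum_univ_three, Matrix.cons_val_zero,
      Matrix.cons_val_one, Matrix.cons_val, Matrix.of_apply] at h0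
    rw [← hx0, ← hx1]
    convert h0 using 1
    ring
  have h3 : (q : ℤ) ∣ x 0 ∧ (q : ℤ) ∣ x 1 := by
    rcases hμ with rfl | rfl
    · simp only [Matrix.cons_val_zero, Matrix.cons_val_one] at h1 h2
      have h4 : (q : ℤ) ∣ (3 * e ^ 2 + A) * x 1 := by
        have := dvd_sub (h1.mul_left e) h2
        have he : e * (1 * x 0 + e * x 1) - (e * x 0 + (-(1 * (e ^ 2 + A)) - e * e) * x 1) =
          (3 * e ^ 2 + A) * x 1 := by ring
        rwa [he] at this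
      have h5 : (q : ℤ) ∣ x 1 := (hqp.dvd_or_dvd h4).resolve_left hqe
      refine ⟨?_, h5⟩
      have := dvd_sub h1 (h5.mul_left e)
      have he : 1 * x 0 + e * x 1 - e * x 1 = x 0 := by ring
      rwa [he] at this
    · simp only [Matrix.cons_val_zero, Matrix.cons_val_one] at h1 h2
      have h5 : (q : ℤ) ∣ x 1 := by
        have he : (0 : ℤ) * x 0 + -1 * x 1 = -x 1 := by ring
        rw [he] at h1
        exact (dvd_neg.mp h1)
      refine ⟨?_, h5⟩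
      have := dvd_sub (h5.mul_left e) h2
      have he : e * x 1 - (-1 * x 0 + (-(0 * (e ^ 2 + A)) - -1 * e) * x 1) = x 0 := by ring
      rwa [he] at this
  rw [← mul2_assoc, hx] at h
  have e0 := congrFun h 0
  have e1 := congrFun h 1
  simp only [mul2, Matrix.cons_val_zero, Matrix.cons_val_one] at e0 e1
  obtain ⟨d0, d1⟩ := h3
  have g0 : (q : ℤ) ∣ (m : ℤ) ^ 2 * r := by
    rw [← e0]
    exact dvd_sub (d0.mul_right _) ((d1.mul_right _).mul_left _)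
  have g1 : (q : ℤ) ∣ (m : ℤ) ^ 2 * s := by
    rw [← dvd_neg, ← e1]
    exact dvd_sub (dvd_add (d0.mul_right _) (d1.mul_right _)) ((d1.mul_right _).mul_left _)
  have g2 : (q : ℤ) ∣ (m : ℤ) ^ 2 := by
    obtain ⟨u, v, huv⟩ := hrs
    have := dvd_add (g0.mul_left u) (g1.mul_left v)
    have he : u * ((m : ℤ) ^ 2 * r) + v * ((m : ℤ) ^ 2 * s) = (m : ℤ) ^ 2 := by
      linear_combination (m : ℤ) ^ 2 * huv
    rwa [he] at this
  exact hqm (by exact_mod_cast hqp.dvd_of_dvd_pow g2)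

end Pool.Agent.H12.EH
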