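import Pool.Agent.H12.EH.Basic

/-!
[H12 EH SPC]  Spaced points in an interval.

`i ↦ ⌊(x i - a) / σ⌋₊` maps `T` injectively (equal floors give `|x i - x j| < σ`) to `Finset.range (⌊L / σ⌋₊ + 1)`.
-/

set_option autoImplicit false

namespace Pool.Agent.H12.EH

theorem spc {ι : Type*} (T : Finset ι) (x : ι → ℝ) (a L σ : ℝ) (hσ : 0 < σ) (hL : 0 ≤ L)
    (hx : ∀ i ∈ T, a ≤ x i ∧ x i ≤ a + L) (hs : ∀ i ∈ T, ∀ j ∈ T, i ≠ j → σ ≤ |x i - x j|) :
    (T.card : ℝ) ≤ 1 + L / σ := by
  have h1 : T.card ≤ (Finset.range (⌊L / σ⌋₊ + 1)).card := by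
    refine Finset.card_le_card_of_injOn (fun i => ⌊(x i - a) / σ⌋₊) ?_ ?_
    · intro i hi
      rw [Finset.mem_coe] at hi
      rw [Finset.mem_coe, Finset.mem_range, Nat.lt_succ_iff]
      apply Nat.floor_le_floor
      apply div_le_div_of_nonneg_right _ hσ.le
      have := (hx i hi).2
      linarith
    · intro i hi j hj hij
      rw [Finset.mem_coe] at hi hj
      by_contra hne
      have h2 := hs i hi j hj hne
      simp only at hij
      have hi0 : 0 ≤ (x i - a) / σ := div_nonneg (by linarith [(hx i hi).1]) hσ.le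
      have hj0 : 0 ≤ (x j - a) / σ := div_nonneg (by linarith [(hx j hj).1]) hσ.le
      have a1 := Nat.floor_le hi0
      have a2 := Nat.lt_floor_add_one ((x i - a) / σ)
      have b1 := Nat.floor_le hj0
      have b2 := Nat.lt_floor_add_one ((x j - a) / σ)
      rw [hij] at a1 a2
      have h3 : |(x i - a) / σ - (x j - a) / σ| < 1 := by
        rw [abs_lt]
        constructor <;> linarith
      have h4 : (x i - a) / σ - (x j - a) / σ = (x i - x j) / σ := by ring
      rw [h4, abs_div, abs_of_pos hσ, div_lt_one hσ] at h3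
      linarith
  rw [Finset.card_range] at h1
  have h2 : (T.card : ℝ) ≤ (⌊L / σ⌋₊ : ℝ) + 1 := by exact_mod_cast h1
  have h3 := Nat.floor_le (div_nonneg hL hσ.le)
  linarith

end Pool.Agent.H12.EH
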