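import Pool.Agent.H12.EH.Rest
import Pool.Agent.H12.EH.Spc

/-!
[H12 EH LCNT]  The number of points with one label in an arc.

Choose `ζ p` for `p ∈ T`, fix `p₀ ∈ T` (`T = ∅` is trivial), `ζ₀ = ζ p₀`.  Classify `p ∈ T` by the signs of
`Re, Im` of the three numbers `u_v = Λ.u (ζ p) v` (`(Fin 3 → Bool × Bool)`, 64 classes) and by
`Nat.gcd g |B ζ₀ (ζ p)|`, a divisor of `g`.  For two different points `p, p'` of one class:
`g ∣ B ζ ζ'` (`cls`), `B ζ ζ' ≠ 0` (`B_ne`, `cross_ne`), so `g ≤ |B ζ ζ'|`; the real parts of `u_v conj u'_v` are not negative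
(same quadrant), so `B_le`: `g ≤ W m² (x - x')² · 2 S / (4 lam)`, `√(s s') ≤ 2 S`.  So
`|x - x'| ≥ σ = √(2 lam g / (W m² S))` and `spc` gives at most `1 + L / σ = 1 + L √(W m² S / (2 lam g))` points in each
class (`x = r / s`).
(`Finset.card_le_mul_card_image` or `Finset.card_eq_sum_card_fiberwise`.)
-/

set_option autoImplicit false

namespace Pool.Agent.H12.EH

namespace Lab

variable {Λ : Lab}

theorem lcnt_sign {a b : ℝ} (h : decide (0 ≤ a) = decide (0 ≤ b)) : 0 ≤ a * b := by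
  rcases le_or_gt 0 a with ha | ha
  · have hb : 0 ≤ b := by
      by_contra hb
      rw [decide_eq_true ha, decide_eq_false hb] at h
      exact absurd h (by decide)
    exact mul_nonneg ha hb
  · have hb : b < 0 := by
      by_contra hb
      rw [decide_eq_false (not_le.2 ha), decide_eq_true (not_lt.1 hb)] at h
      exact absurd h (by decide)
    exact (mul_pos_of_neg_of_neg ha hb).le

theorem lcnt (h : Λ.Ok) {g : ℕ} (hg0 : 0 < g) (hg : Squarefree g) (hodd : ¬ 2 ∣ g)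
    (hdet : ∀ q : ℕ, q.Prime → q ∣ g → (q : ℤ) ∣ Λ.M.det) {W S lam L a : ℝ}
    (hW : ∑ v, ‖Λ.w v‖ * ‖Λ.l v‖ ^ 2 ≤ W) (hW0 : 0 < W) (hS : 0 < S) (hlam : 0 < lam) (hL : 0 ≤ L)
    (T : Finset (ℤ × ℤ))
    (hT : ∀ p ∈ T, IsCoprime p.1 p.2 ∧ 0 < p.2 ∧ (p.2 : ℝ) ≤ 2 * S ∧
      a ≤ (p.1 : ℝ) / p.2 ∧ (p.1 : ℝ) / p.2 ≤ a + L ∧
      (∀ v, Λ.l v ≠ 0 → lam * p.2 ≤ ‖Λ.l v * p.1 + Λ.k v * p.2‖) ∧
      ∃ ζ : Fin 3 → ℤ, Λ.Pt p.1 p.2 ζ ∧
        ∀ q : ℕ, q.Prime → q ∣ g → ∃ i, ¬ (q : ℤ) ∣ (Λ.M.mulVec ζ) i) :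
    (T.card : ℝ) ≤ 64 * g.divisors.card * (1 + L * √(W * (Λ.m : ℝ) ^ 2 * S / (2 * lam * g))) := by
  have hm0 : (0 : ℝ) < (Λ.m : ℝ) := by exact_mod_cast h.m0
  have hgR : (0 : ℝ) < (g : ℝ) := by exact_mod_cast hg0
  rcases T.eq_empty_or_nonempty with rfl | ⟨p₀, hp₀⟩
  · rw [Finset.card_empty, Nat.cast_zero]
    positivity
  have hex : ∀ p ∈ T, ∃ ζ : Fin 3 → ℤ, Λ.Pt p.1 p.2 ζ ∧
        ∀ q : ℕ, q.Prime → q ∣ g → ∃ i, ¬ (q : ℤ) ∣ (Λ.M.mulVec ζ) i :=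
    fun p hp => (hT p hp).2.2.2.2.2.2
  choose! ζ hζ1 hζ2 using hex
  -- the classes
  obtain ⟨κ, hκ⟩ : ∃ κ : ℤ × ℤ → (Fin 3 → Bool × Bool) × ℕ, κ = fun p =>
      (fun v => (decide (0 ≤ (Λ.u (ζ p) v).re), decide (0 ≤ (Λ.u (ζ p) v).im)),
        Nat.gcd g (Λ.B (ζ p₀) (ζ p)).natAbs) := ⟨_, rfl⟩
  set σ : ℝ := √(2 * lam * g / (W * (Λ.m : ℝ) ^ 2 * S)) with hσdef
  have hσ : 0 < σ := Real.sqrt_pos.2 (by positivity)
  have hinv : L / σ = L * √(W * (Λ.m : ℝ) ^ 2 * S / (2 * lam * g)) := by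
    rw [hσdef, div_eq_mul_inv, ← Real.sqrt_inv, inv_div]
  obtain ⟨U, hU⟩ : ∃ U : Finset ((Fin 3 → Bool × Bool) × ℕ),
      U = (Finset.univ : Finset (Fin 3 → Bool × Bool)) ×ˢ g.divisors := ⟨_, rfl⟩
  have hUc : (U.card : ℝ) = 64 * g.divisors.card := by
    rw [hU, Finset.card_product, Finset.card_univ]
    simp
  have hmap : T.image κ ⊆ U := by
    intro c hc
    obtain ⟨p, -, rfl⟩ := Finset.mem_image.1 hc
    rw [hU, Finset.mem_product]
    refine ⟨Finset.mem_univ _, ?_⟩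
    rw [hκ]
    exact Nat.mem_divisors.2 ⟨Nat.gcd_dvd_left _ _, hg0.ne'⟩
  have hfib : ∀ c : (Fin 3 → Bool × Bool) × ℕ, ((T.filter fun p => κ p = c).card : ℝ) ≤
      1 + L * √(W * (Λ.m : ℝ) ^ 2 * S / (2 * lam * g)) := by
    intro c
    rw [← hinv]
    refine spc _ (fun p : ℤ × ℤ => (p.1 : ℝ) / p.2) a L σ hσ hL ?_ ?_
    · intro p hp
      have hp' := hT p (Finset.mem_filter.1 hp).1
      exact ⟨hp'.2.2.2.1, hp'.2.2.2.2.1⟩
    · intro p hp p' hp' hne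
      rw [Finset.mem_filter] at hp hp'
      obtain ⟨hp1, hp2⟩ := hp
      obtain ⟨hp1', hp2'⟩ := hp'
      have hκ' : κ p = κ p' := hp2.trans hp2'.symm
      rw [hκ] at hκ'
      have hsg := congrArg Prod.fst hκ'
      have hgc : Nat.gcd g (Λ.B (ζ p₀) (ζ p)).natAbs = Nat.gcd g (Λ.B (ζ p₀) (ζ p')).natAbs :=
        congrArg Prod.snd hκ'
      obtain ⟨c1, c2, c3, -, -, c6, -⟩ := hT p hp1
      obtain ⟨d1, d2, d3, -, -, d6, -⟩ := hT p' hp1'
      have hdvd : (g : ℤ) ∣ Λ.B (ζ p) (ζ p') :=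
        cls h hg hodd hdet (B_self h (hζ1 p₀ hp₀)) (B_self h (hζ1 p hp1)) (B_self h (hζ1 p' hp1'))
          (hζ2 p₀ hp₀) hgc
      have hBne : Λ.B (ζ p) (ζ p') ≠ 0 :=
        B_ne h (hζ1 p hp1) (hζ1 p' hp1') (cross_ne c1 d1 c2 d2 hne)
      have hgB : (g : ℝ) ≤ |((Λ.B (ζ p) (ζ p') : ℤ) : ℝ)| := by
        have h1 : (g : ℤ) ≤ |Λ.B (ζ p) (ζ p')| :=
          Int.le_of_dvd (abs_pos.2 hBne) ((dvd_abs _ _).2 hdvd)
        exact_mod_cast h1
      have hre : ∀ v, 0 ≤ (Λ.u (ζ p) v * (starRingEnd ℂ) (Λ.u (ζ p') v)).re := by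
        intro v
        have h1 := congrFun hsg v
        have h2 := congrArg Prod.fst h1
        have h3 := congrArg Prod.snd h1
        dsimp only at h2 h3
        rw [Complex.mul_re, Complex.conj_re, Complex.conj_im]
        have h4 := lcnt_sign h2
        have h5 := lcnt_sign h3
        linarith
      have hB := B_le h (hζ1 p hp1) (hζ1 p' hp1') c2 d2 hre hlam c6 d6
      have c2R : (0 : ℝ) < (p.2 : ℝ) := by exact_mod_cast c2
      have d2R : (0 : ℝ) < (p'.2 : ℝ) := by exact_mod_cast d2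
      have hsq : √((p.2 : ℝ) * p'.2) ≤ 2 * S := by
        rw [show (2 * S) = √((2 * S) * (2 * S)) from (Real.sqrt_mul_self (by positivity)).symm]
        refine Real.sqrt_le_sqrt ?_
        exact mul_le_mul c3 d3 d2R.le (by positivity)
      set x : ℝ := (p.1 : ℝ) / p.2 with hx
      set x' : ℝ := (p'.1 : ℝ) / p'.2 with hx'
      have hle : (g : ℝ) ≤ W * (Λ.m : ℝ) ^ 2 * (x - x') ^ 2 * (2 * S) / (4 * lam) := by
        refine hgB.trans (hB.trans ?_)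
        refine div_le_div_of_nonneg_right ?_ (by positivity)
        have h1 : (∑ v, ‖Λ.w v‖ * ‖Λ.l v‖ ^ 2) * (Λ.m : ℝ) ^ 2 * (x - x') ^ 2 ≤
            W * (Λ.m : ℝ) ^ 2 * (x - x') ^ 2 := by
          refine mul_le_mul_of_nonneg_right ?_ (sq_nonneg _)
          exact mul_le_mul_of_nonneg_right hW (by positivity)
        refine mul_le_mul h1 hsq (Real.sqrt_nonneg _) ?_
        positivity
      have hle2 : 2 * lam * g / (W * (Λ.m : ℝ) ^ 2 * S) ≤ (x - x') ^ 2 := by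
        rw [div_le_iff₀ (by positivity)]
        rw [le_div_iff₀ (by positivity)] at hle
        nlinarith
      rw [hσdef, ← Real.sqrt_sq_eq_abs]
      exact Real.sqrt_le_sqrt hle2
  have hcardR : (T.card : ℝ) = ∑ c ∈ T.image κ, ((T.filter fun p => κ p = c).card : ℝ) := by
    rw [Finset.card_eq_sum_card_image κ T, Nat.cast_sum]
  rw [hcardR, ← hUc]
  refine (Finset.sum_le_sum fun c _ => hfib c).trans ?_
  rw [Finset.sum_const, nsmul_eq_mul]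
  refine mul_le_mul_of_nonneg_right ?_ (by positivity)
  exact_mod_cast Finset.card_le_card hmap

end Lab

end Pool.Agent.H12.EH
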