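import Pool.Agent.H12.EH.Lab2
import Pool.Agent.H12.EH.LabB
import Pool.Agent.H12.EH.Lcnt
import Pool.Agent.H92.DivBound

/-!
[H12 EH ACNT1]  The number of pairs with `|a b| ~ L` in a fiber, one rational root.

`δ = |3 e² + A| > 0`.  For `p ∈ T` choose `ζ, c, m` by `lab2` applied to `Qf = b z²` (constant `C₁`).  The label is
`(a, c, m)`, `b = nrm2 c / m²` is determined by it.  Number of labels: `a ≠ 0`, `|a| ≤ 2 L`, `m ≤ C₁`,
`|c_i| ≤ C₁ |b|^(1/2) ≤ C₁ (2 L / |a|)^(1/2)`: at most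
`∑_{0 < |a| ≤ 2 L} C₁ (2 C₁ (2 L / |a|)^(1/2) + 1)² ≤ C L ∑_{a ≤ 2 L} 1 / a ≤ C L (1 + log (2 L)) ≤ C L^(1 + ε)`.
Fix a label.  `g' = ∏ primes q ∣ a b, q ∤ 2 m (3 e² + A)`: `a = ± a' a''` with `a'` the product of the primes of `a` not
dividing `2 m δ`, so `a'' ∣ 2 m δ`, the same for `b`; a prime dividing `a'` and `b'` would divide `r - e s` (or `s`) and
`Qf(r, s)` and so `3 e² + A` (or `gcd(r, s)`): impossible.  So `g' = a' b' ≥ |a b| / (2 m δ)² ≥ L / (2 C₁ δ)²` and `g'` is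
squarefree and odd.  `lcnt` for `Λ = lab1 A e ρ μ a c m` (`lab1_ok`, `lab1_pt`, `lab1_det`, `lab1_ne`),
`W = ∑ ‖w_v‖ ‖l_v‖²` (it depends only on `ρ, μ`; take the maximum of the two `μ`), `a = Re ρ_v - 2 lam`, `L = 4 lam`; the
forms with `l_v ≠ 0` are `r - ρ_v s` (and `r - e s = r - ρ₀ s`), so `Fib` gives the lower bounds.  Each label has at
most `C τ(g') (1 + √(S lam / L))` pairs (`divisor_bound`); sum over the labels.
-/

set_option autoImplicit false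

namespace Pool.Agent.H12.EH

/-- the prime-to-`D` part of a squarefree number -/
theorem acnt1_part (n : ℕ) (hn : Squarefree n) (D : ℕ) (hD : 0 < D) :
    ∃ g : ℕ, g ∣ n ∧ n ≤ g * D ∧ ∀ q : ℕ, q.Prime → q ∣ g → ¬ q ∣ D ∧ q ∣ n := by
  classical
  have hn0 : n ≠ 0 := hn.ne_zero
  have h1 := Nat.prod_primeFactors_of_squarefree hn
  have h2 := Finset.prod_filter_mul_prod_filter_not n.primeFactors (fun q => ¬ q ∣ D) (fun q => q)
  rw [h1] at h2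
  refine ⟨∏ q ∈ n.primeFactors.filter (fun q => ¬ q ∣ D), q, Dvd.intro _ h2, ?_, ?_⟩
  · conv_lhs => rw [← h2]
    refine Nat.mul_le_mul_left _ (Nat.le_of_dvd hD ?_)
    refine Finset.prod_primes_dvd D ?_ ?_
    · intro q hq
      exact (Nat.prime_of_mem_primeFactors (Finset.mem_of_mem_filter _ hq)).prime
    · intro q hq
      exact not_not.1 (Finset.mem_filter.1 hq).2
  · intro q hq hqg
    obtain ⟨q', hq', hdvd⟩ := (Prime.dvd_finsetProd_iff hq.prime _).1 hqg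
    rw [Finset.mem_filter] at hq'
    have h3 : q = q' := (Nat.prime_dvd_prime_iff_eq hq (Nat.prime_of_mem_primeFactors hq'.1)).1 hdvd
    rw [h3]
    exact ⟨hq'.2, Nat.dvd_of_mem_primeFactors hq'.1⟩

theorem acnt1_g (a b : ℤ) (ha : Squarefree a) (hb : Squarefree b) (D : ℕ) (hD : 0 < D)
    (hcop : ∀ q : ℕ, q.Prime → ¬ q ∣ D → (q : ℤ) ∣ a → (q : ℤ) ∣ b → False) :
    ∃ g : ℕ, 0 < g ∧ Squarefree g ∧ (∀ q : ℕ, q.Prime → q ∣ g → ¬ q ∣ D ∧ (q : ℤ) ∣ a * b) ∧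
      (a * b).natAbs ≤ g * D ^ 2 ∧ g ≤ (a * b).natAbs := by
  have ha' := Int.squarefree_natAbs.2 ha
  have hb' := Int.squarefree_natAbs.2 hb
  obtain ⟨ga, h1, h2, h3⟩ := acnt1_part a.natAbs ha' D hD
  obtain ⟨gb, h4, h5, h6⟩ := acnt1_part b.natAbs hb' D hD
  have hab0 : 0 < (a * b).natAbs := by
    rw [Int.natAbs_mul]
    exact Nat.mul_pos (Nat.pos_of_ne_zero ha'.ne_zero) (Nat.pos_of_ne_zero hb'.ne_zero)
  have hdvd : ga * gb ∣ (a * b).natAbs := by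
    rw [Int.natAbs_mul]
    exact Nat.mul_dvd_mul h1 h4
  have hcp : Nat.Coprime ga gb := by
    refine Nat.coprime_of_dvd fun q hq hqa hqb => ?_
    exact hcop q hq (h3 q hq hqa).1 (Int.natCast_dvd.2 (h3 q hq hqa).2)
      (Int.natCast_dvd.2 (h6 q hq hqb).2)
  refine ⟨ga * gb, Nat.pos_of_dvd_of_pos hdvd hab0, ?_, ?_, ?_, Nat.le_of_dvd hab0 hdvd⟩
  · rw [Nat.squarefree_mul hcp]
    exact ⟨ha'.squarefree_of_dvd h1, hb'.squarefree_of_dvd h4⟩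
  · intro q hq hqg
    rcases (hq.dvd_mul).1 hqg with h | h
    · exact ⟨(h3 q hq h).1, (Int.natCast_dvd.2 (h3 q hq h).2).mul_right b⟩
    · exact ⟨(h6 q hq h).1, (Int.natCast_dvd.2 (h6 q hq h).2).mul_left a⟩
  · rw [Int.natAbs_mul]
    calc a.natAbs * b.natAbs ≤ (ga * D) * (gb * D) := Nat.mul_le_mul h2 h5
      _ = ga * gb * D ^ 2 := by ring

/-- a prime dividing both parts divides `3 e² + A` -/
theorem acnt1_cop {A e : ℤ} {μ : Fin 2 → ℤ} (hμ : μ = ![1, e] ∨ μ = ![0, -1]) {r s a b y : ℤ}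
    (hrs : IsCoprime r s) (h1 : μ 0 * r - μ 1 * s = a * y ^ 2) (h2 : b ∣ Qf A e r s) {q : ℕ}
    (hq : q.Prime) (hqe : ¬ (q : ℤ) ∣ 3 * e ^ 2 + A) (ha : (q : ℤ) ∣ a) (hb : (q : ℤ) ∣ b) :
    False := by
  have hqp : Prime (q : ℤ) := Nat.prime_iff_prime_int.1 hq
  have h3 : (q : ℤ) ∣ μ 0 * r - μ 1 * s := by
    rw [h1]
    exact ha.mul_right _
  have h4 : (q : ℤ) ∣ Qf A e r s := hb.trans h2
  have hrs' : ¬ ((q : ℤ) ∣ r ∧ (q : ℤ) ∣ s) := by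
    rintro ⟨hr, hs⟩
    exact hqp.not_isUnit (hrs.isUnit_of_dvd' hr hs)
  rcases hμ with rfl | rfl
  · have h5 : (q : ℤ) ∣ r - e * s := by simpa using h3
    have h6 : (q : ℤ) ∣ (3 * e ^ 2 + A) * s ^ 2 := by
      have e1 : (3 * e ^ 2 + A) * s ^ 2 = Qf A e r s - (r - e * s) * (r + 2 * e * s) := by
        unfold Qf
        ring
      rw [e1]
      exact dvd_sub h4 (h5.mul_right _)
    have h7 : (q : ℤ) ∣ s := hqp.dvd_of_dvd_pow ((hqp.dvd_or_dvd h6).resolve_left hqe)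
    refine hrs' ⟨?_, h7⟩
    have e2 : r = (r - e * s) + e * s := by ring
    rw [e2]
    exact dvd_add h5 (h7.mul_left _)
  · have h5 : (q : ℤ) ∣ s := by simpa using h3
    have h6 : (q : ℤ) ∣ r ^ 2 := by
      have e1 : r ^ 2 = Qf A e r s - s * (e * r + (e ^ 2 + A) * s) := by
        unfold Qf
        ring
      rw [e1]
      exact dvd_sub h4 (h5.mul_right _)
    exact hrs' ⟨hqp.dvd_of_dvd_pow h6, h5⟩

theorem acnt1_harm (N : ℕ) : ∑ n ∈ Finset.Icc 1 N, (1 : ℝ) / n ≤ 1 + Real.log N := by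
  have h := harmonic_le_one_add_log N
  have h2 : ((harmonic N : ℚ) : ℝ) = ∑ n ∈ Finset.Icc 1 N, (1 : ℝ) / n := by
    rw [harmonic_eq_sum_Icc]
    push_cast
    refine Finset.sum_congr rfl fun n _ => ?_
    rw [one_div]
  rw [← h2]
  exact h

theorem acnt1_log (ε : ℝ) (hε : 0 < ε) {L : ℝ} (hL : 1 ≤ L) :
    1 + Real.log (2 * L) ≤ (2 + 1 / ε) * L ^ ε := by
  have h1 : Real.log (2 * L) = Real.log 2 + Real.log L := Real.log_mul (by norm_num) (by linarith)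
  have h2 := Real.log_two_lt_d9
  have h3 := Real.log_le_rpow_div (by linarith : (0 : ℝ) ≤ L) hε
  have h4 : 1 ≤ L ^ ε := Real.one_le_rpow hL hε.le
  have h5 : L ^ ε / ε = 1 / ε * L ^ ε := by ring
  rw [h1]
  rw [h5] at h3
  nlinarith


/-- the constant `∑ ‖w_v‖ ‖l_v‖²` -/
noncomputable def acnt1W (A e : ℤ) (ρ : Fin 3 → ℂ) (μ : Fin 2 → ℤ) : ℝ :=
  ∑ v, ‖(lab1 A e ρ μ 0 0 0).w v‖ * ‖(lab1 A e ρ μ 0 0 0).l v‖ ^ 2

theorem acnt1_fib {A B : ℤ} {ρ : Fin 3 → ℂ} (hρ : Roots A B ρ) {e : ℤ}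
    (he : ρ 0 = e) (hδ : 3 * e ^ 2 + A ≠ 0) (ε : ℝ) (hε : 0 < ε) (C₁ : ℝ) (hC₁ : 1 ≤ C₁) :
    ∃ C : ℝ, 0 < C ∧ ∀ (μ : Fin 2 → ℤ), μ = ![1, e] ∨ μ = ![0, -1] →
    ∀ (v : Fin 3) (S lam L : ℝ), 0 < S → 0 < lam → 1 ≤ L →
    ∀ (a : ℤ) (c : Fin 2 → ℤ) (m : ℕ) (T : Finset (ℤ × ℤ)), 0 < m → (m : ℝ) ≤ C₁ →
    (∀ p ∈ T, IsCoprime p.1 p.2 ∧ 0 < p.2 ∧ Fib ρ v S lam p.1 p.2 ∧
      ∃ (b y : ℤ) (ζ : Fin 2 → ℤ), Squarefree a ∧ Squarefree b ∧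
        μ 0 * p.1 - μ 1 * p.2 = a * y ^ 2 ∧ b ∣ Qf A e p.1 p.2 ∧
        mul2 A e c (mul2 A e ζ ζ) = ![(m : ℤ) ^ 2 * p.1, -((m : ℤ) ^ 2 * p.2)] ∧
        nrm2 A e c = (m : ℤ) ^ 2 * b ∧ L ≤ |((a * b : ℤ) : ℝ)| ∧ |((a * b : ℤ) : ℝ)| ≤ 2 * L) →
    (T.card : ℝ) ≤ C * L ^ ε * (1 + √(S * lam / L)) := by
  obtain ⟨Cd, hCd, hdiv⟩ := H5.W.divisor_bound ε hε
  have hW1 : 0 ≤ acnt1W A e ρ ![1, e] := Finset.sum_nonneg fun v _ => by positivity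
  have hW2 : 0 ≤ acnt1W A e ρ ![0, -1] := Finset.sum_nonneg fun v _ => by positivity
  obtain ⟨W, hWdef⟩ : ∃ W : ℝ, W = acnt1W A e ρ ![1, e] + acnt1W A e ρ ![0, -1] + 1 := ⟨_, rfl⟩
  have hW0 : 0 < W := by linarith
  obtain ⟨dn, hdn⟩ : ∃ dn : ℕ, dn = (3 * e ^ 2 + A).natAbs := ⟨_, rfl⟩
  have hdn0 : 0 < dn := by
    rw [hdn]
    exact Int.natAbs_pos.2 hδ
  have hdnR : (0 : ℝ) < dn := by exact_mod_cast hdn0
  obtain ⟨D₁, hD₁⟩ : ∃ D₁ : ℝ, D₁ = 2 * C₁ * dn := ⟨_, rfl⟩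
  have hD₁0 : 0 < D₁ := by rw [hD₁]; positivity
  obtain ⟨K₁, hK₁⟩ : ∃ K₁ : ℝ, K₁ = 4 * √(W * C₁ ^ 2 * D₁ ^ 2 / 2) := ⟨_, rfl⟩
  have hK₁0 : 0 ≤ K₁ := by rw [hK₁]; positivity
  refine ⟨64 * Cd * 2 ^ ε * (1 + K₁), by positivity, ?_⟩
  intro μ hμ v S lam L hS hlam hL a c m T hm hmC hT
  have hL0 : 0 < L := by linarith
  have hmR : (0 : ℝ) < m := by exact_mod_cast hm
  rcases T.eq_empty_or_nonempty with rfl | ⟨p₀, hp₀⟩
  · rw [Finset.card_empty, Nat.cast_zero]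
    have : 0 ≤ √(S * lam / L) := Real.sqrt_nonneg _
    positivity
  obtain ⟨hrs₀, hs₀, -, b, y₀, ζ₀, ha, hb, hy₀, hbQ₀, -, hn₀, hLab, hLab2⟩ := hT p₀ hp₀
  have ha0 : a ≠ 0 := ha.ne_zero
  have hb0 : b ≠ 0 := hb.ne_zero
  have hcn : nrm2 A e c ≠ 0 := by
    rw [hn₀]
    have : (m : ℤ) ≠ 0 := by exact_mod_cast hm.ne'
    positivity
  have hD0 : 0 < 2 * m * dn := by positivity
  have hqD : ∀ q : ℕ, ¬ q ∣ 2 * m * dn → ¬ q ∣ 2 ∧ ¬ q ∣ m ∧ ¬ (q : ℤ) ∣ 3 * e ^ 2 + A := by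
    intro q hq
    refine ⟨fun h => hq ?_, fun h => hq ?_, fun h => hq ?_⟩
    · exact (h.mul_right m).mul_right dn
    · exact (h.mul_left 2).mul_right dn
    · rw [hdn]
      exact (Int.natCast_dvd.1 h).mul_left _
  obtain ⟨g, hg0, hgsq, hgq, hgL, hgU⟩ := acnt1_g a b ha hb (2 * m * dn) hD0
    (fun q hq hqn hqa hqb => acnt1_cop hμ hrs₀ hy₀ hbQ₀ hq (hqD q hqn).2.2 hqa hqb)
  have hgR : (0 : ℝ) < g := by exact_mod_cast hg0
  have hnab : (((a * b).natAbs : ℕ) : ℝ) = |((a * b : ℤ) : ℝ)| := by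
    rw [Nat.cast_natAbs, Int.cast_abs]
  -- the sizes
  have hg1 : L ≤ g * D₁ ^ 2 := by
    have h1 : (((a * b).natAbs : ℕ) : ℝ) ≤ (g : ℝ) * ((2 * m * dn : ℕ) : ℝ) ^ 2 := by
      exact_mod_cast hgL
    rw [hnab] at h1
    refine hLab.trans (h1.trans ?_)
    push_cast
    rw [hD₁]
    gcongr
  have hg2 : (g : ℝ) ≤ 2 * L := by
    have h1 : (g : ℝ) ≤ (((a * b).natAbs : ℕ) : ℝ) := by exact_mod_cast hgU
    rw [hnab] at h1
    exact h1.trans hLab2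
  have hmain := Lab.lcnt (Λ := lab1 A e ρ μ a c m) (lab1_ok hρ he hμ ha0 hcn hm) hg0 hgsq
    (fun h => (hqD 2 (hgq 2 Nat.prime_two h).1).1 (dvd_refl 2))
    (fun q hq hqg => by
      have h1 : (q : ℤ) ∣ a * b := (hgq q hq hqg).2
      have h2 : a * b ∣ a * nrm2 A e c := by
        rw [hn₀]
        exact ⟨(m : ℤ) ^ 2, by ring⟩
      exact (h1.trans h2).trans (lab1_det A e ρ hμ a c m))
    (W := W) (S := S) (lam := lam) (L := 4 * lam) (a := (ρ v).re - 2 * lam)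
    (by
      have h1 : ∑ v, ‖(lab1 A e ρ μ a c m).w v‖ * ‖(lab1 A e ρ μ a c m).l v‖ ^ 2 =
        acnt1W A e ρ μ := rfl
      rw [h1, hWdef]
      rcases hμ with rfl | rfl <;> linarith)
    hW0 hS hlam (by positivity) T
    (by
      intro p hp
      obtain ⟨hrs, hs, hfib, b', y, ζ, -, -, hy, -, hζ, -, -, -⟩ := hT p hp
      obtain ⟨hf1, hf2, hf3, hf4⟩ := hfib
      have hsR : (0 : ℝ) < p.2 := by exact_mod_cast hs
      have hre : |(p.1 : ℝ) - (ρ v).re * p.2| ≤ 2 * lam * p.2 := by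
        refine le_trans ?_ hf4
        have h1 := Complex.abs_re_le_norm ((p.1 : ℂ) - ρ v * p.2)
        have h2 : ((p.1 : ℂ) - ρ v * p.2).re = (p.1 : ℝ) - (ρ v).re * p.2 := by
          simp
        rwa [h2] at h1
      rw [abs_le] at hre
      refine ⟨hrs, hs, hf2, ?_, ?_, ?_, ?_⟩
      · rw [le_div_iff₀ hsR]
        linarith
      · rw [div_le_iff₀ hsR]
        linarith
      · intro u hu
        have h1 := hf3 u
        fin_cases u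
        · rcases hμ with rfl | rfl
          · have h2 : (lab1 A e ρ ![1, e] a c m).l 0 * (p.1 : ℂ) +
                (lab1 A e ρ ![1, e] a c m).k 0 * (p.2 : ℂ) = (p.1 : ℂ) - ρ 0 * p.2 := by
              simp only [lab1, Matrix.cons_val_zero, Matrix.cons_val_one, Int.cast_one, one_mul]
              rw [he]
              ring
            exact h1.trans_eq (congrArg _ h2.symm)
          · exact absurd (by simp [lab1]) hu
        · have h2 : (lab1 A e ρ μ a c m).l 1 * (p.1 : ℂ) +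
              (lab1 A e ρ μ a c m).k 1 * (p.2 : ℂ) = (p.1 : ℂ) - ρ 1 * p.2 := by
            simp only [lab1, Matrix.cons_val_one, Matrix.cons_val_zero, one_mul]
            ring
          exact h1.trans_eq (congrArg _ h2.symm)
        · have h2 : (lab1 A e ρ μ a c m).l 2 * (p.1 : ℂ) +
              (lab1 A e ρ μ a c m).k 2 * (p.2 : ℂ) = (p.1 : ℂ) - ρ 2 * p.2 := by
            simp only [lab1, Matrix.cons_val, one_mul]
            ring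
          exact h1.trans_eq (congrArg _ h2.symm)
      · exact ⟨_, lab1_pt hρ he hy hζ, fun q hq hqg =>
          lab1_ne ρ hμ hrs hζ hq (hqD q (hgq q hq hqg).1).2.1 (hqD q (hgq q hq hqg).1).2.2⟩)
  -- conclusion
  have hτ : (g.divisors.card : ℝ) ≤ Cd * (2 ^ ε * L ^ ε) := by
    refine (hdiv g hg0).trans ?_
    rw [← Real.mul_rpow (by norm_num) hL0.le]
    gcongr
  have hsq : 4 * lam * √(W * (m : ℝ) ^ 2 * S / (2 * lam * g)) ≤ K₁ * √(S * lam / L) := by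
    have e1 : lam * √(W * (m : ℝ) ^ 2 * S / (2 * lam * g)) =
        √(W * (m : ℝ) ^ 2 / 2 * (S * lam / g)) := by
      rw [← Real.sqrt_sq hlam.le, ← Real.sqrt_mul (by positivity), Real.sqrt_sq hlam.le]
      congr 1
      field_simp
    have e2 : √(W * (m : ℝ) ^ 2 / 2 * (S * lam / g)) ≤
        √(W * C₁ ^ 2 * D₁ ^ 2 / 2 * (S * lam / L)) := by
      apply Real.sqrt_le_sqrt
      have h1 : S * lam / g ≤ D₁ ^ 2 * (S * lam / L) := by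
        rw [mul_div_assoc', div_le_div_iff₀ hgR hL0]
        have : 0 ≤ S * lam := by positivity
        nlinarith
      calc W * (m : ℝ) ^ 2 / 2 * (S * lam / g) ≤ W * C₁ ^ 2 / 2 * (D₁ ^ 2 * (S * lam / L)) := by
            gcongr
        _ = W * C₁ ^ 2 * D₁ ^ 2 / 2 * (S * lam / L) := by ring
    calc 4 * lam * √(W * (m : ℝ) ^ 2 * S / (2 * lam * g))
        = 4 * (lam * √(W * (m : ℝ) ^ 2 * S / (2 * lam * g))) := by ring
      _ ≤ 4 * √(W * C₁ ^ 2 * D₁ ^ 2 / 2 * (S * lam / L)) := by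
          rw [e1]
          linarith
      _ = K₁ * √(S * lam / L) := by
          rw [Real.sqrt_mul (by positivity), hK₁]
          ring
  have hx0 : 0 ≤ √(S * lam / L) := Real.sqrt_nonneg _
  calc (T.card : ℝ) ≤ 64 * g.divisors.card *
        (1 + 4 * lam * √(W * (m : ℝ) ^ 2 * S / (2 * lam * g))) := hmain
    _ ≤ 64 * (Cd * (2 ^ ε * L ^ ε)) * ((1 + K₁) * (1 + √(S * lam / L))) := by
        gcongr
        nlinarith
    _ = 64 * Cd * 2 ^ ε * (1 + K₁) * L ^ ε * (1 + √(S * lam / L)) := by ring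

theorem acnt1_delta {A B : ℤ} (hD : 4 * A ^ 3 + 27 * B ^ 2 ≠ 0) {ρ : Fin 3 → ℂ}
    (hρ : Roots A B ρ) {e : ℤ} (he : ρ 0 = e) : 3 * e ^ 2 + A ≠ 0 := by
  intro h
  have h1 := hρ.fac (e : ℂ)
  rw [he, sub_self, zero_mul, zero_mul] at h1
  have h2 : e ^ 3 + A * e + B = 0 := by exact_mod_cast h1
  have hA : A = -3 * e ^ 2 := by linarith
  have hB : B = 2 * e ^ 3 := by
    rw [hA] at h2
    linarith
  apply hD
  rw [hA, hB]
  ring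

/-- the labels -/
noncomputable def acnt1L (C₁ L : ℝ) : Finset (Σ _ : ℕ, Bool × ((Fin 2 → ℤ) × ℕ)) :=
  (Finset.Icc 1 ⌊2 * L⌋₊).sigma fun n => (Finset.univ : Finset Bool) ×ˢ
    ((Fintype.piFinset fun _ : Fin 2 =>
      Finset.Icc (-((⌊C₁ * √(2 * L / n)⌋₊ : ℕ) : ℤ)) ((⌊C₁ * √(2 * L / n)⌋₊ : ℕ) : ℤ)) ×ˢ
        Finset.Icc 1 ⌊C₁⌋₊)

theorem acnt1L_card {C₁ L : ℝ} (hC₁ : 1 ≤ C₁) (hL : 1 ≤ L) :
    ((acnt1L C₁ L).card : ℝ) ≤ 36 * C₁ ^ 3 * L * (1 + Real.log (2 * L)) := by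
  have hC0 : 0 < C₁ := by linarith
  unfold acnt1L
  rw [Finset.card_sigma]
  push_cast
  have hterm : ∀ n ∈ Finset.Icc 1 ⌊2 * L⌋₊, ((((Finset.univ : Finset Bool) ×ˢ
    ((Fintype.piFinset fun _ : Fin 2 =>
      Finset.Icc (-((⌊C₁ * √(2 * L / n)⌋₊ : ℕ) : ℤ)) ((⌊C₁ * √(2 * L / n)⌋₊ : ℕ) : ℤ)) ×ˢ
        Finset.Icc 1 ⌊C₁⌋₊)).card : ℕ) : ℝ) ≤ 36 * C₁ ^ 3 * L * (1 / (n : ℝ)) := by
    intro n hn
    rw [Finset.mem_Icc] at hn
    have hn0 : (0 : ℝ) < n := by exact_mod_cast hn.1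
    have hnL : (n : ℝ) ≤ 2 * L := (Nat.le_floor_iff (by linarith)).1 hn.2
    obtain ⟨x, hx⟩ : ∃ x : ℝ, x = √(2 * L / n) := ⟨_, rfl⟩
    have hx1 : 1 ≤ x := by
      rw [hx]
      apply Real.one_le_sqrt.2
      rw [le_div_iff₀ hn0]
      linarith
    have hx2 : x ^ 2 = 2 * L / n := by
      rw [hx]
      exact Real.sq_sqrt (by positivity)
    rw [← hx]
    obtain ⟨R, hR⟩ : ∃ R : ℕ, R = ⌊C₁ * x⌋₊ := ⟨_, rfl⟩
    have hRx : (R : ℝ) ≤ C₁ * x := by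
      rw [hR]
      exact Nat.floor_le (by positivity)
    rw [← hR]
    have hcard : (Finset.Icc (-(R : ℤ)) (R : ℤ)).card = 2 * R + 1 := by
      rw [Int.card_Icc]
      omega
    rw [Finset.card_product, Finset.card_product, Fintype.card_piFinset, Finset.prod_const, hcard,
      Nat.card_Icc, Finset.card_univ, Finset.card_univ, Fintype.card_bool, Fintype.card_fin]
    have hM : ((⌊C₁⌋₊ + 1 - 1 : ℕ) : ℝ) ≤ C₁ := by
      rw [Nat.add_sub_cancel]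
      exact Nat.floor_le hC0.le
    have hM0 : (0 : ℝ) ≤ ((⌊C₁⌋₊ + 1 - 1 : ℕ) : ℝ) := Nat.cast_nonneg _
    have hCx : 1 ≤ C₁ * x := by nlinarith
    have hR3 : (2 * (R : ℝ) + 1) ^ 2 ≤ (3 * (C₁ * x)) ^ 2 := by
      apply pow_le_pow_left₀ (by positivity)
      linarith
    have h1 : ((2 * ((2 * R + 1) ^ 2 * (⌊C₁⌋₊ + 1 - 1)) : ℕ) : ℝ) =
        2 * ((2 * (R : ℝ) + 1) ^ 2 * ((⌊C₁⌋₊ + 1 - 1 : ℕ) : ℝ)) := by
      push_cast
      ring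
    rw [h1]
    calc 2 * ((2 * (R : ℝ) + 1) ^ 2 * ((⌊C₁⌋₊ + 1 - 1 : ℕ) : ℝ))
        ≤ 2 * ((3 * (C₁ * x)) ^ 2 * C₁) := by gcongr
      _ = 18 * C₁ ^ 3 * x ^ 2 := by ring
      _ = 36 * C₁ ^ 3 * L * (1 / (n : ℝ)) := by
          rw [hx2]
          ring
  refine (Finset.sum_le_sum hterm).trans ?_
  rw [← Finset.mul_sum]
  have hlog : Real.log (⌊2 * L⌋₊ : ℕ) ≤ Real.log (2 * L) := by
    apply Real.log_le_log
    · have : 1 ≤ ⌊2 * L⌋₊ := Nat.le_floor (by push_cast; linarith)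
      exact_mod_cast this
    · exact Nat.floor_le (by linarith)
  have h2 := acnt1_harm ⌊2 * L⌋₊
  have h3 : ∑ n ∈ Finset.Icc 1 ⌊2 * L⌋₊, (1 : ℝ) / n ≤ 1 + Real.log (2 * L) := by linarith
  gcongr

theorem acnt1 {A B : ℤ} (hD : 4 * A ^ 3 + 27 * B ^ 2 ≠ 0) {ρ : Fin 3 → ℂ} (hρ : Roots A B ρ) {e : ℤ}
    (he : ρ 0 = e) (hirr : ∀ x : ℚ, x ^ 2 + e * x + (e ^ 2 + A) ≠ 0) (ε : ℝ) (hε : 0 < ε) :
    ∃ C : ℝ, 0 < C ∧ ∀ (μ : Fin 2 → ℤ), μ = ![1, e] ∨ μ = ![0, -1] →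
    ∀ (v : Fin 3) (S lam L : ℝ), 0 < S → 0 < lam → 1 ≤ L →
    ∀ T : Finset (ℤ × ℤ), (∀ p ∈ T, IsCoprime p.1 p.2 ∧ 0 < p.2 ∧ Fib ρ v S lam p.1 p.2 ∧
      ∃ (a b y z : ℤ), Squarefree a ∧ Squarefree b ∧ 0 < y ∧ 0 < z ∧ μ 0 * p.1 - μ 1 * p.2 = a * y ^ 2 ∧
        Qf A e p.1 p.2 = b * z ^ 2 ∧ L ≤ |((a * b : ℤ) : ℝ)| ∧ |((a * b : ℤ) : ℝ)| ≤ 2 * L) →
    (T.card : ℝ) ≤ C * L ^ ε * (L + √(S * lam * L)) := by
  classical
  have hδ := acnt1_delta hD hρ he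
  obtain ⟨C₁, hC₁, hlab⟩ := lab2 hρ he hirr
  obtain ⟨Cf, hCf, hfib⟩ := acnt1_fib hρ he hδ (ε / 2) (by positivity) C₁ hC₁
  have hC0 : 0 < C₁ := by linarith
  refine ⟨36 * C₁ ^ 3 * (2 + 1 / (ε / 2)) * Cf, by positivity, ?_⟩
  intro μ hμ v S lam L hS hlam hL T hT
  have hL0 : 0 < L := by linarith
  -- the labels of the points
  have hdat : ∀ p ∈ T, ∃ (a b y : ℤ) (c ζ : Fin 2 → ℤ) (m : ℕ), Squarefree a ∧ Squarefree b ∧
      μ 0 * p.1 - μ 1 * p.2 = a * y ^ 2 ∧ b ∣ Qf A e p.1 p.2 ∧ L ≤ |((a * b : ℤ) : ℝ)| ∧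
      |((a * b : ℤ) : ℝ)| ≤ 2 * L ∧ 0 < m ∧ (m : ℝ) ≤ C₁ ∧
      mul2 A e c (mul2 A e ζ ζ) = ![(m : ℤ) ^ 2 * p.1, -((m : ℤ) ^ 2 * p.2)] ∧
      nrm2 A e c = (m : ℤ) ^ 2 * b ∧ ∀ i, |((c i : ℤ) : ℝ)| ≤ C₁ * (|b| : ℝ) ^ (1 / 2 : ℝ) := by
    intro p hp
    obtain ⟨hrs, hs, -, a, b, y, z, ha, hb, hy0, hz0, hy, hz, h1, h2⟩ := hT p hp
    have hz1 : ((z.toNat : ℕ) : ℤ) = z := Int.toNat_of_nonneg hz0.le
    obtain ⟨ζ, c, m, hm, hmC, hζ, hn, hc⟩ := hlab p.1 p.2 b z.toNat hrs hs hb.ne_zero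
      (by omega) (by rw [hz1]; exact hz)
    exact ⟨a, b, y, c, ζ, m, ha, hb, hy, ⟨z ^ 2, hz⟩, h1, h2, hm, hmC, hζ, hn, hc⟩
  choose! a b y c ζ m hdat using hdat
  obtain ⟨f, hf⟩ : ∃ f : ℤ × ℤ → Σ _ : ℕ, Bool × ((Fin 2 → ℤ) × ℕ),
      f = fun p => ⟨(a p).natAbs, (decide (0 < a p), (c p, m p))⟩ := ⟨_, rfl⟩
  have hmaps : ∀ p ∈ T, f p ∈ acnt1L C₁ L := by
    intro p hp
    obtain ⟨ha, hb, -, -, -, h2, hm, hmC, -, -, hc⟩ := hdat p hp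
    have ha0 := ha.ne_zero
    have hb0 := hb.ne_zero
    have hnR : (((a p).natAbs : ℕ) : ℝ) = |((a p : ℤ) : ℝ)| := by
      rw [Nat.cast_natAbs, Int.cast_abs]
    have hnpos : 0 < (a p).natAbs := Int.natAbs_pos.2 ha0
    have hnposR : (0 : ℝ) < ((a p).natAbs : ℕ) := by exact_mod_cast hnpos
    have hb1 : (1 : ℝ) ≤ |((b p : ℤ) : ℝ)| := by
      have : (1 : ℤ) ≤ |b p| := Int.one_le_abs hb0
      exact_mod_cast this
    have hprod : (((a p).natAbs : ℕ) : ℝ) * |((b p : ℤ) : ℝ)| ≤ 2 * L := by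
      rw [hnR, ← abs_mul]
      exact_mod_cast h2
    rw [hf]
    unfold acnt1L
    rw [Finset.mem_sigma, Finset.mem_product, Finset.mem_product, Fintype.mem_piFinset,
      Finset.mem_Icc, Finset.mem_Icc]
    refine ⟨⟨hnpos, ?_⟩, Finset.mem_univ _, fun i => ?_, hm, ?_⟩
    · apply Nat.le_floor
      nlinarith
    · have h3 : |((b p : ℤ) : ℝ)| ≤ 2 * L / ((a p).natAbs : ℕ) := by
        rw [le_div_iff₀ hnposR]
        linarith
      have h4 : |((c p i : ℤ) : ℝ)| ≤ C₁ * √(2 * L / ((a p).natAbs : ℕ)) := by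
        refine (hc i).trans ?_
        rw [Real.sqrt_eq_rpow]
        gcongr
      have h5 : ((c p i).natAbs : ℕ) ≤ ⌊C₁ * √(2 * L / ((a p).natAbs : ℕ))⌋₊ := by
        apply Nat.le_floor
        rw [Nat.cast_natAbs, Int.cast_abs]
        exact h4
      rw [Finset.mem_Icc]
      constructor
      · have := Int.le_natAbs (a := -(c p i))
        rw [Int.natAbs_neg] at this
        have h6 : (((c p i).natAbs : ℕ) : ℤ) ≤
          ((⌊C₁ * √(2 * L / ((a p).natAbs : ℕ))⌋₊ : ℕ) : ℤ) := by exact_mod_cast h5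
        linarith
      · have := Int.le_natAbs (a := c p i)
        have h6 : (((c p i).natAbs : ℕ) : ℤ) ≤
          ((⌊C₁ * √(2 * L / ((a p).natAbs : ℕ))⌋₊ : ℕ) : ℤ) := by exact_mod_cast h5
        linarith
    · exact Nat.le_floor hmC
  -- the number of points with one label
  have hone : ∀ x ∈ acnt1L C₁ L, ((T.filter (fun p => f p = x)).card : ℝ) ≤
      Cf * L ^ (ε / 2) * (1 + √(S * lam / L)) := by
    rintro ⟨n, σ, c₀, m₀⟩ hx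
    unfold acnt1L at hx
    rw [Finset.mem_sigma, Finset.mem_product, Finset.mem_product, Finset.mem_Icc] at hx
    have hm₀ : 0 < m₀ ∧ (m₀ : ℝ) ≤ C₁ := by
      have h := Finset.mem_Icc.1 hx.2.2.2
      exact ⟨h.1, (Nat.le_floor_iff hC0.le).1 h.2⟩
    refine hfib μ hμ v S lam L hS hlam hL (if σ then (n : ℤ) else -(n : ℤ)) c₀ m₀ _ hm₀.1 hm₀.2 ?_
    intro p hp
    rw [Finset.mem_filter] at hp
    obtain ⟨hpT, hfp⟩ := hp
    obtain ⟨hrs, hs, hfb, -⟩ := hT p hpT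
    obtain ⟨ha, hb, hy, hbQ, h1, h2, -, -, hζ, hn, -⟩ := hdat p hpT
    rw [hf] at hfp
    simp only [Sigma.mk.injEq, heq_eq_eq, Prod.mk.injEq] at hfp
    obtain ⟨e1, e2, e3, e4⟩ := hfp
    have ha' : a p = if σ then (n : ℤ) else -(n : ℤ) := by
      rw [← e2, ← e1]
      by_cases h0 : 0 < a p
      · rw [decide_eq_true h0, if_pos rfl]
        omega
      · rw [decide_eq_false h0, if_neg (by simp)]
        omega
    rw [← ha', ← e3, ← e4]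
    exact ⟨hrs, hs, hfb, b p, y p, ζ p, ha, hb, hy, hbQ, hζ, hn, h1, h2⟩
  -- conclusion
  have hcard : (T.card : ℝ) = ∑ x ∈ acnt1L C₁ L, ((T.filter (fun p => f p = x)).card : ℝ) := by
    exact_mod_cast Finset.card_eq_sum_card_fiberwise hmaps
  have hF0 : 0 ≤ Cf * L ^ (ε / 2) * (1 + √(S * lam / L)) := by positivity
  have hlog := acnt1_log (ε / 2) (by positivity) hL
  have hcL := acnt1L_card hC₁ hL
  have hsq : L * √(S * lam / L) = √(S * lam * L) := by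
    rw [← Real.sqrt_sq hL0.le, ← Real.sqrt_mul (by positivity), Real.sqrt_sq hL0.le]
    congr 1
    field_simp
  have hpow : L ^ (ε / 2) * L ^ (ε / 2) = L ^ ε := by
    rw [← Real.rpow_add hL0]
    congr 1
    ring
  calc (T.card : ℝ) = ∑ x ∈ acnt1L C₁ L, ((T.filter (fun p => f p = x)).card : ℝ) := hcard
    _ ≤ ∑ _x ∈ acnt1L C₁ L, Cf * L ^ (ε / 2) * (1 + √(S * lam / L)) := Finset.sum_le_sum hone
    _ = ((acnt1L C₁ L).card : ℝ) * (Cf * L ^ (ε / 2) * (1 + √(S * lam / L))) := by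
        rw [Finset.sum_const, nsmul_eq_mul]
    _ ≤ (36 * C₁ ^ 3 * L * ((2 + 1 / (ε / 2)) * L ^ (ε / 2))) *
          (Cf * L ^ (ε / 2) * (1 + √(S * lam / L))) := by
        apply mul_le_mul_of_nonneg_right _ hF0
        refine hcL.trans ?_
        gcongr
    _ = 36 * C₁ ^ 3 * (2 + 1 / (ε / 2)) * Cf * (L ^ (ε / 2) * L ^ (ε / 2)) *
          (L + L * √(S * lam / L)) := by ring
    _ = 36 * C₁ ^ 3 * (2 + 1 / (ε / 2)) * Cf * L ^ ε * (L + √(S * lam * L)) := by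
        rw [hpow, hsq]

end Pool.Agent.H12.EH
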