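import Pool.Agent.H12.EH.LabC
import Pool.Agent.H12.EH.Lcnt
import Pool.Agent.H92.DivBound

/-!
[H12 EH ACNT3]  The number of pairs with `|a_i a_j a_k| ~ L` in a fiber, three rational roots.

`δ = ∏_v |frw e o v| > 0` (`frw_ne`; take the product over all `o`, `v`).  Label of `p`: `(a_i, a_j, a_k)` (three non zero integers with
absolute product at most `2 L`); number of labels: a triple of positive integers with product `n` is determined by two
divisors of `n`, so at most `8 ∑_{n ≤ 2L} τ(n)² ≤ C L^(1 + ε)`.  Fix a label.  `g' = ∏ primes q ∣ a_i a_j a_k, q ∤ 2 δ`; every such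
`q` divides exactly one of the three (`lab3r_gcd`), each `|a_v| = a_v' a_v''` with `a_v'' ∣ 2 δ`, so
`g' = a_i' a_j' a_k' ≥ L / (2 δ)³`, squarefree, odd.  `lcnt` for `Λ = lab3r e o a` (`lab3r_ok`, `lab3r_pt`, `lab3r_det`,
`lab3r_ne`), `W = ∑ ‖w_v‖ ‖l_v‖²` (depends on `e, o` only), `a = e_v - 2 lam`, `L = 4 lam`; the forms with `l_v ≠ 0` are
`r - e_j s` and `Fib` gives the lower bounds.  Each label has at most `C τ(g') (1 + √(S lam / L))` pairs.
-/

set_option autoImplicit false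

namespace Pool.Agent.H12.EH

theorem acnt3_labels (ε : ℝ) (hε : 0 < ε) : ∃ C : ℝ, 0 < C ∧ ∀ (L : ℝ), 1 ≤ L →
    ∀ (F : Finset (Fin 3 → ℤ)), (∀ a ∈ F, (∀ i, a i ≠ 0) ∧ |((∏ i, a i : ℤ) : ℝ)| ≤ 2 * L) →
      (F.card : ℝ) ≤ C * L * L ^ ε := by
  classical
  obtain ⟨C1, hC1, hdiv⟩ := Pool.Agent.H5.W.divisor_bound (ε / 2) (by positivity)
  refine ⟨2 * (8 * C1 ^ 2 * 2 ^ ε), by positivity, ?_⟩
  intro L hL F hF
  set N : ℕ := ⌊2 * L⌋₊ with hN
  set f : (Fin 3 → ℤ) → ℕ := fun a => (∏ i, a i).natAbs with hf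
  have hmaps : ∀ a ∈ F, f a ∈ Finset.Icc 1 N := by
    intro a ha
    obtain ⟨h0, h1⟩ := hF a ha
    rw [Finset.mem_Icc]
    constructor
    · have : (∏ i, a i) ≠ 0 := Finset.prod_ne_zero_iff.mpr (fun i _ => h0 i)
      exact Nat.one_le_iff_ne_zero.mpr (Int.natAbs_ne_zero.mpr this)
    · refine Nat.le_floor ?_
      rw [hf]
      simp only
      rw [Nat.cast_natAbs, Int.cast_abs]
      exact h1
  have hfib : ∀ n ∈ Finset.Icc 1 N, ((F.filter (fun a => f a = n)).card : ℝ) ≤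
      8 * C1 ^ 2 * 2 ^ ε * L ^ ε := by
    intro n hn
    rw [Finset.mem_Icc] at hn
    have h1 : (F.filter (fun a => f a = n)).card ≤
        ((n.divisors ×ˢ n.divisors) ×ˢ (Finset.univ : Finset (Fin 3 → Bool))).card := by
      refine Finset.card_le_card_of_injOn
        (fun a => (((a 0).natAbs, (a 1).natAbs), fun i => decide (0 < a i))) ?_ ?_
      · intro a ha
        have ha' := Finset.mem_filter.mp (Finset.mem_coe.mp ha)
        have hna : (∏ i, a i).natAbs = n := ha'.2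
        rw [Fin.prod_univ_three, Int.natAbs_mul, Int.natAbs_mul] at hna
        rw [Finset.mem_coe, Finset.mem_product, Finset.mem_product]
        refine ⟨⟨?_, ?_⟩, Finset.mem_univ _⟩
        · exact Nat.mem_divisors.mpr ⟨⟨(a 1).natAbs * (a 2).natAbs, by rw [← hna]; ring⟩, by omega⟩
        · exact Nat.mem_divisors.mpr ⟨⟨(a 0).natAbs * (a 2).natAbs, by rw [← hna]; ring⟩, by omega⟩
      · intro a ha b hb hab
        have ha' := Finset.mem_filter.mp (Finset.mem_coe.mp ha)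
        have hb' := Finset.mem_filter.mp (Finset.mem_coe.mp hb)
        have hna : (∏ i, a i).natAbs = n := ha'.2
        have hnb : (∏ i, b i).natAbs = n := hb'.2
        rw [Fin.prod_univ_three, Int.natAbs_mul, Int.natAbs_mul] at hna hnb
        simp only [Prod.mk.injEq] at hab
        obtain ⟨⟨e0, e1⟩, e3⟩ := hab
        have ha0 := (hF a ha'.1).1
        have hb0 := (hF b hb'.1).1
        have e2 : (a 2).natAbs = (b 2).natAbs := by
          have h2 : (a 0).natAbs * (a 1).natAbs * (a 2).natAbs =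
              (a 0).natAbs * (a 1).natAbs * (b 2).natAbs := by
            rw [hna, ← hnb, e0, e1]
          have h3 : (a 0).natAbs * (a 1).natAbs ≠ 0 :=
            mul_ne_zero (Int.natAbs_ne_zero.mpr (ha0 0)) (Int.natAbs_ne_zero.mpr (ha0 1))
          exact Nat.eq_of_mul_eq_mul_left (Nat.pos_of_ne_zero h3) h2
        have key : ∀ i, (a i).natAbs = (b i).natAbs → a i = b i := by
          intro i hi
          have hs : decide (0 < a i) = decide (0 < b i) := congrFun e3 i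
          have hs' : (0 < a i) ↔ (0 < b i) := by simpa using hs
          rcases Int.natAbs_eq_natAbs_iff.mp hi with h | h
          · exact h
          · exfalso
            have := ha0 i
            omega
        funext i
        fin_cases i
        · exact key 0 e0
        · exact key 1 e1
        · exact key 2 e2
    rw [Finset.card_product, Finset.card_product] at h1
    have h2 : (Finset.univ : Finset (Fin 3 → Bool)).card = 8 := by decide
    rw [h2] at h1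
    have h3 := hdiv n hn.1
    have hnN : (n : ℝ) ≤ 2 * L := by
      have : (n : ℝ) ≤ (N : ℝ) := by exact_mod_cast hn.2
      exact this.trans (Nat.floor_le (by linarith))
    have h4 : (n : ℝ) ^ (ε / 2) ≤ (2 * L) ^ (ε / 2) :=
      Real.rpow_le_rpow (Nat.cast_nonneg n) hnN (by positivity)
    have h5 : (n.divisors.card : ℝ) ≤ C1 * (2 * L) ^ (ε / 2) :=
      h3.trans (mul_le_mul_of_nonneg_left h4 hC1.le)
    have h6 : (2 * L) ^ (ε / 2) * (2 * L) ^ (ε / 2) = 2 ^ ε * L ^ ε := by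
      rw [← Real.rpow_add (by linarith), ← Real.mul_rpow (by norm_num) (by linarith)]
      ring_nf
    calc ((F.filter (fun a => f a = n)).card : ℝ)
        ≤ ((n.divisors.card * n.divisors.card * 8 : ℕ) : ℝ) := by exact_mod_cast h1
      _ = (n.divisors.card : ℝ) * (n.divisors.card : ℝ) * 8 := by push_cast; ring
      _ ≤ (C1 * (2 * L) ^ (ε / 2)) * (C1 * (2 * L) ^ (ε / 2)) * 8 := by
          refine mul_le_mul_of_nonneg_right (mul_le_mul h5 h5 (Nat.cast_nonneg _) (by positivity))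
            (by norm_num)
      _ = 8 * C1 ^ 2 * ((2 * L) ^ (ε / 2) * (2 * L) ^ (ε / 2)) := by ring
      _ = _ := by rw [h6]; ring
  rw [Finset.card_eq_sum_card_fiberwise hmaps]
  push_cast
  refine (Finset.sum_le_sum hfib).trans ?_
  rw [Finset.sum_const, Nat.card_Icc, nsmul_eq_mul, Nat.add_sub_cancel]
  have hN2 : (N : ℝ) ≤ 2 * L := Nat.floor_le (by linarith)
  calc (N : ℝ) * (8 * C1 ^ 2 * 2 ^ ε * L ^ ε) ≤ (2 * L) * (8 * C1 ^ 2 * 2 ^ ε * L ^ ε) :=
        mul_le_mul_of_nonneg_right hN2 (by positivity)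
    _ = _ := by ring

theorem acnt3_form (e : Fin 3 → ℤ) (j : Fin 4) (hj : frl j ≠ 0) :
    ∃ u : Fin 3, frl j = 1 ∧ frk e j = -e u := by
  fin_cases j
  · exact absurd rfl hj
  · exact ⟨0, rfl, rfl⟩
  · exact ⟨1, rfl, rfl⟩
  · exact ⟨2, rfl, rfl⟩

theorem acnt3_one {e : Fin 3 → ℤ} (he : ∀ i j, i ≠ j → e i ≠ e j) (ε : ℝ) (hε : 0 < ε) :
    ∃ C : ℝ, 0 < C ∧ ∀ (o : Fin 4) (v : Fin 3) (S lam L : ℝ), 0 < S → 0 < lam → 1 ≤ L →
    ∀ (a : Fin 3 → ℤ), (∀ i, Squarefree (a i)) → L ≤ |((∏ i, a i : ℤ) : ℝ)| →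
    |((∏ i, a i : ℤ) : ℝ)| ≤ 2 * L →
    ∀ T : Finset (ℤ × ℤ), (∀ p ∈ T, IsCoprime p.1 p.2 ∧ 0 < p.2 ∧
      Fib (fun v => (e v : ℂ)) v S lam p.1 p.2 ∧
      ∃ (y : Fin 3 → ℤ), (∀ i, frm e (o.succAbove i) p.1 p.2 = a i * y i ^ 2)) →
    (T.card : ℝ) ≤ C * L ^ ε * (1 + √(S * lam / L)) := by
  classical
  obtain ⟨C1, hC1, hdiv⟩ := Pool.Agent.H5.W.divisor_bound ε hε
  set K : ℕ := 2 * ∏ o : Fin 4, ∏ v : Fin 3, (frw e o v).natAbs with hK
  have hK0 : 0 < K := by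
    rw [hK]
    refine Nat.mul_pos two_pos (Finset.prod_pos (fun o _ => Finset.prod_pos (fun v _ => ?_)))
    exact Int.natAbs_pos.mpr (frw_ne he o v)
  have hKd : ∀ (o : Fin 4) (v : Fin 3), frw e o v ∣ (K : ℤ) := by
    intro o v
    rw [← Int.natAbs_dvd_natAbs, Int.natAbs_natCast, hK]
    exact ((Finset.dvd_prod_of_mem (fun v => (frw e o v).natAbs) (Finset.mem_univ v)).trans
      (Finset.dvd_prod_of_mem (fun o => ∏ v : Fin 3, (frw e o v).natAbs)
        (Finset.mem_univ o))).trans (Dvd.intro_left _ rfl)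
  set W : ℝ := 1 + ∑ o : Fin 4, ∑ v : Fin 3, ‖((frw e o v : ℤ) : ℂ)‖ *
    ‖((frl (o.succAbove v) : ℤ) : ℂ)‖ ^ 2 with hW
  have hW0 : 0 < W := by
    have : 0 ≤ ∑ o : Fin 4, ∑ v : Fin 3, ‖((frw e o v : ℤ) : ℂ)‖ *
      ‖((frl (o.succAbove v) : ℤ) : ℂ)‖ ^ 2 :=
      Finset.sum_nonneg (fun o _ => Finset.sum_nonneg (fun v _ => by positivity))
    linarith
  refine ⟨64 * (C1 * 2 ^ ε) * (1 + √(8 * W * (K : ℝ) ^ 3)), by positivity, ?_⟩
  intro o v S lam L hS hlam hL a hsq hLa haL T hT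
  rcases T.eq_empty_or_nonempty with hTe | ⟨p0, hp0⟩
  · rw [hTe, Finset.card_empty, Nat.cast_zero]
    positivity
  have hL0 : 0 < L := by linarith
  set α : Fin 3 → ℕ := fun i => (a i).natAbs / Nat.gcd (a i).natAbs K with hα
  set g : ℕ := ∏ i, α i with hg
  have ha0 : ∀ i, (a i).natAbs ≠ 0 := fun i => Int.natAbs_ne_zero.mpr (hsq i).ne_zero
  have hsqn : ∀ i, Squarefree (a i).natAbs := fun i => Int.squarefree_natAbs.mpr (hsq i)
  have hF1 : ∀ i, α i * Nat.gcd (a i).natAbs K = (a i).natAbs := fun i =>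
    Nat.div_mul_cancel (Nat.gcd_dvd_left _ _)
  have hαd : ∀ i, α i ∣ (a i).natAbs := fun i => ⟨_, (hF1 i).symm⟩
  have hα0 : ∀ i, 0 < α i := fun i => Nat.pos_of_ne_zero (fun h => ha0 i (by
    rw [← hF1 i, h, zero_mul]))
  have hF2 : ∀ i (q : ℕ), q.Prime → q ∣ α i → ¬ q ∣ K := by
    intro i q hq hqi hqK
    have h1 : q ∣ Nat.gcd (a i).natAbs K := Nat.dvd_gcd (hqi.trans (hαd i)) hqK
    have h2 : q * q ∣ (a i).natAbs := by
      rw [← hF1 i]
      exact mul_dvd_mul hqi h1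
    have := hsqn i q h2
    exact hq.one_lt.ne' (Nat.isUnit_iff.mp this)
  have hqw : ∀ q : ℕ, ¬ q ∣ K → ∀ v, ¬ (q : ℤ) ∣ frw e o v := by
    intro q hq v h
    exact hq (Int.natCast_dvd_natCast.mp (h.trans (hKd o v)))
  have hqa : ∀ i (q : ℕ), q ∣ α i → (q : ℤ) ∣ a i := by
    intro i q h
    exact Int.natCast_dvd.mpr (h.trans (hαd i))
  have hcop : ∀ i j, i ≠ j → Nat.Coprime (α i) (α j) := by
    intro i j hij
    refine Nat.Coprime.symm (Nat.coprime_of_dvd ?_)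
    intro q hq hqj hqi
    obtain ⟨hrs, _, _, y, hy⟩ := hT p0 hp0
    refine lab3r_gcd o hrs hy hq (hqw q (hF2 i q hq hqi)) hij ?_ ?_
    · rw [hy i]
      exact (hqa i q hqi).mul_right _
    · rw [hy j]
      exact (hqa j q hqj).mul_right _
  have hg3 : g = α 0 * α 1 * α 2 := by rw [hg, Fin.prod_univ_three]
  have hg0 : 0 < g := by
    rw [hg]
    exact Finset.prod_pos (fun i _ => hα0 i)
  have hgsq : Squarefree g := by
    rw [hg3, Nat.squarefree_mul (Nat.Coprime.mul_left (hcop 0 2 (by decide)) (hcop 1 2 (by decide))),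
      Nat.squarefree_mul (hcop 0 1 (by decide))]
    exact ⟨⟨(hsqn 0).squarefree_of_dvd (hαd 0), (hsqn 1).squarefree_of_dvd (hαd 1)⟩,
      (hsqn 2).squarefree_of_dvd (hαd 2)⟩
  have hprime : ∀ q : ℕ, q.Prime → q ∣ g → ∃ i, q ∣ α i := by
    intro q hq hqg
    rw [hg] at hqg
    obtain ⟨i, _, hi⟩ := (hq.prime.dvd_finsetProd_iff _).mp hqg
    exact ⟨i, hi⟩
  have hodd : ¬ 2 ∣ g := by
    intro h2
    obtain ⟨i, hi⟩ := hprime 2 Nat.prime_two h2
    exact hF2 i 2 Nat.prime_two hi (hK ▸ Dvd.intro _ rfl)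
  have habs : |((∏ i, a i : ℤ) : ℝ)| = (((a 0).natAbs * (a 1).natAbs * (a 2).natAbs : ℕ) : ℝ) := by
    rw [Fin.prod_univ_three]
    push_cast
    rw [abs_mul, abs_mul]
    simp only [Nat.cast_natAbs, Int.cast_abs]
  have hgK : L ≤ g * (K : ℝ) ^ 3 := by
    refine hLa.trans ?_
    rw [habs]
    have h1 : (a 0).natAbs * (a 1).natAbs * (a 2).natAbs ≤ g * K ^ 3 := by
      rw [← hF1 0, ← hF1 1, ← hF1 2, hg3]
      have h2 : ∀ i, Nat.gcd (a i).natAbs K ≤ K := fun i => Nat.gcd_le_right _ hK0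
      calc α 0 * Nat.gcd (a 0).natAbs K * (α 1 * Nat.gcd (a 1).natAbs K) *
            (α 2 * Nat.gcd (a 2).natAbs K)
          = (α 0 * α 1 * α 2) * (Nat.gcd (a 0).natAbs K * Nat.gcd (a 1).natAbs K *
              Nat.gcd (a 2).natAbs K) := by ring
        _ ≤ (α 0 * α 1 * α 2) * (K * K * K) :=
            Nat.mul_le_mul_left _ (Nat.mul_le_mul (Nat.mul_le_mul (h2 0) (h2 1)) (h2 2))
        _ = _ := by ring
    exact_mod_cast h1
  have hg2L : (g : ℝ) ≤ 2 * L := by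
    refine le_trans ?_ haL
    rw [habs]
    have h1 : g ≤ (a 0).natAbs * (a 1).natAbs * (a 2).natAbs := by
      rw [hg3]
      exact Nat.mul_le_mul (Nat.mul_le_mul (Nat.le_of_dvd (Nat.pos_of_ne_zero (ha0 0)) (hαd 0))
        (Nat.le_of_dvd (Nat.pos_of_ne_zero (ha0 1)) (hαd 1)))
        (Nat.le_of_dvd (Nat.pos_of_ne_zero (ha0 2)) (hαd 2))
    exact_mod_cast h1
  have hane : ∀ i, a i ≠ 0 := fun i => (hsq i).ne_zero
  have hmain := Lab.lcnt (Λ := lab3r e o a) (lab3r_ok he o hane) hg0 hgsq hodd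
    (by
      intro q hq hqg
      obtain ⟨i, hi⟩ := hprime q hq hqg
      exact (hqa i q hi).trans (lab3r_det o a i))
    (W := W) (S := S) (lam := lam) (L := 4 * lam) (a := (e v : ℝ) - 2 * lam)
    (by
      have h1 : ∑ v : Fin 3, ‖((frw e o v : ℤ) : ℂ)‖ * ‖((frl (o.succAbove v) : ℤ) : ℂ)‖ ^ 2 ≤
          ∑ o : Fin 4, ∑ v : Fin 3, ‖((frw e o v : ℤ) : ℂ)‖ *
            ‖((frl (o.succAbove v) : ℤ) : ℂ)‖ ^ 2 :=
        Finset.single_le_sum (f := fun o : Fin 4 => ∑ v : Fin 3, ‖((frw e o v : ℤ) : ℂ)‖ *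
            ‖((frl (o.succAbove v) : ℤ) : ℂ)‖ ^ 2)
          (fun o _ => Finset.sum_nonneg (fun v _ => by positivity)) (Finset.mem_univ o)
      have h2 : ∑ v : Fin 3, ‖(lab3r e o a).w v‖ * ‖(lab3r e o a).l v‖ ^ 2 =
          ∑ v : Fin 3, ‖((frw e o v : ℤ) : ℂ)‖ * ‖((frl (o.succAbove v) : ℤ) : ℂ)‖ ^ 2 := rfl
      rw [h2]
      linarith) hW0 hS hlam (by positivity) T
    (by
      intro p hp
      obtain ⟨hrs, hs, hfib, y, hy⟩ := hT p hp
      obtain ⟨f1, f2, f3, f4⟩ := hfib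
      have hs' : (0 : ℝ) < (p.2 : ℝ) := by exact_mod_cast hs
      have hre : |(p.1 : ℝ) - e v * p.2| ≤ 2 * lam * p.2 := by
        have h1 : ‖(p.1 : ℂ) - (e v : ℂ) * p.2‖ = |(p.1 : ℝ) - e v * p.2| := by
          rw [← Real.norm_eq_abs, ← Complex.norm_real]
          push_cast
          rfl
        rw [← h1]
        exact f4
      have hre2 : |(p.1 : ℝ) / p.2 - e v| ≤ 2 * lam := by
        have h1 : (p.1 : ℝ) / p.2 - e v = ((p.1 : ℝ) - e v * p.2) / p.2 := by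
          field_simp
        rw [h1, abs_div, abs_of_pos hs', div_le_iff₀ hs']
        exact hre
      rw [abs_le] at hre2
      refine ⟨hrs, hs, f2, by linarith [hre2.1], by linarith [hre2.2], ?_, y, lab3r_pt o hy, ?_⟩
      · intro u hu
        have hu' : frl (o.succAbove u) ≠ 0 := by
          intro h
          apply hu
          show ((frl (o.succAbove u) : ℤ) : ℂ) = 0
          rw [h]
          simp
        obtain ⟨w, hw1, hw2⟩ := acnt3_form e _ hu'
        have h1 : (lab3r e o a).l u * (p.1 : ℂ) + (lab3r e o a).k u * (p.2 : ℂ) =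
            (p.1 : ℂ) - (e w : ℂ) * p.2 := by
          show ((frl (o.succAbove u) : ℤ) : ℂ) * (p.1 : ℂ) +
            ((frk e (o.succAbove u) : ℤ) : ℂ) * (p.2 : ℂ) = _
          rw [hw1, hw2]
          push_cast
          ring
        rw [h1]
        exact f3 w
      · intro q hq hqg
        obtain ⟨i, hi⟩ := hprime q hq hqg
        exact lab3r_ne o hrs hy hq (hqw q (hF2 i q hq hi)))
  have hm1 : ((lab3r e o a).m : ℝ) = 1 := by
    show (((1 : ℕ)) : ℝ) = 1
    norm_num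
  rw [hm1] at hmain
  have hg0' : (0 : ℝ) < g := by exact_mod_cast hg0
  have hK0' : (0 : ℝ) < K := by exact_mod_cast hK0
  have hsqrt : 4 * lam * √(W * (1 : ℝ) ^ 2 * S / (2 * lam * g)) ≤
      √(8 * W * (K : ℝ) ^ 3) * √(S * lam / L) := by
    rw [← Real.sqrt_mul (by positivity)]
    have h1 : 4 * lam * √(W * (1 : ℝ) ^ 2 * S / (2 * lam * g)) =
        √((4 * lam) ^ 2 * (W * (1 : ℝ) ^ 2 * S / (2 * lam * g))) := by
      rw [Real.sqrt_mul (by positivity), Real.sqrt_sq (by positivity)]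
    rw [h1]
    refine Real.sqrt_le_sqrt ?_
    have h2 : (4 * lam) ^ 2 * (W * (1 : ℝ) ^ 2 * S / (2 * lam * g)) = 8 * W * (S * lam) * (1 / g) := by
      field_simp
      ring
    have h3 : 8 * W * (K : ℝ) ^ 3 * (S * lam / L) = 8 * W * (S * lam) * ((K : ℝ) ^ 3 / L) := by
      ring
    rw [h2, h3]
    refine mul_le_mul_of_nonneg_left ?_ (by positivity)
    rw [div_le_div_iff₀ hg0' hL0]
    linarith
  have htau : (g.divisors.card : ℝ) ≤ C1 * 2 ^ ε * L ^ ε := by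
    refine (hdiv g hg0).trans ?_
    rw [mul_assoc]
    refine mul_le_mul_of_nonneg_left ?_ hC1.le
    rw [← Real.mul_rpow (by norm_num) hL0.le]
    exact Real.rpow_le_rpow hg0'.le hg2L hε.le
  have hR0 : 0 ≤ √(S * lam / L) := Real.sqrt_nonneg _
  have hQ0 : 0 ≤ √(8 * W * (K : ℝ) ^ 3) := Real.sqrt_nonneg _
  calc (T.card : ℝ) ≤ 64 * g.divisors.card *
        (1 + 4 * lam * √(W * (1 : ℝ) ^ 2 * S / (2 * lam * g))) := hmain
    _ ≤ 64 * (C1 * 2 ^ ε * L ^ ε) * (1 + √(8 * W * (K : ℝ) ^ 3) * √(S * lam / L)) := by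
        refine mul_le_mul (mul_le_mul_of_nonneg_left htau (by norm_num))
          (by linarith) (by positivity) (by positivity)
    _ ≤ 64 * (C1 * 2 ^ ε * L ^ ε) * ((1 + √(8 * W * (K : ℝ) ^ 3)) * (1 + √(S * lam / L))) := by
        refine mul_le_mul_of_nonneg_left ?_ (by positivity)
        nlinarith
    _ = _ := by ring

theorem acnt3 {A B : ℤ} {e : Fin 3 → ℤ} (hρ : Roots A B (fun v => (e v : ℂ))) (ε : ℝ) (hε : 0 < ε) :
    ∃ C : ℝ, 0 < C ∧ ∀ (o : Fin 4) (v : Fin 3) (S lam L : ℝ), 0 < S → 0 < lam → 1 ≤ L →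
    ∀ T : Finset (ℤ × ℤ), (∀ p ∈ T, IsCoprime p.1 p.2 ∧ 0 < p.2 ∧
      Fib (fun v => (e v : ℂ)) v S lam p.1 p.2 ∧
      ∃ (a y : Fin 3 → ℤ), (∀ i, Squarefree (a i)) ∧ (∀ i, 0 < y i) ∧
        (∀ i, frm e (o.succAbove i) p.1 p.2 = a i * y i ^ 2) ∧
        L ≤ |((∏ i, a i : ℤ) : ℝ)| ∧ |((∏ i, a i : ℤ) : ℝ)| ≤ 2 * L) →
    (T.card : ℝ) ≤ C * L ^ ε * (L + √(S * lam * L)) := by
  classical
  have he : ∀ i j, i ≠ j → e i ≠ e j := by
    intro i j hij h
    apply hρ.ne i j hij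
    simp only [h]
  obtain ⟨C1, hC1, h1⟩ := acnt3_labels (ε / 2) (by positivity)
  obtain ⟨C2, hC2, h2⟩ := acnt3_one he (ε / 2) (by positivity)
  refine ⟨C1 * C2, by positivity, ?_⟩
  intro o v S lam L hS hlam hL T hT
  have hL0 : 0 < L := by linarith
  choose! a y ha using fun p (hp : p ∈ T) => (hT p hp).2.2.2
  set F := T.image a with hF
  have hcard : (T.card : ℝ) = ∑ b ∈ F, ((T.filter (fun p => a p = b)).card : ℝ) := by
    rw [Finset.card_eq_sum_card_fiberwise (f := a) (t := F)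
      (fun p hp => Finset.mem_image_of_mem a hp)]
    push_cast
    rfl
  have hlab : (F.card : ℝ) ≤ C1 * L * L ^ (ε / 2) := by
    refine h1 L hL F (fun b hb => ?_)
    obtain ⟨p, hp, rfl⟩ := Finset.mem_image.mp hb
    exact ⟨fun i => ((ha p hp).1 i).ne_zero, (ha p hp).2.2.2.2⟩
  have hone : ∀ b ∈ F, ((T.filter (fun p => a p = b)).card : ℝ) ≤
      C2 * L ^ (ε / 2) * (1 + √(S * lam / L)) := by
    intro b hb
    obtain ⟨p, hp, rfl⟩ := Finset.mem_image.mp hb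
    refine h2 o v S lam L hS hlam hL (a p) (ha p hp).1 (ha p hp).2.2.2.1 (ha p hp).2.2.2.2 _ ?_
    intro q hq
    rw [Finset.mem_filter] at hq
    obtain ⟨hq1, hq2⟩ := hq
    refine ⟨(hT q hq1).1, (hT q hq1).2.1, (hT q hq1).2.2.1, y q, ?_⟩
    intro i
    rw [(ha q hq1).2.2.1 i, hq2]
  rw [hcard]
  refine (Finset.sum_le_sum hone).trans ?_
  rw [Finset.sum_const, nsmul_eq_mul]
  have hR0 : 0 ≤ √(S * lam / L) := Real.sqrt_nonneg _
  have hsq : L * √(S * lam / L) = √(S * lam * L) := by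
    have h3 : L * √(S * lam / L) = √(L ^ 2 * (S * lam / L)) := by
      rw [Real.sqrt_mul (by positivity), Real.sqrt_sq hL0.le]
    rw [h3]
    congr 1
    field_simp
  have hpow : L ^ (ε / 2) * L ^ (ε / 2) = L ^ ε := by
    rw [← Real.rpow_add hL0]
    ring_nf
  calc (F.card : ℝ) * (C2 * L ^ (ε / 2) * (1 + √(S * lam / L)))
      ≤ (C1 * L * L ^ (ε / 2)) * (C2 * L ^ (ε / 2) * (1 + √(S * lam / L))) :=
        mul_le_mul_of_nonneg_right hlab (by positivity)
    _ = C1 * C2 * (L ^ (ε / 2) * L ^ (ε / 2)) * (L + L * √(S * lam / L)) := by ring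
    _ = _ := by rw [hpow, hsq]

end Pool.Agent.H12.EH
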