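import Pool.Agent.H12.EH.Basic

/-!
[H12 EH DYA]  Dyadic decompositions.

`dya2`: the classes `Nat.log 2 (g i) = k`, `k ≤ Nat.log 2 N`.
`dya1`: for a pair `p` (`s > 0`, `|r|, s ≤ H`, `G(r,s) ≠ 0`) let `v` be the index with the smallest `‖r - ρ_v s‖`,
`δ = ‖r - ρ_v s‖ / s > 0`, `j = ⌊log₂ δ⌋ ∈ ℤ` (`Int.log 2 δ`, `2^j ≤ δ < 2^(j+1)`), `i = Nat.log 2 s`.  Then
`Fib ρ v (2^i) (2^j) r s`.  Ranges: `0 ≤ i ≤ log₂ H`; `δ ≤ (|r| + ‖ρ_v‖ s) / s ≤ (1 + ‖ρ_v‖) H`, and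
`1 ≤ |G(r,s)| = ∏ ‖r - ρ_u s‖` (`Gf_norm`) `≤ δ s ((1 + R) H)²`, `R = max ‖ρ_u‖`, so `δ ≥ c H^(-3)`.  Hence the number of
triples `(v, i, j)` is at most `C (log H + 1)²`.  In each class `S lam = 2^i 2^j ≤ s δ = ‖r - ρ_v s‖ ≤ (1 + R) H`.
Classes which are empty are not counted (take the sum over the image of `T`, `Finset.card_eq_sum_card_fiberwise`,
`Finset.card_le_mul_card_image`).
-/

set_option autoImplicit false

namespace Pool.Agent.H12.EH

theorem dya2 {ι : Type*} (T : Finset ι) (g : ι → ℕ) (N : ℕ) (M : ℝ) (hM0 : 0 ≤ M)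
    (hg : ∀ i ∈ T, 1 ≤ g i ∧ g i ≤ N)
    (hM : ∀ k : ℕ, 2 ^ k ≤ N → ∀ T' ⊆ T, (∀ i ∈ T', 2 ^ k ≤ g i ∧ g i ≤ 2 * 2 ^ k) → (T'.card : ℝ) ≤ M) :
    (T.card : ℝ) ≤ (Nat.log 2 N + 1) * M := by
  classical
  rcases T.eq_empty_or_nonempty with hT | ⟨i0, hi0⟩
  · subst hT
    simp only [Finset.card_empty, Nat.cast_zero]
    positivity
  have hN : N ≠ 0 := by
    have := hg i0 hi0
    omega
  have hmap : ∀ i ∈ T, Nat.log 2 (g i) ∈ Finset.range (Nat.log 2 N + 1) := by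
    intro i hi
    rw [Finset.mem_range]
    have := Nat.log_mono_right (b := 2) (hg i hi).2
    omega
  rw [Finset.card_eq_sum_card_fiberwise hmap]
  push_cast
  calc ∑ k ∈ Finset.range (Nat.log 2 N + 1), ((T.filter (fun i => Nat.log 2 (g i) = k)).card : ℝ)
      ≤ ∑ k ∈ Finset.range (Nat.log 2 N + 1), M := by
        apply Finset.sum_le_sum
        intro k hk
        rw [Finset.mem_range] at hk
        apply hM k
        · exact Nat.pow_le_of_le_log hN (by omega)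
        · exact Finset.filter_subset _ _
        · intro i hi
          rw [Finset.mem_filter] at hi
          have h1 := hg i hi.1
          obtain ⟨_, h2⟩ := hi
          constructor
          · exact Nat.pow_le_of_le_log (by omega) (by omega)
          · have := Nat.lt_pow_succ_log_self (b := 2) (by norm_num) (g i)
            rw [h2, pow_succ] at this
            omega
    _ = (Nat.log 2 N + 1) * M := by simp

theorem dya1 {A B : ℤ} {ρ : Fin 3 → ℂ} (hρ : Roots A B ρ) : ∃ C : ℝ, 1 ≤ C ∧ ∀ (H : ℝ), 1 ≤ H →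
    ∀ (T : Finset (ℤ × ℤ)) (M : ℝ), 0 ≤ M →
    (∀ p ∈ T, 0 < p.2 ∧ |(p.1 : ℝ)| ≤ H ∧ (p.2 : ℝ) ≤ H ∧ Gf A B p.1 p.2 ≠ 0) →
    (∀ (v : Fin 3) (S lam : ℝ), 1 ≤ S → 0 < lam → S * lam ≤ C * H → ∀ T' ⊆ T,
      (∀ p ∈ T', Fib ρ v S lam p.1 p.2) → (T'.card : ℝ) ≤ M) →
    (T.card : ℝ) ≤ C * (Real.log H + 1) ^ 2 * M := by
  classical
  obtain ⟨R, hR0, hR⟩ : ∃ R : ℝ, 0 ≤ R ∧ ∀ u, ‖ρ u‖ ≤ R :=
    ⟨∑ u, ‖ρ u‖, by positivity, fun u => Finset.single_le_sum (f := fun u => ‖ρ u‖)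
      (fun i _ => norm_nonneg _) (Finset.mem_univ u)⟩
  set a : ℝ := Real.log (1 + R) with ha
  have ha0 : 0 ≤ a := Real.log_nonneg (by linarith)
  refine ⟨(1 + R) + 6 * (8 * a + 17), by linarith, ?_⟩
  intro H hH T M hM0 hT hM
  have hH0 : 0 < H := by linarith
  set h : ℝ := Real.log H with hh
  have hh0 : 0 ≤ h := Real.log_nonneg hH
  have hv : ∀ p : ℤ × ℤ, ∃ v : Fin 3, ∀ u, ‖(p.1 : ℂ) - ρ v * p.2‖ ≤ ‖(p.1 : ℂ) - ρ u * p.2‖ := by
    intro p
    obtain ⟨v, -, hv⟩ := Finset.exists_min_image Finset.univ (fun u => ‖(p.1 : ℂ) - ρ u * p.2‖)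
      ⟨0, Finset.mem_univ _⟩
    exact ⟨v, fun u => hv u (Finset.mem_univ _)⟩
  choose vv hvv using hv
  -- sizes
  have hup : ∀ p ∈ T, ∀ u, ‖(p.1 : ℂ) - ρ u * p.2‖ ≤ (1 + R) * H := by
    intro p hp u
    obtain ⟨h1, h2, h3, h4⟩ := hT p hp
    have h1' : (0 : ℝ) < p.2 := by exact_mod_cast h1
    calc ‖(p.1 : ℂ) - ρ u * p.2‖ ≤ ‖(p.1 : ℂ)‖ + ‖ρ u * p.2‖ := norm_sub_le _ _
      _ = |(p.1 : ℝ)| + ‖ρ u‖ * p.2 := by
          rw [norm_mul, Complex.norm_intCast, Complex.norm_intCast, abs_of_pos h1']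
      _ ≤ H + R * H := by
          have := hR u
          gcongr
      _ = (1 + R) * H := by ring
  have hpos : ∀ p ∈ T, 0 < ‖(p.1 : ℂ) - ρ (vv p) * p.2‖ := by
    intro p hp
    obtain ⟨h1, h2, h3, h4⟩ := hT p hp
    have hG := Gf_norm hρ p.1 p.2
    have hG0 : 0 < |((Gf A B p.1 p.2 : ℤ) : ℝ)| := abs_pos.mpr (by exact_mod_cast h4)
    rw [hG] at hG0
    rcases (norm_nonneg ((p.1 : ℂ) - ρ (vv p) * p.2)).lt_or_eq with h5 | h5
    · exact h5
    exfalso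
    have h6 : ∀ w : Fin 3, w = 0 ∨ w = 1 ∨ w = 2 := by decide
    rcases h6 (vv p) with hw | hw | hw <;> rw [hw] at h5 <;> rw [← h5] at hG0 <;> simp at hG0
  have hlow : ∀ p ∈ T, 1 ≤ ‖(p.1 : ℂ) - ρ (vv p) * p.2‖ * ((1 + R) * H) ^ 2 := by
    intro p hp
    obtain ⟨h1, h2, h3, h4⟩ := hT p hp
    have hG := Gf_norm hρ p.1 p.2
    have hG1 : 1 ≤ |((Gf A B p.1 p.2 : ℤ) : ℝ)| := by
      exact_mod_cast Int.one_le_abs h4
    rw [hG] at hG1
    have h6 : ∀ w : Fin 3, w = 0 ∨ w = 1 ∨ w = 2 := by decide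
    have e0 := hup p hp 0
    have e1 := hup p hp 1
    have e2 := hup p hp 2
    have n0 := norm_nonneg ((p.1 : ℂ) - ρ 0 * p.2)
    have n1 := norm_nonneg ((p.1 : ℂ) - ρ 1 * p.2)
    have n2 := norm_nonneg ((p.1 : ℂ) - ρ 2 * p.2)
    refine hG1.trans ?_
    rcases h6 (vv p) with hw | hw | hw <;> rw [hw]
    · calc _ ≤ ‖(p.1 : ℂ) - ρ 0 * p.2‖ * ((1 + R) * H) * ((1 + R) * H) := by gcongr
        _ = _ := by ring
    · calc _ ≤ ((1 + R) * H) * ‖(p.1 : ℂ) - ρ 1 * p.2‖ * ((1 + R) * H) := by gcongr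
        _ = _ := by ring
    · calc _ ≤ ((1 + R) * H) * ((1 + R) * H) * ‖(p.1 : ℂ) - ρ 2 * p.2‖ := by gcongr
        _ = _ := by ring
  -- the classes
  set δ : ℤ × ℤ → ℝ := fun p => ‖(p.1 : ℂ) - ρ (vv p) * p.2‖ / p.2 with hδ
  set I : ℕ := ⌊2 * h⌋₊ with hI
  set J : ℕ := ⌊2 * (2 * a + 3 * h)⌋₊ + 1 with hJ
  set κ : ℤ × ℤ → Fin 3 × ℕ × ℤ := fun p => (vv p, Nat.log 2 p.2.toNat, Int.log 2 (δ p)) with hκ
  set 𝒦 : Finset (Fin 3 × ℕ × ℤ) :=
    Finset.univ ×ˢ (Finset.range (I + 1) ×ˢ Finset.Icc (-(J : ℤ)) J) with h𝒦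
  have hl2 : (1 : ℝ) / 2 < Real.log 2 := by
    have := Real.log_two_gt_d9
    linarith
  have hmap : ∀ p ∈ T, κ p ∈ 𝒦 := by
    intro p hp
    obtain ⟨h1, h2, h3, h4⟩ := hT p hp
    have h1' : (0 : ℝ) < p.2 := by exact_mod_cast h1
    have h1'' : (1 : ℝ) ≤ p.2 := by exact_mod_cast h1
    have hδ0 : 0 < δ p := div_pos (hpos p hp) h1'
    rw [h𝒦, Finset.mem_product, Finset.mem_product, Finset.mem_range, Finset.mem_Icc]
    refine ⟨Finset.mem_univ _, ?_, ?_, ?_⟩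
    · -- i
      show Nat.log 2 p.2.toNat < I + 1
      rw [Nat.lt_succ_iff, hI]
      apply Nat.le_floor
      have e1 : 2 ^ Nat.log 2 p.2.toNat ≤ p.2.toNat := Nat.pow_log_le_self 2 (by omega)
      have e2 : ((2 : ℝ) ^ Nat.log 2 p.2.toNat) ≤ H := by
        have e3 : ((2 ^ Nat.log 2 p.2.toNat : ℕ) : ℝ) ≤ ((p.2.toNat : ℕ) : ℝ) := by exact_mod_cast e1
        have e4 : ((p.2.toNat : ℕ) : ℝ) = (p.2 : ℝ) := by
          have : ((p.2.toNat : ℕ) : ℤ) = p.2 := Int.toNat_of_nonneg h1.le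
          exact_mod_cast this
        push_cast at e3
        linarith
      have e5 := Real.log_le_log (by positivity) e2
      rw [Real.log_pow] at e5
      have e6 : (0 : ℝ) ≤ (Nat.log 2 p.2.toNat : ℝ) := by positivity
      nlinarith
    · -- lower bound for j
      show -(J : ℤ) ≤ Int.log 2 (δ p)
      have e1 : δ p < (2 : ℝ) ^ (Int.log 2 (δ p) + 1) := by
        exact_mod_cast Int.lt_zpow_succ_log_self (b := 2) (by norm_num) (δ p)
      have e2 : 1 ≤ δ p * (((1 + R) * H) ^ 2 * H) := by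
        have e3 := hlow p hp
        have e4 : ‖(p.1 : ℂ) - ρ (vv p) * p.2‖ = δ p * p.2 := by
          rw [hδ]
          field_simp
        rw [e4] at e3
        refine e3.trans ?_
        calc δ p * p.2 * ((1 + R) * H) ^ 2 ≤ δ p * H * ((1 + R) * H) ^ 2 := by gcongr
          _ = _ := by ring
      have e3 : Real.log 1 ≤ Real.log (δ p * (((1 + R) * H) ^ 2 * H)) := Real.log_le_log (by norm_num) e2
      have hR1 : (0 : ℝ) < 1 + R := by linarith
      rw [Real.log_one, Real.log_mul hδ0.ne' (by positivity), Real.log_mul (by positivity) hH0.ne',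
        Real.log_pow, Real.log_mul hR1.ne' hH0.ne'] at e3
      have e4 := Real.log_lt_log hδ0 e1
      rw [Real.log_zpow] at e4
      push_cast at e3 e4
      have e5 : -(2 * a + 3 * h) < ((Int.log 2 (δ p) : ℝ) + 1) * Real.log 2 := by
        rw [ha, hh]
        linarith
      by_contra hcon
      push Not at hcon
      have e6 : (Int.log 2 (δ p) : ℤ) + 1 ≤ -(J : ℤ) := by omega
      have e7 : ((Int.log 2 (δ p) : ℝ) + 1) ≤ -(J : ℝ) := by exact_mod_cast e6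
      have e8 : 2 * (2 * a + 3 * h) < J := by
        rw [hJ]
        push_cast
        exact Nat.lt_floor_add_one _
      have e9 : 0 ≤ 2 * a + 3 * h := by positivity
      nlinarith
    · -- upper bound for j
      show Int.log 2 (δ p) ≤ (J : ℤ)
      have e1 : (2 : ℝ) ^ (Int.log 2 (δ p)) ≤ δ p := by
        exact_mod_cast Int.zpow_log_le_self (b := 2) (by norm_num) hδ0
      have e2 : δ p ≤ (1 + R) * H := by
        rw [hδ]
        show ‖(p.1 : ℂ) - ρ (vv p) * p.2‖ / p.2 ≤ (1 + R) * H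
        rw [div_le_iff₀ h1']
        refine (hup p hp (vv p)).trans ?_
        exact le_mul_of_one_le_right (by positivity) h1''
      have hR1 : (0 : ℝ) < 1 + R := by linarith
      have e3 := Real.log_le_log (by positivity) (e1.trans e2)
      rw [Real.log_zpow, Real.log_mul hR1.ne' hH0.ne'] at e3
      by_contra hcon
      push Not at hcon
      have e6 : (J : ℤ) + 1 ≤ Int.log 2 (δ p) := by omega
      have e7 : (J : ℝ) + 1 ≤ (Int.log 2 (δ p) : ℝ) := by exact_mod_cast e6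
      have e8 : 2 * (2 * a + 3 * h) < J := by
        rw [hJ]
        push_cast
        exact Nat.lt_floor_add_one _
      nlinarith
  have hclass : ∀ b ∈ 𝒦, (((T.filter (fun p => κ p = b)).card : ℕ) : ℝ) ≤ M := by
    intro b _
    rcases (T.filter (fun p => κ p = b)).eq_empty_or_nonempty with hE | ⟨p0, hp0⟩
    · rw [hE]
      simpa using hM0
    obtain ⟨v, i, j⟩ := b
    have key : ∀ p ∈ T.filter (fun p => κ p = (v, i, j)),
        Fib ρ v ((2 : ℝ) ^ i) ((2 : ℝ) ^ j) p.1 p.2 := by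
      intro p hp
      rw [Finset.mem_filter] at hp
      obtain ⟨hpT, hpb⟩ := hp
      obtain ⟨h1, h2, h3, h4⟩ := hT p hpT
      have h1' : (0 : ℝ) < p.2 := by exact_mod_cast h1
      have hδ0 : 0 < δ p := div_pos (hpos p hpT) h1'
      rw [hκ] at hpb
      simp only [Prod.mk.injEq] at hpb
      obtain ⟨b1, b2, b3⟩ := hpb
      have e4 : ((p.2.toNat : ℕ) : ℝ) = (p.2 : ℝ) := by
        have : ((p.2.toNat : ℕ) : ℤ) = p.2 := Int.toNat_of_nonneg h1.le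
        exact_mod_cast this
      have e1 : (2 : ℝ) ^ j ≤ δ p := by
        rw [← b3]
        exact_mod_cast Int.zpow_log_le_self (b := 2) (by norm_num) hδ0
      have e2 : δ p < (2 : ℝ) ^ (j + 1) := by
        rw [← b3]
        exact_mod_cast Int.lt_zpow_succ_log_self (b := 2) (by norm_num) (δ p)
      have e5 : ‖(p.1 : ℂ) - ρ (vv p) * p.2‖ = δ p * p.2 := by
        rw [hδ]
        field_simp
      refine ⟨?_, ?_, ?_, ?_⟩
      · have : 2 ^ i ≤ p.2.toNat := by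
          rw [← b2]
          exact Nat.pow_log_le_self 2 (by omega)
        rw [← e4]
        exact_mod_cast this
      · have : p.2.toNat < 2 ^ (i + 1) := by
          rw [← b2]
          exact Nat.lt_pow_succ_log_self (by norm_num) _
        have h9 : ((p.2.toNat : ℕ) : ℝ) < ((2 ^ (i + 1) : ℕ) : ℝ) := by exact_mod_cast this
        rw [e4] at h9
        push_cast at h9
        rw [pow_succ] at h9
        linarith
      · intro u
        refine le_trans ?_ (hvv p u)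
        rw [e5]
        gcongr
      · rw [← b1, e5]
        rw [zpow_add₀ (by norm_num), zpow_one] at e2
        nlinarith
    apply hM v ((2 : ℝ) ^ i) ((2 : ℝ) ^ j) (one_le_pow₀ (by norm_num)) (by positivity) _ _
      (Finset.filter_subset _ _) key
    have hk := key p0 hp0
    obtain ⟨k1, k2, k3, k4⟩ := hk
    have hp0T : p0 ∈ T := (Finset.mem_filter.mp hp0).1
    have h10 := hup p0 hp0T v
    have h11 := k3 v
    have h12 : (0 : ℝ) < (2 : ℝ) ^ j := by positivity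
    calc (2 : ℝ) ^ i * (2 : ℝ) ^ j ≤ p0.2 * (2 : ℝ) ^ j := by gcongr
      _ = (2 : ℝ) ^ j * p0.2 := mul_comm _ _
      _ ≤ (1 + R) * H := h11.trans h10
      _ ≤ ((1 + R) + 6 * (8 * a + 17)) * H :=
          mul_le_mul_of_nonneg_right (by linarith) hH0.le
  have hcount : ((𝒦.card : ℕ) : ℝ) ≤ 6 * (8 * a + 17) * (h + 1) ^ 2 := by
    have hc : 𝒦.card = 3 * ((I + 1) * (2 * J + 1)) := by
      rw [h𝒦, Finset.card_product, Finset.card_product, Finset.card_range, Int.card_Icc]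
      simp only [Finset.card_univ, Fintype.card_fin]
      congr 2
      omega
    rw [hc]
    push_cast
    have hI' : (I : ℝ) ≤ 2 * h := Nat.floor_le (by positivity)
    have hJ' : (J : ℝ) ≤ 2 * (2 * a + 3 * h) + 1 := by
      rw [hJ]
      push_cast
      have := Nat.floor_le (by positivity : 0 ≤ 2 * (2 * a + 3 * h))
      linarith
    calc 3 * (((I : ℝ) + 1) * (2 * J + 1)) ≤ 3 * ((2 * h + 1) * (2 * (2 * (2 * a + 3 * h) + 1) + 1)) := by
          gcongr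
      _ ≤ 6 * (8 * a + 17) * (h + 1) ^ 2 := by
          nlinarith [mul_nonneg ha0 hh0, mul_nonneg hh0 hh0, mul_nonneg (mul_nonneg ha0 hh0) hh0]
  rw [Finset.card_eq_sum_card_fiberwise hmap]
  push_cast
  calc ∑ b ∈ 𝒦, (((T.filter (fun p => κ p = b)).card : ℕ) : ℝ) ≤ ∑ b ∈ 𝒦, M := Finset.sum_le_sum hclass
    _ = (𝒦.card : ℝ) * M := by simp
    _ ≤ 6 * (8 * a + 17) * (h + 1) ^ 2 * M := by gcongr
    _ ≤ ((1 + R) + 6 * (8 * a + 17)) * (h + 1) ^ 2 * M := by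
        gcongr
        linarith

/-- `|G(r,s)| ≤ C H³` -/
theorem gf_up (A B : ℤ) : ∃ C : ℝ, 1 ≤ C ∧ ∀ (H : ℝ) (r s : ℤ), |(r : ℝ)| ≤ H → 0 < s → (s : ℝ) ≤ H →
    |((Gf A B r s : ℤ) : ℝ)| ≤ C * H ^ 3 := by
  refine ⟨1 + |(A : ℝ)| + |(B : ℝ)|, by
    have := abs_nonneg (A : ℝ)
    have := abs_nonneg (B : ℝ)
    linarith, ?_⟩
  intro H r s hr hs hsH
  have hs' : (0 : ℝ) < s := by exact_mod_cast hs
  have hH : 0 < H := lt_of_lt_of_le hs' hsH
  have h1 : |(r : ℝ) ^ 3| ≤ H ^ 3 := by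
    rw [abs_pow]
    exact pow_le_pow_left₀ (abs_nonneg _) hr 3
  have h2 : |(A : ℝ) * r * (s : ℝ) ^ 2| ≤ |(A : ℝ)| * H ^ 3 := by
    rw [abs_mul, abs_mul, abs_of_nonneg (by positivity : (0 : ℝ) ≤ (s : ℝ) ^ 2)]
    calc |(A : ℝ)| * |(r : ℝ)| * (s : ℝ) ^ 2 ≤ |(A : ℝ)| * H * H ^ 2 := by gcongr
      _ = |(A : ℝ)| * H ^ 3 := by ring
  have h3 : |(B : ℝ) * (s : ℝ) ^ 3| ≤ |(B : ℝ)| * H ^ 3 := by
    rw [abs_mul, abs_of_nonneg (by positivity : (0 : ℝ) ≤ (s : ℝ) ^ 3)]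
    gcongr
  have h4 : ((Gf A B r s : ℤ) : ℝ) = (r : ℝ) ^ 3 + A * r * (s : ℝ) ^ 2 + B * (s : ℝ) ^ 3 := by
    unfold Gf
    push_cast
    ring
  rw [h4]
  calc |(r : ℝ) ^ 3 + A * r * (s : ℝ) ^ 2 + B * (s : ℝ) ^ 3|
      ≤ |(r : ℝ) ^ 3| + |(A : ℝ) * r * (s : ℝ) ^ 2| + |(B : ℝ) * (s : ℝ) ^ 3| := abs_add_three _ _ _
    _ ≤ H ^ 3 + |(A : ℝ)| * H ^ 3 + |(B : ℝ)| * H ^ 3 := by linarith
    _ = (1 + |(A : ℝ)| + |(B : ℝ)|) * H ^ 3 := by ring

/-- powers absorb logarithms -/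
theorem log_pow_le (k : ℕ) (ε : ℝ) (hε : 0 < ε) : ∃ C : ℝ, 0 < C ∧ ∀ x : ℝ, 1 ≤ x →
    (Real.log x + 1) ^ k ≤ C * x ^ ε := by
  have hη : 0 < ε / (k + 1) := by positivity
  set η : ℝ := ε / (k + 1) with hηdef
  refine ⟨(1 / η + 1) ^ k, by positivity, ?_⟩
  intro x hx
  have hx0 : 0 < x := by linarith
  have h1 : Real.log x ≤ x ^ η / η := Real.log_le_rpow_div hx0.le hη
  have h2 : 1 ≤ x ^ η := Real.one_le_rpow hx hη.le
  have h3 : Real.log x + 1 ≤ (1 / η + 1) * x ^ η := by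
    have : (1 / η + 1) * x ^ η = x ^ η / η + x ^ η := by ring
    rw [this]
    linarith
  have h0 : 0 ≤ Real.log x + 1 := by
    have := Real.log_nonneg hx
    linarith
  calc (Real.log x + 1) ^ k ≤ ((1 / η + 1) * x ^ η) ^ k := pow_le_pow_left₀ h0 h3 k
    _ = (1 / η + 1) ^ k * (x ^ η) ^ k := mul_pow _ _ _
    _ ≤ (1 / η + 1) ^ k * x ^ ε := by
        gcongr
        rw [← Real.rpow_natCast, ← Real.rpow_mul hx0.le]
        apply Real.rpow_le_rpow_of_exponent_le hx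
        rw [hηdef, div_mul_eq_mul_div, div_le_iff₀ (by positivity)]
        nlinarith

end Pool.Agent.H12.EH
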