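import Pool.Agent.H12.EH.Basic

/-!
[H12 EH RHO]  The complex roots of the cubic, in a convenient order.

`exists_roots_of`: `e` an integral root: `x³ + A x + B = (x - e)(x² + e x + e² + A)`, discriminant of the quadratic factor
`Δ = e² - 4 (e² + A)` (real).  `Δ ≥ 0`: `ρ₁, ρ₂ = (- e ± √Δ) / 2` real; `Δ < 0`: `ρ₁ = (- e + i √(-Δ)) / 2`, `ρ₂ = conj ρ₁`.
Distinctness: `4 A³ + 27 B² ≠ 0` (a double root `ρ` of `f` satisfies `f = f' = 0` at `ρ` and
`4 A³ + 27 B² = (- 18 A t + 27 B) f(t) + (6 A t² - 9 B t + 4 A²) f'(t)`).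
`exists_roots`: the same with a real root `e : ℝ` instead of the integral one (intermediate value theorem,
`x³ + A x + B → ± ∞`); prove the lemma first for a real root `e`.
`exists_roots_int`: if the cubic has three different rational roots these are integers (monic: rational root theorem,
e.g. `num_dvd_of_is_root` / `isInteger_of_is_root_of_monic`, or directly: `x = a / b` in lowest terms, `b ∣ a³`).
-/

set_option autoImplicit false

open scoped ComplexConjugate

namespace Pool.Agent.H12.EH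

theorem rat_root_int (A B : ℤ) (x : ℚ) (hx : x ^ 3 + A * x + B = 0) : ∃ e : ℤ, x = e := by
  have h : IsIntegral ℤ x := by
    refine ⟨Polynomial.X ^ 3 + Polynomial.C A * Polynomial.X + Polynomial.C B, ?_, ?_⟩
    · monicity!
    · simp only [Polynomial.eval₂_add, Polynomial.eval₂_mul, Polynomial.eval₂_pow, Polynomial.eval₂_X,
        Polynomial.eval₂_C]
      simpa using hx
  obtain ⟨e, he⟩ := IsIntegrallyClosed.isIntegral_iff.1 h
  exact ⟨e, by simpa using he.symm⟩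

theorem rho_ne (ρ : Fin 3 → ℂ) (h : (ρ 0 - ρ 1) * (ρ 0 - ρ 2) * (ρ 1 - ρ 2) ≠ 0) :
    ∀ u v, u ≠ v → ρ u ≠ ρ v := by
  have h01 : ρ 0 ≠ ρ 1 := fun h' => h (by rw [h']; ring)
  have h02 : ρ 0 ≠ ρ 2 := fun h' => h (by rw [h']; ring)
  have h12 : ρ 1 ≠ ρ 2 := fun h' => h (by rw [h']; ring)
  intro u v huv
  fin_cases u <;> fin_cases v
  · exact absurd rfl huv
  · exact h01
  · exact h02
  · exact h01.symm
  · exact absurd rfl huv
  · exact h12
  · exact h02.symm
  · exact h12.symm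
  · exact absurd rfl huv

theorem exists_roots_real (A B : ℤ) (hD : 4 * A ^ 3 + 27 * B ^ 2 ≠ 0) (e : ℝ) (he : e ^ 3 + A * e + B = 0) :
    ∃ ρ : Fin 3 → ℂ, Roots A B ρ ∧ ρ 0 = e := by
  obtain ⟨σ, hσ, hσ2⟩ : ∃ σ : ℂ, σ ^ 2 = -3 * (e : ℂ) ^ 2 - 4 * A ∧ (σ.im = 0 ∨ σ.re = 0) := by
    rcases le_total 0 (-3 * e ^ 2 - 4 * A) with h | h
    · refine ⟨(Real.sqrt (-3 * e ^ 2 - 4 * A) : ℂ), ?_, Or.inl (Complex.ofReal_im _)⟩
      have h1 := Real.sq_sqrt h
      have h2 : ((Real.sqrt (-3 * e ^ 2 - 4 * A) ^ 2 : ℝ) : ℂ) = ((-3 * e ^ 2 - 4 * A : ℝ) : ℂ) := by rw [h1]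
      push_cast at h2
      exact h2
    · refine ⟨(Real.sqrt (-(-3 * e ^ 2 - 4 * A)) : ℂ) * Complex.I, ?_, Or.inr ?_⟩
      · have h1 := Real.sq_sqrt (neg_nonneg.2 h)
        have h2 : ((Real.sqrt (-(-3 * e ^ 2 - 4 * A)) ^ 2 : ℝ) : ℂ) = ((-(-3 * e ^ 2 - 4 * A) : ℝ) : ℂ) := by rw [h1]
        push_cast at h2
        rw [mul_pow, Complex.I_sq, h2]
        ring
      · simp
  have heC : (e : ℂ) ^ 3 + A * e + B = 0 := by exact_mod_cast congrArg (fun t : ℝ => (t : ℂ)) he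
  refine ⟨![(e : ℂ), (-e + σ) / 2, (-e - σ) / 2], ⟨?_, ?_, ?_⟩, rfl⟩
  · intro x
    show x ^ 3 + A * x + B = (x - (e : ℂ)) * (x - (-e + σ) / 2) * (x - (-e - σ) / 2)
    linear_combination (-(x - (e : ℂ)) / 4 * -1) * hσ + heC
  · apply rho_ne
    show ((e : ℂ) - (-e + σ) / 2) * ((e : ℂ) - (-e - σ) / 2) * ((-e + σ) / 2 - (-e - σ) / 2) ≠ 0
    intro h
    apply hD
    have h1 : (((4 * A ^ 3 + 27 * B ^ 2 : ℤ)) : ℂ) = 0 := by
      push_cast
      have h3 : ((e : ℂ) - (-e + σ) / 2) * ((e : ℂ) - (-e - σ) / 2) * ((-e + σ) / 2 - (-e - σ) / 2)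
          = (3 * (e : ℂ) ^ 2 + A) * σ := by
        linear_combination (-σ / 4) * hσ
      rw [h3] at h
      have h4 : ((3 * (e : ℂ) ^ 2 + A) * σ) ^ 2 = 0 := by rw [h]; ring
      have hB : (B : ℂ) = -(e : ℂ) ^ 3 - A * e := by linear_combination heC
      rw [mul_pow, hσ] at h4
      rw [hB]
      linear_combination -h4
    exact_mod_cast h1
  · rcases hσ2 with h | h
    · left
      intro v
      fin_cases v
      · exact Complex.ofReal_im e
      · show ((-(e : ℂ) + σ) / 2).im = 0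
        rw [show (2 : ℂ) = ((2 : ℝ) : ℂ) by norm_num, Complex.div_ofReal_im]
        simp [h]
      · show ((-(e : ℂ) - σ) / 2).im = 0
        rw [show (2 : ℂ) = ((2 : ℝ) : ℂ) by norm_num, Complex.div_ofReal_im]
        simp [h]
    · right
      refine ⟨Complex.ofReal_im e, ?_⟩
      show (-(e : ℂ) - σ) / 2 = conj ((-(e : ℂ) + σ) / 2)
      have hc : conj σ = -σ := by
        apply Complex.ext
        · simp [h]
        · simp
      have h2 : conj (2 : ℂ) = 2 := Complex.conj_ofNat 2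
      rw [map_div₀, map_add, map_neg, Complex.conj_ofReal, hc, h2]
      ring

theorem exists_roots_of (A B : ℤ) (hD : 4 * A ^ 3 + 27 * B ^ 2 ≠ 0) (e : ℤ) (he : e ^ 3 + A * e + B = 0) :
    ∃ ρ : Fin 3 → ℂ, Roots A B ρ ∧ ρ 0 = e := by
  obtain ⟨ρ, h1, h2⟩ := exists_roots_real A B hD (e : ℝ) (by exact_mod_cast he)
  exact ⟨ρ, h1, by rw [h2]; simp⟩

theorem exists_roots (A B : ℤ) (hD : 4 * A ^ 3 + 27 * B ^ 2 ≠ 0) : ∃ ρ : Fin 3 → ℂ, Roots A B ρ := by
  obtain ⟨e, he⟩ : ∃ e : ℝ, e ^ 3 + A * e + B = 0 := by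
    have hcont : Continuous (fun x : ℝ => x ^ 3 + A * x + B) := by fun_prop
    set M : ℝ := 1 + |(A : ℝ)| + |(B : ℝ)| with hM
    have hA0 := abs_nonneg (A : ℝ)
    have hB0 := abs_nonneg (B : ℝ)
    have hA1 := le_abs_self (A : ℝ)
    have hA2 := neg_abs_le (A : ℝ)
    have hB1 := le_abs_self (B : ℝ)
    have hB2 := neg_abs_le (B : ℝ)
    have hM1 : 1 ≤ M := by linarith
    have hM2 : M ≤ M ^ 2 := by nlinarith
    have hAM : -(|(A : ℝ)| * M) ≤ A * M := by nlinarith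
    have h3 : |(B : ℝ)| ≤ M ^ 3 - |(A : ℝ)| * M := by
      have h4 : 1 + |(B : ℝ)| ≤ M ^ 2 - |(A : ℝ)| := by linarith
      have h5 : (1 + |(B : ℝ)|) * 1 ≤ (M ^ 2 - |(A : ℝ)|) * M := by
        apply mul_le_mul h4 hM1 (by norm_num) (by linarith)
      nlinarith
    have hpos : 0 ≤ M ^ 3 + A * M + B := by linarith
    have hneg : (-M) ^ 3 + A * (-M) + B ≤ 0 := by
      have h6 : (-M) ^ 3 + A * (-M) + B = -(M ^ 3 + A * M - B) := by ring
      rw [h6]
      linarith
    have h7 := intermediate_value_Icc (show -M ≤ M by linarith) hcont.continuousOn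
    obtain ⟨e, -, he⟩ := h7 ⟨hneg, hpos⟩
    exact ⟨e, he⟩
  obtain ⟨ρ, h1, -⟩ := exists_roots_real A B hD e he
  exact ⟨ρ, h1⟩

/-- three different rational roots -/
theorem exists_roots_int (A B : ℤ) (x : Fin 3 → ℚ) (hx : ∀ i, x i ^ 3 + A * x i + B = 0)
    (hne : ∀ i j, i ≠ j → x i ≠ x j) :
    ∃ e : Fin 3 → ℤ, (∀ i, x i = e i) ∧ Roots A B (fun v => (e v : ℂ)) := by
  choose e he using fun i => rat_root_int A B (x i) (hx i)
  have h0 := hx 0
  have h1 := hx 1
  have h2 := hx 2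
  rw [he 0] at h0
  rw [he 1] at h1
  rw [he 2] at h2
  have hn : ∀ i j, i ≠ j → e i ≠ e j := by
    intro i j hij h
    apply hne i j hij
    rw [he i, he j, h]
  have h0' : e 0 ^ 3 + A * e 0 + B = 0 := by exact_mod_cast h0
  have h1' : e 1 ^ 3 + A * e 1 + B = 0 := by exact_mod_cast h1
  have h2' : e 2 ^ 3 + A * e 2 + B = 0 := by exact_mod_cast h2
  have k01 : e 0 - e 1 ≠ 0 := sub_ne_zero.2 (hn 0 1 (by decide))
  have k02 : e 0 - e 2 ≠ 0 := sub_ne_zero.2 (hn 0 2 (by decide))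
  have k12 : e 1 - e 2 ≠ 0 := sub_ne_zero.2 (hn 1 2 (by decide))
  have q1 : e 0 ^ 2 + e 0 * e 1 + e 1 ^ 2 + A = 0 := by
    apply mul_left_cancel₀ k01
    linear_combination h0' - h1'
  have q2 : e 0 ^ 2 + e 0 * e 2 + e 2 ^ 2 + A = 0 := by
    apply mul_left_cancel₀ k02
    linear_combination h0' - h2'
  have q3 : e 0 + e 1 + e 2 = 0 := by
    apply mul_left_cancel₀ k12
    linear_combination q1 - q2
  refine ⟨e, he, ⟨?_, ?_, ?_⟩⟩
  · intro y
    show y ^ 3 + A * y + B = (y - (e 0 : ℂ)) * (y - (e 1 : ℂ)) * (y - (e 2 : ℂ))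
    have q1c : (e 0 : ℂ) ^ 2 + e 0 * e 1 + e 1 ^ 2 + A = 0 := by exact_mod_cast q1
    have q3c : (e 0 : ℂ) + e 1 + e 2 = 0 := by exact_mod_cast q3
    have h0c : (e 0 : ℂ) ^ 3 + A * e 0 + B = 0 := by exact_mod_cast h0'
    have e2c : (e 2 : ℂ) = -(e 0 : ℂ) - e 1 := by linear_combination q3c
    have hA : (A : ℂ) = -((e 0 : ℂ) ^ 2 + e 0 * e 1 + e 1 ^ 2) := by linear_combination q1c
    have hB : (B : ℂ) = -(e 0 : ℂ) ^ 3 - A * e 0 := by linear_combination h0c
    rw [hB, hA, e2c]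
    ring
  · intro u v huv h
    apply hn u v huv
    have h' : ((e u : ℤ) : ℂ) = ((e v : ℤ) : ℂ) := h
    exact_mod_cast h'
  · left
    intro v
    exact Complex.intCast_im _

/-- the number of rational roots is 0, 1 or 3 -/
theorem nroots_cases (A B : ℤ) (hD : 4 * A ^ 3 + 27 * B ^ 2 ≠ 0) :
    (nroots A B = 0 ∧ ∀ x : ℚ, x ^ 3 + A * x + B ≠ 0) ∨
    (nroots A B = 1 ∧ ∃ e : ℤ, e ^ 3 + A * e + B = 0 ∧ ∀ x : ℚ, x ^ 2 + e * x + (e ^ 2 + A) ≠ 0) ∨
    (nroots A B = 3 ∧ ∃ e : Fin 3 → ℤ, (∀ i j, i ≠ j → e i ≠ e j) ∧ Roots A B (fun v => (e v : ℂ))) := by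
  by_cases hS : ∃ x : ℚ, x ^ 3 + A * x + B = 0
  · obtain ⟨x0, hx0⟩ := hS
    obtain ⟨e, he⟩ := rat_root_int A B x0 hx0
    subst he
    have he : e ^ 3 + A * e + B = 0 := by exact_mod_cast hx0
    have hB : (B : ℚ) = -(e : ℚ) ^ 3 - A * e := by linear_combination hx0
    have hDQ : 4 * (A : ℚ) ^ 3 + 27 * (B : ℚ) ^ 2 ≠ 0 := by exact_mod_cast hD
    have hd : 4 * (A : ℚ) ^ 3 + 27 * (B : ℚ) ^ 2 = (3 * (e : ℚ) ^ 2 + A) ^ 2 * (3 * (e : ℚ) ^ 2 + 4 * A) := by
      rw [hB]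
      ring
    by_cases hq : ∃ x : ℚ, x ^ 2 + e * x + (e ^ 2 + A) = 0
    · right
      right
      obtain ⟨x1, hx1⟩ := hq
      have n1 : (e : ℚ) ≠ x1 := by
        intro h
        apply hDQ
        rw [hd]
        have : 3 * (e : ℚ) ^ 2 + A = 0 := by
          rw [← h] at hx1
          linear_combination hx1
        rw [this]
        ring
      have n2 : (e : ℚ) ≠ -e - x1 := by
        intro h
        apply hDQ
        rw [hd]
        have h' : x1 = -2 * (e : ℚ) := by linear_combination h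
        have : 3 * (e : ℚ) ^ 2 + A = 0 := by
          rw [h'] at hx1
          linear_combination hx1
        rw [this]
        ring
      have n3 : x1 ≠ -e - x1 := by
        intro h
        apply hDQ
        rw [hd]
        have h' : x1 = -(e : ℚ) / 2 := by linear_combination h / 2
        have : 3 * (e : ℚ) ^ 2 + 4 * A = 0 := by
          rw [h'] at hx1
          linear_combination 4 * hx1
        rw [this]
        ring
      have hfac : ∀ x : ℚ, x ^ 3 + A * x + B = (x - e) * (x - x1) * (x - (-e - x1)) := by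
        intro x
        rw [hB]
        linear_combination (x - (e : ℚ)) * hx1
      have hset : {x : ℚ | x ^ 3 + A * x + B = 0} = {(e : ℚ), x1, -(e : ℚ) - x1} := by
        ext x
        rw [Set.mem_setOf_eq, hfac x, mul_eq_zero, mul_eq_zero, sub_eq_zero, sub_eq_zero, sub_eq_zero]
        simp only [Set.mem_insert_iff, Set.mem_singleton_iff]
        tauto
      refine ⟨?_, ?_⟩
      · unfold nroots
        exact Set.ncard_eq_three.2 ⟨_, _, _, n1, n2, n3, hset⟩
      · have hroot : ∀ i, (![(e : ℚ), x1, -(e : ℚ) - x1] : Fin 3 → ℚ) i ^ 3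
            + A * (![(e : ℚ), x1, -(e : ℚ) - x1] : Fin 3 → ℚ) i + B = 0 := by
          intro i
          rw [hfac]
          fin_cases i <;> simp
        have hdist : ∀ i j, i ≠ j → (![(e : ℚ), x1, -(e : ℚ) - x1] : Fin 3 → ℚ) i
            ≠ (![(e : ℚ), x1, -(e : ℚ) - x1] : Fin 3 → ℚ) j := by
          intro i j hij
          fin_cases i <;> fin_cases j
          · exact absurd rfl hij
          · exact n1
          · exact n2
          · exact n1.symm
          · exact absurd rfl hij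
          · exact n3
          · exact n2.symm
          · exact n3.symm
          · exact absurd rfl hij
        obtain ⟨f, hf, hR⟩ := exists_roots_int A B _ hroot hdist
        refine ⟨f, ?_, hR⟩
        intro i j hij h
        apply hdist i j hij
        rw [hf i, hf j, h]
    · right
      left
      have hq' : ∀ x : ℚ, x ^ 2 + e * x + (e ^ 2 + A) ≠ 0 := fun x hx => hq ⟨x, hx⟩
      refine ⟨?_, e, he, hq'⟩
      unfold nroots
      rw [Set.ncard_eq_one]
      refine ⟨(e : ℚ), ?_⟩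
      ext x
      rw [Set.mem_setOf_eq, Set.mem_singleton_iff]
      have hfac : x ^ 3 + A * x + B = (x - e) * (x ^ 2 + e * x + (e ^ 2 + A)) := by
        rw [hB]
        ring
      rw [hfac, mul_eq_zero, sub_eq_zero]
      constructor
      · rintro (h | h)
        · exact h
        · exact absurd h (hq' x)
      · intro h
        exact Or.inl h
  · left
    have hS' : ∀ x : ℚ, x ^ 3 + A * x + B ≠ 0 := fun x hx => hS ⟨x, hx⟩
    refine ⟨?_, hS'⟩
    unfold nroots
    rw [Set.ncard_eq_zero (by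
      rw [show {x : ℚ | x ^ 3 + A * x + B = 0} = ∅ from Set.eq_empty_of_forall_notMem fun x hx => hS' x hx]
      exact Set.finite_empty)]
    exact Set.eq_empty_of_forall_notMem fun x hx => hS' x hx

end Pool.Agent.H12.EH
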