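import Pool.Agent.H12.EH.Acnt0
import Pool.Agent.H12.EH.Acnt1
import Pool.Agent.H12.EH.Acnt3
import Pool.Agent.H12.EH.Rho
import Pool.Agent.H12.EH.Dya

/-!
[H12 EH ACNT]  The first bound in a fiber, for all curves.

Cases of `nroots_cases`.
No rational root: `exists_roots` and `acnt0`.
One rational root `e`: `exists_roots_of`; `r - e s = a₁ y₁²`, `Qf = a₂ y₂²` (`sqf_dec`; both are not zero because
`Gf = (r - e s) Qf = g z² ≠ 0`, `gf_qf`), `|a₁ a₂| ≤ K g ≤ 2 K G` (`fac1`), `dya2` for the function `|a₁ a₂|` (choose `a₁, a₂`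
for each `p ∈ T`) with `N = ⌊2 K G⌋`, and `acnt1` with `μ = ![1, e]`, `L = 2^k ≤ 2 K G`, exponent `ε / 2`; the number of classes
is at most `log₂ N + 1 ≤ C G^(ε/2)` (`log_pow_le`).
Three rational roots: the same with `acnt3`, `o = 0`, `a_i` the squarefree parts of `frm e (0.succAbove i)`, `fac3`.
-/

set_option autoImplicit false

namespace Pool.Agent.H12.EH

/-- the dyadic decomposition of the function `g` and the bounds for the classes -/
private theorem acnt_dya (C₁ K ε : ℝ) (hC₁ : 0 < C₁) (hK : 1 ≤ K) (hε : 0 < ε) :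
    ∃ C : ℝ, 0 < C ∧ ∀ (S lam G : ℝ), 0 < S → 0 < lam → 1 ≤ G → ∀ (T : Finset (ℤ × ℤ)) (g : ℤ × ℤ → ℕ),
      (∀ i ∈ T, 1 ≤ g i ∧ (g i : ℝ) ≤ K * G) →
      (∀ L : ℝ, 1 ≤ L → ∀ T' ⊆ T, (∀ i ∈ T', L ≤ (g i : ℝ) ∧ (g i : ℝ) ≤ 2 * L) →
        (T'.card : ℝ) ≤ C₁ * L ^ (ε / 2) * (L + √(S * lam * L))) →
      (T.card : ℝ) ≤ C * G ^ ε * (G + √(S * lam * G)) := by
  obtain ⟨C₂, hC₂, hlog⟩ := log_pow_le 1 (ε / 2) (by positivity)
  refine ⟨2 * C₂ * C₁ * K * K ^ ε, by positivity, ?_⟩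
  intro S lam G hS hlam hG T g hg hT
  have hKG : 1 ≤ K * G := by nlinarith
  have hKG0 : 0 < K * G := by linarith
  have hG0 : 0 < G := by linarith
  have hK0 : 0 < K := by linarith
  set Y : ℝ := K * G with hY
  set N : ℕ := ⌊Y⌋₊ with hN
  have hNY : (N : ℝ) ≤ Y := Nat.floor_le hKG0.le
  have hN1 : 1 ≤ N := Nat.le_floor (by simpa using hKG)
  set M : ℝ := C₁ * Y ^ (ε / 2) * (Y + √(S * lam * Y)) with hM
  have hM0 : 0 ≤ M := by positivity
  have h1 : (T.card : ℝ) ≤ (Nat.log 2 N + 1) * M := by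
    refine dya2 T g N M hM0 ?_ ?_
    · intro i hi
      refine ⟨(hg i hi).1, Nat.le_floor (hg i hi).2⟩
    · intro k hk T' hT' hc
      have hL : (1 : ℝ) ≤ (2 : ℝ) ^ k := one_le_pow₀ (by norm_num)
      have hLY : (2 : ℝ) ^ k ≤ Y := by
        have : ((2 ^ k : ℕ) : ℝ) ≤ N := by exact_mod_cast hk
        push_cast at this
        linarith
      have h2 := hT ((2 : ℝ) ^ k) hL T' hT' (by
        intro i hi
        obtain ⟨h3, h4⟩ := hc i hi
        constructor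
        · exact_mod_cast h3
        · exact_mod_cast h4)
      refine h2.trans ?_
      have h5 : ((2 : ℝ) ^ k) ^ (ε / 2) ≤ Y ^ (ε / 2) :=
        Real.rpow_le_rpow (by positivity) hLY (by positivity)
      have h6 : √(S * lam * (2 : ℝ) ^ k) ≤ √(S * lam * Y) := by
        apply Real.sqrt_le_sqrt
        exact mul_le_mul_of_nonneg_left hLY (by positivity)
      rw [hM]
      gcongr
  have h2 : (Nat.log 2 N + 1 : ℝ) ≤ 2 * C₂ * Y ^ (ε / 2) := by
    have h3 := hlog Y hKG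
    rw [pow_one] at h3
    have h4 : (Nat.log 2 N : ℝ) ≤ Real.log Y / Real.log 2 := by
      rw [le_div_iff₀ (Real.log_pos (by norm_num))]
      have h5 : ((2 ^ Nat.log 2 N : ℕ) : ℝ) ≤ N := by
        exact_mod_cast Nat.pow_log_le_self 2 (by omega)
      have h6 : (2 : ℝ) ^ Nat.log 2 N ≤ Y := by
        push_cast at h5
        linarith
      have h7 := Real.log_le_log (by positivity) h6
      rw [Real.log_pow] at h7
      exact h7
    have h5 : Real.log Y / Real.log 2 ≤ 2 * Real.log Y := by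
      rw [div_le_iff₀ (Real.log_pos (by norm_num))]
      have h8 : (0.5 : ℝ) ≤ Real.log 2 := by
        have := Real.log_two_gt_d9
        linarith
      have h9 : 0 ≤ Real.log Y := Real.log_nonneg hKG
      nlinarith
    nlinarith
  have h3 : (T.card : ℝ) ≤ 2 * C₂ * Y ^ (ε / 2) * M := by
    refine h1.trans ?_
    exact mul_le_mul_of_nonneg_right h2 hM0
  refine h3.trans ?_
  have h4 : Y ^ (ε / 2) * Y ^ (ε / 2) = K ^ ε * G ^ ε := by
    rw [← Real.rpow_add hKG0, hY, Real.mul_rpow hK0.le hG0.le]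
    ring_nf
  have h5 : √(S * lam * Y) ≤ K * √(S * lam * G) := by
    have h6 : S * lam * Y = K * (S * lam * G) := by rw [hY]; ring
    rw [h6, Real.sqrt_mul hK0.le]
    apply mul_le_mul_of_nonneg_right _ (Real.sqrt_nonneg _)
    rw [Real.sqrt_le_left hK0.le]
    nlinarith
  calc 2 * C₂ * Y ^ (ε / 2) * M = 2 * C₂ * C₁ * (Y ^ (ε / 2) * Y ^ (ε / 2)) * (Y + √(S * lam * Y)) := by
        rw [hM]; ring
    _ = 2 * C₂ * C₁ * (K ^ ε * G ^ ε) * (Y + √(S * lam * Y)) := by rw [h4]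
    _ ≤ 2 * C₂ * C₁ * (K ^ ε * G ^ ε) * (K * G + K * √(S * lam * G)) := by gcongr
    _ = 2 * C₂ * C₁ * K * K ^ ε * G ^ ε * (G + √(S * lam * G)) := by ring

theorem acnt (A B : ℤ) (hD : 4 * A ^ 3 + 27 * B ^ 2 ≠ 0) : ∃ ρ : Fin 3 → ℂ, Roots A B ρ ∧
    ∀ ε : ℝ, 0 < ε → ∃ C : ℝ, 0 < C ∧ ∀ (v : Fin 3) (S lam G : ℝ), 0 < S → 0 < lam → 1 ≤ G →
    ∀ T : Finset (ℤ × ℤ), (∀ p ∈ T, IsCoprime p.1 p.2 ∧ 0 < p.2 ∧ Fib ρ v S lam p.1 p.2 ∧
      ∃ g z : ℕ, Squarefree g ∧ 0 < z ∧ G ≤ g ∧ g ≤ 2 * G ∧ Gf A B p.1 p.2 = g * z ^ 2) →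
    (T.card : ℝ) ≤ C * G ^ ε * (G + √(S * lam * G)) := by
  classical
  rcases nroots_cases A B hD with ⟨-, hirr⟩ | ⟨-, e, he, hirr⟩ | ⟨-, e, -, hρ⟩
  · obtain ⟨ρ, hρ⟩ := exists_roots A B hD
    exact ⟨ρ, hρ, fun ε hε => acnt0 hρ hirr ε hε⟩
  · obtain ⟨ρ, hρ, hρ0⟩ := exists_roots_of A B hD e he
    refine ⟨ρ, hρ, fun ε hε => ?_⟩
    obtain ⟨C₁, hC₁, h1⟩ := acnt1 hD hρ hρ0 hirr (ε / 2) (by positivity)
    obtain ⟨K, hK, -, hfac⟩ := fac1 hD he
    obtain ⟨C, hC, h2⟩ := acnt_dya C₁ (max (2 * K) 1) ε hC₁ (le_max_right _ _) hε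
    refine ⟨C, hC, ?_⟩
    intro v S lam G hS hlam hG T hT
    have hex : ∀ p : ℤ × ℤ, ∃ q : ℤ × ℤ × ℤ × ℤ, p ∈ T →
        (Squarefree q.1 ∧ Squarefree q.2.1 ∧ 0 < q.2.2.1 ∧ 0 < q.2.2.2 ∧ p.1 - e * p.2 = q.1 * q.2.2.1 ^ 2 ∧
          Qf A e p.1 p.2 = q.2.1 * q.2.2.2 ^ 2 ∧ 1 ≤ (q.1 * q.2.1).natAbs ∧
          (((q.1 * q.2.1).natAbs : ℕ) : ℝ) ≤ max (2 * K) 1 * G) := by
      intro p
      by_cases hp : p ∈ T
      · obtain ⟨hc, hs, hF, g, z, hg, hz, hGg, hgG, hGf⟩ := hT p hp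
        have hg0 : (g : ℤ) ≠ 0 := by
          have := hg.ne_zero
          exact_mod_cast this
        have hGf0 : Gf A B p.1 p.2 ≠ 0 := by
          rw [hGf]
          positivity
        have hq := gf_qf he p.1 p.2
        rw [hq] at hGf0
        obtain ⟨a₁, y₁, ha₁, hy₁, h3⟩ := sqf_dec (p.1 - e * p.2) (left_ne_zero_of_mul hGf0)
        obtain ⟨a₂, y₂, ha₂, hy₂, h4⟩ := sqf_dec (Qf A e p.1 p.2) (right_ne_zero_of_mul hGf0)
        have h5 := hfac p.1 p.2 a₁ a₂ y₁ y₂ g z hc ha₁ ha₂ hy₁.ne' hy₂.ne' h3 h4 hg hz hGf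
        refine ⟨(a₁, a₂, y₁, y₂), fun _ => ⟨ha₁, ha₂, hy₁, hy₂, h3, h4, ?_, ?_⟩⟩
        · have : a₁ * a₂ ≠ 0 := mul_ne_zero ha₁.ne_zero ha₂.ne_zero
          have := Int.natAbs_pos.mpr this
          exact this
        · show (((a₁ * a₂).natAbs : ℕ) : ℝ) ≤ max (2 * K) 1 * G
          rw [Nat.cast_natAbs, Int.cast_abs]
          refine h5.trans ?_
          have h6 : K * g ≤ 2 * K * G := by nlinarith
          exact h6.trans (mul_le_mul_of_nonneg_right (le_max_left _ _) (by linarith))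
      · exact ⟨0, fun h => absurd h hp⟩
    choose q hq using hex
    refine h2 S lam G hS hlam hG T (fun p => ((q p).1 * (q p).2.1).natAbs) ?_ ?_
    · intro p hp
      exact ⟨(hq p hp).2.2.2.2.2.2.1, (hq p hp).2.2.2.2.2.2.2⟩
    · intro L hL T' hT' hc
      refine h1 ![1, e] (Or.inl rfl) v S lam L hS hlam hL T' ?_
      intro p hp
      obtain ⟨h3, h4, h5, h6, h7, h8, -, -⟩ := hq p (hT' hp)
      obtain ⟨h9, h10⟩ := hc p hp
      refine ⟨(hT p (hT' hp)).1, (hT p (hT' hp)).2.1, (hT p (hT' hp)).2.2.1, (q p).1, (q p).2.1, (q p).2.2.1,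
        (q p).2.2.2, h3, h4, h5, h6, ?_, h8, ?_, ?_⟩
      · simpa using h7
      · rw [Nat.cast_natAbs, Int.cast_abs] at h9
        exact h9
      · rw [Nat.cast_natAbs, Int.cast_abs] at h10
        exact h10
  · refine ⟨fun v => (e v : ℂ), hρ, fun ε hε => ?_⟩
    obtain ⟨C₁, hC₁, h1⟩ := acnt3 hρ (ε / 2) (by positivity)
    obtain ⟨K, hK, -, hfac⟩ := fac3 hρ
    obtain ⟨C, hC, h2⟩ := acnt_dya C₁ (max (2 * K) 1) ε hC₁ (le_max_right _ _) hε
    refine ⟨C, hC, ?_⟩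
    intro v S lam G hS hlam hG T hT
    have hex : ∀ p : ℤ × ℤ, ∃ q : (Fin 4 → ℤ) × (Fin 4 → ℤ), p ∈ T →
        ((∀ i, Squarefree (q.1 i)) ∧ (∀ i, 0 < q.2 i) ∧ (∀ i, frm e i p.1 p.2 = q.1 i * q.2 i ^ 2) ∧
          1 ≤ (q.1 1 * q.1 2 * q.1 3).natAbs ∧
          (((q.1 1 * q.1 2 * q.1 3).natAbs : ℕ) : ℝ) ≤ max (2 * K) 1 * G) := by
      intro p
      by_cases hp : p ∈ T
      · obtain ⟨hc, hs, hF, g, z, hg, hz, hGg, hgG, hGf⟩ := hT p hp
        have hg0 : (g : ℤ) ≠ 0 := by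
          have := hg.ne_zero
          exact_mod_cast this
        have hGf0 : Gf A B p.1 p.2 ≠ 0 := by
          rw [hGf]
          positivity
        have hprod : Gf A B p.1 p.2 = (p.1 - e 0 * p.2) * (p.1 - e 1 * p.2) * (p.1 - e 2 * p.2) := by
          have := Gf_prod hρ p.1 p.2
          exact_mod_cast this
        rw [hprod] at hGf0
        have hfr : ∀ i, frm e i p.1 p.2 ≠ 0 := by
          intro i
          fin_cases i
          · exact hs.ne'
          · exact left_ne_zero_of_mul (left_ne_zero_of_mul hGf0)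
          · exact right_ne_zero_of_mul (left_ne_zero_of_mul hGf0)
          · exact right_ne_zero_of_mul hGf0
        choose a y ha hy h3 using fun i => sqf_dec (frm e i p.1 p.2) (hfr i)
        have h5 := hfac p.1 p.2 a y g z hc ha (fun i => (hy i).ne') h3 hg hz hGf
        refine ⟨(a, y), fun _ => ⟨ha, hy, h3, ?_, ?_⟩⟩
        · have : a 1 * a 2 * a 3 ≠ 0 := mul_ne_zero (mul_ne_zero (ha 1).ne_zero (ha 2).ne_zero) (ha 3).ne_zero
          have := Int.natAbs_pos.mpr this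
          exact this
        · show (((a 1 * a 2 * a 3).natAbs : ℕ) : ℝ) ≤ max (2 * K) 1 * G
          rw [Nat.cast_natAbs, Int.cast_abs]
          refine h5.trans ?_
          have h6 : K * g ≤ 2 * K * G := by nlinarith
          exact h6.trans (mul_le_mul_of_nonneg_right (le_max_left _ _) (by linarith))
      · exact ⟨0, fun h => absurd h hp⟩
    choose q hq using hex
    refine h2 S lam G hS hlam hG T (fun p => ((q p).1 1 * (q p).1 2 * (q p).1 3).natAbs) ?_ ?_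
    · intro p hp
      exact ⟨(hq p hp).2.2.2.1, (hq p hp).2.2.2.2⟩
    · intro L hL T' hT' hc
      refine h1 0 v S lam L hS hlam hL T' ?_
      intro p hp
      obtain ⟨h3, h4, h5, -, -⟩ := hq p (hT' hp)
      obtain ⟨h9, h10⟩ := hc p hp
      rw [Nat.cast_natAbs, Int.cast_abs] at h9 h10
      refine ⟨(hT p (hT' hp)).1, (hT p (hT' hp)).2.1, (hT p (hT' hp)).2.2.1,
        fun i => (q p).1 ((0 : Fin 4).succAbove i), fun i => (q p).2 ((0 : Fin 4).succAbove i),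
        fun i => h3 _, fun i => h4 _, fun i => h5 _, ?_, ?_⟩
      · have : ∏ i : Fin 3, (q p).1 ((0 : Fin 4).succAbove i) = (q p).1 1 * (q p).1 2 * (q p).1 3 := by
          rw [Fin.prod_univ_three]
          rfl
        rw [this]
        exact h9
      · have : ∏ i : Fin 3, (q p).1 ((0 : Fin 4).succAbove i) = (q p).1 1 * (q p).1 2 * (q p).1 3 := by
          rw [Fin.prod_univ_three]
          rfl
        rw [this]
        exact h10

end Pool.Agent.H12.EH
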