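import Pool.Agent.H12.EH.Alg3
import Pool.Agent.H12.EH.Pair

/-!
[H12 EH LABA]  The label of the cubic order as a `Lab`.

`lam k` is the coefficient of `T²` in `T^k`.  `∑_v ρ_v^k / f'(ρ_v) = lam k` for `k ≤ 6`, `f'(ρ_v) = 3 ρ_v² + A =
(ρ_v - ρ_w)(ρ_v - ρ_w')`: for `k = 0, 1, 2` the Lagrange identities `0, 0, 1` (`ρ_v` different), for `k ≥ 3` by
`ρ³ = - A ρ - B`.
`lab0_det`: `det M = - nrm3 c` (a polynomial identity in `A, B, c`: `Matrix.det_fin_three`, `ring`).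
`lab0_ne`: if `p` divides the three entries of `M ζ` these are `lam(c ζ), lam(c ζ T), lam(c ζ T²)`, that is
`x₂, x₁, x₀ - A x₂` for `x = mul3 c ζ`; so `p ∣ x`, `p ∣ mul3 x ζ = (m² r, - m² s, 0)`, `p ∣ m² gcd(r, s)`, `p ∣ m`.
-/

set_option autoImplicit false

namespace Pool.Agent.H12.EH

/-- the coefficient of `T²` in `T^k` -/
def lam (A B : ℤ) (k : ℕ) : ℤ := ([0, 0, 1, 0, -A, -B, A ^ 2] : List ℤ).getD k 0

/-- the label of the element `c` of the cubic order -/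
noncomputable def lab0 (A B : ℤ) (ρ : Fin 3 → ℂ) (c : Fin 3 → ℤ) (m : ℕ) : Lab where
  l := fun _ => 1
  k := fun v => -ρ v
  w := fun v => (3 * ρ v ^ 2 + A)⁻¹
  γ := fun v => ev c (ρ v)
  E := fun v j => ρ v ^ (j : ℕ)
  M := fun i j => ∑ k : Fin 3, c k * lam A B (i + j + k)
  m := m

private theorem laba_d0 {A B : ℤ} {ρ : Fin 3 → ℂ} (hρ : Roots A B ρ) :
    3 * ρ 0 ^ 2 + A = (ρ 0 - ρ 1) * (ρ 0 - ρ 2) ∧ 3 * ρ 1 ^ 2 + A = (ρ 1 - ρ 0) * (ρ 1 - ρ 2) ∧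
    3 * ρ 2 ^ 2 + A = (ρ 2 - ρ 0) * (ρ 2 - ρ 1) := by
  obtain ⟨h1, h2, _⟩ := hρ.rel
  refine ⟨?_, ?_, ?_⟩
  · linear_combination ρ 0 * h1 + ρ 0 * h1 - h2
  · linear_combination ρ 1 * h1 + ρ 1 * h1 - h2
  · linear_combination ρ 2 * h1 + ρ 2 * h1 - h2

theorem deriv_ne {A B : ℤ} {ρ : Fin 3 → ℂ} (hρ : Roots A B ρ) (v : Fin 3) : 3 * ρ v ^ 2 + A ≠ 0 := by
  obtain ⟨h0, h1, h2⟩ := laba_d0 hρ
  have hne : ∀ u w, u ≠ w → ρ u - ρ w ≠ 0 := fun u w h => sub_ne_zero.2 (hρ.ne u w h)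
  fin_cases v
  · change 3 * ρ 0 ^ 2 + (A : ℂ) ≠ 0
    rw [h0]
    exact mul_ne_zero (hne 0 1 (by decide)) (hne 0 2 (by decide))
  · change 3 * ρ 1 ^ 2 + (A : ℂ) ≠ 0
    rw [h1]
    exact mul_ne_zero (hne 1 0 (by decide)) (hne 1 2 (by decide))
  · change 3 * ρ 2 ^ 2 + (A : ℂ) ≠ 0
    rw [h2]
    exact mul_ne_zero (hne 2 0 (by decide)) (hne 2 1 (by decide))

/-- the power sum with weights -/
private noncomputable def laba_S (A : ℤ) (ρ : Fin 3 → ℂ) (k : ℕ) : ℂ :=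
  ∑ v, (3 * ρ v ^ 2 + (A : ℂ))⁻¹ * ρ v ^ k

private theorem laba_S0 {A B : ℤ} {ρ : Fin 3 → ℂ} (hρ : Roots A B ρ) : laba_S A ρ 0 = 0 := by
  obtain ⟨h0, h1, h2⟩ := laba_d0 hρ
  have e01 : ρ 0 - ρ 1 ≠ 0 := sub_ne_zero.2 (hρ.ne 0 1 (by decide))
  have e02 : ρ 0 - ρ 2 ≠ 0 := sub_ne_zero.2 (hρ.ne 0 2 (by decide))
  have e12 : ρ 1 - ρ 2 ≠ 0 := sub_ne_zero.2 (hρ.ne 1 2 (by decide))
  have f10 : ρ 1 - ρ 0 = -(ρ 0 - ρ 1) := by ring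
  have f20 : ρ 2 - ρ 0 = -(ρ 0 - ρ 2) := by ring
  have f21 : ρ 2 - ρ 1 = -(ρ 1 - ρ 2) := by ring
  unfold laba_S
  rw [Fin.sum_univ_three, h0, h1, h2, f10, f20, f21]
  field_simp
  ring

private theorem laba_S1 {A B : ℤ} {ρ : Fin 3 → ℂ} (hρ : Roots A B ρ) : laba_S A ρ 1 = 0 := by
  obtain ⟨h0, h1, h2⟩ := laba_d0 hρ
  have e01 : ρ 0 - ρ 1 ≠ 0 := sub_ne_zero.2 (hρ.ne 0 1 (by decide))
  have e02 : ρ 0 - ρ 2 ≠ 0 := sub_ne_zero.2 (hρ.ne 0 2 (by decide))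
  have e12 : ρ 1 - ρ 2 ≠ 0 := sub_ne_zero.2 (hρ.ne 1 2 (by decide))
  have f10 : ρ 1 - ρ 0 = -(ρ 0 - ρ 1) := by ring
  have f20 : ρ 2 - ρ 0 = -(ρ 0 - ρ 2) := by ring
  have f21 : ρ 2 - ρ 1 = -(ρ 1 - ρ 2) := by ring
  unfold laba_S
  rw [Fin.sum_univ_three, h0, h1, h2, f10, f20, f21]
  field_simp
  ring

private theorem laba_S2 {A B : ℤ} {ρ : Fin 3 → ℂ} (hρ : Roots A B ρ) : laba_S A ρ 2 = 1 := by
  obtain ⟨h0, h1, h2⟩ := laba_d0 hρ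
  have e01 : ρ 0 - ρ 1 ≠ 0 := sub_ne_zero.2 (hρ.ne 0 1 (by decide))
  have e02 : ρ 0 - ρ 2 ≠ 0 := sub_ne_zero.2 (hρ.ne 0 2 (by decide))
  have e12 : ρ 1 - ρ 2 ≠ 0 := sub_ne_zero.2 (hρ.ne 1 2 (by decide))
  have f10 : ρ 1 - ρ 0 = -(ρ 0 - ρ 1) := by ring
  have f20 : ρ 2 - ρ 0 = -(ρ 0 - ρ 2) := by ring
  have f21 : ρ 2 - ρ 1 = -(ρ 1 - ρ 2) := by ring
  unfold laba_S
  rw [Fin.sum_univ_three, h0, h1, h2, f10, f20, f21]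
  field_simp
  ring

private theorem laba_Srec {A B : ℤ} {ρ : Fin 3 → ℂ} (hρ : Roots A B ρ) (k : ℕ) :
    laba_S A ρ (k + 3) = -(A : ℂ) * laba_S A ρ (k + 1) - (B : ℂ) * laba_S A ρ k := by
  unfold laba_S
  rw [Finset.mul_sum, Finset.mul_sum, ← Finset.sum_sub_distrib]
  refine Finset.sum_congr rfl (fun v _ => ?_)
  have h := hρ.root v
  have h3 : ρ v ^ (k + 3) = -(A : ℂ) * ρ v ^ (k + 1) - (B : ℂ) * ρ v ^ k := by
    linear_combination ρ v ^ k * h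
  rw [h3]
  ring

private theorem laba_S_eq {A B : ℤ} {ρ : Fin 3 → ℂ} (hρ : Roots A B ρ) (k : ℕ) (hk : k ≤ 6) :
    laba_S A ρ k = ((lam A B k : ℤ) : ℂ) := by
  have s0 := laba_S0 hρ
  have s1 := laba_S1 hρ
  have s2 := laba_S2 hρ
  have s3 := laba_Srec hρ 0
  have s4 := laba_Srec hρ 1
  have s5 := laba_Srec hρ 2
  have s6 := laba_Srec hρ 3
  norm_num at s3 s4 s5 s6
  rw [s0, s1] at s3
  rw [s1, s2] at s4
  rw [s3, s2] at s5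
  rw [s3, s4] at s6
  interval_cases k
  · rw [s0]; simp [lam]
  · rw [s1]; simp [lam]
  · rw [s2]; simp [lam]
  · rw [s3]; simp [lam]
  · rw [s4]; simp [lam]
  · rw [s5]; simp [lam]
  · rw [s6]; simp [lam]; ring

theorem lab0_ok {A B : ℤ} {ρ : Fin 3 → ℂ} (hρ : Roots A B ρ) {c : Fin 3 → ℤ} (hc : nrm3 A B c ≠ 0)
    {m : ℕ} (hm : 0 < m) : (lab0 A B ρ c m).Ok := by
  refine ⟨?_, ?_, ?_, ?_, hm, ?_, ?_⟩
  · have h := laba_S0 hρ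
    unfold laba_S at h
    simpa [lab0] using h
  · have h := laba_S1 hρ
    unfold laba_S at h
    simp only [pow_one] at h
    simp only [lab0, mul_neg, Finset.sum_neg_distrib, h, neg_zero]
  · intro v
    exact inv_ne_zero (deriv_ne hρ v)
  · intro v hv
    change ev c (ρ v) = 0 at hv
    have h := nrm3_prod hρ c
    have h0 : ((nrm3 A B c : ℤ) : ℂ) = 0 := by
      rw [h]
      fin_cases v
      · change ev c (ρ 0) = 0 at hv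
        rw [hv]; ring
      · change ev c (ρ 1) = 0 at hv
        rw [hv]; ring
      · change ev c (ρ 2) = 0 at hv
        rw [hv]; ring
    exact hc (by exact_mod_cast h0)
  · intro u v huv h
    simp only [lab0, one_mul, neg_inj] at h
    exact hρ.ne v u (Ne.symm huv) h
  · intro i j
    have hi : (i : ℕ) ≤ 2 := Nat.lt_succ_iff.1 i.2
    have hj : (j : ℕ) ≤ 2 := Nat.lt_succ_iff.1 j.2
    have h1 : ∀ k : Fin 3, ((lam A B (i + j + k) : ℤ) : ℂ) = laba_S A ρ (i + j + k) := by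
      intro k
      have hk : (k : ℕ) ≤ 2 := Nat.lt_succ_iff.1 k.2
      exact (laba_S_eq hρ _ (by omega)).symm
    change (((∑ k : Fin 3, c k * lam A B (i + j + k) : ℤ)) : ℂ) =
      ∑ v, (3 * ρ v ^ 2 + (A : ℂ))⁻¹ * ev c (ρ v) * ρ v ^ (i : ℕ) * ρ v ^ (j : ℕ)
    push_cast
    have h2 : ∀ k : Fin 3, ((c k : ℤ) : ℂ) * ((lam A B (i + j + k) : ℤ) : ℂ) =
        ∑ v, (3 * ρ v ^ 2 + (A : ℂ))⁻¹ * ((c k : ℤ) * ρ v ^ (k : ℕ)) * ρ v ^ (i : ℕ) *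
          ρ v ^ (j : ℕ) := by
      intro k
      rw [h1 k]
      unfold laba_S
      rw [Finset.mul_sum]
      refine Finset.sum_congr rfl (fun v _ => ?_)
      rw [pow_add, pow_add]
      ring
    rw [Finset.sum_congr rfl (fun k _ => h2 k), Finset.sum_comm]
    refine Finset.sum_congr rfl (fun v _ => ?_)
    rw [← Finset.sum_mul, ← Finset.sum_mul, ← Finset.mul_sum]
    congr 3
    rw [Fin.sum_univ_three]
    simp [ev]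

theorem lab0_pt {A B : ℤ} {ρ : Fin 3 → ℂ} (hρ : Roots A B ρ) {c ζ : Fin 3 → ℤ} {m : ℕ} {r s : ℤ}
    (h : mul3 A B c (mul3 A B ζ ζ) = ![(m : ℤ) ^ 2 * r, -((m : ℤ) ^ 2 * s), 0]) :
    (lab0 A B ρ c m).Pt r s ζ := by
  intro v
  have h1 := ev_mul3 (hρ.root v) c (mul3 A B ζ ζ)
  rw [ev_mul3 (hρ.root v) ζ ζ, h] at h1
  have h2 : (lab0 A B ρ c m).u ζ v = ev ζ (ρ v) := by
    unfold Lab.u
    rw [Fin.sum_univ_three]
    simp only [lab0, ev, Fin.val_zero, Fin.val_one, Fin.val_two, pow_zero, pow_one, one_mul]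
    ring
  rw [h2]
  change ev c (ρ v) * ev ζ (ρ v) ^ 2 = (m : ℂ) ^ 2 * (1 * r + -ρ v * s)
  have h3 : ev ![(m : ℤ) ^ 2 * r, -((m : ℤ) ^ 2 * s), 0] (ρ v) =
      (m : ℂ) ^ 2 * (1 * r + -ρ v * s) := by
    simp only [ev, Matrix.cons_val_zero, Matrix.cons_val_one, Matrix.cons_val]
    push_cast
    ring
  rw [← h3, h1]
  ring

theorem lab0_det (A B : ℤ) (ρ : Fin 3 → ℂ) (c : Fin 3 → ℤ) (m : ℕ) :
    (lab0 A B ρ c m).M.det = -nrm3 A B c := by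
  rw [Matrix.det_fin_three]
  simp only [lab0, Fin.sum_univ_three, lam, nrm3, mul3, adj3]
  simp
  ring

private theorem laba_vec (A B : ℤ) (ρ : Fin 3 → ℂ) (c ζ : Fin 3 → ℤ) (m : ℕ) :
    ((lab0 A B ρ c m).M.mulVec ζ) 0 = mul3 A B c ζ 2 ∧
    ((lab0 A B ρ c m).M.mulVec ζ) 1 = mul3 A B c ζ 1 ∧
    ((lab0 A B ρ c m).M.mulVec ζ) 2 = mul3 A B c ζ 0 - A * mul3 A B c ζ 2 := by
  refine ⟨?_, ?_, ?_⟩ <;>
  · simp only [lab0, Matrix.mulVec, dotProduct, Fin.sum_univ_three, lam, mul3]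
    simp
    ring

theorem lab0_ne {A B : ℤ} (ρ : Fin 3 → ℂ) {c ζ : Fin 3 → ℤ} {m : ℕ} {r s : ℤ} (hrs : IsCoprime r s)
    (h : mul3 A B c (mul3 A B ζ ζ) = ![(m : ℤ) ^ 2 * r, -((m : ℤ) ^ 2 * s), 0]) {q : ℕ} (hq : q.Prime)
    (hqm : ¬ q ∣ m) : ∃ i, ¬ (q : ℤ) ∣ ((lab0 A B ρ c m).M.mulVec ζ) i := by
  by_contra hcon
  push Not at hcon
  obtain ⟨e0, e1, e2⟩ := laba_vec A B ρ c ζ m
  have h0 := hcon 0
  have h1 := hcon 1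
  have h2 := hcon 2
  rw [e0] at h0
  rw [e1] at h1
  rw [e2] at h2
  have h3 : (q : ℤ) ∣ mul3 A B c ζ 0 := by
    have := dvd_add h2 (Dvd.dvd.mul_left h0 A)
    simpa using this
  rw [← mul3_assoc] at h
  generalize mul3 A B c ζ = x at h h0 h1 h3
  obtain ⟨a, ha⟩ := h3
  obtain ⟨b, hb⟩ := h1
  obtain ⟨d, hd⟩ := h0
  have k0 := congrFun h 0
  have k1 := congrFun h 1
  simp only [mul3, Matrix.cons_val_zero, Matrix.cons_val_one] at k0 k1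
  have q0 : (q : ℤ) ∣ (m : ℤ) ^ 2 * r := by
    rw [← k0, ha, hb, hd]
    exact ⟨a * ζ 0 - B * (b * ζ 2 + d * ζ 1), by ring⟩
  have q1 : (q : ℤ) ∣ (m : ℤ) ^ 2 * s := by
    rw [← dvd_neg, ← k1, ha, hb, hd]
    exact ⟨a * ζ 1 + b * ζ 0 - A * (b * ζ 2 + d * ζ 1) - B * (d * ζ 2), by ring⟩
  obtain ⟨u, w, huw⟩ := hrs
  have q2 : (q : ℤ) ∣ (m : ℤ) ^ 2 := by
    have h5 : (m : ℤ) ^ 2 = u * ((m : ℤ) ^ 2 * r) + w * ((m : ℤ) ^ 2 * s) := by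
      linear_combination -(m : ℤ) ^ 2 * huw
    rw [h5]
    exact dvd_add (Dvd.dvd.mul_left q0 u) (Dvd.dvd.mul_left q1 w)
  have q3 : q ∣ m ^ 2 := by exact_mod_cast q2
  exact hqm (hq.dvd_of_dvd_pow q3)

end Pool.Agent.H12.EH
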