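import Pool.Agent.H12.EH.Lab3
import Pool.Agent.H12.EH.LabA
import Pool.Agent.H12.EH.Lcnt
import Pool.Agent.H92.DivBound

/-!
[H12 EH ACNT0]  The number of pairs with `g ~ G` in a fiber, irreducible cubic.

For `p ∈ T` choose `ζ, c, m` by `lab3` (constant `C₁`).  The label `(c, m)` is in a set of at most
`C₁ (2 C₁ (2 G)^(1/3) + 1)³ ≤ C₂ G` elements (`G ≥ 1`).  Fix a label; the pairs `p ∈ T` with this label all have the same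
`g = nrm3 c / m⁴`.  Let `g' = ∏ primes q ∣ g, q ∤ 2 m` (squarefree, odd).  `g = g' g''` with `g'' ∣ 2 m`, so
`g' ≥ g / (2 m) ≥ G / (2 C₁)`, and `τ(g') ≤ C g'^ε ≤ C (2 G)^ε` (`H92.divisor_bound`).  `q ∣ g'` divides
`det M = - m⁴ g` (`lab0_det`).  `Lab.lcnt` with `Λ = lab0 A B ρ c m` (`lab0_ok`, `lab0_pt`, `lab0_ne`),
`W = ∑ 1 / ‖3 ρ_v² + A‖`, `a = Re ρ_v - 2 lam`, `L = 4 lam` (`Fib`: `|r/s - Re ρ_v| ≤ ‖r - ρ_v s‖ / s ≤ 2 lam`), gives at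
most `64 τ(g') (1 + 4 lam √(W m² S / (2 lam g'))) ≤ C G^ε (1 + C √(S lam / G))` pairs with this label.
Sum over the labels: `≤ C G^ε (G + √(S lam G))`.
-/

set_option autoImplicit false

namespace Pool.Agent.H12.EH

/-- the part of a squarefree number coprime to `2 m` -/
theorem acnt0_part {g m : ℕ} (hg : Squarefree g) (hg0 : 0 < g) (hm : 0 < m) : ∃ g' : ℕ, 0 < g' ∧
    Squarefree g' ∧ ¬ 2 ∣ g' ∧ g' ∣ g ∧ g ≤ 2 * m * g' ∧ ∀ q : ℕ, q.Prime → q ∣ g' → ¬ q ∣ m := by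
  obtain ⟨d, hd⟩ : ∃ d : ℕ, d = Nat.gcd g (2 * m) := ⟨_, rfl⟩
  have hdg : d ∣ g := by rw [hd]; exact Nat.gcd_dvd_left _ _
  have hdm : d ∣ 2 * m := by rw [hd]; exact Nat.gcd_dvd_right _ _
  obtain ⟨g', hg'⟩ := hdg
  have hg'0 : 0 < g' := by
    rcases Nat.eq_zero_or_pos g' with h | h
    · rw [h] at hg'
      omega
    · exact h
  have hkey : ∀ q : ℕ, q.Prime → q ∣ g' → ¬ q ∣ 2 * m := by
    intro q hq h1 h2
    have h3 : q ∣ g := by rw [hg']; exact Dvd.dvd.mul_left h1 d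
    have h4 : q ∣ d := by rw [hd]; exact Nat.dvd_gcd h3 h2
    have h5 : q * q ∣ g := by rw [hg']; exact mul_dvd_mul h4 h1
    have h6 := hg q h5
    rw [Nat.isUnit_iff] at h6
    exact hq.one_lt.ne' h6
  refine ⟨g', hg'0, hg.squarefree_of_dvd ⟨d, by rw [hg']; ring⟩, ?_, ⟨d, by rw [hg']; ring⟩, ?_, ?_⟩
  · intro h
    exact hkey 2 Nat.prime_two h ⟨m, rfl⟩
  · have h1 : d ≤ 2 * m := Nat.le_of_dvd (by omega) hdm
    calc g = d * g' := hg'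
      _ ≤ 2 * m * g' := Nat.mul_le_mul_right g' h1
  · intro q hq h1 h2
    exact hkey q hq h1 (Dvd.dvd.mul_left h2 2)

/-- the number of pairs with one label -/
theorem acnt0_label {A B : ℤ} {ρ : Fin 3 → ℂ} (hρ : Roots A B ρ) {C₁ : ℝ} (hC₁ : 1 ≤ C₁) (ε : ℝ)
    (hε : 0 < ε) : ∃ C : ℝ, 0 < C ∧ ∀ (v : Fin 3) (S lam G : ℝ), 0 < S → 0 < lam → 1 ≤ G →
    ∀ (c : Fin 3 → ℤ) (m : ℕ), 0 < m → (m : ℝ) ≤ C₁ → ∀ T : Finset (ℤ × ℤ),
    (∀ p ∈ T, IsCoprime p.1 p.2 ∧ 0 < p.2 ∧ Fib ρ v S lam p.1 p.2 ∧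
      ∃ (ζ : Fin 3 → ℤ) (g : ℕ), Squarefree g ∧ G ≤ g ∧ g ≤ 2 * G ∧
      mul3 A B c (mul3 A B ζ ζ) = ![(m : ℤ) ^ 2 * p.1, -((m : ℤ) ^ 2 * p.2), 0] ∧
      nrm3 A B c = (m : ℤ) ^ 4 * g) →
    (T.card : ℝ) ≤ C * G ^ ε * (1 + √(S * lam / G)) := by
  obtain ⟨C₃, hC₃, hdiv⟩ := H5.W.divisor_bound ε hε
  obtain ⟨W, hW⟩ : ∃ W : ℝ, W = ∑ u : Fin 3, ‖(3 * ρ u ^ 2 + (A : ℂ))⁻¹‖ := ⟨_, rfl⟩
  have hW0 : 0 < W := by
    rw [hW]
    refine Finset.sum_pos (fun u _ => ?_) Finset.univ_nonempty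
    exact norm_pos_iff.mpr (inv_ne_zero (deriv_ne hρ u))
  have hC0 : 0 < C₁ := by linarith
  have hK0 : 0 < √(W * C₁ ^ 3) := Real.sqrt_pos.mpr (by positivity)
  have h2e : (0 : ℝ) < 2 ^ ε := Real.rpow_pos_of_pos (by norm_num) ε
  refine ⟨64 * (C₃ * 2 ^ ε) * (1 + 4 * √(W * C₁ ^ 3)), by positivity, ?_⟩
  intro v S lam G hS hlam hG c m hm hmC T hT
  have hG0 : 0 < G := by linarith
  have hmR : (0 : ℝ) < m := by exact_mod_cast hm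
  rcases T.eq_empty_or_nonempty with hTe | ⟨p₀, hp₀⟩
  · rw [hTe, Finset.card_empty, Nat.cast_zero]
    have : (0 : ℝ) < G ^ ε := Real.rpow_pos_of_pos hG0 ε
    positivity
  obtain ⟨_, _, _, ζ₀, g, hgs, hgG, hgG2, _, hnrm⟩ := hT p₀ hp₀
  have hgR : (0 : ℝ) < g := by linarith
  have hg0 : 0 < g := by exact_mod_cast hgR
  obtain ⟨g', hg'0, hg's, hg'2, hg'd, hg'l, hg'q⟩ := acnt0_part hgs hg0 hm
  have hg'R : (0 : ℝ) < g' := by exact_mod_cast hg'0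
  have hnc : nrm3 A B c ≠ 0 := by
    rw [hnrm]
    positivity
  have hok := lab0_ok hρ hnc hm
  have hcnt := Lab.lcnt (Λ := lab0 A B ρ c m) hok hg'0 hg's hg'2 (W := W) (S := S) (lam := lam)
    (L := 4 * lam) (a := (ρ v).re - 2 * lam) ?_ ?_ hW0 hS hlam (by linarith) T ?_
  rotate_left
  · intro q hq hqg
    rw [lab0_det, hnrm, dvd_neg]
    have h1 : (q : ℤ) ∣ (g : ℤ) := by exact_mod_cast hqg.trans hg'd
    exact Dvd.dvd.mul_left h1 _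
  · rw [hW]
    refine Finset.sum_le_sum fun u _ => ?_
    change ‖(3 * ρ u ^ 2 + (A : ℂ))⁻¹‖ * ‖(1 : ℂ)‖ ^ 2 ≤ _
    rw [norm_one, one_pow, mul_one]
  · intro p hp
    obtain ⟨hc, hs, ⟨hf1, hf2, hf3, hf4⟩, ζ, g₁, _, _, _, hmul, _⟩ := hT p hp
    have hsR : (0 : ℝ) < p.2 := by exact_mod_cast hs
    have habs : |(p.1 : ℝ) / p.2 - (ρ v).re| ≤ 2 * lam := by
      have h1 : |(p.1 : ℝ) - (ρ v).re * p.2| ≤ 2 * lam * p.2 := by
        have h2 := Complex.abs_re_le_norm ((p.1 : ℂ) - ρ v * p.2)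
        have h3 : ((p.1 : ℂ) - ρ v * p.2).re = (p.1 : ℝ) - (ρ v).re * p.2 := by
          simp
        rw [h3] at h2
        exact h2.trans hf4
      have h4 : (p.1 : ℝ) / p.2 - (ρ v).re = ((p.1 : ℝ) - (ρ v).re * p.2) / p.2 := by
        field_simp
      rw [h4, abs_div, abs_of_pos hsR, div_le_iff₀ hsR]
      exact h1
    rw [abs_le] at habs
    refine ⟨hc, hs, hf2, by linarith, by linarith, ?_, ζ, lab0_pt hρ hmul, ?_⟩
    · intro u _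
      refine (hf3 u).trans (le_of_eq ?_)
      change _ = ‖(1 : ℂ) * (p.1 : ℂ) + (-ρ u) * (p.2 : ℂ)‖
      congr 1
      ring
    · intro q hq hqg
      exact lab0_ne ρ hc hmul hq (hg'q q hq hqg)
  refine hcnt.trans ?_
  -- the divisor bound
  have hg'le : (g' : ℝ) ≤ 2 * G := by
    have h1 : g' ≤ g := Nat.le_of_dvd hg0 hg'd
    have h2 : (g' : ℝ) ≤ g := by exact_mod_cast h1
    linarith
  have htau : (g'.divisors.card : ℝ) ≤ C₃ * 2 ^ ε * G ^ ε := by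
    refine (hdiv g' hg'0).trans ?_
    rw [mul_assoc, ← Real.mul_rpow (by norm_num) hG0.le]
    exact mul_le_mul_of_nonneg_left (Real.rpow_le_rpow hg'R.le hg'le hε.le) hC₃.le
  -- the square root
  have hg'ge : G ≤ 2 * C₁ * g' := by
    have h1 : (g : ℝ) ≤ 2 * m * g' := by exact_mod_cast hg'l
    have h2 : 2 * (m : ℝ) * g' ≤ 2 * C₁ * g' := by
      have := mul_le_mul_of_nonneg_right hmC hg'R.le
      linarith
    linarith
  have hm2 : (m : ℝ) ^ 2 ≤ C₁ ^ 2 := pow_le_pow_left₀ hmR.le hmC 2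
  have hsq : 4 * lam * √(W * (m : ℝ) ^ 2 * S / (2 * lam * g')) ≤
      4 * √(W * C₁ ^ 3) * √(S * lam / G) := by
    have h1 : W * (m : ℝ) ^ 2 * S / (2 * lam * g') ≤ (W * C₁ ^ 3) * (S * lam / G) / lam ^ 2 := by
      have h2 : (W * C₁ ^ 3) * (S * lam / G) / lam ^ 2 = W * C₁ ^ 3 * S / (lam * G) := by
        field_simp
      rw [h2, div_le_div_iff₀ (by positivity) (by positivity)]
      have h3 : (m : ℝ) ^ 2 * G ≤ C₁ ^ 2 * (2 * C₁ * g') :=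
        mul_le_mul hm2 hg'ge hG0.le (by positivity)
      calc W * (m : ℝ) ^ 2 * S * (lam * G) = (W * S * lam) * ((m : ℝ) ^ 2 * G) := by ring
        _ ≤ (W * S * lam) * (C₁ ^ 2 * (2 * C₁ * g')) :=
            mul_le_mul_of_nonneg_left h3 (by positivity)
        _ = W * C₁ ^ 3 * S * (2 * lam * g') := by ring
    calc 4 * lam * √(W * (m : ℝ) ^ 2 * S / (2 * lam * g'))
        ≤ 4 * lam * √((W * C₁ ^ 3) * (S * lam / G) / lam ^ 2) :=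
          mul_le_mul_of_nonneg_left (Real.sqrt_le_sqrt h1) (by linarith)
      _ = 4 * √(W * C₁ ^ 3) * √(S * lam / G) := by
          rw [Real.sqrt_div' _ (by positivity), Real.sqrt_sq hlam.le,
            Real.sqrt_mul (by positivity)]
          field_simp
  have hs0 : 0 ≤ √(S * lam / G) := Real.sqrt_nonneg _
  have hfin : 1 + 4 * lam * √(W * (m : ℝ) ^ 2 * S / (2 * lam * g')) ≤
      (1 + 4 * √(W * C₁ ^ 3)) * (1 + √(S * lam / G)) := by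
    nlinarith [hsq, hK0, hs0]
  have hGe : (0 : ℝ) < G ^ ε := Real.rpow_pos_of_pos hG0 ε
  calc 64 * (g'.divisors.card : ℝ) * (1 + 4 * lam * √(W * (m : ℝ) ^ 2 * S / (2 * lam * g')))
      ≤ 64 * (C₃ * 2 ^ ε * G ^ ε) * ((1 + 4 * √(W * C₁ ^ 3)) * (1 + √(S * lam / G))) := by
        refine mul_le_mul ?_ hfin ?_ ?_
        · linarith
        · positivity
        · positivity
    _ = 64 * (C₃ * 2 ^ ε) * (1 + 4 * √(W * C₁ ^ 3)) * G ^ ε * (1 + √(S * lam / G)) := by ring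

theorem acnt0 {A B : ℤ} {ρ : Fin 3 → ℂ} (hρ : Roots A B ρ) (hirr : ∀ x : ℚ, x ^ 3 + A * x + B ≠ 0)
    (ε : ℝ) (hε : 0 < ε) : ∃ C : ℝ, 0 < C ∧ ∀ (v : Fin 3) (S lam G : ℝ), 0 < S → 0 < lam → 1 ≤ G →
    ∀ T : Finset (ℤ × ℤ), (∀ p ∈ T, IsCoprime p.1 p.2 ∧ 0 < p.2 ∧ Fib ρ v S lam p.1 p.2 ∧
      ∃ g z : ℕ, Squarefree g ∧ 0 < z ∧ G ≤ g ∧ g ≤ 2 * G ∧ Gf A B p.1 p.2 = g * z ^ 2) →
    (T.card : ℝ) ≤ C * G ^ ε * (G + √(S * lam * G)) := by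
  classical
  obtain ⟨C₁, hC₁, hlab⟩ := lab3 hρ hirr
  obtain ⟨C₂, hC₂, hone⟩ := acnt0_label hρ hC₁ ε hε
  have hC0 : 0 < C₁ := by linarith
  refine ⟨(4 * C₁ + 1) ^ 3 * C₁ * C₂, by positivity, ?_⟩
  intro v S lam G hS hlam hG T hT
  have hG0 : 0 < G := by linarith
  have hGe : (0 : ℝ) < G ^ ε := Real.rpow_pos_of_pos hG0 ε
  -- choose the labels
  have hch : ∀ p ∈ T, ∃ (l : (Fin 3 → ℤ) × ℕ) (ζ : Fin 3 → ℤ) (g : ℕ), Squarefree g ∧ G ≤ g ∧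
      g ≤ 2 * G ∧ 0 < l.2 ∧ (l.2 : ℝ) ≤ C₁ ∧
      mul3 A B l.1 (mul3 A B ζ ζ) = ![(l.2 : ℤ) ^ 2 * p.1, -((l.2 : ℤ) ^ 2 * p.2), 0] ∧
      nrm3 A B l.1 = (l.2 : ℤ) ^ 4 * g ∧ ∀ i, |((l.1 i : ℤ) : ℝ)| ≤ 2 * C₁ * G ^ (1 / 3 : ℝ) := by
    intro p hp
    obtain ⟨hc, hs, _, g, z, hgs, hz, hg1, hg2, hGf⟩ := hT p hp
    have hgR : (0 : ℝ) < g := by linarith
    have hg0 : 0 < g := by exact_mod_cast hgR
    obtain ⟨ζ, c, m, hm, hmC, h1, h2, h3⟩ := hlab p.1 p.2 g z hc hs hg0 hz hGf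
    refine ⟨(c, m), ζ, g, hgs, hg1, hg2, hm, hmC, h1, h2, fun i => (h3 i).trans ?_⟩
    have h4 : (g : ℝ) ^ (1 / 3 : ℝ) ≤ 2 * G ^ (1 / 3 : ℝ) := by
      calc (g : ℝ) ^ (1 / 3 : ℝ) ≤ (2 * G) ^ (1 / 3 : ℝ) :=
            Real.rpow_le_rpow hgR.le hg2 (by norm_num)
        _ = (2 : ℝ) ^ (1 / 3 : ℝ) * G ^ (1 / 3 : ℝ) := Real.mul_rpow (by norm_num) hG0.le
        _ ≤ 2 * G ^ (1 / 3 : ℝ) := by
            refine mul_le_mul_of_nonneg_right ?_ (Real.rpow_nonneg hG0.le _)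
            calc (2 : ℝ) ^ (1 / 3 : ℝ) ≤ 2 ^ (1 : ℝ) :=
                  Real.rpow_le_rpow_of_exponent_le (by norm_num) (by norm_num)
              _ = 2 := Real.rpow_one 2
    calc C₁ * (g : ℝ) ^ (1 / 3 : ℝ) ≤ C₁ * (2 * G ^ (1 / 3 : ℝ)) :=
          mul_le_mul_of_nonneg_left h4 hC0.le
      _ = 2 * C₁ * G ^ (1 / 3 : ℝ) := by ring
  choose! l ζ g hl using hch
  obtain ⟨g1, hg1⟩ : ∃ g1 : ℝ, g1 = G ^ (1 / 3 : ℝ) := ⟨_, rfl⟩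
  have hg11 : 1 ≤ g1 := by
    rw [hg1]
    exact Real.one_le_rpow hG (by norm_num)
  have hg13 : g1 ^ 3 = G := by
    rw [hg1, ← Real.rpow_natCast, ← Real.rpow_mul hG0.le]
    norm_num
  rw [← hg1] at hl
  obtain ⟨N, hN⟩ : ∃ N : ℕ, N = ⌊2 * C₁ * g1⌋₊ := ⟨_, rfl⟩
  obtain ⟨M, hM⟩ : ∃ M : ℕ, M = ⌊C₁⌋₊ := ⟨_, rfl⟩
  have hNle : (N : ℝ) ≤ 2 * C₁ * g1 := by
    rw [hN]
    exact Nat.floor_le (by positivity)
  have hMle : (M : ℝ) ≤ C₁ := by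
    rw [hM]
    exact Nat.floor_le hC0.le
  obtain ⟨Lb, hLb⟩ : ∃ Lb : Finset ((Fin 3 → ℤ) × ℕ), Lb =
      (Fintype.piFinset (fun _ : Fin 3 => Finset.Icc (-(N : ℤ)) N)) ×ˢ Finset.Icc 1 M := ⟨_, rfl⟩
  have hcard : (Lb.card : ℝ) ≤ (4 * C₁ + 1) ^ 3 * C₁ * G := by
    have h1 : Lb.card = (2 * N + 1) ^ 3 * M := by
      rw [hLb, Finset.card_product, Fintype.card_piFinset, Finset.prod_const, Finset.card_univ,
        Fintype.card_fin, Int.card_Icc, Nat.card_Icc]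
      congr 1
      congr 1
      omega
    rw [h1]
    push_cast
    have h2 : 2 * (N : ℝ) + 1 ≤ (4 * C₁ + 1) * g1 := by nlinarith
    have h3 : (2 * (N : ℝ) + 1) ^ 3 ≤ ((4 * C₁ + 1) * g1) ^ 3 :=
      pow_le_pow_left₀ (by positivity) h2 3
    calc (2 * (N : ℝ) + 1) ^ 3 * M ≤ ((4 * C₁ + 1) * g1) ^ 3 * C₁ :=
          mul_le_mul h3 hMle (Nat.cast_nonneg _) (by positivity)
      _ = (4 * C₁ + 1) ^ 3 * C₁ * g1 ^ 3 := by ring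
      _ = (4 * C₁ + 1) ^ 3 * C₁ * G := by rw [hg13]
  have hmaps : ∀ p ∈ T, l p ∈ Lb := by
    intro p hp
    obtain ⟨_, _, _, h1, h2, _, _, h3⟩ := hl p hp
    rw [hLb, Finset.mem_product, Fintype.mem_piFinset, Finset.mem_Icc]
    refine ⟨fun i => ?_, h1, ?_⟩
    · rw [Finset.mem_Icc, ← abs_le]
      have h4 : (((l p).1 i).natAbs : ℝ) ≤ 2 * C₁ * g1 := by
        rw [Nat.cast_natAbs, Int.cast_abs]
        exact h3 i
      have h5 : ((l p).1 i).natAbs ≤ N := by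
        rw [hN]
        exact Nat.le_floor h4
      rw [Int.abs_eq_natAbs]
      exact_mod_cast h5
    · rw [hM]
      exact Nat.le_floor h2
  have hsum : (T.card : ℝ) = ∑ b ∈ Lb, ((T.filter (fun p => l p = b)).card : ℝ) := by
    rw [Finset.card_eq_sum_card_fiberwise hmaps]
    push_cast
    rfl
  rw [hsum]
  have hb : ∀ b ∈ Lb, ((T.filter (fun p => l p = b)).card : ℝ) ≤ C₂ * G ^ ε * (1 + √(S * lam / G)) := by
    intro b hbL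
    rw [hLb, Finset.mem_product, Finset.mem_Icc] at hbL
    have hb2 : 0 < b.2 := by
      have := hbL.2.1
      omega
    have hb3 : (b.2 : ℝ) ≤ C₁ := by
      have h1 : (b.2 : ℝ) ≤ M := by exact_mod_cast hbL.2.2
      linarith
    refine hone v S lam G hS hlam hG b.1 b.2 hb2 hb3 _ ?_
    intro p hp
    rw [Finset.mem_filter] at hp
    obtain ⟨hpT, hpb⟩ := hp
    obtain ⟨hc, hs, hf, _⟩ := hT p hpT
    obtain ⟨h1, h2, h3, _, _, h4, h5, _⟩ := hl p hpT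
    rw [hpb] at h4 h5
    exact ⟨hc, hs, hf, ζ p, g p, h1, h2, h3, h4, h5⟩
  have hs0 : 0 ≤ √(S * lam / G) := Real.sqrt_nonneg _
  have hGs : G * (1 + √(S * lam / G)) = G + √(S * lam * G) := by
    have h1 : √(S * lam * G) = G * √(S * lam / G) := by
      have h2 : S * lam * G = G ^ 2 * (S * lam / G) := by
        field_simp
      rw [h2, Real.sqrt_mul (by positivity), Real.sqrt_sq hG0.le]
    rw [h1]
    ring
  calc ∑ b ∈ Lb, ((T.filter (fun p => l p = b)).card : ℝ)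
      ≤ ∑ _b ∈ Lb, C₂ * G ^ ε * (1 + √(S * lam / G)) := Finset.sum_le_sum hb
    _ = (Lb.card : ℝ) * (C₂ * G ^ ε * (1 + √(S * lam / G))) := by
        rw [Finset.sum_const, nsmul_eq_mul]
    _ ≤ ((4 * C₁ + 1) ^ 3 * C₁ * G) * (C₂ * G ^ ε * (1 + √(S * lam / G))) :=
        mul_le_mul_of_nonneg_right hcard (by positivity)
    _ = (4 * C₁ + 1) ^ 3 * C₁ * C₂ * G ^ ε * (G * (1 + √(S * lam / G))) := by ring
    _ = (4 * C₁ + 1) ^ 3 * C₁ * C₂ * G ^ ε * (G + √(S * lam * G)) := by rw [hGs]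

end Pool.Agent.H12.EH
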