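import Pool.Agent.H12.EH.Bcnt

/-!
[H12 EH ALRG]  One rational root: the range of `y₁ / y₀` in a fiber.

`ρ₀ = e`.  `c₀ = min_{u ≠ v} ‖ρ_u - ρ_v‖ / 3 > 0`: in a fiber `Fib ρ v S lam` with nearest root `v` all roots
`u ≠ v` satisfy `‖r - ρ_u s‖ ≥ c₀ s` (`‖ρ_u - ρ_v‖ s ≤ ‖r - ρ_u s‖ + ‖r - ρ_v s‖ ≤ 3 ‖r - ρ_u s‖`, because
`‖r - ρ_v s‖ ≤ 2 lam s ≤ 2 ‖r - ρ_u s‖`), and all satisfy `‖r - ρ_u s‖ ≥ lam s`.
`x = r / s`, `u = y₁ / y₀ > 0`, `u² = a₀ (x - e) / a₁`, so `|u²| = |a₀| |x - e| / |a₁|`.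
Let `m₀ = lam` if `v = 0` and `m₀ = max lam c₀` if `v ≠ 0`: `|x - e| ≥ m₀`.
Range: for two pairs of the fiber with the same `a₀, a₁`: if `v = 0` then `|x - e| ≤ 2 lam` and
`|u - u'| ≤ √(2 lam |a₀| / |a₁|) = √2 lam √(|a₀| / (|a₁| m₀))`.  If `v ≠ 0`: `|x - x'| ≤ 4 lam` (both within `2 lam` of `Re ρ_v`),
`|u - u'| = |a₀/a₁| |x - x'| / (u + u') ≤ |a₀/a₁| 4 lam / (2 √(|a₀| m₀ / |a₁|)) = 2 lam √(|a₀| / (|a₁| m₀))`.
Form: `8 G Z² ≥ |a₂| z² = |Q(r,s)| = ‖r - ρ₁ s‖ ‖r - ρ₂ s‖` (`nrm2_prod`, or directly `Q(r,s) = (r - ρ₁ s)(r - ρ₂ s)`)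
`≥ S² max(lam, c₀)²` if `v = 0`, and `≥ S² lam max(lam, c₀)` if `v ≠ 0`.  In both cases
`lam S / √m₀ ≤ C √G Z`: `v = 0`: `√lam S ≤ √lam √(8 G) Z / max(lam, c₀) ≤ C √G Z`;
`v ≠ 0`: `lam S / √m₀ ≤ lam √(8 G) Z / √(lam m₀ · m₀) = √(8 G lam) Z / m₀ ≤ C √G Z`.
Together: `|u - u'| ≤ 2 lam √(|a₀| / (|a₁| m₀)) ≤ 2 √(|a₀| / |a₁|) C √G Z / S`.
-/

set_option autoImplicit false

namespace Pool.Agent.H12.EH

private theorem alrg_c0 {A B : ℤ} {ρ : Fin 3 → ℂ} (hρ : Roots A B ρ) :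
    ∃ c : ℝ, 0 < c ∧ ∀ u v, u ≠ v → 3 * c ≤ ‖ρ u - ρ v‖ := by
  have h01 : 0 < ‖ρ 0 - ρ 1‖ := norm_pos_iff.mpr (sub_ne_zero.mpr (hρ.ne 0 1 (by decide)))
  have h02 : 0 < ‖ρ 0 - ρ 2‖ := norm_pos_iff.mpr (sub_ne_zero.mpr (hρ.ne 0 2 (by decide)))
  have h12 : 0 < ‖ρ 1 - ρ 2‖ := norm_pos_iff.mpr (sub_ne_zero.mpr (hρ.ne 1 2 (by decide)))
  have key : 0 < min ‖ρ 0 - ρ 1‖ (min ‖ρ 0 - ρ 2‖ ‖ρ 1 - ρ 2‖) := lt_min h01 (lt_min h02 h12)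
  refine ⟨min ‖ρ 0 - ρ 1‖ (min ‖ρ 0 - ρ 2‖ ‖ρ 1 - ρ 2‖) / 3, by positivity, ?_⟩
  have a1 : min ‖ρ 0 - ρ 1‖ (min ‖ρ 0 - ρ 2‖ ‖ρ 1 - ρ 2‖) ≤ ‖ρ 0 - ρ 1‖ := min_le_left _ _
  have a2 : min ‖ρ 0 - ρ 1‖ (min ‖ρ 0 - ρ 2‖ ‖ρ 1 - ρ 2‖) ≤ ‖ρ 0 - ρ 2‖ :=
    (min_le_right _ _).trans (min_le_left _ _)
  have a3 : min ‖ρ 0 - ρ 1‖ (min ‖ρ 0 - ρ 2‖ ‖ρ 1 - ρ 2‖) ≤ ‖ρ 1 - ρ 2‖ :=
    (min_le_right _ _).trans (min_le_right _ _)
  have b1 := norm_sub_rev (ρ 0) (ρ 1)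
  have b2 := norm_sub_rev (ρ 0) (ρ 2)
  have b3 := norm_sub_rev (ρ 1) (ρ 2)
  intro u v huv
  fin_cases u <;> fin_cases v <;> simp at huv ⊢ <;> linarith

private theorem alrg_far {ρ : Fin 3 → ℂ} {c : ℝ} (hc : ∀ u v, u ≠ v → 3 * c ≤ ‖ρ u - ρ v‖)
    {v : Fin 3} {S lam : ℝ} {r s : ℤ} (hS : 0 < S) (hf : Fib ρ v S lam r s) {u : Fin 3} (hu : u ≠ v) :
    max lam c * s ≤ ‖(r : ℂ) - ρ u * s‖ := by
  obtain ⟨h1, h2, h3, h4⟩ := hf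
  have hs : (0 : ℝ) < s := hS.trans_le h1
  rw [max_mul_of_nonneg _ _ hs.le]
  refine max_le (h3 u) ?_
  have h5 := hc u v hu
  have h6 : ‖ρ u - ρ v‖ * s ≤ ‖(r : ℂ) - ρ v * s‖ + ‖(r : ℂ) - ρ u * s‖ := by
    have h7 : (ρ u - ρ v) * (s : ℂ) = ((r : ℂ) - ρ v * s) - ((r : ℂ) - ρ u * s) := by ring
    have h8 : ‖(ρ u - ρ v) * (s : ℂ)‖ = ‖ρ u - ρ v‖ * s := by
      rw [norm_mul]
      congr 1
      rw [Complex.norm_intCast, abs_of_pos hs]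
    rw [← h8, h7]
    exact norm_sub_le _ _
  have h9 := h3 u
  have h10 : 3 * c * s ≤ ‖ρ u - ρ v‖ * s := mul_le_mul_of_nonneg_right h5 hs.le
  nlinarith

private theorem alrg_qf {A B : ℤ} {ρ : Fin 3 → ℂ} (hρ : Roots A B ρ) {e : ℤ} (he : ρ 0 = e) (r s : ℤ) :
    |((Qf A e r s : ℤ) : ℝ)| = ‖(r : ℂ) - ρ 1 * s‖ * ‖(r : ℂ) - ρ 2 * s‖ := by
  have h0 := hρ.fac 0
  have h1 := hρ.fac 1
  have h2 := hρ.fac (-1)
  have hs : ρ 0 + ρ 1 + ρ 2 = 0 := by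
    linear_combination (1 / 2 : ℂ) * h1 + (1 / 2 : ℂ) * h2 - h0
  have ha : ρ 0 * ρ 1 + ρ 0 * ρ 2 + ρ 1 * ρ 2 = A := by
    linear_combination (-1 / 2 : ℂ) * h1 + (1 / 2 : ℂ) * h2
  rw [he] at hs ha
  have h3 : ρ 1 * ρ 2 = e ^ 2 + A := by linear_combination ha - (e : ℂ) * hs
  have h4 : ((Qf A e r s : ℤ) : ℂ) = ((r : ℂ) - ρ 1 * s) * ((r : ℂ) - ρ 2 * s) := by
    unfold Qf
    push_cast
    linear_combination (r : ℂ) * s * hs - (s : ℂ) ^ 2 * h3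
  rw [← norm_mul, ← h4, Complex.norm_intCast]

/-- the real estimate: `k = a₀ / |a₁|`, `X = |x - e|` -/
private theorem alrg_real0 {c S lam G Z k X X' u u' : ℝ} (hc : 0 < c) (hlam : 0 < lam)
    (hk : 0 < k) (hu : 0 < u) (hu' : 0 < u') (h1 : u ^ 2 = k * X)
    (h1' : u' ^ 2 = k * X') (h2 : X ≤ 2 * lam) (h2' : X' ≤ 2 * lam)
    (h3 : (max lam c * S) ^ 2 ≤ 8 * G * Z ^ 2) :
    (u - u') ^ 2 * S ^ 2 ≤ 64 / c * k * G * Z ^ 2 := by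
  have hm : lam ≤ max lam c := le_max_left _ _
  have hm' : c ≤ max lam c := le_max_right _ _
  set m := max lam c with hmdef
  have hm0 : 0 < m := hc.trans_le hm'
  have h4 : (u - u') ^ 2 ≤ k * (2 * lam) := by
    rcases le_total u u' with h | h
    · have : (u - u') ^ 2 ≤ u' ^ 2 := by nlinarith
      have h5 : k * X' ≤ k * (2 * lam) := mul_le_mul_of_nonneg_left h2' hk.le
      linarith
    · have : (u - u') ^ 2 ≤ u ^ 2 := by nlinarith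
      have h5 : k * X ≤ k * (2 * lam) := mul_le_mul_of_nonneg_left h2 hk.le
      linarith
  have h5 : lam * c * S ^ 2 ≤ 8 * G * Z ^ 2 := by
    have : lam * c ≤ m ^ 2 := by nlinarith
    calc lam * c * S ^ 2 ≤ m ^ 2 * S ^ 2 := mul_le_mul_of_nonneg_right this (sq_nonneg S)
      _ = (m * S) ^ 2 := by ring
      _ ≤ _ := h3
  calc (u - u') ^ 2 * S ^ 2 ≤ k * (2 * lam) * S ^ 2 := mul_le_mul_of_nonneg_right h4 (sq_nonneg S)
    _ = 2 * k / c * (lam * c * S ^ 2) := by field_simp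
    _ ≤ 2 * k / c * (8 * G * Z ^ 2) := mul_le_mul_of_nonneg_left h5 (by positivity)
    _ ≤ 64 / c * k * G * Z ^ 2 := by
      have hGZ : 0 ≤ 8 * G * Z ^ 2 := (sq_nonneg _).trans h3
      have : 64 / c * k * G * Z ^ 2 - 2 * k / c * (8 * G * Z ^ 2) = 6 * k / c * (8 * G * Z ^ 2) := by ring
      have h6 : 0 ≤ 6 * k / c * (8 * G * Z ^ 2) := by positivity
      linarith

private theorem alrg_real1 {c S lam G Z k X X' u u' : ℝ} (hc : 0 < c) (hlam : 0 < lam)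
    (hk : 0 < k) (hu : 0 < u) (hu' : 0 < u') (h1 : u ^ 2 = k * X)
    (h1' : u' ^ 2 = k * X') (h2 : max lam c ≤ X) (h2' : max lam c ≤ X') (h4 : |X - X'| ≤ 4 * lam)
    (h3 : lam * S * (max lam c * S) ≤ 8 * G * Z ^ 2) :
    (u - u') ^ 2 * S ^ 2 ≤ 64 / c * k * G * Z ^ 2 := by
  have hm : lam ≤ max lam c := le_max_left _ _
  have hm' : c ≤ max lam c := le_max_right _ _
  set m := max lam c with hmdef
  have hm0 : 0 < m := hc.trans_le hm'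
  have h5 : 2 * k * m ≤ (u + u') ^ 2 := by
    have a1 : k * m ≤ k * X := mul_le_mul_of_nonneg_left h2 hk.le
    have a2 : k * m ≤ k * X' := mul_le_mul_of_nonneg_left h2' hk.le
    nlinarith [mul_pos hu hu']
  have h6 : (u - u') ^ 2 * (u + u') ^ 2 ≤ k ^ 2 * (16 * lam ^ 2) := by
    have a1 : (u - u') ^ 2 * (u + u') ^ 2 = k ^ 2 * (X - X') ^ 2 := by
      have : (u - u') ^ 2 * (u + u') ^ 2 = (u ^ 2 - u' ^ 2) ^ 2 := by ring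
      rw [this, h1, h1']
      ring
    have a2 : (X - X') ^ 2 ≤ (4 * lam) ^ 2 := sq_le_sq' (by linarith [(abs_le.mp h4).1]) (abs_le.mp h4).2
    rw [a1]
    refine mul_le_mul_of_nonneg_left ?_ (sq_nonneg k)
    linarith
  have h7 : (u - u') ^ 2 * (2 * k * m) ≤ k ^ 2 * (16 * lam ^ 2) :=
    (mul_le_mul_of_nonneg_left h5 (sq_nonneg _)).trans h6
  have h8 : (u - u') ^ 2 * m ≤ 8 * k * lam ^ 2 := by
    have : (2 * k) * ((u - u') ^ 2 * m) ≤ (2 * k) * (8 * k * lam ^ 2) := by nlinarith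
    exact le_of_mul_le_mul_left this (by positivity)
  -- `(u - u')² S² m c ≤ 8 k lam² S² c ≤ 8 k lam (lam m S²) ≤ 8 k m · 8 G Z²`
  have hGZ : 0 ≤ 8 * G * Z ^ 2 := by
    refine le_trans ?_ h3
    have : lam * S * (m * S) = lam * m * S ^ 2 := by ring
    rw [this]
    positivity
  have h9 : (u - u') ^ 2 * S ^ 2 * (m * m) ≤ 8 * k * m * (8 * G * Z ^ 2) := by
    calc (u - u') ^ 2 * S ^ 2 * (m * m) = ((u - u') ^ 2 * m) * (m * S ^ 2) := by ring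
      _ ≤ (8 * k * lam ^ 2) * (m * S ^ 2) := mul_le_mul_of_nonneg_right h8 (by positivity)
      _ = 8 * k * lam * (lam * S * (m * S)) := by ring
      _ ≤ 8 * k * lam * (8 * G * Z ^ 2) := mul_le_mul_of_nonneg_left h3 (by positivity)
      _ ≤ 8 * k * m * (8 * G * Z ^ 2) := by
        refine mul_le_mul_of_nonneg_right ?_ hGZ
        exact mul_le_mul_of_nonneg_left hm (by positivity)
  have h10 : (u - u') ^ 2 * S ^ 2 * m ≤ 8 * k * (8 * G * Z ^ 2) := by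
    have : m * ((u - u') ^ 2 * S ^ 2 * m) ≤ m * (8 * k * (8 * G * Z ^ 2)) := by nlinarith
    exact le_of_mul_le_mul_left this hm0
  have h11 : (u - u') ^ 2 * S ^ 2 * c ≤ 8 * k * (8 * G * Z ^ 2) :=
    (mul_le_mul_of_nonneg_left hm' (by positivity)).trans h10
  have h12 : 64 / c * k * G * Z ^ 2 = 8 * k * (8 * G * Z ^ 2) / c := by ring
  rw [h12, le_div_iff₀ hc]
  exact h11

private theorem alrg_fin {c S G Z k u u' : ℝ} (hc : 0 < c) (hS : 0 < S) (hG : 1 ≤ G) (hZ : 1 ≤ Z)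
    (hk : 0 < k) (h : (u - u') ^ 2 * S ^ 2 ≤ 64 / c * k * G * Z ^ 2) :
    |u - u'| ≤ 8 / √c * √k * √G * Z / S := by
  have hc' : 0 < √c := Real.sqrt_pos.mpr hc
  have h0 : 0 ≤ 8 / √c * √k * √G * Z / S := by positivity
  refine abs_le_of_sq_le_sq ?_ h0
  have e1 : (8 / √c * √k * √G * Z / S) ^ 2 = 64 / c * k * G * Z ^ 2 / S ^ 2 := by
    have a1 : (√c) ^ 2 = c := Real.sq_sqrt hc.le
    have a2 : (√k) ^ 2 = k := Real.sq_sqrt hk.le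
    have a3 : (√G) ^ 2 = G := Real.sq_sqrt (by linarith)
    calc (8 / √c * √k * √G * Z / S) ^ 2 = 64 / (√c) ^ 2 * (√k) ^ 2 * (√G) ^ 2 * Z ^ 2 / S ^ 2 := by
          rw [div_pow, mul_pow, mul_pow, mul_pow, div_pow]
          norm_num
      _ = _ := by rw [a1, a2, a3]
  rw [e1, le_div_iff₀ (by positivity)]
  exact h

/-- the identity `u² = k |x - e|` and the bounds of a pair of the fiber -/
private theorem alrg_pt {a₀ a₁ r s y₀ y₁ e : ℤ} (ha0 : 0 < a₀) (ha1 : a₁ ≠ 0) (hy0 : 0 < y₀)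
    (hs : s = a₀ * y₀ ^ 2) (hr : r - e * s = a₁ * y₁ ^ 2) :
    ((y₁ : ℝ) / y₀) ^ 2 = (a₀ : ℝ) / |(a₁ : ℝ)| * |(r : ℝ) / s - e| := by
  have h1 : (s : ℝ) = a₀ * y₀ ^ 2 := by exact_mod_cast hs
  have h2 : (r : ℝ) - e * s = a₁ * y₁ ^ 2 := by exact_mod_cast hr
  have ha0' : (0 : ℝ) < a₀ := by exact_mod_cast ha0
  have hy0' : (0 : ℝ) < y₀ := by exact_mod_cast hy0
  have ha1' : (a₁ : ℝ) ≠ 0 := by exact_mod_cast ha1
  have ha1'' : 0 < |(a₁ : ℝ)| := abs_pos.mpr ha1'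
  have hs' : (0 : ℝ) < s := by rw [h1]; positivity
  have h3 : (r : ℝ) / s - e = a₁ * y₁ ^ 2 / s := by
    rw [← h2]
    field_simp
  rw [h3, abs_div, abs_mul, abs_of_pos hs', abs_of_nonneg (sq_nonneg (y₁ : ℝ)), h1]
  field_simp

theorem alrg {A B : ℤ} {ρ : Fin 3 → ℂ} (hρ : Roots A B ρ) {e : ℤ} (he : ρ 0 = e) :
    ∃ C : ℝ, 0 < C ∧ ∀ (v : Fin 3) (S lam G Z : ℝ), 0 < S → 0 < lam → 1 ≤ G → 1 ≤ Z →
    ∀ (a₀ a₁ : ℤ), 0 < a₀ → a₁ ≠ 0 → ∀ (r s y₀ y₁ r' s' y₀' y₁' : ℤ),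
    0 < y₀ → 0 < y₁ → 0 < y₀' → 0 < y₁' → s = a₀ * y₀ ^ 2 → r - e * s = a₁ * y₁ ^ 2 →
    s' = a₀ * y₀' ^ 2 → r' - e * s' = a₁ * y₁' ^ 2 → Fib ρ v S lam r s → Fib ρ v S lam r' s' →
    |((Qf A e r s : ℤ) : ℝ)| ≤ 8 * G * Z ^ 2 →
    |(y₁ : ℝ) / y₀ - (y₁' : ℝ) / y₀'| ≤ C * √((a₀ : ℝ) / |(a₁ : ℝ)|) * √G * Z / S := by
  obtain ⟨c, hc, hcc⟩ := alrg_c0 hρ
  refine ⟨8 / √c, by positivity, ?_⟩
  intro v S lam G Z hS hlam hG hZ a₀ a₁ ha0 ha1 r s y₀ y₁ r' s' y₀' y₁' hy0 hy1 hy0' hy1' hs hr hs' hr'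
    hf hf' hQ
  have ha0' : (0 : ℝ) < a₀ := by exact_mod_cast ha0
  have ha1' : 0 < |(a₁ : ℝ)| := abs_pos.mpr (by exact_mod_cast ha1)
  have hk : 0 < (a₀ : ℝ) / |(a₁ : ℝ)| := by positivity
  have hu : 0 < (y₁ : ℝ) / y₀ := by
    have a1 : (0 : ℝ) < y₁ := by exact_mod_cast hy1
    have a2 : (0 : ℝ) < y₀ := by exact_mod_cast hy0
    positivity
  have hu' : 0 < (y₁' : ℝ) / y₀' := by
    have a1 : (0 : ℝ) < y₁' := by exact_mod_cast hy1'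
    have a2 : (0 : ℝ) < y₀' := by exact_mod_cast hy0'
    positivity
  have e1 := alrg_pt (r := r) ha0 ha1 hy0 hs hr
  have e1' := alrg_pt (r := r') ha0 ha1 hy0' hs' hr'
  have hsp : (0 : ℝ) < s := hS.trans_le hf.1
  have hsp' : (0 : ℝ) < s' := hS.trans_le hf'.1
  -- norms of the real root
  have n0 : ∀ r s : ℤ, (0 : ℝ) < s → ‖(r : ℂ) - ρ 0 * s‖ = |(r : ℝ) / s - e| * s := by
    intro r s hs0
    rw [he]
    have a1 : (r : ℂ) - (e : ℂ) * s = ((r - e * s : ℤ) : ℂ) := by push_cast; ring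
    rw [a1, Complex.norm_intCast]
    have a2 : ((r - e * s : ℤ) : ℝ) = ((r : ℝ) / s - e) * s := by
      push_cast
      field_simp
    rw [a2, abs_mul, abs_of_pos hs0]
  have hQ' := hQ
  rw [alrg_qf hρ he] at hQ'
  refine alrg_fin hc hS hG hZ hk ?_
  by_cases hv : v = 0
  · subst hv
    have b1 : |(r : ℝ) / s - e| ≤ 2 * lam := by
      have a1 := hf.2.2.2
      rw [n0 r s hsp] at a1
      exact le_of_mul_le_mul_right a1 hsp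
    have b2 : |(r' : ℝ) / s' - e| ≤ 2 * lam := by
      have a1 := hf'.2.2.2
      rw [n0 r' s' hsp'] at a1
      exact le_of_mul_le_mul_right a1 hsp'
    refine alrg_real0 hc hlam hk hu hu' e1 e1' b1 b2 ?_
    have f1 := alrg_far hcc hS hf (u := 1) (by decide)
    have f2 := alrg_far hcc hS hf (u := 2) (by decide)
    have hm0 : 0 < max lam c := lt_max_of_lt_left hlam
    have f0 : max lam c * S ≤ max lam c * s := mul_le_mul_of_nonneg_left hf.1 hm0.le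
    calc (max lam c * S) ^ 2 = (max lam c * S) * (max lam c * S) := by ring
      _ ≤ ‖(r : ℂ) - ρ 1 * s‖ * ‖(r : ℂ) - ρ 2 * s‖ :=
        mul_le_mul (f0.trans f1) (f0.trans f2) (by positivity) (norm_nonneg _)
      _ ≤ _ := hQ'
  · have f0 := alrg_far hcc hS hf (u := 0) (fun h => hv h.symm)
    have f0' := alrg_far hcc hS hf' (u := 0) (fun h => hv h.symm)
    rw [n0 r s hsp] at f0
    rw [n0 r' s' hsp'] at f0'
    have b1 : max lam c ≤ |(r : ℝ) / s - e| := le_of_mul_le_mul_right f0 hsp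
    have b2 : max lam c ≤ |(r' : ℝ) / s' - e| := le_of_mul_le_mul_right f0' hsp'
    have hm0 : 0 < max lam c := lt_max_of_lt_left hlam
    have b3 : ∀ r s : ℤ, (0 : ℝ) < s → ‖(r : ℂ) - ρ v * s‖ ≤ 2 * lam * s →
        |(r : ℝ) / s - (ρ v).re| ≤ 2 * lam := by
      intro r s hs0 hh
      have a1 : |((r : ℂ) - ρ v * s).re| ≤ ‖(r : ℂ) - ρ v * s‖ := Complex.abs_re_le_norm _
      have a2 : ((r : ℂ) - ρ v * s).re = ((r : ℝ) / s - (ρ v).re) * s := by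
        have : ((r : ℂ) - ρ v * s).re = (r : ℝ) - (ρ v).re * s := by
          simp [Complex.sub_re, Complex.mul_re]
        rw [this]
        field_simp
      rw [a2, abs_mul, abs_of_pos hs0] at a1
      exact le_of_mul_le_mul_right (a1.trans hh) hs0
    have b4 := b3 r s hsp hf.2.2.2
    have b4' := b3 r' s' hsp' hf'.2.2.2
    have b5 : |(|(r : ℝ) / s - e| - |(r' : ℝ) / s' - e|)| ≤ 4 * lam := by
      refine (abs_abs_sub_abs_le_abs_sub _ _).trans ?_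
      rw [abs_le] at b4 b4' ⊢
      constructor <;> linarith [b4.1, b4.2, b4'.1, b4'.2]
    refine alrg_real1 hc hlam hk hu hu' e1 e1' b1 b2 b5 ?_
    have f1 : ∀ u, lam * S ≤ ‖(r : ℂ) - ρ u * s‖ := fun u =>
      (mul_le_mul_of_nonneg_left hf.1 hlam.le).trans (hf.2.2.1 u)
    have f2 : ∀ u, u ≠ v → max lam c * S ≤ ‖(r : ℂ) - ρ u * s‖ := fun u hu =>
      (mul_le_mul_of_nonneg_left hf.1 hm0.le).trans (alrg_far hcc hS hf hu)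
    have hv12 : v = 1 ∨ v = 2 := by
      fin_cases v
      · exact absurd rfl hv
      · left; rfl
      · right; rfl
    rcases hv12 with h | h
    · refine le_trans ?_ hQ'
      exact mul_le_mul (f1 1) (f2 2 (by rw [h]; decide)) (by positivity) (norm_nonneg _)
    · refine le_trans ?_ hQ'
      rw [mul_comm]
      exact mul_le_mul (f2 1 (by rw [h]; decide)) (f1 2) (by positivity) (norm_nonneg _)

end Pool.Agent.H12.EH
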