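import Pool.Agent.H12.EH.Alcl
import Pool.Agent.H12.EH.Alrg
import Pool.Agent.H12.EH.Spc
import Pool.Agent.H92.DivBound

/-!
[H12 EH ACNTA]  One rational root: the count for large `|a₂|`.

Choose `a, y` for every `p ∈ T`; `a₀ > 0` because `s > 0`.  Classify `T` by `(a₀, a₁, z = y₂)`: at most
`2 A₀ · (4 A₁ + 1) · 2 Z ≤ 20 A₀ A₁ Z` classes.  In such a class apply `alcl` with `n = z²` to the set of the pairs
`(y₀, y₁)` (`p ↦ (y₀, y₁)` is injective: `s = a₀ y₀²`, `r = e s + a₁ y₁²`): at most `τ(z²)²` subclasses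
(`divisor_bound`: `≤ C Z^ε`).  Two different points of one subclass: `D = y₁ y₀' - y₁' y₀ ≠ 0` (both positive; `D = 0` gives
`y₁/y₀ = y₁'/y₀'`, so `r/s = r'/s'`, `cross_ne`), `n ∣ κ D`, so `|D| ≥ z² / κ ≥ Z² / κ` and
`|y₁/y₀ - y₁'/y₀'| = |D| / (y₀ y₀') ≥ σ = Z² A₀ / (2 κ S)` as `y₀² = s / a₀ ≤ 2 S / A₀`.
By `alrg` (`|Qf| = |a₂| z² ≤ 2 G (2 Z)²`) all `y₁ / y₀` are in an interval of length
`L = 2 C √(2 A₀ / A₁) √G Z / S`.  `spc`: at most `1 + L / σ ≤ 1 + C' √G / (√(A₀ A₁) Z)` points.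
Total `≤ C Z^ε A₀ A₁ Z (1 + √G / (√(A₀ A₁) Z)) = C Z^ε (A₀ A₁ Z + √(A₀ A₁ G))`.
(`3 e² + A ≠ 0`, `3 e² + 4 A ≠ 0`: `4 A³ + 27 B² = (3 e² + A)² (3 e² + 4 A)` for `B = - e³ - A e`.)
-/

set_option autoImplicit false

namespace Pool.Agent.H12.EH

private theorem acnta_fiber {α β : Type*} [DecidableEq β] (T : Finset α) (f : α → β) (K : Finset β)
    (b k : ℝ) (hb0 : 0 ≤ b) (hf : ∀ a ∈ T, f a ∈ K) (hk : (K.card : ℝ) ≤ k)
    (hb : ∀ c ∈ K, ((T.filter (fun a => f a = c)).card : ℝ) ≤ b) : (T.card : ℝ) ≤ k * b := by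
  have h1 : T.card ≤ ⌊b⌋₊ * K.card :=
    Finset.card_le_mul_card_image_of_maps_to hf _ (fun c hc => Nat.le_floor (hb c hc))
  have h2 : (T.card : ℝ) ≤ (⌊b⌋₊ : ℝ) * K.card := by exact_mod_cast h1
  calc (T.card : ℝ) ≤ (⌊b⌋₊ : ℝ) * K.card := h2
    _ ≤ b * k := mul_le_mul (Nat.floor_le hb0) hk (Nat.cast_nonneg _) hb0
    _ = k * b := mul_comm _ _

private theorem acnta_root {A B : ℤ} (hD : 4 * A ^ 3 + 27 * B ^ 2 ≠ 0) {ρ : Fin 3 → ℂ}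
    (hρ : Roots A B ρ) {e : ℤ} (he : ρ 0 = e) : 3 * e ^ 2 + A ≠ 0 ∧ 3 * e ^ 2 + 4 * A ≠ 0 := by
  have h1 := hρ.fac (e : ℂ)
  rw [he, sub_self, zero_mul, zero_mul] at h1
  have h2 : e ^ 3 + A * e + B = 0 := by exact_mod_cast h1
  have hB : B = -e ^ 3 - A * e := by linarith
  have h3 : 4 * A ^ 3 + 27 * B ^ 2 = (3 * e ^ 2 + A) ^ 2 * (3 * e ^ 2 + 4 * A) := by
    rw [hB]; ring
  rw [h3] at hD
  constructor
  · intro h
    apply hD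
    rw [h]; ring
  · intro h
    apply hD
    rw [h]; ring

private theorem acnta_sub {A e : ℤ} {ρ : Fin 3 → ℂ} {C1 : ℝ} (hC1 : 0 < C1)
    {v : Fin 3} {S lam A₀ A₁ G Z : ℝ} (hS : 0 < S) (hA₀ : 1 ≤ A₀) (hA₁ : 1 ≤ A₁)
    (hG : 1 ≤ G) (hZ : 1 ≤ Z) {α₀ α₁ ζ : ℤ} (hα₀ : A₀ ≤ (α₀ : ℝ)) (hα₀' : (α₀ : ℝ) ≤ 2 * A₀)
    (hα₁ : A₁ ≤ |(α₁ : ℝ)|) (hζ : Z ≤ (ζ : ℝ)) {κ : ℕ} (hκ : 0 < κ)
    (halrg : ∀ (r s y₀ y₁ r' s' y₀' y₁' : ℤ),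
      0 < y₀ → 0 < y₁ → 0 < y₀' → 0 < y₁' → s = α₀ * y₀ ^ 2 → r - e * s = α₁ * y₁ ^ 2 →
      s' = α₀ * y₀' ^ 2 → r' - e * s' = α₁ * y₁' ^ 2 → Fib ρ v S lam r s → Fib ρ v S lam r' s' →
      |((Qf A e r s : ℤ) : ℝ)| ≤ 8 * G * Z ^ 2 →
      |(y₁ : ℝ) / y₀ - (y₁' : ℝ) / y₀'| ≤ C1 * √((α₀ : ℝ) / |(α₁ : ℝ)|) * √G * Z / S)
    (U : Finset (ℤ × ℤ)) (y : ℤ × ℤ → Fin 3 → ℤ)
    (hU : ∀ p ∈ U, IsCoprime p.1 p.2 ∧ 0 < p.2 ∧ Fib ρ v S lam p.1 p.2 ∧ 0 < y p 0 ∧ 0 < y p 1 ∧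
      p.2 = α₀ * y p 0 ^ 2 ∧ p.1 - e * p.2 = α₁ * y p 1 ^ 2 ∧
      |((Qf A e p.1 p.2 : ℤ) : ℝ)| ≤ 8 * G * Z ^ 2)
    (hdiv : ∀ p ∈ U, ∀ q ∈ U, ζ ^ 2 ∣ (κ : ℤ) * (y p 1 * y q 0 - y q 1 * y p 0)) :
    (U.card : ℝ) ≤ 1 + 4 * √2 * κ * C1 * (√G / (√(A₀ * A₁) * Z)) := by
  rcases U.eq_empty_or_nonempty with rfl | ⟨p₀, hp₀⟩
  · rw [Finset.card_empty]
    push_cast
    positivity
  have hA₀0 : 0 < A₀ := by linarith
  have hA₁0 : 0 < A₁ := by linarith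
  have hZ0 : 0 < Z := by linarith
  have hG0 : 0 < G := by linarith
  have hκ0 : (0 : ℝ) < κ := by exact_mod_cast hκ
  set L0 : ℝ := C1 * √(2 * A₀ / A₁) * √G * Z / S with hL0
  set σ : ℝ := A₀ * Z ^ 2 / (2 * κ * S) with hσ
  have hσ0 : 0 < σ := by positivity
  have hL00 : 0 ≤ L0 := by positivity
  have hpair : ∀ p ∈ U, ∀ q ∈ U, |(y p 1 : ℝ) / y p 0 - (y q 1 : ℝ) / y q 0| ≤ L0 := by
    intro p hp q hq
    obtain ⟨-, -, p3, p4, p5, p6, p7, p8⟩ := hU p hp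
    obtain ⟨-, -, q3, q4, q5, q6, q7, -⟩ := hU q hq
    refine (halrg _ _ _ _ _ _ _ _ p4 p5 q4 q5 p6 p7 q6 q7 p3 q3 p8).trans ?_
    have h1 : √((α₀ : ℝ) / |(α₁ : ℝ)|) ≤ √(2 * A₀ / A₁) :=
      Real.sqrt_le_sqrt (div_le_div₀ (by positivity) hα₀' hA₁0 hα₁)
    rw [hL0]
    gcongr
  have hsep : ∀ p ∈ U, ∀ q ∈ U, p ≠ q → σ ≤ |(y p 1 : ℝ) / y p 0 - (y q 1 : ℝ) / y q 0| := by
    intro p hp q hq hpq
    obtain ⟨p1, p2, p3, p4, p5, p6, p7, p8⟩ := hU p hp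
    obtain ⟨q1, q2, q3, q4, q5, q6, q7, -⟩ := hU q hq
    have hD : y p 1 * y q 0 - y q 1 * y p 0 ≠ 0 := by
      intro h
      apply cross_ne p1 q1 p2 q2 hpq
      have h1 : y p 1 * y q 0 = y q 1 * y p 0 := by linarith
      have h2 : (p.1 - e * p.2) * q.2 = (q.1 - e * q.2) * p.2 := by
        rw [p7, q7, p6, q6]
        calc α₁ * y p 1 ^ 2 * (α₀ * y q 0 ^ 2) = α₁ * α₀ * (y p 1 * y q 0) ^ 2 := by ring
          _ = α₁ * α₀ * (y q 1 * y p 0) ^ 2 := by rw [h1]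
          _ = _ := by ring
      linarith
    have hκD : (κ : ℤ) * (y p 1 * y q 0 - y q 1 * y p 0) ≠ 0 :=
      mul_ne_zero (by exact_mod_cast hκ.ne') hD
    have h1 : ζ ^ 2 ≤ |(κ : ℤ) * (y p 1 * y q 0 - y q 1 * y p 0)| :=
      Int.le_of_dvd (abs_pos.2 hκD) ((dvd_abs _ _).2 (hdiv p hp q hq))
    have h2 : (ζ : ℝ) ^ 2 ≤ κ * |(y p 1 : ℝ) * y q 0 - y q 1 * y p 0| := by
      have h3 : ((ζ ^ 2 : ℤ) : ℝ) ≤ ((|(κ : ℤ) * (y p 1 * y q 0 - y q 1 * y p 0)| : ℤ) : ℝ) := by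
        exact_mod_cast h1
      push_cast at h3
      rw [abs_mul, abs_of_pos hκ0] at h3
      exact h3
    have h4 : Z ^ 2 ≤ κ * |(y p 1 : ℝ) * y q 0 - y q 1 * y p 0| :=
      (pow_le_pow_left₀ hZ0.le hζ 2).trans h2
    have hy : (0 : ℝ) < y p 0 := by exact_mod_cast p4
    have hy' : (0 : ℝ) < y q 0 := by exact_mod_cast q4
    have hs : A₀ * (y p 0 : ℝ) ^ 2 ≤ 2 * S := by
      have h5 : (p.2 : ℝ) = α₀ * (y p 0 : ℝ) ^ 2 := by exact_mod_cast p6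
      have h6 : (p.2 : ℝ) ≤ 2 * S := p3.2.1
      rw [h5] at h6
      exact (mul_le_mul_of_nonneg_right hα₀ (sq_nonneg _)).trans h6
    have hs' : A₀ * (y q 0 : ℝ) ^ 2 ≤ 2 * S := by
      have h5 : (q.2 : ℝ) = α₀ * (y q 0 : ℝ) ^ 2 := by exact_mod_cast q6
      have h6 : (q.2 : ℝ) ≤ 2 * S := q3.2.1
      rw [h5] at h6
      exact (mul_le_mul_of_nonneg_right hα₀ (sq_nonneg _)).trans h6
    have hss : A₀ * ((y p 0 : ℝ) * y q 0) ≤ 2 * S := by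
      have h7 : (y p 0 : ℝ) * y q 0 ≤ ((y p 0 : ℝ) ^ 2 + (y q 0 : ℝ) ^ 2) / 2 := by
        nlinarith [sq_nonneg ((y p 0 : ℝ) - y q 0)]
      calc A₀ * ((y p 0 : ℝ) * y q 0) ≤ A₀ * (((y p 0 : ℝ) ^ 2 + (y q 0 : ℝ) ^ 2) / 2) :=
            mul_le_mul_of_nonneg_left h7 hA₀0.le
        _ = (A₀ * (y p 0 : ℝ) ^ 2 + A₀ * (y q 0 : ℝ) ^ 2) / 2 := by ring
        _ ≤ 2 * S := by linarith
    have e1 : (y p 1 : ℝ) / y p 0 - (y q 1 : ℝ) / y q 0 =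
        ((y p 1 : ℝ) * y q 0 - y q 1 * y p 0) / (y p 0 * y q 0) := by
      field_simp
    rw [e1, abs_div, abs_of_pos (mul_pos hy hy'), le_div_iff₀ (mul_pos hy hy')]
    calc σ * ((y p 0 : ℝ) * y q 0) = Z ^ 2 / (2 * κ * S) * (A₀ * ((y p 0 : ℝ) * y q 0)) := by
          rw [hσ]; ring
      _ ≤ Z ^ 2 / (2 * κ * S) * (2 * S) := mul_le_mul_of_nonneg_left hss (by positivity)
      _ = Z ^ 2 / κ := by field_simp
      _ ≤ |(y p 1 : ℝ) * y q 0 - y q 1 * y p 0| := by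
          rw [div_le_iff₀ hκ0]
          linarith
  have hspc := spc U (fun p => (y p 1 : ℝ) / y p 0) ((y p₀ 1 : ℝ) / y p₀ 0 - L0) (2 * L0) σ hσ0
    (by linarith) (fun p hp => by
      have h := abs_le.1 (hpair p hp p₀ hp₀)
      constructor
      · have := h.1
        linarith
      · have := h.2
        linarith) hsep
  refine hspc.trans (le_of_eq ?_)
  congr 1
  have hw : 0 < √(A₀ * A₁) := Real.sqrt_pos.2 (by positivity)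
  have hw2 : √(A₀ * A₁) ^ 2 = A₀ * A₁ := Real.sq_sqrt (by positivity)
  have h8 : √(2 * A₀ / A₁) = √2 * (A₀ / √(A₀ * A₁)) := by
    have h9 : 2 * A₀ / A₁ = 2 * (A₀ / √(A₀ * A₁)) ^ 2 := by
      rw [div_pow, hw2]
      field_simp
    rw [h9, Real.sqrt_mul (by norm_num), Real.sqrt_sq (by positivity)]
  rw [hL0, hσ, h8]
  field_simp
  ring

theorem acnta {A B : ℤ} (hD : 4 * A ^ 3 + 27 * B ^ 2 ≠ 0) {ρ : Fin 3 → ℂ} (hρ : Roots A B ρ) {e : ℤ}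
    (he : ρ 0 = e) (ε : ℝ) (hε : 0 < ε) : ∃ C : ℝ, 0 < C ∧
    ∀ (v : Fin 3) (S lam A₀ A₁ G Z : ℝ), 0 < S → 0 < lam → 1 ≤ A₀ → 1 ≤ A₁ → 1 ≤ G → 1 ≤ Z →
    ∀ T : Finset (ℤ × ℤ), (∀ p ∈ T, IsCoprime p.1 p.2 ∧ 0 < p.2 ∧ Fib ρ v S lam p.1 p.2 ∧
      ∃ a y : Fin 3 → ℤ, (∀ i, 0 < y i) ∧ p.2 = a 0 * y 0 ^ 2 ∧ p.1 - e * p.2 = a 1 * y 1 ^ 2 ∧
        Qf A e p.1 p.2 = a 2 * y 2 ^ 2 ∧ A₀ ≤ |(a 0 : ℝ)| ∧ |(a 0 : ℝ)| ≤ 2 * A₀ ∧ A₁ ≤ |(a 1 : ℝ)| ∧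
        |(a 1 : ℝ)| ≤ 2 * A₁ ∧ G ≤ |(a 2 : ℝ)| ∧ |(a 2 : ℝ)| ≤ 2 * G ∧ Z ≤ y 2 ∧ (y 2 : ℝ) ≤ 2 * Z) →
    (T.card : ℝ) ≤ C * Z ^ ε * (A₀ * A₁ * Z + √(A₀ * A₁ * G)) := by
  classical
  obtain ⟨h1, h2⟩ := acnta_root hD hρ he
  obtain ⟨κ, hκ, hcl⟩ := alcl h1 h2
  obtain ⟨C1, hC1, hrg⟩ := alrg hρ he
  obtain ⟨Cd, hCd, hdb⟩ := Pool.Agent.H5.W.divisor_bound (ε / 4) (by positivity)
  have hκ0 : (0 : ℝ) < κ := by exact_mod_cast hκ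
  set Cx : ℝ := 4 * √2 * κ * C1 with hCx
  have hCx0 : 0 < Cx := by positivity
  refine ⟨20 * (Cd ^ 2 * 2 ^ ε) * (1 + Cx), by positivity, ?_⟩
  intro v S lam A₀ A₁ G Z hS hlam hA₀ hA₁ hG hZ T hT
  have hA₀0 : 0 < A₀ := by linarith
  have hA₁0 : 0 < A₁ := by linarith
  have hZ0 : 0 < Z := by linarith
  have hG0 : 0 < G := by linarith
  have h4 : ∀ p ∈ T, ∃ a y : Fin 3 → ℤ, (∀ i, 0 < y i) ∧ p.2 = a 0 * y 0 ^ 2 ∧
      p.1 - e * p.2 = a 1 * y 1 ^ 2 ∧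
        Qf A e p.1 p.2 = a 2 * y 2 ^ 2 ∧ A₀ ≤ |(a 0 : ℝ)| ∧ |(a 0 : ℝ)| ≤ 2 * A₀ ∧ A₁ ≤ |(a 1 : ℝ)| ∧
        |(a 1 : ℝ)| ≤ 2 * A₁ ∧ G ≤ |(a 2 : ℝ)| ∧ |(a 2 : ℝ)| ≤ 2 * G ∧ Z ≤ y 2 ∧
        (y 2 : ℝ) ≤ 2 * Z := fun p hp => (hT p hp).2.2.2
  choose! a y hy hs hr hQ b1 b2 b3 b4 b5 b6 b7 b8 using h4
  have hcop : ∀ p ∈ T, IsCoprime p.1 p.2 := fun p hp => (hT p hp).1
  have hpos : ∀ p ∈ T, 0 < p.2 := fun p hp => (hT p hp).2.1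
  have hfib : ∀ p ∈ T, Fib ρ v S lam p.1 p.2 := fun p hp => (hT p hp).2.2.1
  have ha0 : ∀ p ∈ T, 0 < a p 0 := by
    intro p hp
    have h5 := hpos p hp
    rw [hs p hp] at h5
    exact pos_of_mul_pos_left h5 (sq_nonneg _)
  have hQb : ∀ p ∈ T, |((Qf A e p.1 p.2 : ℤ) : ℝ)| ≤ 8 * G * Z ^ 2 := by
    intro p hp
    rw [hQ p hp]
    push_cast
    rw [abs_mul, abs_of_nonneg (sq_nonneg (y p 2 : ℝ))]
    have hy2 : (0 : ℝ) ≤ y p 2 := by exact_mod_cast (hy p hp 2).le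
    calc |(a p 2 : ℝ)| * (y p 2 : ℝ) ^ 2 ≤ (2 * G) * (2 * Z) ^ 2 :=
          mul_le_mul (b6 p hp) (pow_le_pow_left₀ hy2 (b8 p hp) 2) (sq_nonneg _) (by positivity)
      _ = 8 * G * Z ^ 2 := by ring
  -- the classes
  set K : Finset (ℤ × ℤ × ℤ) := Finset.Icc 1 ⌊2 * A₀⌋ ×ˢ (Finset.Icc (-⌊2 * A₁⌋) ⌊2 * A₁⌋ ×ˢ
    Finset.Icc 1 ⌊2 * Z⌋) with hK
  have hKc : (K.card : ℝ) ≤ 20 * (A₀ * A₁ * Z) := by
    have e0 : (1 : ℤ) ≤ ⌊2 * A₀⌋ := Int.le_floor.2 (by push_cast; linarith)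
    have e1 : (1 : ℤ) ≤ ⌊2 * A₁⌋ := Int.le_floor.2 (by push_cast; linarith)
    have e2 : (1 : ℤ) ≤ ⌊2 * Z⌋ := Int.le_floor.2 (by push_cast; linarith)
    have c0 : ((Finset.Icc 1 ⌊2 * A₀⌋).card : ℝ) ≤ 2 * A₀ := by
      rw [Int.card_Icc]
      have : (((⌊2 * A₀⌋ + 1 - 1).toNat : ℤ) : ℝ) = ((⌊2 * A₀⌋ : ℤ) : ℝ) := by
        rw [Int.toNat_of_nonneg (by linarith)]; push_cast; ring
      have h6 : (((⌊2 * A₀⌋ + 1 - 1).toNat : ℕ) : ℝ) = ((⌊2 * A₀⌋ : ℤ) : ℝ) := by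
        exact_mod_cast this
      rw [h6]
      exact Int.floor_le _
    have c1 : ((Finset.Icc (-⌊2 * A₁⌋) ⌊2 * A₁⌋).card : ℝ) ≤ 5 * A₁ := by
      rw [Int.card_Icc]
      have : (((⌊2 * A₁⌋ + 1 - (-⌊2 * A₁⌋)).toNat : ℤ) : ℝ) = 2 * ((⌊2 * A₁⌋ : ℤ) : ℝ) + 1 := by
        rw [Int.toNat_of_nonneg (by linarith)]; push_cast; ring
      have h6 : (((⌊2 * A₁⌋ + 1 - (-⌊2 * A₁⌋)).toNat : ℕ) : ℝ) = 2 * ((⌊2 * A₁⌋ : ℤ) : ℝ) + 1 := by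
        exact_mod_cast this
      rw [h6]
      have := Int.floor_le (2 * A₁)
      linarith
    have c2 : ((Finset.Icc 1 ⌊2 * Z⌋).card : ℝ) ≤ 2 * Z := by
      rw [Int.card_Icc]
      have : (((⌊2 * Z⌋ + 1 - 1).toNat : ℤ) : ℝ) = ((⌊2 * Z⌋ : ℤ) : ℝ) := by
        rw [Int.toNat_of_nonneg (by linarith)]; push_cast; ring
      have h6 : (((⌊2 * Z⌋ + 1 - 1).toNat : ℕ) : ℝ) = ((⌊2 * Z⌋ : ℤ) : ℝ) := by
        exact_mod_cast this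
      rw [h6]
      exact Int.floor_le _
    rw [hK, Finset.card_product, Finset.card_product]
    push_cast
    calc ((Finset.Icc 1 ⌊2 * A₀⌋).card : ℝ) * (((Finset.Icc (-⌊2 * A₁⌋) ⌊2 * A₁⌋).card : ℝ) *
          ((Finset.Icc 1 ⌊2 * Z⌋).card : ℝ)) ≤ (2 * A₀) * ((5 * A₁) * (2 * Z)) := by
          gcongr
      _ = 20 * (A₀ * A₁ * Z) := by ring
  set bs : ℝ := 1 + Cx * (√G / (√(A₀ * A₁) * Z)) with hbs
  have hbs0 : 0 ≤ bs := by positivity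
  set bt : ℝ := Cd ^ 2 * 2 ^ ε * Z ^ ε with hbt
  have hbt0 : 0 ≤ bt := by positivity
  have hmain : (T.card : ℝ) ≤ 20 * (A₀ * A₁ * Z) * (bt * bs) := by
    refine acnta_fiber T (fun p => (a p 0, a p 1, y p 2)) K _ _ (mul_nonneg hbt0 hbs0) ?_ hKc ?_
    · intro p hp
      rw [hK, Finset.mem_product, Finset.mem_product, Finset.mem_Icc, Finset.mem_Icc,
        Finset.mem_Icc]
      refine ⟨⟨ha0 p hp, Int.le_floor.2 ?_⟩, ⟨?_, Int.le_floor.2 ?_⟩, hy p hp 2,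
        Int.le_floor.2 (b8 p hp)⟩
      · exact (le_abs_self _).trans (b2 p hp)
      · have h7 : -a p 1 ≤ ⌊2 * A₁⌋ := Int.le_floor.2 (by
          push_cast
          exact (neg_le_abs _).trans (b4 p hp))
        simp only
        linarith
      · exact (le_abs_self _).trans (b4 p hp)
    · rintro ⟨α₀, α₁, ζ⟩ hc
      rw [hK, Finset.mem_product, Finset.mem_product, Finset.mem_Icc, Finset.mem_Icc,
        Finset.mem_Icc] at hc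
      obtain ⟨⟨hα, -⟩, -, hζ1, -⟩ := hc
      simp only at hα hζ1
      set Tc : Finset (ℤ × ℤ) := T.filter (fun p => (a p 0, a p 1, y p 2) = (α₀, α₁, ζ)) with hTc
      rcases Tc.eq_empty_or_nonempty with hTe | ⟨p₁, hp₁⟩
      · rw [hTe, Finset.card_empty]
        push_cast
        exact mul_nonneg hbt0 hbs0
      have hmem : ∀ p ∈ Tc, p ∈ T ∧ a p 0 = α₀ ∧ a p 1 = α₁ ∧ y p 2 = ζ := by
        intro p hp
        rw [hTc, Finset.mem_filter, Prod.mk.injEq, Prod.mk.injEq] at hp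
        exact ⟨hp.1, hp.2.1, hp.2.2.1, hp.2.2.2⟩
      obtain ⟨m1, m2, m3, m4⟩ := hmem p₁ hp₁
      have hα₀ : A₀ ≤ (α₀ : ℝ) := by
        have h8 := b1 p₁ m1
        rw [m2, abs_of_pos (by exact_mod_cast hα)] at h8
        exact h8
      have hα₀' : (α₀ : ℝ) ≤ 2 * A₀ := by
        have h8 := b2 p₁ m1
        rw [m2, abs_of_pos (by exact_mod_cast hα)] at h8
        exact h8
      have hα₁ : A₁ ≤ |(α₁ : ℝ)| := by
        have h8 := b3 p₁ m1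
        rwa [m3] at h8
      have hζ : Z ≤ (ζ : ℝ) := by
        have h8 := b7 p₁ m1
        rwa [m4] at h8
      have hζ' : (ζ : ℝ) ≤ 2 * Z := by
        have h8 := b8 p₁ m1
        rwa [m4] at h8
      have hα₁0 : α₁ ≠ 0 := by
        intro h9
        rw [h9] at hα₁
        push_cast at hα₁
        rw [abs_zero] at hα₁
        linarith
      have hζ0 : (0 : ℤ) < ζ := hζ1
      set z : ℕ := ζ.toNat with hz
      have hzζ : (z : ℤ) = ζ := Int.toNat_of_nonneg hζ0.le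
      have hz0 : 0 < z := by
        have : (0 : ℤ) < z := by rw [hzζ]; exact hζ0
        exact_mod_cast this
      have hn0 : 0 < z ^ 2 := pow_pos hz0 2
      have hzR : (z : ℝ) = ζ := by exact_mod_cast hzζ
      set P : Finset (ℤ × ℤ) := Tc.image (fun p => (y p 0, y p 1)) with hP
      have hrA : ∀ p ∈ Tc, rA e α₀ α₁ (y p 0, y p 1) = p.1 ∧ sA α₀ (y p 0, y p 1) = p.2 := by
        intro p hp
        obtain ⟨n1, n2, n3, n4⟩ := hmem p hp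
        have e3 := hs p n1
        have e4 := hr p n1
        rw [n2] at e3
        rw [n3] at e4
        constructor
        · unfold rA
          simp only
          rw [← e3]
          linarith
        · unfold sA
          exact e3.symm
      obtain ⟨cl, hcl1, hcl2⟩ := hcl α₀ α₁ (z ^ 2) hn0 P (by
        intro q hq
        rw [hP, Finset.mem_image] at hq
        obtain ⟨p, hp, rfl⟩ := hq
        obtain ⟨n1, n2, n3, n4⟩ := hmem p hp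
        obtain ⟨e5, e6⟩ := hrA p hp
        rw [e5, e6]
        refine ⟨hcop p n1, ?_⟩
        rw [hQ p n1, n4]
        push_cast
        rw [hzζ]
        exact Dvd.intro_left _ rfl)
      have hτ : (((z ^ 2).divisors ×ˢ (z ^ 2).divisors).card : ℝ) ≤ bt := by
        rw [Finset.card_product]
        push_cast
        have e7 := hdb (z ^ 2) hn0
        push_cast at e7
        calc ((z ^ 2).divisors.card : ℝ) * ((z ^ 2).divisors.card : ℝ)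
            ≤ (Cd * ((z : ℝ) ^ 2) ^ (ε / 4)) * (Cd * ((z : ℝ) ^ 2) ^ (ε / 4)) :=
              mul_le_mul e7 e7 (Nat.cast_nonneg _) (by positivity)
          _ = Cd ^ 2 * (((z : ℝ) ^ 2) ^ (ε / 4) * ((z : ℝ) ^ 2) ^ (ε / 4)) := by ring
          _ = Cd ^ 2 * (z : ℝ) ^ ε := by
              have hzp : (0 : ℝ) < (z : ℝ) := by exact_mod_cast hz0
              have e16 : ((z : ℝ) ^ 2) ^ (ε / 4) = (z : ℝ) ^ (ε / 2) := by
                rw [← Real.rpow_natCast (z : ℝ) 2, ← Real.rpow_mul hzp.le]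
                congr 1
                push_cast
                ring
              rw [e16, ← Real.rpow_add hzp, add_halves]
          _ ≤ Cd ^ 2 * (2 * Z) ^ ε := by
              have hzp : (0 : ℝ) ≤ (z : ℝ) := Nat.cast_nonneg _
              exact mul_le_mul_of_nonneg_left
                (Real.rpow_le_rpow hzp (by rw [hzR]; exact hζ') hε.le) (by positivity)
          _ = bt := by
              rw [hbt, Real.mul_rpow (by norm_num) hZ0.le]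
              ring
      refine acnta_fiber Tc (fun p => cl (y p 0, y p 1)) ((z ^ 2).divisors ×ˢ (z ^ 2).divisors) bs bt
        hbs0 ?_ hτ ?_
      · intro p hp
        exact hcl1 _ (Finset.mem_image_of_mem _ hp)
      · intro c hc
        rw [hbs, hCx]
        refine acnta_sub (A := A) (e := e) (ρ := ρ) (v := v) (S := S) (lam := lam) (ζ := ζ) hC1 hS
          hA₀ hA₁ hG hZ hα₀ hα₀' hα₁ hζ hκ
          (hrg v S lam G Z hS hlam hG hZ α₀ α₁ hα hα₁0) _ y ?_ ?_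
        · intro p hp
          rw [Finset.mem_filter] at hp
          obtain ⟨n1, n2, n3, n4⟩ := hmem p hp.1
          refine ⟨hcop p n1, hpos p n1, hfib p n1, hy p n1 0, hy p n1 1, ?_, ?_, hQb p n1⟩
          · rw [← n2]; exact hs p n1
          · rw [← n3]; exact hr p n1
        · intro p hp q hq
          rw [Finset.mem_filter] at hp hq
          have e8 := hcl2 _ (Finset.mem_image_of_mem _ hp.1) _ (Finset.mem_image_of_mem _ hq.1)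
            (hp.2.trans hq.2.symm)
          push_cast at e8
          rw [hzζ] at e8
          exact e8
  refine hmain.trans ?_
  have hw : 0 < √(A₀ * A₁) := Real.sqrt_pos.2 (by positivity)
  have hw2 : √(A₀ * A₁) ^ 2 = A₀ * A₁ := Real.sq_sqrt (by positivity)
  have e9 : √(A₀ * A₁ * G) = √(A₀ * A₁) * √G := Real.sqrt_mul (by positivity) _
  have e10 : 20 * (A₀ * A₁ * Z) * (bt * bs) =
      20 * (Cd ^ 2 * 2 ^ ε) * Z ^ ε * (A₀ * A₁ * Z + Cx * √(A₀ * A₁ * G)) := by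
    rw [hbt, hbs, e9]
    have e11 : A₀ * A₁ * Z * (1 + Cx * (√G / (√(A₀ * A₁) * Z))) =
        A₀ * A₁ * Z + Cx * (√(A₀ * A₁) * √G) := by
      have e12 : A₀ * A₁ * Z * (√G / (√(A₀ * A₁) * Z)) = √(A₀ * A₁) * √G := by
        have e17 : ∀ w : ℝ, 0 < w → w ^ 2 = A₀ * A₁ →
            A₀ * A₁ * Z * (√G / (w * Z)) = w * √G := by
          intro w hw' hw2'
          rw [← hw2']
          field_simp
        exact e17 _ hw hw2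
      rw [mul_add, mul_one, ← e12]
      ring
    calc 20 * (A₀ * A₁ * Z) * (Cd ^ 2 * 2 ^ ε * Z ^ ε * (1 + Cx * (√G / (√(A₀ * A₁) * Z))))
        = 20 * (Cd ^ 2 * 2 ^ ε) * Z ^ ε *
          (A₀ * A₁ * Z * (1 + Cx * (√G / (√(A₀ * A₁) * Z)))) := by ring
      _ = _ := by rw [e11]
  rw [e10]
  have e13 : A₀ * A₁ * Z + Cx * √(A₀ * A₁ * G) ≤ (1 + Cx) * (A₀ * A₁ * Z + √(A₀ * A₁ * G)) := by
    have e14 : 0 ≤ Cx * (A₀ * A₁ * Z) := by positivity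
    have e15 : 0 ≤ √(A₀ * A₁ * G) := Real.sqrt_nonneg _
    nlinarith
  calc 20 * (Cd ^ 2 * 2 ^ ε) * Z ^ ε * (A₀ * A₁ * Z + Cx * √(A₀ * A₁ * G))
      ≤ 20 * (Cd ^ 2 * 2 ^ ε) * Z ^ ε * ((1 + Cx) * (A₀ * A₁ * Z + √(A₀ * A₁ * G))) :=
        mul_le_mul_of_nonneg_left e13 (by positivity)
    _ = 20 * (Cd ^ 2 * 2 ^ ε) * (1 + Cx) * Z ^ ε * (A₀ * A₁ * Z + √(A₀ * A₁ * G)) := by ring

end Pool.Agent.H12.EH
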