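import Pool.Agent.H12.EH.Basic

/-!
[H12 EH ALCL]  One rational root: classes of the pairs `(y₀, y₁)` modulo `n`.

`a₀, a₁` fixed.  A pair `p = (y₀, y₁)` gives `s = a₀ y₀²`, `r = e s + a₁ y₁²` (`rsA`), coprime, with `n ∣ Q(r, s)`,
`Q = Qf A e`.  `δ = 3 e² + A`, `δ₂ = 3 e² + 4 A`, both not zero.
Units: `gcd(s, n) = 1` (`Q(r,s) ≡ r² mod s`), so `gcd(a₀, n) = gcd(y₀, n) = 1`; `gcd(r - e s, n) ∣ δ`
(`Q(r,s) ≡ δ s² mod (r - e s)`), so `gcd(a₁, n) ∣ δ` and `gcd(y₁, n) ∣ δ`.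
For two pairs: `N⁻ = r s' - r' s = a₀ a₁ D⁻ D⁺` with `D⁻ = y₁ y₀' - y₁' y₀`, `D⁺ = y₁ y₀' + y₁' y₀`
(`(r - e s) s' - (r' - e s') s = N⁻`), `N⁺ = r s' + r' s + e s s'`, and `N⁻ N⁺ = s'² Q(r,s) - s² Q(r',s') ≡ 0 (mod n)`.
Step 1.  Fix a pair `p₀ ∈ T`, `g₁(p) = gcd(n, N⁻(p₀, p))`.  If `g₁(p) = g₁(p') = g`: `g ∣ N⁻(p₀,p), N⁻(p₀,p')` gives
`g ∣ N⁻(p, p')` (`s₀ N⁻(p,p') = s N⁻(p₀..)...`: `s₀ (r s' - r' s) = s' (r s₀ - r₀ s) - s (r' s₀ - r₀ s')`, `s₀` unit), and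
`n / g ∣ N⁺(p₀,p), N⁺(p₀,p')` gives `n / g ∣ N⁻(p,p')` (`s' N⁺(p₀,p) - s N⁺(p₀,p') = s₀ N⁻(p,p')`).
`h = gcd(g, n/g)` divides `N⁺ ∓ N⁻` of `(p₀, p)`, that is `s₀ (2 r + e s)`, so `2 r + e s`, and `4 Q = (2 r + e s)² + δ₂ s²`,
so `h ∣ δ₂`.  Hence `n ∣ h · lcm(g, n/g) ∣ δ₂ N⁻(p, p') = δ₂ a₀ a₁ D⁻ D⁺`, so `n ∣ κ D⁻ D⁺` with `κ = δ₂ δ`.
Step 2.  In each class of step 1 fix a pair `p₁`, `g₂(p) = gcd(n, D⁻(p₁, p))`, so `n / g₂ ∣ κ D⁺(p₁, p)`.  If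
`g₂(p) = g₂(p') = g`: `g ∣ D⁻(p,p')` and `n/g ∣ κ D⁻(p,p')` by
`y₀⁰ D⁻(p,p') = y₀' D⁻(p, p₁) - y₀ D⁻(p', p₁)` and `y₀⁰ D⁻(p,p') = y₀' D⁺(p₁,p) - y₀ D⁺(p₁,p')` (`y₀⁰` the first coordinate of
`p₁`, a unit).  `h = gcd(g, n/g)` divides `κ (D⁺ ∓ D⁻)(p₁,p) = 2 κ y₁ y₀⁰`, so `2 κ y₁`, so `2 κ δ` (`h ∣ n`, `gcd(y₁,n) ∣ δ`).
So `n ∣ h lcm(g, n/g) ∣ 2 κ δ · κ D⁻(p,p')`.  `cl p = (g₁ p, g₂ p)`, constant `2 κ² δ` (absolute value).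
-/

set_option autoImplicit false

namespace Pool.Agent.H12.EH

/-- `s` for the pair `(y₀, y₁)` -/
def sA (a₀ : ℤ) (p : ℤ × ℤ) : ℤ := a₀ * p.1 ^ 2

/-- `r` for the pair `(y₀, y₁)` -/
def rA (e a₀ a₁ : ℤ) (p : ℤ × ℤ) : ℤ := e * (a₀ * p.1 ^ 2) + a₁ * p.2 ^ 2

private theorem alcl_quot {n : ℕ} (hn : 0 < n) (a b : ℤ) (h : (n : ℤ) ∣ a * b) :
    ((n / Int.gcd n a : ℕ) : ℤ) ∣ b := by
  have h1 : n ∣ a.natAbs * b.natAbs := by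
    rw [← Int.natAbs_mul]
    exact Int.natCast_dvd.1 h
  have hg : Int.gcd n a = Nat.gcd n a.natAbs := by
    rw [Int.gcd_eq_natAbs, Int.natAbs_natCast]
  rw [hg, Int.natCast_dvd]
  have hg0 : 0 < Nat.gcd n a.natAbs := Nat.gcd_pos_of_pos_left _ hn
  have h2 : Nat.Coprime (n / Nat.gcd n a.natAbs) (a.natAbs / Nat.gcd n a.natAbs) :=
    Nat.coprime_div_gcd_div_gcd hg0
  refine h2.dvd_of_dvd_mul_left ?_
  obtain ⟨n', hn'⟩ := Nat.gcd_dvd_left n a.natAbs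
  obtain ⟨a', ha'⟩ := Nat.gcd_dvd_right n a.natAbs
  have e1 : n / Nat.gcd n a.natAbs = n' := Nat.div_eq_of_eq_mul_right hg0 hn'
  have e2 : a.natAbs / Nat.gcd n a.natAbs = a' := Nat.div_eq_of_eq_mul_right hg0 ha'
  rw [e1, e2]
  refine Nat.dvd_of_mul_dvd_mul_left hg0 ?_
  rw [← hn', ← mul_assoc, ← ha']
  exact h1

private theorem alcl_comb {n g : ℕ} (hg : g ∣ n) (hn : 0 < n) (c X : ℤ)
    (h1 : (g : ℤ) ∣ X) (h2 : ((n / g : ℕ) : ℤ) ∣ X)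
    (h3 : ∀ h : ℤ, h ∣ (g : ℤ) → h ∣ ((n / g : ℕ) : ℤ) → h ∣ c) : (n : ℤ) ∣ c * X := by
  have e1 : g * (n / g) = n := Nat.mul_div_cancel' hg
  set m := n / g with hm
  have h4 : ((Nat.gcd g m : ℕ) : ℤ) ∣ c :=
    h3 _ (Int.natCast_dvd_natCast.2 (Nat.gcd_dvd_left _ _))
      (Int.natCast_dvd_natCast.2 (Nat.gcd_dvd_right _ _))
  have h5 : ((Nat.lcm g m : ℕ) : ℤ) ∣ X := by
    rw [Int.natCast_dvd] at h1 h2 ⊢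
    exact Nat.lcm_dvd h1 h2
  have h6 : (n : ℤ) = ((Nat.gcd g m : ℕ) : ℤ) * ((Nat.lcm g m : ℕ) : ℤ) := by
    rw [← Nat.cast_mul, Nat.gcd_mul_lcm, e1]
  rw [h6]
  exact mul_dvd_mul h4 h5

/-- if `h ∣ a X`, `h ∣ n` and all common divisors of `a` and `n` divide `δ` then `h ∣ δ X` -/
private theorem alcl_gcd {n : ℕ} {a δ h X : ℤ} (hn : h ∣ (n : ℤ)) (h1 : h ∣ X * a)
    (h2 : ∀ k : ℤ, k ∣ (n : ℤ) → k ∣ a → k ∣ δ) : h ∣ X * δ := by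
  have h3 : ((Int.gcd n a : ℕ) : ℤ) ∣ δ := h2 _ (Int.gcd_dvd_left ..) (Int.gcd_dvd_right ..)
  have h4 : h ∣ X * ((Int.gcd n a : ℕ) : ℤ) := by
    rw [Int.gcd_eq_gcd_ab, mul_add]
    refine dvd_add ?_ ?_
    · exact dvd_mul_of_dvd_right (dvd_mul_of_dvd_left hn _) _
    · rw [← mul_assoc]
      exact dvd_mul_of_dvd_left h1 _
  exact h4.trans (mul_dvd_mul_left X h3)

/-- what is used of a pair -/
private structure alcl_P (A e a₀ a₁ : ℤ) (n : ℕ) (p : ℤ × ℤ) : Prop where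
  s : IsCoprime (sA a₀ p) (n : ℤ)
  a : IsCoprime a₀ (n : ℤ)
  y : IsCoprime p.1 (n : ℤ)
  d : ∀ h : ℤ, h ∣ (n : ℤ) → h ∣ a₁ * p.2 ^ 2 → h ∣ 3 * e ^ 2 + A
  q : (n : ℤ) ∣ Qf A e (rA e a₀ a₁ p) (sA a₀ p)

private theorem alcl_mk {A e a₀ a₁ : ℤ} {n : ℕ} {p : ℤ × ℤ}
    (h1 : IsCoprime (rA e a₀ a₁ p) (sA a₀ p))
    (h2 : (n : ℤ) ∣ Qf A e (rA e a₀ a₁ p) (sA a₀ p)) : alcl_P A e a₀ a₁ n p := by
  have hsQ : IsCoprime (sA a₀ p) (Qf A e (rA e a₀ a₁ p) (sA a₀ p)) := by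
    have h3 : Qf A e (rA e a₀ a₁ p) (sA a₀ p) = (rA e a₀ a₁ p) ^ 2 +
        (sA a₀ p) * (e * rA e a₀ a₁ p + (e ^ 2 + A) * sA a₀ p) := by
      unfold Qf
      ring
    rw [h3]
    exact (IsCoprime.pow_right h1.symm).add_mul_left_right _
  have hs : IsCoprime (sA a₀ p) (n : ℤ) := hsQ.of_isCoprime_of_dvd_right h2
  have hs' : IsCoprime (a₀ * p.1 ^ 2) (n : ℤ) := hs
  have ha : IsCoprime a₀ (n : ℤ) := hs'.of_mul_left_left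
  have hy : IsCoprime p.1 (n : ℤ) := by
    have := hs'.of_mul_left_right
    rw [pow_two] at this
    exact this.of_mul_left_left
  refine ⟨hs, ha, hy, ?_, h2⟩
  intro h hn hh
  have h3 : Qf A e (rA e a₀ a₁ p) (sA a₀ p) = (3 * e ^ 2 + A) * (sA a₀ p) ^ 2 +
      (a₁ * p.2 ^ 2) * (3 * e * sA a₀ p + a₁ * p.2 ^ 2) := by
    unfold Qf rA sA
    ring
  have h4 : h ∣ (3 * e ^ 2 + A) * (sA a₀ p) ^ 2 := by
    have h5 : h ∣ Qf A e (rA e a₀ a₁ p) (sA a₀ p) := hn.trans h2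
    rw [h3] at h5
    exact (dvd_add_left (dvd_mul_of_dvd_left hh _)).1 h5
  have h6 : IsCoprime h ((sA a₀ p) ^ 2) := IsCoprime.pow_right (hs.of_isCoprime_of_dvd_right hn).symm
  exact h6.dvd_of_dvd_mul_right h4

private def alcl_Nm (e a₀ a₁ : ℤ) (p q : ℤ × ℤ) : ℤ :=
  rA e a₀ a₁ p * sA a₀ q - rA e a₀ a₁ q * sA a₀ p

private def alcl_Np (e a₀ a₁ : ℤ) (p q : ℤ × ℤ) : ℤ :=
  rA e a₀ a₁ p * sA a₀ q + rA e a₀ a₁ q * sA a₀ p + e * sA a₀ p * sA a₀ q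

private def alcl_Dm (p q : ℤ × ℤ) : ℤ := p.2 * q.1 - q.2 * p.1

private def alcl_Dp (p q : ℤ × ℤ) : ℤ := p.2 * q.1 + q.2 * p.1

private theorem alcl_NN {A e a₀ a₁ : ℤ} {n : ℕ} {p q : ℤ × ℤ} (hp : alcl_P A e a₀ a₁ n p)
    (hq : alcl_P A e a₀ a₁ n q) :
    (n : ℤ) ∣ alcl_Nm e a₀ a₁ p q * alcl_Np e a₀ a₁ p q := by
  have h1 : alcl_Nm e a₀ a₁ p q * alcl_Np e a₀ a₁ p q =
      (sA a₀ q) ^ 2 * Qf A e (rA e a₀ a₁ p) (sA a₀ p) -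
      (sA a₀ p) ^ 2 * Qf A e (rA e a₀ a₁ q) (sA a₀ q) := by
    unfold alcl_Nm alcl_Np Qf
    ring
  rw [h1]
  exact dvd_sub (dvd_mul_of_dvd_right hp.q _) (dvd_mul_of_dvd_right hq.q _)

/-- step 1 -/
private theorem alcl_step1 {A e a₀ a₁ : ℤ} {n : ℕ} (hn : 0 < n) {p₀ p q : ℤ × ℤ}
    (h0 : alcl_P A e a₀ a₁ n p₀) (hp : alcl_P A e a₀ a₁ n p) (hq : alcl_P A e a₀ a₁ n q)
    (hpq : Int.gcd n (alcl_Nm e a₀ a₁ p₀ p) = Int.gcd n (alcl_Nm e a₀ a₁ p₀ q)) :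
    (n : ℤ) ∣ (3 * e ^ 2 + 4 * A) * (3 * e ^ 2 + A) * (alcl_Dm p q * alcl_Dp p q) := by
  set g := Int.gcd n (alcl_Nm e a₀ a₁ p₀ p) with hg
  have hgn : g ∣ n := by
    have : (g : ℤ) ∣ (n : ℤ) := Int.gcd_dvd_left ..
    exact Int.natCast_dvd_natCast.1 this
  have hgn' : (g : ℤ) ∣ (n : ℤ) := Int.natCast_dvd_natCast.2 hgn
  have hmn' : ((n / g : ℕ) : ℤ) ∣ (n : ℤ) := Int.natCast_dvd_natCast.2 (Nat.div_dvd_of_dvd hgn)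
  have g1 : (g : ℤ) ∣ alcl_Nm e a₀ a₁ p₀ p := Int.gcd_dvd_right ..
  have g2 : (g : ℤ) ∣ alcl_Nm e a₀ a₁ p₀ q := by
    rw [hpq]
    exact Int.gcd_dvd_right ..
  have m1 : ((n / g : ℕ) : ℤ) ∣ alcl_Np e a₀ a₁ p₀ p := alcl_quot hn _ _ (alcl_NN h0 hp)
  have m2 : ((n / g : ℕ) : ℤ) ∣ alcl_Np e a₀ a₁ p₀ q := by
    rw [hpq]
    exact alcl_quot hn _ _ (alcl_NN h0 hq)
  have g3 : (g : ℤ) ∣ alcl_Nm e a₀ a₁ p q := by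
    have h1 : sA a₀ p₀ * alcl_Nm e a₀ a₁ p q =
        sA a₀ p * alcl_Nm e a₀ a₁ p₀ q - sA a₀ q * alcl_Nm e a₀ a₁ p₀ p := by
      unfold alcl_Nm
      ring
    have h2 : (g : ℤ) ∣ sA a₀ p₀ * alcl_Nm e a₀ a₁ p q := by
      rw [h1]
      exact dvd_sub (dvd_mul_of_dvd_right g2 _) (dvd_mul_of_dvd_right g1 _)
    exact (h0.s.of_isCoprime_of_dvd_right hgn').symm.dvd_of_dvd_mul_left h2
  have m3 : ((n / g : ℕ) : ℤ) ∣ alcl_Nm e a₀ a₁ p q := by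
    have h1 : sA a₀ p₀ * alcl_Nm e a₀ a₁ p q =
        sA a₀ q * alcl_Np e a₀ a₁ p₀ p - sA a₀ p * alcl_Np e a₀ a₁ p₀ q := by
      unfold alcl_Nm alcl_Np
      ring
    have h2 : ((n / g : ℕ) : ℤ) ∣ sA a₀ p₀ * alcl_Nm e a₀ a₁ p q := by
      rw [h1]
      exact dvd_sub (dvd_mul_of_dvd_right m1 _) (dvd_mul_of_dvd_right m2 _)
    exact (h0.s.of_isCoprime_of_dvd_right hmn').symm.dvd_of_dvd_mul_left h2
  have h3 : (n : ℤ) ∣ (3 * e ^ 2 + 4 * A) * alcl_Nm e a₀ a₁ p q := by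
    refine alcl_comb hgn hn _ _ g3 m3 fun h hh1 hh2 => ?_
    have hhn : h ∣ (n : ℤ) := hh1.trans hgn'
    have h4 : h ∣ sA a₀ p₀ * (2 * rA e a₀ a₁ p + e * sA a₀ p) := by
      have h5 : sA a₀ p₀ * (2 * rA e a₀ a₁ p + e * sA a₀ p) =
          alcl_Np e a₀ a₁ p₀ p - alcl_Nm e a₀ a₁ p₀ p := by
        unfold alcl_Nm alcl_Np
        ring
      rw [h5]
      exact dvd_sub (hh2.trans m1) (hh1.trans g1)
    have h6 : h ∣ 2 * rA e a₀ a₁ p + e * sA a₀ p :=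
      (h0.s.of_isCoprime_of_dvd_right hhn).symm.dvd_of_dvd_mul_left h4
    have h7 : h ∣ (3 * e ^ 2 + 4 * A) * (sA a₀ p) ^ 2 := by
      have h8 : (3 * e ^ 2 + 4 * A) * (sA a₀ p) ^ 2 =
          4 * Qf A e (rA e a₀ a₁ p) (sA a₀ p) -
          (2 * rA e a₀ a₁ p + e * sA a₀ p) * (2 * rA e a₀ a₁ p + e * sA a₀ p) := by
        unfold Qf
        ring
      rw [h8]
      exact dvd_sub (dvd_mul_of_dvd_right (hhn.trans hp.q) _) (dvd_mul_of_dvd_left h6 _)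
    have h9 : IsCoprime h ((sA a₀ p) ^ 2) :=
      IsCoprime.pow_right (hp.s.of_isCoprime_of_dvd_right hhn).symm
    exact h9.dvd_of_dvd_mul_right h7
  have h4 : (3 * e ^ 2 + 4 * A) * alcl_Nm e a₀ a₁ p q =
      a₀ * ((3 * e ^ 2 + 4 * A) * (alcl_Dm p q * alcl_Dp p q) * a₁) := by
    unfold alcl_Nm alcl_Dm alcl_Dp rA sA
    ring
  rw [h4] at h3
  have h5 : (n : ℤ) ∣ (3 * e ^ 2 + 4 * A) * (alcl_Dm p q * alcl_Dp p q) * a₁ :=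
    hp.a.symm.dvd_of_dvd_mul_left h3
  have h6 := alcl_gcd (dvd_refl (n : ℤ)) h5
    (fun k hk1 hk2 => hp.d k hk1 (dvd_mul_of_dvd_left hk2 _))
  have h7 : (3 * e ^ 2 + 4 * A) * (3 * e ^ 2 + A) * (alcl_Dm p q * alcl_Dp p q) =
      (3 * e ^ 2 + 4 * A) * (alcl_Dm p q * alcl_Dp p q) * (3 * e ^ 2 + A) := by
    ring
  rw [h7]
  exact h6

/-- step 2 -/
private theorem alcl_step2 {A e a₀ a₁ : ℤ} {n : ℕ} (hn : 0 < n) {p₁ p q : ℤ × ℤ} (κ : ℤ)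
    (h1 : alcl_P A e a₀ a₁ n p₁) (hp : alcl_P A e a₀ a₁ n p)
    (k1 : (n : ℤ) ∣ κ * (alcl_Dm p₁ p * alcl_Dp p₁ p))
    (k2 : (n : ℤ) ∣ κ * (alcl_Dm p₁ q * alcl_Dp p₁ q))
    (hpq : Int.gcd n (alcl_Dm p₁ p) = Int.gcd n (alcl_Dm p₁ q)) :
    (n : ℤ) ∣ (2 * κ * (3 * e ^ 2 + A)) * (κ * alcl_Dm p q) := by
  set g := Int.gcd n (alcl_Dm p₁ p) with hg
  have hgn : g ∣ n := by
    have : (g : ℤ) ∣ (n : ℤ) := Int.gcd_dvd_left ..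
    exact Int.natCast_dvd_natCast.1 this
  have hgn' : (g : ℤ) ∣ (n : ℤ) := Int.natCast_dvd_natCast.2 hgn
  have hmn' : ((n / g : ℕ) : ℤ) ∣ (n : ℤ) := Int.natCast_dvd_natCast.2 (Nat.div_dvd_of_dvd hgn)
  have g1 : (g : ℤ) ∣ alcl_Dm p₁ p := Int.gcd_dvd_right ..
  have g2 : (g : ℤ) ∣ alcl_Dm p₁ q := by
    rw [hpq]
    exact Int.gcd_dvd_right ..
  have m1 : ((n / g : ℕ) : ℤ) ∣ κ * alcl_Dp p₁ p := by
    refine alcl_quot hn _ _ ?_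
    have : alcl_Dm p₁ p * (κ * alcl_Dp p₁ p) = κ * (alcl_Dm p₁ p * alcl_Dp p₁ p) := by ring
    rw [this]
    exact k1
  have m2 : ((n / g : ℕ) : ℤ) ∣ κ * alcl_Dp p₁ q := by
    rw [hpq]
    refine alcl_quot hn _ _ ?_
    have : alcl_Dm p₁ q * (κ * alcl_Dp p₁ q) = κ * (alcl_Dm p₁ q * alcl_Dp p₁ q) := by ring
    rw [this]
    exact k2
  have g3 : (g : ℤ) ∣ κ * alcl_Dm p q := by
    have h2 : (g : ℤ) ∣ p₁.1 * alcl_Dm p q := by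
      have h3 : p₁.1 * alcl_Dm p q = p.1 * alcl_Dm p₁ q - q.1 * alcl_Dm p₁ p := by
        unfold alcl_Dm
        ring
      rw [h3]
      exact dvd_sub (dvd_mul_of_dvd_right g2 _) (dvd_mul_of_dvd_right g1 _)
    exact dvd_mul_of_dvd_right
      ((h1.y.of_isCoprime_of_dvd_right hgn').symm.dvd_of_dvd_mul_left h2) _
  have m3 : ((n / g : ℕ) : ℤ) ∣ κ * alcl_Dm p q := by
    have h2 : ((n / g : ℕ) : ℤ) ∣ p₁.1 * (κ * alcl_Dm p q) := by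
      have h3 : p₁.1 * (κ * alcl_Dm p q) =
          q.1 * (κ * alcl_Dp p₁ p) - p.1 * (κ * alcl_Dp p₁ q) := by
        unfold alcl_Dm alcl_Dp
        ring
      rw [h3]
      exact dvd_sub (dvd_mul_of_dvd_right m1 _) (dvd_mul_of_dvd_right m2 _)
    exact (h1.y.of_isCoprime_of_dvd_right hmn').symm.dvd_of_dvd_mul_left h2
  refine alcl_comb hgn hn _ _ g3 m3 fun h hh1 hh2 => ?_
  have hhn : h ∣ (n : ℤ) := hh1.trans hgn'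
  have h4 : h ∣ p₁.1 * (2 * κ * p.2) := by
    have h5 : p₁.1 * (2 * κ * p.2) = κ * alcl_Dp p₁ p - κ * alcl_Dm p₁ p := by
      unfold alcl_Dm alcl_Dp
      ring
    rw [h5]
    exact dvd_sub (hh2.trans m1) (dvd_mul_of_dvd_right (hh1.trans g1) _)
  have h6 : h ∣ 2 * κ * p.2 := (h1.y.of_isCoprime_of_dvd_right hhn).symm.dvd_of_dvd_mul_left h4
  exact alcl_gcd hhn h6 (fun k hk1 hk2 => hp.d k hk1
    (dvd_mul_of_dvd_right (hk2.trans (dvd_pow_self _ two_ne_zero)) _))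

theorem alcl {A e : ℤ} (h1 : 3 * e ^ 2 + A ≠ 0) (h2 : 3 * e ^ 2 + 4 * A ≠ 0) : ∃ κ : ℕ, 0 < κ ∧
    ∀ (a₀ a₁ : ℤ) (n : ℕ), 0 < n → ∀ T : Finset (ℤ × ℤ),
    (∀ p ∈ T, IsCoprime (rA e a₀ a₁ p) (sA a₀ p) ∧ (n : ℤ) ∣ Qf A e (rA e a₀ a₁ p) (sA a₀ p)) →
    ∃ cl : ℤ × ℤ → ℕ × ℕ, (∀ p ∈ T, cl p ∈ n.divisors ×ˢ n.divisors) ∧
      ∀ p ∈ T, ∀ q ∈ T, cl p = cl q → (n : ℤ) ∣ κ * (p.2 * q.1 - q.2 * p.1) := by
  classical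
  set κ : ℤ := (3 * e ^ 2 + 4 * A) * (3 * e ^ 2 + A) with hκ
  have hκ0 : 2 * κ * (3 * e ^ 2 + A) * κ ≠ 0 := by
    have : κ ≠ 0 := mul_ne_zero h2 h1
    exact mul_ne_zero (mul_ne_zero (mul_ne_zero two_ne_zero this) h1) this
  refine ⟨(2 * κ * (3 * e ^ 2 + A) * κ).natAbs, Int.natAbs_pos.2 hκ0, ?_⟩
  intro a₀ a₁ n hn T hT
  rcases T.eq_empty_or_nonempty with hT0 | ⟨p₀, hp₀⟩
  · subst hT0
    exact ⟨fun _ => (1, 1), fun p hp => absurd hp (Finset.notMem_empty p),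
      fun p hp => absurd hp (Finset.notMem_empty p)⟩
  have hP : ∀ p ∈ T, alcl_P A e a₀ a₁ n p := fun p hp => alcl_mk (hT p hp).1 (hT p hp).2
  set g₁ : ℤ × ℤ → ℕ := fun p => Int.gcd n (alcl_Nm e a₀ a₁ p₀ p) with hg₁
  set rep : ℕ → ℤ × ℤ := fun g => if h : ∃ p ∈ T, g₁ p = g then h.choose else p₀ with hrep
  have hrep1 : ∀ p ∈ T, rep (g₁ p) ∈ T ∧ g₁ (rep (g₁ p)) = g₁ p := by
    intro p hp
    have h3 : ∃ q ∈ T, g₁ q = g₁ p := ⟨p, hp, rfl⟩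
    have h4 : rep (g₁ p) = h3.choose := by
      simp only [hrep]
      rw [dif_pos h3]
    rw [h4]
    exact h3.choose_spec
  refine ⟨fun p => (g₁ p, Int.gcd n (alcl_Dm (rep (g₁ p)) p)), ?_, ?_⟩
  · intro p _
    have h3 : ∀ x : ℤ, Int.gcd n x ∈ n.divisors := by
      intro x
      rw [Nat.mem_divisors]
      refine ⟨?_, hn.ne'⟩
      have : ((Int.gcd n x : ℕ) : ℤ) ∣ (n : ℤ) := Int.gcd_dvd_left ..
      exact Int.natCast_dvd_natCast.1 this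
    exact Finset.mem_product.2 ⟨h3 _, h3 _⟩
  · intro p hp q hq hpq
    have e1 : g₁ p = g₁ q := congrArg Prod.fst hpq
    have e2 : Int.gcd n (alcl_Dm (rep (g₁ p)) p) = Int.gcd n (alcl_Dm (rep (g₁ q)) q) :=
      congrArg Prod.snd hpq
    rw [← e1] at e2
    obtain ⟨hr1, hr2⟩ := hrep1 p hp
    have k1 : (n : ℤ) ∣ κ * (alcl_Dm (rep (g₁ p)) p * alcl_Dp (rep (g₁ p)) p) :=
      alcl_step1 hn (hP p₀ hp₀) (hP _ hr1) (hP p hp) hr2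
    have k2 : (n : ℤ) ∣ κ * (alcl_Dm (rep (g₁ p)) q * alcl_Dp (rep (g₁ p)) q) :=
      alcl_step1 hn (hP p₀ hp₀) (hP _ hr1) (hP q hq) (hr2.trans e1)
    have h3 := alcl_step2 hn κ (hP _ hr1) (hP p hp) k1 k2 e2
    have h4 : (n : ℤ) ∣ (2 * κ * (3 * e ^ 2 + A) * κ) * (p.2 * q.1 - q.2 * p.1) := by
      have h5 : (2 * κ * (3 * e ^ 2 + A) * κ) * (p.2 * q.1 - q.2 * p.1) =
          (2 * κ * (3 * e ^ 2 + A)) * (κ * alcl_Dm p q) := by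
        unfold alcl_Dm
        ring
      rw [h5]
      exact h3
    rw [Int.natCast_natAbs]
    rcases abs_choice (2 * κ * (3 * e ^ 2 + A) * κ) with h5 | h5
    · rw [h5]
      exact h4
    · rw [h5, neg_mul]
      exact (dvd_neg).2 h4

end Pool.Agent.H12.EH
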