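import Pool.Agent.H12.EH.Basic

/-!
[H12 EH ALG2]  The quadratic order `ℤ[T] / (T² + e T + (e² + A))`, `e` a root of `x³ + A x + B`.
-/

set_option autoImplicit false

namespace Pool.Agent.H12.EH

theorem q_rel {A B : ℤ} {ρ : Fin 3 → ℂ} (hρ : Roots A B ρ) {e : ℤ} (he : ρ 0 = e) :
    ρ 1 + ρ 2 = -e ∧ ρ 1 * ρ 2 = e ^ 2 + A := by
  have h0 := hρ.fac 0
  have h1 := hρ.fac 1
  have h2 := hρ.fac (-1)
  have hs : ρ 0 + ρ 1 + ρ 2 = 0 := by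
    linear_combination (1 / 2 : ℂ) * h1 + (1 / 2 : ℂ) * h2 - h0
  have ha : ρ 0 * ρ 1 + ρ 0 * ρ 2 + ρ 1 * ρ 2 = A := by
    linear_combination (-1 / 2 : ℂ) * h1 + (1 / 2 : ℂ) * h2
  rw [he] at hs ha
  constructor
  · linear_combination hs
  · linear_combination ha - (e : ℂ) * hs

theorem q_root {A B : ℤ} {ρ : Fin 3 → ℂ} (hρ : Roots A B ρ) {e : ℤ} (he : ρ 0 = e) :
    ρ 1 ^ 2 + e * ρ 1 + (e ^ 2 + A) = 0 ∧ ρ 2 ^ 2 + e * ρ 2 + (e ^ 2 + A) = 0 := by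
  obtain ⟨h1, h2⟩ := q_rel hρ he
  constructor
  · linear_combination ρ 1 * h1 - h2
  · linear_combination ρ 2 * h1 - h2

theorem ev2_mul2 {A e : ℤ} {x : ℂ} (hx : x ^ 2 + e * x + (e ^ 2 + A) = 0) (c f : Fin 2 → ℤ) :
    ev2 (mul2 A e c f) x = ev2 c x * ev2 f x := by
  unfold ev2 mul2
  simp only [Matrix.cons_val_zero, Matrix.cons_val_one]
  push_cast
  linear_combination (-(c 1 : ℂ) * f 1) * hx

theorem mul2_comm (A e : ℤ) (c f : Fin 2 → ℤ) : mul2 A e c f = mul2 A e f c := by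
  funext i
  fin_cases i <;> simp [mul2] <;> ring

theorem mul2_assoc (A e : ℤ) (c f g : Fin 2 → ℤ) :
    mul2 A e (mul2 A e c f) g = mul2 A e c (mul2 A e f g) := by
  funext i
  fin_cases i <;> simp [mul2] <;> ring

theorem mul2_adj2 (A e : ℤ) (c : Fin 2 → ℤ) : mul2 A e c (adj2 e c) = ![nrm2 A e c, 0] := by
  funext i
  fin_cases i <;> simp [mul2, adj2, nrm2] <;> ring

theorem nrm2_mul (A e : ℤ) (c f : Fin 2 → ℤ) :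
    nrm2 A e (mul2 A e c f) = nrm2 A e c * nrm2 A e f := by
  unfold nrm2 mul2
  simp only [Matrix.cons_val_zero, Matrix.cons_val_one]
  ring

theorem nrm2_prod {A B : ℤ} {ρ : Fin 3 → ℂ} (hρ : Roots A B ρ) {e : ℤ} (he : ρ 0 = e) (c : Fin 2 → ℤ) :
    ((nrm2 A e c : ℤ) : ℂ) = ev2 c (ρ 1) * ev2 c (ρ 2) := by
  obtain ⟨h1, h2⟩ := q_rel hρ he
  unfold nrm2 ev2
  push_cast
  linear_combination (-(c 0 : ℂ) * c 1) * h1 - (c 1 : ℂ) ^ 2 * h2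

theorem nrm2_alpha (A e r s : ℤ) : nrm2 A e ![r, -s] = Qf A e r s := by
  unfold nrm2 Qf
  simp only [Matrix.cons_val_zero, Matrix.cons_val_one]
  ring

theorem dvd_nrm2 (A e : ℤ) (c : Fin 2 → ℤ) {z t : ℤ} (hf : z ^ 2 ∣ t ^ 2 + e * t + (e ^ 2 + A))
    (hc : z ∣ c 0 + c 1 * t) : z ∣ nrm2 A e c := by
  have h1 : nrm2 A e c = (c 0 + c 1 * t) * (c 0 - e * c 1 - c 1 * t) +
      c 1 ^ 2 * (t ^ 2 + e * t + (e ^ 2 + A)) := by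
    unfold nrm2
    ring
  rw [h1]
  exact dvd_add (Dvd.dvd.mul_right hc _) (Dvd.dvd.mul_left ((dvd_pow_self z two_ne_zero).trans hf) _)

theorem dvd_lab2 (A e : ℤ) (c : Fin 2 → ℤ) {z t r s : ℤ} (hf : z ^ 2 ∣ t ^ 2 + e * t + (e ^ 2 + A))
    (hc : z ∣ c 0 + c 1 * t) (hr : z ^ 2 ∣ r - t * s) (i : Fin 2) :
    z ^ 2 ∣ mul2 A e ![r, -s] (mul2 A e (adj2 e c) (adj2 e c)) i := by
  have hc2 : z ^ 2 ∣ (c 0 + c 1 * t) ^ 2 := pow_dvd_pow_of_dvd hc 2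
  fin_cases i
  · have h1 : mul2 A e ![r, -s] (mul2 A e (adj2 e c) (adj2 e c)) 0 =
        (c 0 + c 1 * t) ^ 2 * (s * t) +
        (t ^ 2 + e * t + (e ^ 2 + A)) * (-(s * (c 0 + c 1 * t) * c 1 + s * c 1 * (c 0 - e * c 1))) +
        (r - t * s) * ((c 0 - e * c 1) ^ 2 - (e ^ 2 + A) * (c 1) ^ 2) := by
      simp only [mul2, adj2, Matrix.cons_val_zero, Matrix.cons_val_one]
      ring
    change z ^ 2 ∣ mul2 A e ![r, -s] (mul2 A e (adj2 e c) (adj2 e c)) 0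
    rw [h1]
    exact dvd_add (dvd_add (Dvd.dvd.mul_right hc2 _) (Dvd.dvd.mul_right hf _))
      (Dvd.dvd.mul_right hr _)
  · have h1 : mul2 A e ![r, -s] (mul2 A e (adj2 e c) (adj2 e c)) 1 =
        (c 0 + c 1 * t) ^ 2 * (-s) +
        (t ^ 2 + e * t + (e ^ 2 + A)) * (s * c 1 ^ 2) +
        (r - t * s) * (-2 * c 1 * (c 0 - e * c 1) - e * c 1 ^ 2) := by
      simp only [mul2, adj2, Matrix.cons_val_zero, Matrix.cons_val_one]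
      ring
    change z ^ 2 ∣ mul2 A e ![r, -s] (mul2 A e (adj2 e c) (adj2 e c)) 1
    rw [h1]
    exact dvd_add (dvd_add (Dvd.dvd.mul_right hc2 _) (Dvd.dvd.mul_right hf _))
      (Dvd.dvd.mul_right hr _)

theorem ev2_bound {A B : ℤ} {ρ : Fin 3 → ℂ} (hρ : Roots A B ρ) : ∃ K : ℝ, 0 < K ∧
    ∀ (c : Fin 2 → ℤ) (R : ℝ), ‖ev2 c (ρ 1)‖ ≤ R → ‖ev2 c (ρ 2)‖ ≤ R → ∀ i, |((c i : ℤ) : ℝ)| ≤ K * R := by
  have hne : ρ 1 - ρ 2 ≠ 0 := sub_ne_zero.2 (hρ.ne 1 2 (by decide))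
  have hD : 0 < ‖ρ 1 - ρ 2‖ := norm_pos_iff.2 hne
  refine ⟨2 / ‖ρ 1 - ρ 2‖ + (1 + 2 / ‖ρ 1 - ρ 2‖ * ‖ρ 1‖), by positivity, ?_⟩
  intro c R h1 h2
  have hR : 0 ≤ R := (norm_nonneg _).trans h1
  have e1 : (c 1 : ℂ) = (ev2 c (ρ 1) - ev2 c (ρ 2)) / (ρ 1 - ρ 2) := by
    unfold ev2
    field_simp
    ring
  have b1 : |((c 1 : ℤ) : ℝ)| ≤ 2 / ‖ρ 1 - ρ 2‖ * R := by
    rw [← Complex.norm_intCast, e1, norm_div, div_le_iff₀ hD]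
    calc ‖ev2 c (ρ 1) - ev2 c (ρ 2)‖ ≤ ‖ev2 c (ρ 1)‖ + ‖ev2 c (ρ 2)‖ := norm_sub_le _ _
      _ ≤ R + R := add_le_add h1 h2
      _ = 2 / ‖ρ 1 - ρ 2‖ * R * ‖ρ 1 - ρ 2‖ := by field_simp; ring
  have b0 : |((c 0 : ℤ) : ℝ)| ≤ (1 + 2 / ‖ρ 1 - ρ 2‖ * ‖ρ 1‖) * R := by
    have e0 : (c 0 : ℂ) = ev2 c (ρ 1) - (c 1 : ℂ) * ρ 1 := by
      unfold ev2
      ring
    rw [← Complex.norm_intCast, e0]
    calc ‖ev2 c (ρ 1) - (c 1 : ℂ) * ρ 1‖ ≤ ‖ev2 c (ρ 1)‖ + ‖(c 1 : ℂ) * ρ 1‖ := norm_sub_le _ _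
      _ ≤ R + (2 / ‖ρ 1 - ρ 2‖ * R) * ‖ρ 1‖ := by
          refine add_le_add h1 ?_
          rw [norm_mul, Complex.norm_intCast]
          exact mul_le_mul_of_nonneg_right b1 (norm_nonneg _)
      _ = (1 + 2 / ‖ρ 1 - ρ 2‖ * ‖ρ 1‖) * R := by ring
  have p1 : 0 ≤ 2 / ‖ρ 1 - ρ 2‖ * R := by positivity
  have p0 : 0 ≤ (1 + 2 / ‖ρ 1 - ρ 2‖ * ‖ρ 1‖) * R := by positivity
  intro i
  rw [add_mul]
  fin_cases i
  · exact b0.trans (by linarith)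
  · exact b1.trans (by linarith)

theorem nrm2_ne {A e : ℤ} (hirr : ∀ x : ℚ, x ^ 2 + e * x + (e ^ 2 + A) ≠ 0) {c : Fin 2 → ℤ} (hc : c ≠ 0) :
    nrm2 A e c ≠ 0 := by
  intro h
  by_cases h1 : c 1 = 0
  · apply hc
    have h0 : c 0 = 0 := by
      unfold nrm2 at h
      rw [h1] at h
      have : c 0 ^ 2 = 0 := by linear_combination h
      exact pow_eq_zero_iff two_ne_zero |>.1 this
    funext i
    fin_cases i
    · exact h0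
    · exact h1
  · have h1' : (c 1 : ℚ) ≠ 0 := by exact_mod_cast h1
    apply hirr (-(c 0 : ℚ) / c 1)
    have h2 : ((nrm2 A e c : ℤ) : ℚ) = 0 := by exact_mod_cast h
    unfold nrm2 at h2
    push_cast at h2
    field_simp
    linear_combination h2

end Pool.Agent.H12.EH
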