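import Pool.Agent.H12.EH.Basic

/-!
[H12 EH ALG3]  The cubic order `ℤ[T] / (T³ + A T + B)`.

All statements are explicit computations.
`rel`: comparing coefficients in `fac` (evaluate at 0, 1, -1 or expand): `ρ₀ + ρ₁ + ρ₂ = 0`,
`ρ₀ ρ₁ + ρ₀ ρ₂ + ρ₁ ρ₂ = A`, `ρ₀ ρ₁ ρ₂ = - B`.
`nrm3_prod`: substitute `ρ₂ = - ρ₀ - ρ₁`, `A`, `B` by these relations and `ring`.
`dvd_nrm3`, `dvd_lab`: with `Z = ζ(t)`, `F = f(t)` the norm is in the ideal `(Z, F)` and the coordinates of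
`(T - t) ζ*²` are in the ideal `(Z², F)` (explicit cofactors by computer, helper12 does these two).
`ev_inj`: Vandermonde: the three `ρ v` are different.
`ev_bound`: inverse of the Vandermonde matrix: `c₂ = ∑ ev c ρ_v / f'(ρ_v)` etc.
`nrm3_ne`: `nrm3 c = 0` gives `ev c (ρ v) = 0` for some `v`; `f` is irreducible over `ℚ` (no rational root, degree 3), so it
is the minimal polynomial of `ρ v`, and a polynomial of degree at most 2 vanishing at `ρ v` is zero.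
-/

set_option autoImplicit false

namespace Pool.Agent.H12.EH

theorem Roots.root {A B : ℤ} {ρ : Fin 3 → ℂ} (hρ : Roots A B ρ) (v : Fin 3) :
    ρ v ^ 3 + A * ρ v + B = 0 := by
  have h := hρ.fac (ρ v)
  rw [h]
  fin_cases v <;> simp

/-- the adjugate in coordinates -/
private theorem adj3_eq (A B : ℤ) (c : Fin 3 → ℤ) : adj3 A B c =
    ![(c 0 - A * c 2) ^ 2 + c 1 * (A * c 1 + B * c 2), -(c 0 * c 1) - B * c 2 ^ 2,
      c 1 ^ 2 - c 0 * c 2 + A * c 2 ^ 2] := rfl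

theorem Roots.rel {A B : ℤ} {ρ : Fin 3 → ℂ} (hρ : Roots A B ρ) :
    ρ 0 + ρ 1 + ρ 2 = 0 ∧ ρ 0 * ρ 1 + ρ 0 * ρ 2 + ρ 1 * ρ 2 = A ∧ ρ 0 * ρ 1 * ρ 2 = -B := by
  have h0 := hρ.fac 0
  have h1 := hρ.fac 1
  have h2 := hρ.fac (-1)
  refine ⟨?_, ?_, ?_⟩
  · linear_combination -h0 + (1 / 2) * h1 + (1 / 2) * h2
  · linear_combination (-(1 / 2)) * h1 + (1 / 2) * h2
  · linear_combination h0

theorem ev_mul3 {A B : ℤ} {x : ℂ} (hx : x ^ 3 + A * x + B = 0) (c e : Fin 3 → ℤ) :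
    ev (mul3 A B c e) x = ev c x * ev e x := by
  simp only [ev, mul3, Matrix.cons_val_zero, Matrix.cons_val_one, Matrix.cons_val]
  push_cast
  linear_combination (-((c 1 : ℂ) * e 2 + c 2 * e 1) - (c 2 : ℂ) * e 2 * x) * hx

theorem mul3_comm (A B : ℤ) (c e : Fin 3 → ℤ) : mul3 A B c e = mul3 A B e c := by
  funext i
  fin_cases i <;> simp [mul3] <;> ring

theorem mul3_assoc (A B : ℤ) (c e f : Fin 3 → ℤ) :
    mul3 A B (mul3 A B c e) f = mul3 A B c (mul3 A B e f) := by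
  funext i
  fin_cases i <;> simp [mul3] <;> ring

theorem mul3_adj3 (A B : ℤ) (c : Fin 3 → ℤ) : mul3 A B c (adj3 A B c) = ![nrm3 A B c, 0, 0] := by
  funext i
  fin_cases i <;> simp [mul3, adj3, nrm3] <;> ring

theorem nrm3_prod {A B : ℤ} {ρ : Fin 3 → ℂ} (hρ : Roots A B ρ) (c : Fin 3 → ℤ) :
    ((nrm3 A B c : ℤ) : ℂ) = ev c (ρ 0) * ev c (ρ 1) * ev c (ρ 2) := by
  obtain ⟨h1, h2, h3⟩ := hρ.rel
  have e2 : ρ 2 = -ρ 0 - ρ 1 := by linear_combination h1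
  rw [e2] at h2 h3
  have eA : (A : ℂ) = ρ 0 * ρ 1 + ρ 0 * (-ρ 0 - ρ 1) + ρ 1 * (-ρ 0 - ρ 1) := h2.symm
  have eB : (B : ℂ) = -(ρ 0 * ρ 1 * (-ρ 0 - ρ 1)) := by linear_combination h3
  simp only [ev, nrm3, mul3, adj3, Matrix.cons_val_zero, Matrix.cons_val_one, Matrix.cons_val]
  push_cast
  rw [eA, eB, e2]
  ring

theorem nrm3_mul (A B : ℤ) (c e : Fin 3 → ℤ) :
    nrm3 A B (mul3 A B c e) = nrm3 A B c * nrm3 A B e := by
  simp only [nrm3, mul3, adj3, Matrix.cons_val_zero, Matrix.cons_val_one, Matrix.cons_val]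
  ring

theorem dvd_nrm3 (A B : ℤ) (c : Fin 3 → ℤ) {z t : ℤ} (hf : z ^ 2 ∣ t ^ 3 + A * t + B)
    (hc : z ∣ c 0 + c 1 * t + c 2 * t ^ 2) : z ∣ nrm3 A B c := by
  obtain ⟨j, hj⟩ := hf
  obtain ⟨k, hk⟩ := hc
  have hB : B = z ^ 2 * j - t ^ 3 - A * t := by linear_combination hj
  have h0 : c 0 = z * k - c 1 * t - c 2 * t ^ 2 := by linear_combination hk
  subst hB
  simp only [nrm3, mul3, adj3, Matrix.cons_val_zero, Matrix.cons_val_one, Matrix.cons_val]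
  generalize c 0 = c0 at h0 ⊢
  generalize c 1 = c1 at h0 ⊢
  generalize c 2 = c2 at h0 ⊢
  subst h0
  refine ⟨k * ((z * k)^2 - 3 * (z * k) * c1 * t - 3 * (z * k) * c2 * t^2 - 2 * (z * k) * c2 * A + 3 *
      c1^2 * t^2 + c1^2 * A + 3 * c1 * c2 * t^3 + c1 * c2 * t * A + 3 * c2^2 * t^4 + 4 * c2^2
      * t^2 * A + c2^2 * A^2) +
    z * j * (3 * (z * k) * c1 * c2 - c1^3 - 3 * c1^2 * c2 * t - 3 * c1 * c2^2 * t^2 - c1 * c2^2 * A -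
      2 * c2^3 * t^3 - 2 * c2^3 * t * A + c2^3 * (z ^ 2 * j)), ?_⟩
  ring

/-- integrality of `α N(ζ)² / (ζ² z²)` -/
theorem dvd_lab (A B : ℤ) (c : Fin 3 → ℤ) {z t r s : ℤ} (hf : z ^ 2 ∣ t ^ 3 + A * t + B)
    (hc : z ∣ c 0 + c 1 * t + c 2 * t ^ 2) (hr : z ^ 2 ∣ r - t * s) (i : Fin 3) :
    z ^ 2 ∣ mul3 A B ![r, -s, 0] (mul3 A B (adj3 A B c) (adj3 A B c)) i := by
  obtain ⟨l, hl⟩ := hr
  have hr' : r = t * s + z ^ 2 * l := by linear_combination hl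
  have key : z ^ 2 ∣ mul3 A B ![-t, 1, 0] (mul3 A B (adj3 A B c) (adj3 A B c)) i := by
    obtain ⟨j, hj⟩ := hf
    obtain ⟨k, hk⟩ := hc
    have hB : B = z ^ 2 * j - t ^ 3 - A * t := by linear_combination hj
    have h0 : c 0 = z * k - c 1 * t - c 2 * t ^ 2 := by linear_combination hk
    subst hB
    have hA := adj3_eq A (z ^ 2 * j - t ^ 3 - A * t) c
    rw [hA]
    generalize c 0 = c0 at h0 ⊢
    generalize c 1 = c1 at h0 ⊢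
    generalize c 2 = c2 at h0 ⊢
    subst h0
    fin_cases i
    · refine ⟨k ^ 2 * (-(z * k)^2 * t + 4 * (z * k) * c1 * t^2 + 2 * (z * k) * c2 * t^3 + 2 * (z * k) * c2 * t
      * A - 3 * c1^2 * t^3 + c1^2 * t * A - 6 * c1 * c2 * t^4 - 6 * c1 * c2 * t^2 * A - c2^2 *
      t^3 * A - c2^2 * t * A^2) +
        j * (2 * (z * k)^3 * c2 - 3 * (z * k)^2 * c1^2 - 6 * (z * k)^2 * c1 * c2 * t - 6 * (z * k)^2
      * c2^2 * t^2 - 5 * (z * k)^2 * c2^2 * A + 4 * (z * k) * c1^3 * t + 12 * (z * k) * c1^2 *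
      c2 * t^2 + 4 * (z * k) * c1^2 * c2 * A + 12 * (z * k) * c1 * c2^2 * t^3 + 12 * (z * k) *
      c1 * c2^2 * t * A + 2 * (z * k) * c2^3 * t^4 + 6 * (z * k) * c2^3 * t^2 * A + 2 * (z *
      k) * c2^3 * t * (z ^ 2 * j) + 4 * (z * k) * c2^3 * A^2 - c1^4 * t^2 - c1^4 * A - 2 *
      c1^3 * c2 * t^3 - 2 * c1^3 * c2 * t * A - 2 * c1^3 * c2 * (z ^ 2 * j) - 3 * c1^2 * c2^2
      * t^4 - 5 * c1^2 * c2^2 * t^2 * A - 3 * c1^2 * c2^2 * t * (z ^ 2 * j) - 2 * c1^2 * c2^2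
      * A^2 - 2 * c1 * c2^3 * t^5 - 4 * c1 * c2^3 * t^3 * A - 2 * c1 * c2^3 * t^2 * (z ^ 2 *
      j) - 2 * c1 * c2^3 * t * A^2 - 2 * c1 * c2^3 * A * (z ^ 2 * j) - c2^4 * t^6 - 3 * c2^4 *
      t^4 * A + c2^4 * t^3 * (z ^ 2 * j) - 3 * c2^4 * t^2 * A^2 + c2^4 * t * A * (z ^ 2 * j) -
      c2^4 * A^3 - c2^4 * (z ^ 2 * j)^2), ?_⟩
      simp only [mul3, Matrix.cons_val_zero, Matrix.cons_val_one, Matrix.cons_val, Fin.mk_zero, Fin.isValue]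

      ring
    · refine ⟨k ^ 2 * ((z * k)^2 - 2 * (z * k) * c1 * t - 4 * (z * k) * c2 * t^2 - 2 * (z * k) * c2 * A - c1^2
      * A + 6 * c1 * c2 * t^3 + 4 * c1 * c2 * t * A + 3 * c2^2 * t^4 + 3 * c2^2 * t^2 * A +
      c2^2 * A^2) +
        j * (3 * (z * k)^2 * c2^2 * t + 2 * (z * k) * c1^3 - 6 * (z * k) * c1 * c2^2 * t^2 - 2 * (z *
      k) * c1 * c2^2 * A - 2 * (z * k) * c2^3 * t^3 - 2 * (z * k) * c2^3 * (z ^ 2 * j) - c1^4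
      * t - 2 * c1^3 * c2 * t^2 - 3 * c1^2 * c2^2 * t^3 - 2 * c1^2 * c2^2 * t * A + 3 * c1^2 *
      c2^2 * (z ^ 2 * j) - 2 * c1 * c2^3 * t^4 - 2 * c1 * c2^3 * t^2 * A + 4 * c1 * c2^3 * t *
      (z ^ 2 * j) - c2^4 * t^5 - 2 * c2^4 * t^3 * A + 2 * c2^4 * t^2 * (z ^ 2 * j) - c2^4 * t
      * A^2 + c2^4 * A * (z ^ 2 * j)), ?_⟩
      simp only [mul3, Matrix.cons_val_zero, Matrix.cons_val_one, Matrix.cons_val, Fin.mk_one, Fin.isValue]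
      ring
    · refine ⟨k ^ 2 * (-2 * (z * k) * c1 + 2 * (z * k) * c2 * t + 3 * c1^2 * t + 2 * c1 * c2 * A - 3 * c2^2 *
      t^3 - 2 * c2^2 * t * A) +
        j * (-3 * (z * k)^2 * c2^2 + 6 * (z * k) * c1 * c2^2 * t + 6 * (z * k) * c2^3 * t^2 + 4 * (z
      * k) * c2^3 * A - c1^4 - 2 * c1^3 * c2 * t - 3 * c1^2 * c2^2 * t^2 - 2 * c1^2 * c2^2 * A
      - 2 * c1 * c2^3 * t^3 - 2 * c1 * c2^3 * t * A - 2 * c1 * c2^3 * (z ^ 2 * j) - c2^4 * t^4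
      - 2 * c2^4 * t^2 * A - c2^4 * t * (z ^ 2 * j) - c2^4 * A^2), ?_⟩
      simp only [mul3, Matrix.cons_val_zero, Matrix.cons_val_one, Matrix.cons_val, Fin.reduceFinMk, Fin.isValue]
      ring
  obtain ⟨w, hw⟩ := key
  refine ⟨-s * w + l * mul3 A B (adj3 A B c) (adj3 A B c) i, ?_⟩
  have h2 : mul3 A B ![r, -s, 0] (mul3 A B (adj3 A B c) (adj3 A B c)) i =
      -s * mul3 A B ![-t, 1, 0] (mul3 A B (adj3 A B c) (adj3 A B c)) i +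
        z ^ 2 * l * mul3 A B (adj3 A B c) (adj3 A B c) i := by
    rw [hr']
    generalize mul3 A B (adj3 A B c) (adj3 A B c) = q
    fin_cases i <;> simp [mul3] <;> ring
  rw [h2, hw]
  ring

theorem ev_inj {A B : ℤ} {ρ : Fin 3 → ℂ} (hρ : Roots A B ρ) {c e : Fin 3 → ℤ}
    (h : ∀ v, ev c (ρ v) = ev e (ρ v)) : c = e := by
  have h01 : ρ 0 - ρ 1 ≠ 0 := sub_ne_zero.2 (hρ.ne 0 1 (by decide))
  have h02 : ρ 0 - ρ 2 ≠ 0 := sub_ne_zero.2 (hρ.ne 0 2 (by decide))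
  have h12 : ρ 1 - ρ 2 ≠ 0 := sub_ne_zero.2 (hρ.ne 1 2 (by decide))
  have e0 := h 0
  have e1 := h 1
  have e2 := h 2
  simp only [ev] at e0 e1 e2
  -- divided differences
  have f01 : (c 1 : ℂ) + c 2 * (ρ 0 + ρ 1) = e 1 + e 2 * (ρ 0 + ρ 1) := by
    apply mul_left_cancel₀ h01
    linear_combination e0 - e1
  have f02 : (c 1 : ℂ) + c 2 * (ρ 0 + ρ 2) = e 1 + e 2 * (ρ 0 + ρ 2) := by
    apply mul_left_cancel₀ h02
    linear_combination e0 - e2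
  have g2 : (c 2 : ℂ) = e 2 := by
    apply mul_left_cancel₀ h12
    linear_combination f01 - f02
  have g1 : (c 1 : ℂ) = e 1 := by
    rw [g2] at f01
    exact add_right_cancel f01
  have g0 : (c 0 : ℂ) = e 0 := by
    rw [g1, g2] at e0
    exact add_right_cancel (add_right_cancel e0)
  funext i
  fin_cases i
  · exact_mod_cast g0
  · exact_mod_cast g1
  · exact_mod_cast g2

theorem ev_bound {A B : ℤ} {ρ : Fin 3 → ℂ} (hρ : Roots A B ρ) : ∃ K : ℝ, 0 < K ∧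
    ∀ (c : Fin 3 → ℤ) (R : ℝ), (∀ v, ‖ev c (ρ v)‖ ≤ R) → ∀ i, |((c i : ℤ) : ℝ)| ≤ K * R := by
  have h01 : ρ 0 - ρ 1 ≠ 0 := sub_ne_zero.2 (hρ.ne 0 1 (by decide))
  have h02 : ρ 0 - ρ 2 ≠ 0 := sub_ne_zero.2 (hρ.ne 0 2 (by decide))
  have h12 : ρ 1 - ρ 2 ≠ 0 := sub_ne_zero.2 (hρ.ne 1 2 (by decide))
  obtain ⟨a, ha⟩ : ∃ a : ℝ, a = ‖ρ 0 - ρ 1‖⁻¹ := ⟨_, rfl⟩
  obtain ⟨b, hb⟩ : ∃ b : ℝ, b = ‖ρ 0 - ρ 2‖⁻¹ := ⟨_, rfl⟩
  obtain ⟨d, hd⟩ : ∃ d : ℝ, d = ‖ρ 1 - ρ 2‖⁻¹ := ⟨_, rfl⟩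
  have ha0 : 0 < a := by rw [ha]; exact inv_pos.2 (norm_pos_iff.2 h01)
  have hb0 : 0 < b := by rw [hb]; exact inv_pos.2 (norm_pos_iff.2 h02)
  have hd0 : 0 < d := by rw [hd]; exact inv_pos.2 (norm_pos_iff.2 h12)
  obtain ⟨M, hM⟩ : ∃ M : ℝ, M = 1 + ‖ρ 0‖ + ‖ρ 1‖ := ⟨_, rfl⟩
  have hM1 : 1 ≤ M := by
    have := norm_nonneg (ρ 0)
    have := norm_nonneg (ρ 1)
    linarith
  -- K2 for c 2, K1 for c 1, K0 for c 0
  have key : ∀ (c : Fin 3 → ℤ) (R : ℝ), (∀ v, ‖ev c (ρ v)‖ ≤ R) →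
      ‖(c 2 : ℂ)‖ ≤ d * (2 * a + 2 * b) * R ∧
      ‖(c 1 : ℂ)‖ ≤ (2 * a + d * (2 * a + 2 * b) * M) * R ∧
      ‖(c 0 : ℂ)‖ ≤ (1 + (2 * a + d * (2 * a + 2 * b) * M) * M + d * (2 * a + 2 * b) * M ^ 2) * R := by
    intro c R hR
    have hR0 : 0 ≤ R := (norm_nonneg _).trans (hR 0)
    have f01 : (c 1 : ℂ) + c 2 * (ρ 0 + ρ 1) = (ρ 0 - ρ 1)⁻¹ * (ev c (ρ 0) - ev c (ρ 1)) := by
      rw [eq_inv_mul_iff_mul_eq₀ h01]
      simp only [ev]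
      ring
    have f02 : (c 1 : ℂ) + c 2 * (ρ 0 + ρ 2) = (ρ 0 - ρ 2)⁻¹ * (ev c (ρ 0) - ev c (ρ 2)) := by
      rw [eq_inv_mul_iff_mul_eq₀ h02]
      simp only [ev]
      ring
    have n01 : ‖(c 1 : ℂ) + c 2 * (ρ 0 + ρ 1)‖ ≤ 2 * a * R := by
      rw [f01, norm_mul, norm_inv, ← ha]
      have := (norm_sub_le (ev c (ρ 0)) (ev c (ρ 1))).trans (add_le_add (hR 0) (hR 1))
      nlinarith
    have n02 : ‖(c 1 : ℂ) + c 2 * (ρ 0 + ρ 2)‖ ≤ 2 * b * R := by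
      rw [f02, norm_mul, norm_inv, ← hb]
      have := (norm_sub_le (ev c (ρ 0)) (ev c (ρ 2))).trans (add_le_add (hR 0) (hR 2))
      nlinarith
    have e2 : (c 2 : ℂ) = (ρ 1 - ρ 2)⁻¹ * (((c 1 : ℂ) + c 2 * (ρ 0 + ρ 1)) -
        ((c 1 : ℂ) + c 2 * (ρ 0 + ρ 2))) := by
      rw [eq_inv_mul_iff_mul_eq₀ h12]
      ring
    have n2 : ‖(c 2 : ℂ)‖ ≤ d * (2 * a + 2 * b) * R := by
      rw [e2, norm_mul, norm_inv, ← hd]
      have := (norm_sub_le ((c 1 : ℂ) + c 2 * (ρ 0 + ρ 1)) ((c 1 : ℂ) + c 2 * (ρ 0 + ρ 2))).trans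
        (add_le_add n01 n02)
      nlinarith
    have hM01 : ‖ρ 0 + ρ 1‖ ≤ M := by
      have := norm_add_le (ρ 0) (ρ 1)
      linarith
    have hM0 : ‖ρ 0‖ ≤ M := by
      have := norm_nonneg (ρ 1)
      linarith
    have n1 : ‖(c 1 : ℂ)‖ ≤ (2 * a + d * (2 * a + 2 * b) * M) * R := by
      have e1 : (c 1 : ℂ) = ((c 1 : ℂ) + c 2 * (ρ 0 + ρ 1)) - c 2 * (ρ 0 + ρ 1) := by ring
      rw [e1]
      refine (norm_sub_le _ _).trans ?_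
      rw [norm_mul]
      have : ‖(c 2 : ℂ)‖ * ‖ρ 0 + ρ 1‖ ≤ d * (2 * a + 2 * b) * R * M :=
        mul_le_mul n2 hM01 (norm_nonneg _) (by positivity)
      linarith
    refine ⟨n2, n1, ?_⟩
    have e0 : (c 0 : ℂ) = ev c (ρ 0) - c 1 * ρ 0 - c 2 * ρ 0 ^ 2 := by
      simp only [ev]
      ring
    rw [e0]
    refine (norm_sub_le _ _).trans ?_
    have h1 := norm_sub_le (ev c (ρ 0)) ((c 1 : ℂ) * ρ 0)
    rw [norm_mul] at h1
    rw [norm_mul, norm_pow]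
    have h2 : ‖(c 1 : ℂ)‖ * ‖ρ 0‖ ≤ (2 * a + d * (2 * a + 2 * b) * M) * R * M :=
      mul_le_mul n1 hM0 (norm_nonneg _) (by positivity)
    have h3 : ‖(c 2 : ℂ)‖ * ‖ρ 0‖ ^ 2 ≤ d * (2 * a + 2 * b) * R * M ^ 2 :=
      mul_le_mul n2 (pow_le_pow_left₀ (norm_nonneg _) hM0 2) (by positivity) (by positivity)
    have h4 := hR 0
    linarith
  refine ⟨d * (2 * a + 2 * b) + (2 * a + d * (2 * a + 2 * b) * M) +
    (1 + (2 * a + d * (2 * a + 2 * b) * M) * M + d * (2 * a + 2 * b) * M ^ 2), by positivity,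
    fun c R hR i => ?_⟩
  obtain ⟨k2, k1, k0⟩ := key c R hR
  have hR0 : 0 ≤ R := (norm_nonneg _).trans (hR 0)
  have p2 : 0 ≤ d * (2 * a + 2 * b) * R := by positivity
  have p1 : 0 ≤ (2 * a + d * (2 * a + 2 * b) * M) * R := by positivity
  have p0 : 0 ≤ (1 + (2 * a + d * (2 * a + 2 * b) * M) * M + d * (2 * a + 2 * b) * M ^ 2) * R := by
    positivity
  have hc : ∀ j, |((c j : ℤ) : ℝ)| = ‖(c j : ℂ)‖ := fun j => (Complex.norm_intCast _).symm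
  rw [hc]
  fin_cases i
  · show ‖(c 0 : ℂ)‖ ≤ _
    nlinarith
  · show ‖(c 1 : ℂ)‖ ≤ _
    nlinarith
  · show ‖(c 2 : ℂ)‖ ≤ _
    nlinarith

theorem nrm3_ne {A B : ℤ} {ρ : Fin 3 → ℂ} (hρ : Roots A B ρ) (hirr : ∀ x : ℚ, x ^ 3 + A * x + B ≠ 0)
    {c : Fin 3 → ℤ} (hc : c ≠ 0) : nrm3 A B c ≠ 0 := by
  intro h0
  have h1 := nrm3_prod hρ c
  rw [h0] at h1
  push_cast at h1
  obtain ⟨v, hv⟩ : ∃ v, ev c (ρ v) = 0 := by
    rcases mul_eq_zero.1 h1.symm with h2 | h2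
    · rcases mul_eq_zero.1 h2 with h3 | h3
      · exact ⟨0, h3⟩
      · exact ⟨1, h3⟩
    · exact ⟨2, h2⟩
  obtain ⟨f, hf⟩ : ∃ f : Polynomial ℚ, f = Polynomial.X ^ 3 +
      (Polynomial.C (A : ℚ) * Polynomial.X + Polynomial.C (B : ℚ)) := ⟨_, rfl⟩
  have hdeg : (Polynomial.C (A : ℚ) * Polynomial.X + Polynomial.C (B : ℚ)).degree < ((3 : ℕ) : WithBot ℕ) :=
    lt_of_le_of_lt Polynomial.degree_linear_le (by exact_mod_cast (by norm_num : 1 < 3))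
  have hmon : f.Monic := by
    rw [hf]
    exact Polynomial.monic_X_pow_add hdeg
  have hnd : f.natDegree = 3 := by
    rw [hf]
    rw [Polynomial.natDegree_add_eq_left_of_degree_lt (by rw [Polynomial.degree_X_pow]; exact hdeg)]
    exact Polynomial.natDegree_X_pow 3
  have hirrf : Irreducible f := by
    rw [hmon.irreducible_iff_roots_eq_zero_of_degree_le_three (by omega) (by omega)]
    rw [Multiset.eq_zero_iff_forall_notMem]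
    intro x hx
    rw [Polynomial.mem_roots hmon.ne_zero, Polynomial.IsRoot.def, hf] at hx
    simp only [Polynomial.eval_add, Polynomial.eval_pow, Polynomial.eval_X, Polynomial.eval_mul,
      Polynomial.eval_C] at hx
    exact hirr x (by linear_combination hx)
  have hroot : Polynomial.aeval (ρ v) f = 0 := by
    rw [hf]
    simp only [map_add, map_pow, Polynomial.aeval_X, map_mul, Polynomial.aeval_C]
    have := hρ.root v
    simp only [eq_ratCast, Rat.cast_intCast]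
    linear_combination this
  have hmin : f = minpoly ℚ (ρ v) := minpoly.eq_of_irreducible_of_monic hirrf hroot hmon
  obtain ⟨q0, hq0⟩ : ∃ q : ℚ, q = c 0 := ⟨_, rfl⟩
  obtain ⟨q1, hq1⟩ : ∃ q : ℚ, q = c 1 := ⟨_, rfl⟩
  obtain ⟨q2, hq2⟩ : ∃ q : ℚ, q = c 2 := ⟨_, rfl⟩
  obtain ⟨g, hg⟩ : ∃ g : Polynomial ℚ, g = Polynomial.C q2 * Polynomial.X ^ 2 +
      Polynomial.C q1 * Polynomial.X + Polynomial.C q0 := ⟨_, rfl⟩
  have hg0 : g ≠ 0 := by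
    intro h
    apply hc
    rw [hg] at h
    have k0 := congrArg (fun q => Polynomial.coeff q 0) h
    have k1 := congrArg (fun q => Polynomial.coeff q 1) h
    have k2 := congrArg (fun q => Polynomial.coeff q 2) h
    simp [Polynomial.coeff_X, Polynomial.coeff_C, Polynomial.coeff_X_pow] at k0 k1 k2
    rw [hq0] at k0
    rw [hq1] at k1
    rw [hq2] at k2
    funext i
    fin_cases i
    · exact_mod_cast k0
    · exact_mod_cast k1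
    · exact_mod_cast k2
  have hgr : Polynomial.aeval (ρ v) g = 0 := by
    rw [hg, hq0, hq1, hq2]
    simp only [map_add, map_pow, Polynomial.aeval_X, map_mul, Polynomial.aeval_C]
    simp only [eq_ratCast, Rat.cast_intCast]
    simp only [ev] at hv
    linear_combination hv
  have h5 := minpoly.degree_le_of_ne_zero ℚ (ρ v) hg0 hgr
  rw [← hmin, Polynomial.degree_eq_natDegree hmon.ne_zero, hnd] at h5
  have h6 : g.degree ≤ 2 := by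
    rw [hg]
    exact Polynomial.degree_quadratic_le
  have h7 := h5.trans h6
  have h8 : ((3 : ℕ) : WithBot ℕ) ≤ ((2 : ℕ) : WithBot ℕ) := h7
  have h9 : 3 ≤ 2 := by exact_mod_cast h8
  omega

end Pool.Agent.H12.EH
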