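import Pool.Agent.H12.EH.Defs

/-!
[H12 EH BASIC]  Small facts used everywhere (proved).
-/

set_option autoImplicit false

open scoped ComplexConjugate

namespace Pool.Agent.H12.EH

theorem Gf_prod {A B : ℤ} {ρ : Fin 3 → ℂ} (hρ : Roots A B ρ) (r s : ℤ) :
    ((Gf A B r s : ℤ) : ℂ) = ((r : ℂ) - ρ 0 * s) * ((r : ℂ) - ρ 1 * s) * ((r : ℂ) - ρ 2 * s) := by
  by_cases hs : (s : ℂ) = 0
  · unfold Gf
    push_cast
    rw [hs]
    ring
  · have h := hρ.fac ((r : ℂ) / s)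
    have h2 : ((Gf A B r s : ℤ) : ℂ) = (s : ℂ) ^ 3 * (((r : ℂ) / s) ^ 3 + A * ((r : ℂ) / s) + B) := by
      unfold Gf
      push_cast
      field_simp
    rw [h2, h]
    field_simp

theorem Gf_norm {A B : ℤ} {ρ : Fin 3 → ℂ} (hρ : Roots A B ρ) (r s : ℤ) :
    |((Gf A B r s : ℤ) : ℝ)| = ‖(r : ℂ) - ρ 0 * s‖ * ‖(r : ℂ) - ρ 1 * s‖ * ‖(r : ℂ) - ρ 2 * s‖ := by
  rw [← norm_mul, ← norm_mul, ← Gf_prod hρ, Complex.norm_intCast]

/-- distinct coprime pairs have distinct quotients -/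
theorem cross_ne {p q : ℤ × ℤ} (hp : IsCoprime p.1 p.2) (hq : IsCoprime q.1 q.2) (hp2 : 0 < p.2) (hq2 : 0 < q.2)
    (h : p ≠ q) : p.1 * q.2 ≠ q.1 * p.2 := by
  intro he
  apply h
  have h1 : p.2 ∣ q.2 := by
    have : p.2 ∣ p.1 * q.2 := ⟨q.1, by rw [he, mul_comm]⟩
    exact hp.symm.dvd_of_dvd_mul_left this
  have h2 : q.2 ∣ p.2 := by
    have : q.2 ∣ q.1 * p.2 := ⟨p.1, by rw [← he, mul_comm]⟩
    exact hq.symm.dvd_of_dvd_mul_left this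
  have h3 : p.2 = q.2 := Int.dvd_antisymm hp2.le hq2.le h1 h2
  refine Prod.ext ?_ h3
  rw [← h3] at he
  exact mul_right_cancel₀ hp2.ne' he

end Pool.Agent.H12.EH
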