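import Pool.Agent.H12.EH.Basic

/-!
[H12 EH RTS]  The number of roots of `f = T³ + A T + B` modulo `n` is at most `D² τ(n)²`, `D = |4 A³ + 27 B²|`.

Elementary proof without Hensel's lemma and without the Chinese remainder theorem.  Fix one root `t₀` modulo `n`.
`f(t) - f(t₀) = (t - t₀)(t² + t t₀ + t₀² + A)`.  For a root `t` let `d₁ = gcd(t - t₀, n)`, `n₁ = n / d₁`; then
`n₁ ∣ q(t)`, `q(t) = t² + t t₀ + t₀² + A` (`n = d₁ n₁` divides the product, `gcd((t - t₀)/d₁, n₁) = 1`).  For every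
divisor `d₁` of `n` for which such roots exist choose one of them, `t₁ = t₁(d₁)`.  `q(t) - q(t₁) = (t - t₁)(t + t₁ + t₀)`,
let `d₂ = gcd(t - t₁, n₁)`, `n₂ = n₁ / d₂`, then `n₂ ∣ t + t₁ + t₀`.  Classify the roots by `(d₁, d₂)`: at most `τ(n)²`
classes.  If `t, t'` are in one class then `d₁, d₂, n₂` divide `t - t'`.  Moreover
`gcd(d₂, n₂) ∣ D`: `h = gcd(d₂, n₂)` divides `t - t₁` and `t + t₁ + t₀`, so `t₀ ≡ - 2 t (mod h)`, and `h ∣ f(t)`,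
`h ∣ f(t₀)`, `h ∣ q(t)`; with `t₀ = - 2 t + h k`: `q(t) ≡ 3 t² + A (mod h)`, so `h` divides `f(t)` and `f'(t)`, and `D` is a
combination `u f + v f'`: `(27 B - 18 A t)... ` explicitly
`4 A³ + 27 B² = (- 18 A t + 27 B) f(t) + (6 A t² - 9 B t + 4 A²) f'(t)`.
`gcd(d₁, n₁) ∣ D`: `h = gcd(d₁, n₁)` divides `t - t₀` and `q(t)`, so again `h ∣ 3 t² + A` and `h ∣ f(t)`.
Therefore `d₂ n₂ ∣ gcd(d₂, n₂) (t - t') ∣ D (t - t')` (a number divisible by `d₂` and `n₂` is divisible by the lcm), that is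
`n₁ ∣ D (t - t')`, and `d₁ ∣ D (t - t')`, so `n = d₁ n₁ ∣ gcd(d₁, n₁) D (t - t') ∣ D² (t - t')`.
Hence `t - t'` is a multiple of `n / gcd(n, D²)` and a class has at most `gcd(n, D²) ≤ D²` elements in `range n`.
(`K = D²`.)
-/

set_option autoImplicit false

namespace Pool.Agent.H12.EH

/-- if `a`, `b` divide `x` and `gcd a b` divides `D` then `a b` divides `D x` -/
private theorem rts_mul_dvd (a b x D : ℤ) (ha : a ∣ x) (hb : b ∣ x) (h : (Int.gcd a b : ℤ) ∣ D) :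
    a * b ∣ D * x := by
  obtain ⟨k, rfl⟩ := h
  rw [Int.gcd_eq_gcd_ab a b]
  have h1 : a * b ∣ a * (Int.gcdA a b * k * x) :=
    mul_dvd_mul_left a (Dvd.dvd.mul_left hb _)
  have h2 : a * b ∣ b * (Int.gcdB a b * k * x) := by
    rw [mul_comm a b]
    exact mul_dvd_mul_left b (Dvd.dvd.mul_left ha _)
  have h3 := dvd_add h1 h2
  have h4 : a * (Int.gcdA a b * k * x) + b * (Int.gcdB a b * k * x) =
      (a * Int.gcdA a b + b * Int.gcdB a b) * k * x := by ring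
  rw [h4] at h3
  exact h3

/-- a common divisor of `f(t)` and `f'(t)` divides the discriminant -/
private theorem rts_disc (A B h t : ℤ) (h1 : h ∣ t ^ 3 + A * t + B) (h2 : h ∣ 3 * t ^ 2 + A) :
    h ∣ 4 * A ^ 3 + 27 * B ^ 2 := by
  have h3 : 4 * A ^ 3 + 27 * B ^ 2 = (-18 * A * t + 27 * B) * (t ^ 3 + A * t + B) +
      (6 * A * t ^ 2 - 9 * B * t + 4 * A ^ 2) * (3 * t ^ 2 + A) := by ring
  rw [h3]
  exact dvd_add (Dvd.dvd.mul_left h1 _) (Dvd.dvd.mul_left h2 _)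

/-- if `n` divides `x y` then `n / gcd(x, n)` divides `y` -/
private theorem rts_div (n : ℕ) (hn : 0 < n) (x y : ℤ) (h : (n : ℤ) ∣ x * y) :
    ∃ m : ℕ, n = Int.gcd x n * m ∧ (m : ℤ) ∣ y := by
  have hg : 0 < Int.gcd x n := Int.gcd_pos_of_ne_zero_right _ (by exact_mod_cast hn.ne')
  have hgn : Int.gcd x n ∣ n := by
    have := Int.gcd_dvd_right x (n : ℤ)
    exact_mod_cast this
  obtain ⟨m, hm⟩ := hgn
  refine ⟨m, hm, ?_⟩
  obtain ⟨u, hu⟩ := Int.gcd_dvd_left x (n : ℤ)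
  have hg0 : ((Int.gcd x n : ℕ) : ℤ) ≠ 0 := by exact_mod_cast hg.ne'
  have hnm : (n : ℤ) = (Int.gcd x n : ℤ) * m := by exact_mod_cast hm
  have hcop : IsCoprime (m : ℤ) u := by
    have h1 := Int.gcd_eq_gcd_ab x (n : ℤ)
    refine ⟨Int.gcdB x n, Int.gcdA x n, ?_⟩
    have h2 : (Int.gcd x n : ℤ) * (Int.gcdB x n * m + Int.gcdA x n * u) = (Int.gcd x n : ℤ) * 1 := by
      calc (Int.gcd x n : ℤ) * (Int.gcdB x n * m + Int.gcdA x n * u)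
          = ((Int.gcd x n : ℤ) * u) * Int.gcdA x n + ((Int.gcd x n : ℤ) * m) * Int.gcdB x n := by ring
        _ = x * Int.gcdA x n + (n : ℤ) * Int.gcdB x n := by rw [← hu, ← hnm]
        _ = (Int.gcd x n : ℤ) * 1 := by rw [← h1, mul_one]
    exact mul_left_cancel₀ hg0 h2
  have h3 : (Int.gcd x n : ℤ) * m ∣ (Int.gcd x n : ℤ) * (u * y) := by
    have h4 : (Int.gcd x n : ℤ) * (u * y) = x * y := by
      calc (Int.gcd x n : ℤ) * (u * y) = ((Int.gcd x n : ℤ) * u) * y := by ring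
        _ = x * y := by rw [← hu]
    rw [h4, ← hnm]
    exact h
  exact hcop.dvd_of_dvd_mul_left ((mul_dvd_mul_iff_left hg0).mp h3)

/-- elements of `range n` whose differences times `M` are divisible by `n` -/
private theorem rts_few (n M : ℕ) (hM : 0 < M) (S : Finset ℕ) (hS : S ⊆ Finset.range n)
    (h : ∀ t ∈ S, ∀ t' ∈ S, (n : ℤ) ∣ (M : ℤ) * ((t : ℤ) - t')) : S.card ≤ M := by
  rcases S.eq_empty_or_nonempty with hE | hE
  · rw [hE]; simp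
  · have hmin := S.min'_mem hE
    set t₀ := S.min' hE with ht₀
    have hn : 0 < n := by
      have := Finset.mem_range.mp (hS hmin)
      omega
    rw [← Finset.card_range M]
    have key : ∀ t ∈ S, n ∣ M * (t - t₀) ∧ t₀ ≤ t ∧ t < n := by
      intro t ht
      have h1 : t₀ ≤ t := Finset.min'_le S t ht
      refine ⟨?_, h1, Finset.mem_range.mp (hS ht)⟩
      have h2 := h t ht t₀ hmin
      have h3 : ((M * (t - t₀) : ℕ) : ℤ) = (M : ℤ) * ((t : ℤ) - t₀) := by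
        push_cast [Nat.cast_sub h1]
        ring
      rw [← h3] at h2
      exact_mod_cast h2
    refine Finset.card_le_card_of_injOn (fun t => M * (t - t₀) / n) ?_ ?_
    · intro t ht
      obtain ⟨h1, h2, h3⟩ := key t ht
      rw [Finset.coe_range, Set.mem_Iio, Nat.div_lt_iff_lt_mul hn]
      exact Nat.mul_lt_mul_of_pos_left (by omega) hM
    · intro t ht t' ht' heq
      obtain ⟨h1, h2, h3⟩ := key t ht
      obtain ⟨h1', h2', h3'⟩ := key t' ht'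
      have h4 : M * (t - t₀) / n * n = M * (t' - t₀) / n * n := by
        simp only at heq
        rw [heq]
      rw [Nat.div_mul_cancel h1, Nat.div_mul_cancel h1'] at h4
      have h5 := Nat.eq_of_mul_eq_mul_left hM h4
      omega

theorem rts (A B : ℤ) (hD : 4 * A ^ 3 + 27 * B ^ 2 ≠ 0) : ∃ K : ℕ, 0 < K ∧ ∀ n : ℕ, 0 < n →
    ((Finset.range n).filter (fun t : ℕ => (n : ℤ) ∣ (t : ℤ) ^ 3 + A * t + B)).card ≤
      K * n.divisors.card ^ 2 := by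
  classical
  set D : ℤ := 4 * A ^ 3 + 27 * B ^ 2 with hDdef
  have hK : 0 < D.natAbs ^ 2 := pow_pos (Int.natAbs_pos.mpr hD) 2
  have hKD : ((D.natAbs ^ 2 : ℕ) : ℤ) = D * D := by
    rw [Nat.cast_pow, Int.natCast_natAbs, sq_abs, sq]
  refine ⟨D.natAbs ^ 2, hK, ?_⟩
  intro n hn
  set R := (Finset.range n).filter (fun t : ℕ => (n : ℤ) ∣ (t : ℤ) ^ 3 + A * t + B) with hR
  rcases R.eq_empty_or_nonempty with hE | ⟨t₀, ht₀⟩
  · rw [hE]; simp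
  have hroot : ∀ t ∈ R, (n : ℤ) ∣ (t : ℤ) ^ 3 + A * t + B := fun t ht => (Finset.mem_filter.mp ht).2
  -- the chosen root for `d₁`
  let g₁ : ℕ → ℕ := fun t => Int.gcd ((t : ℤ) - t₀) n
  let c : ℕ → ℕ := fun d => if h : ∃ t, t ∈ R ∧ g₁ t = d then Classical.choose h else 0
  have hc : ∀ t ∈ R, c (g₁ t) ∈ R ∧ g₁ (c (g₁ t)) = g₁ t := by
    intro t ht
    have hex : ∃ s, s ∈ R ∧ g₁ s = g₁ t := ⟨t, ht, rfl⟩
    have h1 : c (g₁ t) = Classical.choose hex := dif_pos hex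
    rw [h1]
    exact Classical.choose_spec hex
  let g₂ : ℕ → ℕ := fun t => Int.gcd ((t : ℤ) - c (g₁ t)) ((n / g₁ t : ℕ) : ℤ)
  -- fundamental facts for one root
  have hq : ∀ t ∈ R, 0 < g₁ t ∧ n = g₁ t * (n / g₁ t) ∧
      ((n / g₁ t : ℕ) : ℤ) ∣ (t : ℤ) ^ 2 + t * t₀ + (t₀ : ℤ) ^ 2 + A := by
    intro t ht
    have h1 : (n : ℤ) ∣ ((t : ℤ) - t₀) * ((t : ℤ) ^ 2 + t * t₀ + (t₀ : ℤ) ^ 2 + A) := by
      have h2 := dvd_sub (hroot t ht) (hroot t₀ ht₀)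
      have h3 : (t : ℤ) ^ 3 + A * t + B - ((t₀ : ℤ) ^ 3 + A * t₀ + B) =
          ((t : ℤ) - t₀) * ((t : ℤ) ^ 2 + t * t₀ + (t₀ : ℤ) ^ 2 + A) := by ring
      rw [h3] at h2
      exact h2
    obtain ⟨m, hm, hmq⟩ := rts_div n hn _ _ h1
    have hg : 0 < g₁ t := Int.gcd_pos_of_ne_zero_right _ (by exact_mod_cast hn.ne')
    have hm' : n / g₁ t = m := by
      conv_lhs => rw [hm]
      exact Nat.mul_div_cancel_left m hg
    refine ⟨hg, ?_, ?_⟩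
    · rw [hm']; exact hm
    · rw [hm']; exact hmq
  have hq2 : ∀ t ∈ R, 0 < g₂ t ∧ n / g₁ t = g₂ t * (n / g₁ t / g₂ t) ∧
      ((n / g₁ t / g₂ t : ℕ) : ℤ) ∣ (t : ℤ) + c (g₁ t) + t₀ := by
    intro t ht
    obtain ⟨hg, hng, hdq⟩ := hq t ht
    obtain ⟨hcR, hcg⟩ := hc t ht
    obtain ⟨-, -, hdq'⟩ := hq (c (g₁ t)) hcR
    rw [hcg] at hdq'
    have hn1 : 0 < n / g₁ t := by
      rcases Nat.eq_zero_or_pos (n / g₁ t) with h0 | h0
      · rw [h0, mul_zero] at hng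
        omega
      · exact h0
    have h1 : ((n / g₁ t : ℕ) : ℤ) ∣ ((t : ℤ) - c (g₁ t)) * ((t : ℤ) + c (g₁ t) + t₀) := by
      have h2 := dvd_sub hdq hdq'
      have h3 : (t : ℤ) ^ 2 + t * t₀ + (t₀ : ℤ) ^ 2 + A -
          (((c (g₁ t) : ℕ) : ℤ) ^ 2 + (c (g₁ t) : ℕ) * t₀ + (t₀ : ℤ) ^ 2 + A) =
          ((t : ℤ) - c (g₁ t)) * ((t : ℤ) + c (g₁ t) + t₀) := by ring
      rw [h3] at h2
      exact h2
    obtain ⟨m, hm, hmq⟩ := rts_div _ hn1 _ _ h1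
    have hg2 : 0 < g₂ t := Int.gcd_pos_of_ne_zero_right _ (by exact_mod_cast hn1.ne')
    have hm' : n / g₁ t / g₂ t = m := by
      conv_lhs => rw [hm]
      exact Nat.mul_div_cancel_left m hg2
    refine ⟨hg2, ?_, ?_⟩
    · rw [hm']; exact hm
    · rw [hm']; exact hmq
  -- one class
  have hclass : ∀ t ∈ R, ∀ t' ∈ R, g₁ t = g₁ t' → g₂ t = g₂ t' →
      (n : ℤ) ∣ ((D.natAbs ^ 2 : ℕ) : ℤ) * ((t : ℤ) - t') := by
    intro t ht t' ht' h1 h2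
    obtain ⟨hg, hng, hdq⟩ := hq t ht
    obtain ⟨hg2, hng2, hdq2⟩ := hq2 t ht
    obtain ⟨-, -, hdq2'⟩ := hq2 t' ht'
    rw [← h1, ← h2] at hdq2'
    -- divisibilities of `t - t'`
    have e1 : ((g₁ t : ℕ) : ℤ) ∣ (t : ℤ) - t₀ := Int.gcd_dvd_left _ _
    have e1' : ((g₁ t : ℕ) : ℤ) ∣ (t' : ℤ) - t₀ := by rw [h1]; exact Int.gcd_dvd_left _ _
    have e2 : ((g₂ t : ℕ) : ℤ) ∣ (t : ℤ) - c (g₁ t) := Int.gcd_dvd_left _ _
    have e2' : ((g₂ t : ℕ) : ℤ) ∣ (t' : ℤ) - c (g₁ t) := by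
      rw [h2, h1]; exact Int.gcd_dvd_left _ _
    have f1 : ((g₁ t : ℕ) : ℤ) ∣ (t : ℤ) - t' := by
      have := dvd_sub e1 e1'
      have h3 : (t : ℤ) - t₀ - ((t' : ℤ) - t₀) = (t : ℤ) - t' := by ring
      rwa [h3] at this
    have f2 : ((g₂ t : ℕ) : ℤ) ∣ (t : ℤ) - t' := by
      have := dvd_sub e2 e2'
      have h3 : (t : ℤ) - c (g₁ t) - ((t' : ℤ) - c (g₁ t)) = (t : ℤ) - t' := by ring
      rwa [h3] at this
    have f3 : ((n / g₁ t / g₂ t : ℕ) : ℤ) ∣ (t : ℤ) - t' := by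
      have := dvd_sub hdq2 hdq2'
      have h3 : (t : ℤ) + c (g₁ t) + t₀ - ((t' : ℤ) + c (g₁ t) + t₀) = (t : ℤ) - t' := by ring
      rwa [h3] at this
    have hn1n : ((n / g₁ t : ℕ) : ℤ) ∣ (n : ℤ) := by
      exact_mod_cast Dvd.intro_left _ hng.symm
    have hfn1 : ((n / g₁ t : ℕ) : ℤ) ∣ (t : ℤ) ^ 3 + A * t + B := hn1n.trans (hroot t ht)
    -- `gcd(d₂, n₂) ∣ D`
    have k2 : (Int.gcd ((g₂ t : ℕ) : ℤ) ((n / g₁ t / g₂ t : ℕ) : ℤ) : ℤ) ∣ D := by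
      set h := (Int.gcd ((g₂ t : ℕ) : ℤ) ((n / g₁ t / g₂ t : ℕ) : ℤ) : ℤ) with hh
      have a1 : h ∣ ((g₂ t : ℕ) : ℤ) := Int.gcd_dvd_left _ _
      have a2 : h ∣ ((n / g₁ t / g₂ t : ℕ) : ℤ) := Int.gcd_dvd_right _ _
      have a3 : h ∣ ((n / g₁ t : ℕ) : ℤ) := by
        refine a1.trans ?_
        exact_mod_cast Dvd.intro _ hng2.symm
      have b1 : h ∣ (t : ℤ) - c (g₁ t) := a1.trans e2
      have b2 : h ∣ (t : ℤ) + c (g₁ t) + t₀ := a2.trans hdq2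
      have b3 : h ∣ 2 * (t : ℤ) + t₀ := by
        have := dvd_add b1 b2
        have h3 : (t : ℤ) - c (g₁ t) + ((t : ℤ) + c (g₁ t) + t₀) = 2 * (t : ℤ) + t₀ := by ring
        rwa [h3] at this
      have b4 : h ∣ (t : ℤ) ^ 2 + t * t₀ + (t₀ : ℤ) ^ 2 + A := a3.trans hdq
      have b5 : h ∣ 3 * (t : ℤ) ^ 2 + A := by
        have := dvd_sub b4 (Dvd.dvd.mul_left b3 ((t₀ : ℤ) - t))
        have h3 : (t : ℤ) ^ 2 + t * t₀ + (t₀ : ℤ) ^ 2 + A - ((t₀ : ℤ) - t) * (2 * (t : ℤ) + t₀) =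
            3 * (t : ℤ) ^ 2 + A := by ring
        rwa [h3] at this
      exact rts_disc A B h t (a3.trans hfn1) b5
    -- `gcd(d₁, n₁) ∣ D`
    have k1 : (Int.gcd ((g₁ t : ℕ) : ℤ) ((n / g₁ t : ℕ) : ℤ) : ℤ) ∣ D := by
      set h := (Int.gcd ((g₁ t : ℕ) : ℤ) ((n / g₁ t : ℕ) : ℤ) : ℤ) with hh
      have a1 : h ∣ ((g₁ t : ℕ) : ℤ) := Int.gcd_dvd_left _ _
      have a2 : h ∣ ((n / g₁ t : ℕ) : ℤ) := Int.gcd_dvd_right _ _
      have b1 : h ∣ (t : ℤ) - t₀ := a1.trans e1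
      have b4 : h ∣ (t : ℤ) ^ 2 + t * t₀ + (t₀ : ℤ) ^ 2 + A := a2.trans hdq
      have b5 : h ∣ 3 * (t : ℤ) ^ 2 + A := by
        have := dvd_add b4 (Dvd.dvd.mul_left b1 (2 * (t : ℤ) + t₀))
        have h3 : (t : ℤ) ^ 2 + t * t₀ + (t₀ : ℤ) ^ 2 + A + (2 * (t : ℤ) + t₀) * ((t : ℤ) - t₀) =
            3 * (t : ℤ) ^ 2 + A := by ring
        rwa [h3] at this
      exact rts_disc A B h t (a2.trans hfn1) b5
    have l1 : ((n / g₁ t : ℕ) : ℤ) ∣ D * ((t : ℤ) - t') := by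
      have := rts_mul_dvd _ _ _ D f2 f3 k2
      have h3 : ((g₂ t : ℕ) : ℤ) * ((n / g₁ t / g₂ t : ℕ) : ℤ) = ((n / g₁ t : ℕ) : ℤ) := by
        exact_mod_cast hng2.symm
      rwa [h3] at this
    have l2 : ((g₁ t : ℕ) : ℤ) * ((n / g₁ t : ℕ) : ℤ) ∣ D * (D * ((t : ℤ) - t')) :=
      rts_mul_dvd _ _ _ D (Dvd.dvd.mul_left f1 D) l1 k1
    have h3 : ((g₁ t : ℕ) : ℤ) * ((n / g₁ t : ℕ) : ℤ) = (n : ℤ) := by
      exact_mod_cast hng.symm
    rw [h3] at l2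
    rw [hKD, mul_assoc]
    exact l2
  -- counting
  have himg : R.image (fun t => (g₁ t, g₂ t)) ⊆ n.divisors ×ˢ n.divisors := by
    intro p hp
    obtain ⟨t, ht, rfl⟩ := Finset.mem_image.mp hp
    obtain ⟨hg, hng, -⟩ := hq t ht
    obtain ⟨hg2, hng2, -⟩ := hq2 t ht
    rw [Finset.mem_product]
    refine ⟨Nat.mem_divisors.mpr ⟨Dvd.intro _ hng.symm, hn.ne'⟩, Nat.mem_divisors.mpr ⟨?_, hn.ne'⟩⟩
    exact (Dvd.intro _ hng2.symm).trans (Dvd.intro_left _ hng.symm)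
  have hfib : ∀ p ∈ R.image (fun t => (g₁ t, g₂ t)),
      (R.filter (fun t => (g₁ t, g₂ t) = p)).card ≤ D.natAbs ^ 2 := by
    intro p _
    refine rts_few n _ hK _ ?_ ?_
    · intro t ht
      exact (Finset.mem_filter.mp (Finset.mem_filter.mp ht).1).1
    · intro t ht t' ht'
      obtain ⟨h1, h2⟩ := Finset.mem_filter.mp ht
      obtain ⟨h1', h2'⟩ := Finset.mem_filter.mp ht'
      have h3 : (g₁ t, g₂ t) = (g₁ t', g₂ t') := h2.trans h2'.symm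
      exact hclass t h1 t' h1' (congrArg Prod.fst h3) (congrArg Prod.snd h3)
  have h1 := Finset.card_le_mul_card_image R (D.natAbs ^ 2) hfib
  refine h1.trans ?_
  refine Nat.mul_le_mul_left _ ?_
  refine (Finset.card_le_card himg).trans ?_
  rw [Finset.card_product, sq]

end Pool.Agent.H12.EH
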