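import Pool.Agent.H12.EH.Spc
import Pool.Agent.H12.EH.Rts
import Pool.Agent.H92.DivBound

/-!
[H12 EH BCNT]  The number of pairs with `z ~ Z`: fractions in a residue class modulo `z²` are spaced.

`T` is the union over `z ∈ [Z, 2 Z]` (at most `Z + 1 ≤ 2 Z` integers) of the set `T_z` of the pairs with `G(r,s) = g z²`.
For `p ∈ T_z`: `s` is prime to `z` (a prime dividing `s` and `z` divides `G(r,s)`, so `r³`), choose `t ∈ range (z²)` with
`r ≡ t s (mod z²)`; `s³ f(t) ≡ G(r,s) ≡ 0`, so `z² ∣ f(t)`.  By `rts` and `H92.divisor_bound` there are at most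
`K τ(z²)² ≤ C z^(ε)` values of `t`.  For fixed `z, t` two different pairs satisfy `r s' - r' s ≡ 0 (mod z²)` and
`r s' ≠ r' s` (`cross_ne`), so `|r/s - r'/s'| ≥ z² / (s s') ≥ z² / (4 S²)`.  By `Fib` `r / s` is in the interval
`[Re ρ_v - 2 lam, Re ρ_v + 2 lam]` of length `4 lam`.  `spc`: at most `1 + 16 lam S² / z²` pairs.
Total: `≤ 2 Z · C (2Z)^ε (1 + 16 lam S² / Z²) ≤ C' Z^ε (Z + lam S² / Z)`.
If `T` is not empty: `g z² = |G(r,s)| = ∏ ‖r - ρ_u s‖` (`Gf_norm`), the factor `v` is at least `lam s`, and for `u ≠ v`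
`‖ρ_u - ρ_v‖ s ≤ ‖r - ρ_u s‖ + ‖r - ρ_v s‖ ≤ 3 ‖r - ρ_u s‖` because `‖r - ρ_v s‖ ≤ 2 lam s ≤ 2 ‖r - ρ_u s‖`.  So
`8 G Z² ≥ g z² ≥ c lam S³` and `lam S² / Z ≤ √(8 / c) √(S lam G)`.
-/

set_option autoImplicit false

namespace Pool.Agent.H12.EH

/-- lower bound for the form in a fiber -/
theorem gf_low {A B : ℤ} {ρ : Fin 3 → ℂ} (hρ : Roots A B ρ) : ∃ c : ℝ, 0 < c ∧
    ∀ (v : Fin 3) (S lam : ℝ) (r s : ℤ), 0 < S → 0 < lam → Fib ρ v S lam r s →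
      c * lam * S ^ 3 ≤ |((Gf A B r s : ℤ) : ℝ)| := by
  -- the smallest distance of two roots
  obtain ⟨δ, hδ, hδ2⟩ : ∃ δ : ℝ, 0 < δ ∧ ∀ u v, u ≠ v → δ ≤ ‖ρ u - ρ v‖ := by
    have h0 : ∀ u v, u ≠ v → 0 < ‖ρ u - ρ v‖ := fun u v h => norm_pos_iff.2 (sub_ne_zero.2 (hρ.ne u v h))
    refine ⟨min ‖ρ 0 - ρ 1‖ (min ‖ρ 0 - ρ 2‖ ‖ρ 1 - ρ 2‖), ?_, ?_⟩
    · exact lt_min (h0 0 1 (by decide)) (lt_min (h0 0 2 (by decide)) (h0 1 2 (by decide)))
    · intro u v h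
      have h1 := min_le_left ‖ρ 0 - ρ 1‖ (min ‖ρ 0 - ρ 2‖ ‖ρ 1 - ρ 2‖)
      have h2 := min_le_right ‖ρ 0 - ρ 1‖ (min ‖ρ 0 - ρ 2‖ ‖ρ 1 - ρ 2‖)
      have h3 := min_le_left ‖ρ 0 - ρ 2‖ ‖ρ 1 - ρ 2‖
      have h4 := min_le_right ‖ρ 0 - ρ 2‖ ‖ρ 1 - ρ 2‖
      fin_cases u <;> fin_cases v
      · exact absurd rfl h
      · exact h1
      · exact h2.trans h3
      · exact h1.trans (norm_sub_rev _ _).le
      · exact absurd rfl h
      · exact h2.trans h4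
      · exact (h2.trans h3).trans (norm_sub_rev _ _).le
      · exact (h2.trans h4).trans (norm_sub_rev _ _).le
      · exact absurd rfl h
  refine ⟨δ ^ 2 / 9, by positivity, ?_⟩
  intro v S lam r s hS hlam hF
  obtain ⟨hs1, hs2, hF1, hF2⟩ := hF
  have hs : (0 : ℝ) < s := lt_of_lt_of_le hS hs1
  -- the other factors
  have h2 : ∀ u, u ≠ v → δ * S / 3 ≤ ‖(r : ℂ) - ρ u * s‖ := by
    intro u hu
    have h3 : ‖(ρ u - ρ v) * (s : ℂ)‖ ≤ ‖(r : ℂ) - ρ u * s‖ + ‖(r : ℂ) - ρ v * s‖ := by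
      have : (ρ u - ρ v) * (s : ℂ) = ((r : ℂ) - ρ v * s) - ((r : ℂ) - ρ u * s) := by ring
      rw [this, add_comm]
      exact norm_sub_le _ _
    rw [norm_mul, Complex.norm_intCast, abs_of_pos hs] at h3
    have h4 := hδ2 u v hu
    have h5 : δ * S ≤ ‖ρ u - ρ v‖ * s := mul_le_mul h4 hs1 hS.le (norm_nonneg _)
    have h6 := hF1 u
    linarith
  have h1 : lam * S ≤ ‖(r : ℂ) - ρ v * s‖ := (mul_le_mul_of_nonneg_left hs1 hlam.le).trans (hF1 v)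
  have hd : 0 ≤ δ * S / 3 := by positivity
  have hl : 0 ≤ lam * S := by positivity
  rw [Gf_norm hρ]
  have e1 : δ ^ 2 / 9 * lam * S ^ 3 = lam * S * (δ * S / 3) * (δ * S / 3) := by ring
  rw [e1]
  fin_cases v
  · exact mul_le_mul (mul_le_mul h1 (h2 1 (by decide)) hd (norm_nonneg _)) (h2 2 (by decide)) hd (by positivity)
  · calc lam * S * (δ * S / 3) * (δ * S / 3) = (δ * S / 3) * (lam * S) * (δ * S / 3) := by ring
      _ ≤ _ := mul_le_mul (mul_le_mul (h2 0 (by decide)) h1 hl (norm_nonneg _)) (h2 2 (by decide)) hd (by positivity)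
  · calc lam * S * (δ * S / 3) * (δ * S / 3) = (δ * S / 3) * (δ * S / 3) * (lam * S) := by ring
      _ ≤ _ := mul_le_mul (mul_le_mul (h2 0 (by decide)) (h2 1 (by decide)) hd (norm_nonneg _)) h1 hl (by positivity)

/-- the pairs with a fixed `z` -/
theorem bcnt_z {A B : ℤ} {ρ : Fin 3 → ℂ} (v : Fin 3) (S lam : ℝ) (hS : 0 < S) (hlam : 0 < lam)
    (z : ℕ) (hz : 0 < z) (T : Finset (ℤ × ℤ)) (hT : ∀ p ∈ T, IsCoprime p.1 p.2 ∧ 0 < p.2 ∧
      Fib ρ v S lam p.1 p.2 ∧ (z : ℤ) ^ 2 ∣ Gf A B p.1 p.2) :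
    (T.card : ℝ) ≤ (1 + 16 * lam * S ^ 2 / z ^ 2) *
      ((Finset.range (z ^ 2)).filter (fun t : ℕ => ((z ^ 2 : ℕ) : ℤ) ∣ (t : ℤ) ^ 3 + A * t + B)).card := by
  have hzr : (0 : ℝ) < z := by exact_mod_cast hz
  have hz2 : (0 : ℤ) < (z : ℤ) ^ 2 := by positivity
  -- the residue
  have key : ∀ p ∈ T, ∃ t : ℕ, t < z ^ 2 ∧ (z : ℤ) ^ 2 ∣ p.1 - t * p.2 ∧ (z : ℤ) ^ 2 ∣ (t : ℤ) ^ 3 + A * t + B := by
    intro p hp
    obtain ⟨hc, hs, -, hd⟩ := hT p hp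
    have hcop : IsCoprime p.2 ((z : ℤ) ^ 2) := by
      apply IsCoprime.pow_right
      have h1 : IsCoprime p.2 (Gf A B p.1 p.2) := by
        have : Gf A B p.1 p.2 = p.1 ^ 3 + p.2 * (A * p.1 * p.2 + B * p.2 ^ 2) := by
          unfold Gf; ring
        rw [this]
        exact (IsCoprime.add_mul_left_right_iff).2 (IsCoprime.pow_right hc.symm)
      exact h1.of_isCoprime_of_dvd_right ((dvd_pow_self _ (by norm_num)).trans hd)
    obtain ⟨a, b, hab⟩ := hcop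
    have h0 : 0 ≤ (p.1 * a) % ((z : ℤ) ^ 2) := Int.emod_nonneg _ hz2.ne'
    have h1 : (p.1 * a) % ((z : ℤ) ^ 2) < (z : ℤ) ^ 2 := Int.emod_lt_of_pos _ hz2
    refine ⟨((p.1 * a) % ((z : ℤ) ^ 2)).toNat, ?_, ?_, ?_⟩
    · have : (((p.1 * a) % ((z : ℤ) ^ 2)).toNat : ℤ) < ((z ^ 2 : ℕ) : ℤ) := by
        rw [Int.toNat_of_nonneg h0]; push_cast; exact h1
      exact_mod_cast this
    · rw [Int.toNat_of_nonneg h0, Int.emod_def]
      refine ⟨p.1 * b + (p.1 * a) / ((z : ℤ) ^ 2) * p.2, ?_⟩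
      linear_combination (-p.1) * hab
    · rw [Int.toNat_of_nonneg h0]
      set t := (p.1 * a) % ((z : ℤ) ^ 2) with ht
      have h2 : (z : ℤ) ^ 2 ∣ p.1 - t * p.2 := by
        rw [ht, Int.emod_def]
        refine ⟨p.1 * b + (p.1 * a) / ((z : ℤ) ^ 2) * p.2, ?_⟩
        linear_combination (-p.1) * hab
      have h3 : (z : ℤ) ^ 2 ∣ p.2 ^ 3 * (t ^ 3 + A * t + B) := by
        have : p.2 ^ 3 * (t ^ 3 + A * t + B) = Gf A B p.1 p.2 -
            (p.1 - t * p.2) * (p.1 ^ 2 + p.1 * (t * p.2) + (t * p.2) ^ 2 + A * p.2 ^ 2) := by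
          unfold Gf; ring
        rw [this]
        exact dvd_sub hd (h2.mul_right _)
      exact (IsCoprime.pow_left (m := 3) ⟨a, b, hab⟩ : IsCoprime (p.2 ^ 3) ((z : ℤ) ^ 2)).symm.dvd_of_dvd_mul_left h3
  choose! f hf using key
  set n : ℕ := ⌊1 + 16 * lam * S ^ 2 / z ^ 2⌋₊ with hn
  have hpos : 0 ≤ 1 + 16 * lam * S ^ 2 / (z : ℝ) ^ 2 := by positivity
  have h1 := Finset.card_le_mul_card_image_of_maps_to (f := f) (s := T)
    (t := (Finset.range (z ^ 2)).filter (fun t : ℕ => ((z ^ 2 : ℕ) : ℤ) ∣ (t : ℤ) ^ 3 + A * t + B))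
    (fun p hp => by
      rw [Finset.mem_filter, Finset.mem_range]
      refine ⟨(hf p hp).1, ?_⟩
      push_cast
      exact (hf p hp).2.2) n (by
      intro t _
      rw [hn, Nat.le_floor_iff hpos]
      have h2 := spc (T.filter (fun a => f a = t)) (fun p => (p.1 : ℝ) / p.2) ((ρ v).re - 2 * lam) (4 * lam)
        ((z : ℝ) ^ 2 / (4 * S ^ 2)) (by positivity) (by positivity) ?_ ?_
      · refine h2.trans (le_of_eq ?_)
        field_simp
        try ring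
      · intro p hp
        rw [Finset.mem_filter] at hp
        obtain ⟨-, hs, hF, -⟩ := hT p hp.1
        have hsr : (0 : ℝ) < (p.2 : ℝ) := by exact_mod_cast hs
        have h3 : |((p.1 : ℝ) - (ρ v).re * p.2)| ≤ 2 * lam * p.2 := by
          refine le_trans ?_ hF.2.2.2
          have h4 := Complex.abs_re_le_norm ((p.1 : ℂ) - ρ v * p.2)
          have h5 : ((p.1 : ℂ) - ρ v * p.2).re = (p.1 : ℝ) - (ρ v).re * p.2 := by
            simp [Complex.sub_re, Complex.mul_re]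
          rwa [h5] at h4
        rw [abs_le] at h3
        constructor
        · rw [le_div_iff₀ hsr]; linarith [h3.1]
        · rw [div_le_iff₀ hsr]; linarith [h3.2]
      · intro p hp q hq hpq
        rw [Finset.mem_filter] at hp hq
        obtain ⟨hpc, hps, hpF, -⟩ := hT p hp.1
        obtain ⟨hqc, hqs, hqF, -⟩ := hT q hq.1
        have hpr : (0 : ℝ) < (p.2 : ℝ) := by exact_mod_cast hps
        have hqr : (0 : ℝ) < (q.2 : ℝ) := by exact_mod_cast hqs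
        have h3 := cross_ne hpc hqc hps hqs hpq
        have h4 : (z : ℤ) ^ 2 ∣ p.1 * q.2 - q.1 * p.2 := by
          have a1 := (hf p hp.1).2.1
          have a2 := (hf q hq.1).2.1
          rw [hp.2] at a1
          rw [hq.2] at a2
          have : p.1 * q.2 - q.1 * p.2 = (p.1 - t * p.2) * q.2 - (q.1 - t * q.2) * p.2 := by ring
          rw [this]
          exact dvd_sub (a1.mul_right _) (a2.mul_right _)
        have h5 : (z : ℤ) ^ 2 ≤ |p.1 * q.2 - q.1 * p.2| :=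
          Int.le_of_dvd (abs_pos.2 (sub_ne_zero.2 h3)) ((dvd_abs _ _).2 h4)
        have h6 : (z : ℝ) ^ 2 ≤ |(p.1 : ℝ) * q.2 - q.1 * p.2| := by exact_mod_cast h5
        have h7 : (p.1 : ℝ) / p.2 - q.1 / q.2 = ((p.1 : ℝ) * q.2 - q.1 * p.2) / (p.2 * q.2) := by
          field_simp
        show (z : ℝ) ^ 2 / (4 * S ^ 2) ≤ |(p.1 : ℝ) / p.2 - q.1 / q.2|
        rw [h7, abs_div, abs_of_pos (mul_pos hpr hqr)]
        refine div_le_div₀ (abs_nonneg _) h6 (by positivity) ?_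
        have b1 := hpF.2.1
        have b2 := hqF.2.1
        calc (p.2 : ℝ) * q.2 ≤ (2 * S) * (2 * S) := mul_le_mul b1 b2 hqr.le (by positivity)
          _ = 4 * S ^ 2 := by ring)
  have h2 : (T.card : ℝ) ≤ (n : ℝ) * ((Finset.range (z ^ 2)).filter
      (fun t : ℕ => ((z ^ 2 : ℕ) : ℤ) ∣ (t : ℤ) ^ 3 + A * t + B)).card := by exact_mod_cast h1
  exact h2.trans (mul_le_mul_of_nonneg_right (Nat.floor_le hpos) (Nat.cast_nonneg _))

theorem bcnt {A B : ℤ} (hD : 4 * A ^ 3 + 27 * B ^ 2 ≠ 0) {ρ : Fin 3 → ℂ} (hρ : Roots A B ρ) (ε : ℝ)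
    (hε : 0 < ε) : ∃ C : ℝ, 0 < C ∧ ∀ (v : Fin 3) (S lam G Z : ℝ), 0 < S → 0 < lam → 1 ≤ G → 1 ≤ Z →
    ∀ T : Finset (ℤ × ℤ), (∀ p ∈ T, IsCoprime p.1 p.2 ∧ 0 < p.2 ∧ Fib ρ v S lam p.1 p.2 ∧
      ∃ g z : ℕ, G ≤ g ∧ g ≤ 2 * G ∧ Z ≤ z ∧ z ≤ 2 * Z ∧ Gf A B p.1 p.2 = g * z ^ 2) →
    (T.card : ℝ) ≤ C * Z ^ ε * (Z + √(S * lam * G)) := by
  obtain ⟨c, hc, hlow⟩ := gf_low hρ
  obtain ⟨K, hK, hrts⟩ := rts A B hD
  obtain ⟨C1, hC1, hdiv⟩ := Pool.Agent.H5.W.divisor_bound (ε / 4) (by positivity)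
  refine ⟨2 * (K * C1 ^ 2 * 2 ^ ε) * (1 + 16 * √(8 / c)), by positivity, ?_⟩
  intro v S lam G Z hS hlam hG hZ T hT
  have hZ0 : 0 < Z := by linarith
  have hG0 : 0 < G := by linarith
  rcases T.eq_empty_or_nonempty with hT0 | ⟨p0, hp0⟩
  · rw [hT0]
    simp only [Finset.card_empty, Nat.cast_zero]
    positivity
  -- the size of `lam S² / Z`
  have hsize : lam * S ^ 2 / Z ≤ √(8 / c) * √(S * lam * G) := by
    obtain ⟨-, -, hF, g, z, hg1, hg2, hz1, hz2, hgz⟩ := hT p0 hp0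
    have h1 := hlow v S lam p0.1 p0.2 hS hlam hF
    rw [hgz] at h1
    push_cast at h1
    rw [abs_of_nonneg (by positivity)] at h1
    have h2 : (g : ℝ) * (z : ℝ) ^ 2 ≤ 2 * G * (2 * Z) ^ 2 := by
      have hz0 : (0 : ℝ) ≤ z := Nat.cast_nonneg z
      exact mul_le_mul hg2 (pow_le_pow_left₀ hz0 hz2 2) (by positivity) (by positivity)
    have h3 : c * lam * S ^ 3 ≤ 8 * G * Z ^ 2 := by
      calc _ ≤ _ := h1
        _ ≤ _ := h2
        _ = _ := by ring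
    rw [← Real.sqrt_mul (by positivity)]
    apply Real.le_sqrt_of_sq_le
    rw [div_pow, div_le_iff₀ (by positivity)]
    have e1 : 8 / c * (S * lam * G) * Z ^ 2 = (lam * S / c) * (8 * G * Z ^ 2) := by
      field_simp
    rw [e1]
    calc (lam * S ^ 2) ^ 2 = (lam * S / c) * (c * lam * S ^ 3) := by field_simp
      _ ≤ _ := mul_le_mul_of_nonneg_left h3 (by positivity)
  -- the union over `z`
  classical
  set Zs : Finset ℕ := (Finset.Icc ⌈Z⌉₊ ⌊2 * Z⌋₊) with hZs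
  have hsub : T ⊆ Zs.biUnion (fun z => T.filter (fun p => (z : ℤ) ^ 2 ∣ Gf A B p.1 p.2)) := by
    intro p hp
    obtain ⟨-, -, hF, g, z, hg1, hg2, hz1, hz2, hgz⟩ := hT p hp
    rw [Finset.mem_biUnion]
    refine ⟨z, ?_, ?_⟩
    · rw [hZs, Finset.mem_Icc]
      exact ⟨Nat.ceil_le.2 hz1, Nat.le_floor hz2⟩
    · rw [Finset.mem_filter]
      refine ⟨hp, ?_⟩
      rw [hgz]
      exact dvd_mul_left _ _
  have hZcard : (Zs.card : ℝ) ≤ 2 * Z := by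
    rw [hZs, Nat.card_Icc]
    have h1 : (⌊2 * Z⌋₊ : ℝ) ≤ 2 * Z := Nat.floor_le (by positivity)
    have h2 : Z ≤ ⌈Z⌉₊ := Nat.le_ceil Z
    have h3 : (⌊2 * Z⌋₊ + 1 - ⌈Z⌉₊ : ℕ) ≤ (2 * Z : ℝ) + 1 - Z := by
      rcases Nat.le_total ⌈Z⌉₊ (⌊2 * Z⌋₊ + 1) with h | h
      · rw [Nat.cast_sub h]
        push_cast
        linarith
      · rw [Nat.sub_eq_zero_of_le h]
        push_cast
        linarith
    linarith
  have hone : ∀ z ∈ Zs, ((T.filter (fun p => (z : ℤ) ^ 2 ∣ Gf A B p.1 p.2)).card : ℝ) ≤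
      (1 + 16 * lam * S ^ 2 / Z ^ 2) * (K * C1 ^ 2 * 2 ^ ε * Z ^ ε) := by
    intro z hz
    rw [hZs, Finset.mem_Icc] at hz
    have hz1 : Z ≤ z := (Nat.le_ceil Z).trans (by exact_mod_cast hz.1)
    have hz2 : (z : ℝ) ≤ 2 * Z := (Nat.cast_le.2 hz.2).trans (Nat.floor_le (by positivity))
    have hz0 : 0 < z := by
      have : (0 : ℝ) < z := by linarith
      exact_mod_cast this
    have hzr : (0 : ℝ) < z := by exact_mod_cast hz0
    have h1 := bcnt_z (A := A) (B := B) v S lam hS hlam z hz0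
      (T.filter (fun p => (z : ℤ) ^ 2 ∣ Gf A B p.1 p.2)) (by
        intro p hp
        rw [Finset.mem_filter] at hp
        obtain ⟨a, b, d, -⟩ := hT p hp.1
        exact ⟨a, b, d, hp.2⟩)
    refine h1.trans (mul_le_mul ?_ ?_ (Nat.cast_nonneg _) (by positivity))
    · have : 16 * lam * S ^ 2 / (z : ℝ) ^ 2 ≤ 16 * lam * S ^ 2 / Z ^ 2 :=
        div_le_div_of_nonneg_left (by positivity) (by positivity) (pow_le_pow_left₀ hZ0.le hz1 2)
      linarith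
    · have h2 := hrts (z ^ 2) (by positivity)
      have h3 : (((Finset.range (z ^ 2)).filter (fun t : ℕ => ((z ^ 2 : ℕ) : ℤ) ∣ (t : ℤ) ^ 3 + A * t + B)).card : ℝ)
          ≤ (K : ℝ) * ((z ^ 2).divisors.card : ℝ) ^ 2 := by exact_mod_cast h2
      have h4 := hdiv (z ^ 2) (Nat.one_le_iff_ne_zero.2 (by positivity))
      have h5 : ((z ^ 2).divisors.card : ℝ) ^ 2 ≤ (C1 * ((z ^ 2 : ℕ) : ℝ) ^ (ε / 4)) ^ 2 :=
        pow_le_pow_left₀ (Nat.cast_nonneg _) h4 2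
      have h6 : (C1 * ((z ^ 2 : ℕ) : ℝ) ^ (ε / 4)) ^ 2 = C1 ^ 2 * (z : ℝ) ^ ε := by
        have e2 : ((z ^ 2 : ℕ) : ℝ) ^ (ε / 4) = (z : ℝ) ^ (ε / 2) := by
          push_cast
          rw [← Real.rpow_natCast (z : ℝ) 2, ← Real.rpow_mul hzr.le]
          congr 1
          push_cast
          ring
        have e3 : ((z : ℝ) ^ (ε / 2)) ^ 2 = (z : ℝ) ^ ε := by
          rw [← Real.rpow_natCast _ 2, ← Real.rpow_mul hzr.le]
          congr 1
          push_cast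
          ring
        rw [e2, mul_pow, e3]
      have h7 : (z : ℝ) ^ ε ≤ 2 ^ ε * Z ^ ε := by
        rw [← Real.mul_rpow (by norm_num) hZ0.le]
        exact Real.rpow_le_rpow hzr.le hz2 hε.le
      calc _ ≤ _ := h3
        _ ≤ (K : ℝ) * (C1 ^ 2 * (z : ℝ) ^ ε) := by
            rw [h6] at h5
            exact mul_le_mul_of_nonneg_left h5 (Nat.cast_nonneg _)
        _ ≤ (K : ℝ) * (C1 ^ 2 * (2 ^ ε * Z ^ ε)) := by gcongr
        _ = _ := by ring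
  have h1 : (T.card : ℝ) ≤ ∑ z ∈ Zs, ((T.filter (fun p => (z : ℤ) ^ 2 ∣ Gf A B p.1 p.2)).card : ℝ) := by
    have := (Finset.card_le_card hsub).trans Finset.card_biUnion_le
    exact_mod_cast this
  have h2 := h1.trans (Finset.sum_le_card_nsmul _ _ _ hone)
  rw [nsmul_eq_mul] at h2
  have hM : 0 ≤ K * C1 ^ 2 * 2 ^ ε * Z ^ ε := by positivity
  calc (T.card : ℝ) ≤ _ := h2
    _ ≤ 2 * Z * ((1 + 16 * lam * S ^ 2 / Z ^ 2) * (K * C1 ^ 2 * 2 ^ ε * Z ^ ε)) :=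
        mul_le_mul_of_nonneg_right hZcard (by positivity)
    _ = 2 * (K * C1 ^ 2 * 2 ^ ε) * Z ^ ε * (Z + 16 * (lam * S ^ 2 / Z)) := by
        field_simp
    _ ≤ 2 * (K * C1 ^ 2 * 2 ^ ε) * Z ^ ε * (Z + 16 * (√(8 / c) * √(S * lam * G))) := by
        gcongr
    _ ≤ 2 * (K * C1 ^ 2 * 2 ^ ε) * Z ^ ε * ((1 + 16 * √(8 / c)) * (Z + √(S * lam * G))) := by
        apply mul_le_mul_of_nonneg_left _ (by positivity)
        have a1 : 0 ≤ √(8 / c) * Z := by positivity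
        have a2 : 0 ≤ √(S * lam * G) := Real.sqrt_nonneg _
        nlinarith
    _ = _ := by ring

end Pool.Agent.H12.EH
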