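import Mathlib

/-!
# Heights of the lowest points of quadratic twists (MP_c60b8d_nt): definitions

`E_d : d y² = x³ + A x + B`.

Notation of the proof: a rational point with `y ≠ 0` has `x = r / s` in lowest terms and
`s G(r, s) = d w²` with `G(r, s) = r³ + A r s² + B s³` (`Gf`).  `Om A B H X` is the set of these pairs `(r, s)`
with `|r|, s ≤ H` and `d ≤ X` squarefree.  `Fib ρ v S lam r s`: `S ≤ s ≤ 2 S`, the root `ρ v` is the nearest
to `r / s` and its distance is between `lam` and `2 lam`.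
-/

set_option autoImplicit false

open scoped ComplexConjugate

namespace Pool.Agent.H12.EH

/-! ### the objects of the question -/

/-- The quadratic twist `E_d : d y² = x³ + A x + B` in the coordinates `(d x, d² y)`, in which its equation is
`Y² = X³ + A d² X + B d³`. -/
def twist (A B : ℤ) (d : ℕ) : WeierstrassCurve.Affine ℚ :=
  { a₁ := 0, a₂ := 0, a₃ := 0, a₄ := A * d ^ 2, a₆ := B * d ^ 3 }

/-- The logarithmic height of the coordinate `x` of the point `(d x, d² y)` of `twist A B d`, that is of the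
point `(x, y)` of `E_d`; `0` at the origin of the group. -/
noncomputable def hx {A B : ℤ} {d : ℕ} : (twist A B d).Point → ℝ
  | .zero => 0
  | .some X _ _ => Height.logHeight₁ (X / (d : ℚ))

/-- The canonical height of `P`, the limit of `h(x(2^k P)) / (2 · 4^k)`. -/
noncomputable def canHeight {A B : ℤ} {d : ℕ} (P : (twist A B d).Point) : ℝ :=
  Filter.limUnder Filter.atTop (fun k : ℕ => hx (2 ^ k • P) / (2 * 4 ^ k))

/-- The squarefree `d ≤ X` such that `E_d` has a rational point `P` of infinite order whose canonical height is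
at most `log Y`, that is with `η_d ≤ Y`. -/
def low (A B : ℤ) (X Y : ℝ) : Set ℕ :=
  {d | (d : ℝ) ≤ X ∧ Squarefree d ∧
    ∃ P : (twist A B d).Point, ¬ IsOfFinAddOrder P ∧ Real.exp (canHeight P) ≤ Y}

/-- The number of rational roots of `x³ + A x + B`. -/
noncomputable def nroots (A B : ℤ) : ℕ := {x : ℚ | x ^ 3 + A * x + B = 0}.ncard

/-! ### the binary form -/

/-- the binary cubic form `G` -/
def Gf (A B r s : ℤ) : ℤ := r ^ 3 + A * r * s ^ 2 + B * s ^ 3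

/-- the pairs `(r, s)` such that `r / s` is the abscissa of a point of `E_d` with `d ≤ X` -/
def Om (A B : ℤ) (H X : ℝ) : Set (ℤ × ℤ) :=
  {p | IsCoprime p.1 p.2 ∧ 0 < p.2 ∧ |(p.1 : ℝ)| ≤ H ∧ (p.2 : ℝ) ≤ H ∧
    ∃ d : ℕ, Squarefree d ∧ (d : ℝ) ≤ X ∧ ∃ w : ℤ, w ≠ 0 ∧ p.2 * Gf A B p.1 p.2 = d * w ^ 2}

/-- complex roots of the cubic: either all real, or the first real and the others complex conjugate -/
structure Roots (A B : ℤ) (ρ : Fin 3 → ℂ) : Prop where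
  fac : ∀ x : ℂ, x ^ 3 + A * x + B = (x - ρ 0) * (x - ρ 1) * (x - ρ 2)
  ne : ∀ u v, u ≠ v → ρ u ≠ ρ v
  real : (∀ v, (ρ v).im = 0) ∨ ((ρ 0).im = 0 ∧ ρ 2 = conj (ρ 1))

/-- `S ≤ s ≤ 2 S`, all roots have distance at least `lam` from `r / s` and the root `ρ v` at most `2 lam` -/
def Fib (ρ : Fin 3 → ℂ) (v : Fin 3) (S lam : ℝ) (r s : ℤ) : Prop :=
  S ≤ s ∧ (s : ℝ) ≤ 2 * S ∧ (∀ u, lam * s ≤ ‖(r : ℂ) - ρ u * s‖) ∧ ‖(r : ℂ) - ρ v * s‖ ≤ 2 * lam * s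

/-! ### labels -/

/-- The data of a label: three linear forms `l_v r + k_v s` with weights `w_v`, factors `γ_v`, an embedding `E` of
`ℤ³`, an integral matrix `M` and a natural number `m`. -/
structure Lab where
  l : Fin 3 → ℂ
  k : Fin 3 → ℂ
  w : Fin 3 → ℂ
  γ : Fin 3 → ℂ
  E : Fin 3 → Fin 3 → ℂ
  M : Matrix (Fin 3) (Fin 3) ℤ
  m : ℕ

namespace Lab

/-- the linear forms are pairwise independent with the weights as linear relation, `M` is the matrix of the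
quadratic form `∑ w_v γ_v (E ζ)_v²` -/
structure Ok (Λ : Lab) : Prop where
  wl : ∑ v, Λ.w v * Λ.l v = 0
  wk : ∑ v, Λ.w v * Λ.k v = 0
  w0 : ∀ v, Λ.w v ≠ 0
  γ0 : ∀ v, Λ.γ v ≠ 0
  m0 : 0 < Λ.m
  ind : ∀ u v, u ≠ v → Λ.l u * Λ.k v ≠ Λ.l v * Λ.k u
  hM : ∀ i j, ((Λ.M i j : ℤ) : ℂ) = ∑ v, Λ.w v * Λ.γ v * Λ.E v i * Λ.E v j

/-- the coordinate `v` of `E ζ` -/
noncomputable def u (Λ : Lab) (ζ : Fin 3 → ℤ) (v : Fin 3) : ℂ := ∑ j, Λ.E v j * (ζ j : ℂ)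

/-- `ζ` is a point with label `Λ` above the pair `(r, s)` -/
def Pt (Λ : Lab) (r s : ℤ) (ζ : Fin 3 → ℤ) : Prop :=
  ∀ v, Λ.γ v * (Λ.u ζ v) ^ 2 = (Λ.m : ℂ) ^ 2 * (Λ.l v * r + Λ.k v * s)

/-- the bilinear form -/
def B (Λ : Lab) (ζ ζ' : Fin 3 → ℤ) : ℤ := ζ ⬝ᵥ Λ.M.mulVec ζ'

end Lab

/-! ### cubic and quadratic orders -/

/-- the value of the element `c 0 + c 1 T + c 2 T²` at `x` -/
def ev (c : Fin 3 → ℤ) (x : ℂ) : ℂ := c 0 + c 1 * x + c 2 * x ^ 2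

/-- multiplication in `ℤ[T] / (T³ + A T + B)` -/
def mul3 (A B : ℤ) (c e : Fin 3 → ℤ) : Fin 3 → ℤ :=
  ![c 0 * e 0 - B * (c 1 * e 2 + c 2 * e 1),
    c 0 * e 1 + c 1 * e 0 - A * (c 1 * e 2 + c 2 * e 1) - B * (c 2 * e 2),
    c 0 * e 2 + c 1 * e 1 + c 2 * e 0 - A * (c 2 * e 2)]

/-- the element `c*` with `c c* = N(c)` -/
def adj3 (A B : ℤ) (c : Fin 3 → ℤ) : Fin 3 → ℤ :=
  ![(c 0 - A * c 2) ^ 2 + c 1 * (A * c 1 + B * c 2), -(c 0 * c 1) - B * c 2 ^ 2,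
    c 1 ^ 2 - c 0 * c 2 + A * c 2 ^ 2]

/-- the norm `N(c)` -/
def nrm3 (A B : ℤ) (c : Fin 3 → ℤ) : ℤ := mul3 A B c (adj3 A B c) 0

/-- the value of the element `c 0 + c 1 T` at `x` -/
def ev2 (c : Fin 2 → ℤ) (x : ℂ) : ℂ := c 0 + c 1 * x

/-- multiplication in `ℤ[T] / (T² + e T + (e² + A))` -/
def mul2 (A e : ℤ) (c f : Fin 2 → ℤ) : Fin 2 → ℤ :=
  ![c 0 * f 0 - (e ^ 2 + A) * (c 1 * f 1), c 0 * f 1 + c 1 * f 0 - e * (c 1 * f 1)]

/-- the conjugate of `c` -/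
def adj2 (e : ℤ) (c : Fin 2 → ℤ) : Fin 2 → ℤ := ![c 0 - e * c 1, -c 1]

/-- the norm of `c` -/
def nrm2 (A e : ℤ) (c : Fin 2 → ℤ) : ℤ := c 0 ^ 2 - e * (c 0 * c 1) + (e ^ 2 + A) * c 1 ^ 2

/-- the quadratic factor of the form `G` if `e` is a root: `G = (r - e s) Q` -/
def Qf (A e r s : ℤ) : ℤ := r ^ 2 + e * r * s + (e ^ 2 + A) * s ^ 2

end Pool.Agent.H12.EH
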