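import Pool.Agent.H12.EH.Basic

/-!
[H12 EH FAC]  Squarefree parts.

`sqf_dec`: `Nat.sq_mul_squarefree` for `|n|`, and the sign.
`facg`: `K = Δ^n`.  Let `a = ∏ |a_i|`; `a (∏ y_i)² = d w²` (absolute values).  Claim `a ∣ Δ^n d`, prime by prime
(`Nat.factorization_le_iff_dvd` or `Nat.factorization_prime_le_iff_dvd`): let `n_p` be the number of `i` with `p ∣ a_i`, it is the exponent of `p` in `a`
(`a_i` squarefree).  `n_p ≥ 2`: `p` divides two of the `F_i`, so `p ∣ Δ` and the exponent of `p` in `Δ^n` is at least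
`n ≥ n_p`.  `n_p = 1`: the exponent of `p` in `d w²` is odd, so `p ∣ d`.
`fac0`: `facg` with `n = 2`, `F = ![s, Gf]`, `Δ = 1` (`gcd(s, Gf) = gcd(s, r³) = 1`), `Gf > 0` because `s Gf = d w² > 0`.
`fac1`: `F = ![s, r - e s, Qf]`: `gcd(s, r - e s) = 1`, `gcd(s, Qf) = 1`, `Qf ≡ (3 e² + A) s² (mod r - e s)`, so
`gcd(r - e s, Qf) ∣ 3 e² + A`, which is not zero (`4 A³ + 27 B² ≠ 0`: `3 e² + A = f'(e)`).
`fac3`: `F i = frm e i`: `gcd(s, r - e_i s) = 1`, `gcd(r - e_i s, r - e_j s) ∣ e_i - e_j`; `Δ = ∏_{i<j} |e_i - e_j|`.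
`Gf = ∏ (r - e_i s)` from `Gf_prod` (cast to `ℂ`).
-/

set_option autoImplicit false

namespace Pool.Agent.H12.EH

/-- the four linear forms `s, r - e₀ s, r - e₁ s, r - e₂ s` -/
def frm (e : Fin 3 → ℤ) (i : Fin 4) (r s : ℤ) : ℤ := (![s, r - e 0 * s, r - e 1 * s, r - e 2 * s] : Fin 4 → ℤ) i

theorem sqf_dec (n : ℤ) (hn : n ≠ 0) : ∃ a y : ℤ, Squarefree a ∧ 0 < y ∧ n = a * y ^ 2 := by
  obtain ⟨a, b, hab, ha⟩ := Nat.sq_mul_squarefree n.natAbs
  have hb : b ≠ 0 := by
    rintro rfl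
    apply hn
    rw [← Int.natAbs_eq_zero, ← hab]
    simp
  refine ⟨n.sign * a, b, ?_, by positivity, ?_⟩
  · rcases lt_or_gt_of_ne hn with h | h
    · rw [Int.sign_eq_neg_one_of_neg h, neg_one_mul, ← Int.squarefree_natAbs]
      simpa using ha
    · rw [Int.sign_eq_one_of_pos h, one_mul, ← Int.squarefree_natAbs]
      simpa using ha
  · have h1 : n = n.sign * n.natAbs := (Int.sign_mul_natAbs n).symm
    conv_lhs => rw [h1, ← hab]
    push_cast
    ring

/-- the divisibility behind `facg` -/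
theorem Fac_core (n Δ : ℕ) (hΔ : 0 < Δ) (F a y : Fin n → ℤ) (d : ℕ) (w : ℤ)
    (hF : ∀ i, F i = a i * y i ^ 2) (ha : ∀ i, Squarefree (a i)) (hy : ∀ i, y i ≠ 0) (hw : w ≠ 0)
    (hd : Squarefree d) (hg : ∀ i j, i ≠ j → (Int.gcd (F i) (F j)) ∣ Δ)
    (hp : ∏ i, F i = d * w ^ 2) : ∏ i, (a i).natAbs ≤ Δ ^ n * d := by
  have hd0 : d ≠ 0 := hd.ne_zero
  have ha0 : ∀ i, (a i).natAbs ≠ 0 := fun i => by
    rw [Int.natAbs_ne_zero]
    exact (ha i).ne_zero
  have hP0 : ∏ i, (a i).natAbs ≠ 0 := Finset.prod_ne_zero_iff.mpr (fun i _ => ha0 i)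
  have hQ0 : ∏ i, (y i).natAbs ≠ 0 := Finset.prod_ne_zero_iff.mpr (fun i _ => by
    rw [Int.natAbs_ne_zero]
    exact hy i)
  have hw0 : w.natAbs ≠ 0 := by rwa [Int.natAbs_ne_zero]
  have hD0 : Δ ^ n * d ≠ 0 := by positivity
  have heq : (∏ i, (a i).natAbs) * (∏ i, (y i).natAbs) ^ 2 = d * w.natAbs ^ 2 := by
    have h1 := congrArg Int.natAbs hp
    rw [Int.natAbs_mul, Int.natAbs_pow, Int.natAbs_natCast] at h1
    rw [← h1, Finset.prod_congr rfl (fun i _ => hF i), Finset.prod_mul_distrib, Finset.prod_pow,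
      Int.natAbs_mul, Int.natAbs_pow]
    congr 1
    · exact (map_prod Int.natAbsHom a Finset.univ).symm
    · congr 1
      exact (map_prod Int.natAbsHom y Finset.univ).symm
  apply Nat.le_of_dvd (Nat.pos_of_ne_zero hD0)
  rw [← Nat.factorization_prime_le_iff_dvd hP0 hD0]
  intro q hq
  have hv : (∏ i, (a i).natAbs).factorization q = ∑ i, (a i).natAbs.factorization q := by
    rw [Nat.factorization_prod (fun i _ => ha0 i), Finsupp.finsetSum_apply]
  have hv1 : ∀ i, (a i).natAbs.factorization q ≤ 1 := fun i =>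
    (Int.squarefree_natAbs.mpr (ha i)).natFactorization_le_one q
  have hvn : (∏ i, (a i).natAbs).factorization q ≤ n := by
    rw [hv]
    calc ∑ i, (a i).natAbs.factorization q ≤ ∑ _i : Fin n, 1 := Finset.sum_le_sum (fun i _ => hv1 i)
      _ = n := by simp
  rcases Nat.lt_or_ge ((∏ i, (a i).natAbs).factorization q) 2 with hlt | hge
  · rcases Nat.lt_or_ge ((∏ i, (a i).natAbs).factorization q) 1 with h0 | h1
    · omega
    · have hone : (∏ i, (a i).natAbs).factorization q = 1 := by omega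
      have h2 := congrArg (fun m => m.factorization q) heq
      rw [Nat.factorization_mul hP0 (pow_ne_zero 2 hQ0), Nat.factorization_mul hd0 (pow_ne_zero 2 hw0),
        Nat.factorization_pow, Nat.factorization_pow] at h2
      simp only [Finsupp.coe_add, Pi.add_apply, Finsupp.coe_smul, Pi.smul_apply, smul_eq_mul] at h2
      have h3 : 1 ≤ d.factorization q := by omega
      rw [hone, Nat.factorization_mul (pow_ne_zero n hΔ.ne') hd0]
      simp only [Finsupp.coe_add, Pi.add_apply]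
      omega
  · -- two indices
    have hex : ∃ i, (a i).natAbs.factorization q ≠ 0 := by
      by_contra h
      push Not at h
      rw [hv, Finset.sum_eq_zero (fun i _ => h i)] at hge
      omega
    obtain ⟨i, hi⟩ := hex
    have hsum : (a i).natAbs.factorization q + ∑ j ∈ Finset.univ.erase i, (a j).natAbs.factorization q =
        (∏ i, (a i).natAbs).factorization q := by
      rw [hv]
      exact Finset.add_sum_erase Finset.univ (fun j => (a j).natAbs.factorization q) (Finset.mem_univ i)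
    have hex2 : ∃ j ∈ Finset.univ.erase i, (a j).natAbs.factorization q ≠ 0 := by
      by_contra h
      push Not at h
      rw [Finset.sum_eq_zero h] at hsum
      have := hv1 i
      omega
    obtain ⟨j, hj, hj2⟩ := hex2
    have hij : i ≠ j := (Finset.ne_of_mem_erase hj).symm
    have hqa : ∀ k, (a k).natAbs.factorization q ≠ 0 → (q : ℤ) ∣ F k := by
      intro k hk
      have h1 : q ∣ (a k).natAbs := Nat.dvd_of_factorization_pos hk
      have h2 : (q : ℤ) ∣ a k := Int.natCast_dvd.mpr h1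
      rw [hF k]
      exact h2.mul_right _
    have hqΔ : q ∣ Δ := by
      have h1 : q ∣ Int.gcd (F i) (F j) := by
        apply Int.dvd_gcd
        · exact hqa i hi
        · exact hqa j hj2
      exact h1.trans (hg i j hij)
    have hq1 : 1 ≤ Δ.factorization q :=
      (hq.dvd_iff_one_le_factorization hΔ.ne').mp hqΔ
    rw [Nat.factorization_mul (pow_ne_zero n hΔ.ne') hd0, Nat.factorization_pow]
    simp only [Finsupp.coe_add, Pi.add_apply, Finsupp.coe_smul, Pi.smul_apply, smul_eq_mul]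
    nlinarith

theorem facg (n Δ : ℕ) (hΔ : 0 < Δ) : ∃ K : ℕ, 0 < K ∧ ∀ (F a y : Fin n → ℤ) (d : ℕ) (w : ℤ),
    (∀ i, F i = a i * y i ^ 2) → (∀ i, Squarefree (a i)) → (∀ i, y i ≠ 0) → w ≠ 0 → Squarefree d →
    (∀ i j, i ≠ j → (Int.gcd (F i) (F j)) ∣ Δ) → ∏ i, F i = d * w ^ 2 →
    ∏ i, (a i).natAbs ≤ K * d :=
  ⟨Δ ^ n, by positivity, fun F a y d w h1 h2 h3 h4 h5 h6 h7 =>
    Fac_core n Δ hΔ F a y d w h1 h2 h3 h4 h5 h6 h7⟩

/-- `s` is coprime to `Gf` -/
theorem Fac_cop {A B r s : ℤ} (h : IsCoprime r s) : IsCoprime s (Gf A B r s) := by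
  have h1 : Gf A B r s = r ^ 3 + s * (A * r * s + B * s ^ 2) := by
    unfold Gf
    ring
  rw [h1]
  exact (h.symm.pow_right (n := 3)).add_mul_left_right _

theorem fac0 {A B : ℤ} {H X : ℝ} {p : ℤ × ℤ} (hp : p ∈ Om A B H X) : ∃ g z : ℕ, Squarefree g ∧ 0 < z ∧
    (g : ℝ) ≤ X ∧ Gf A B p.1 p.2 = g * z ^ 2 := by
  obtain ⟨hc, hs, -, -, d, hd, hdX, w, hw, hdw⟩ := hp
  have hd0 : (0 : ℤ) < d := by
    have := hd.ne_zero
    positivity
  have hG : 0 < Gf A B p.1 p.2 := by
    have h1 : 0 < p.2 * Gf A B p.1 p.2 := by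
      rw [hdw]
      positivity
    exact (pos_iff_pos_of_mul_pos h1).mp hs
  obtain ⟨a0, y0, ha0, hy0, he0⟩ := sqf_dec p.2 hs.ne'
  obtain ⟨a1, y1, ha1, hy1, he1⟩ := sqf_dec (Gf A B p.1 p.2) hG.ne'
  have hcop := Fac_cop (A := A) (B := B) hc
  have hgcd : Int.gcd p.2 (Gf A B p.1 p.2) = 1 := Int.isCoprime_iff_gcd_eq_one.mp hcop
  have key := Fac_core 2 1 one_pos ![p.2, Gf A B p.1 p.2] ![a0, a1] ![y0, y1] d w
    (by intro i; fin_cases i <;> simp [he0.symm, he1.symm])
    (by intro i; fin_cases i <;> simpa)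
    (by intro i; fin_cases i <;> simp [hy0.ne', hy1.ne'])
    hw hd
    (by
      intro i j hij
      fin_cases i <;> fin_cases j
      · exact absurd rfl hij
      · simp [hgcd]
      · simp [Int.gcd_comm, hgcd]
      · exact absurd rfl hij)
    (by rw [Fin.prod_univ_two]; simpa using hdw)
  rw [Fin.prod_univ_two] at key
  simp only [Matrix.cons_val_zero, Matrix.cons_val_one, one_pow, one_mul] at key
  have ha1pos : 0 < a1 := by
    rw [he1] at hG
    exact (pos_iff_pos_of_mul_pos hG).mpr (by positivity)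
  refine ⟨a1.natAbs, y1.natAbs, Int.squarefree_natAbs.mpr ha1, Int.natAbs_pos.mpr hy1.ne', ?_, ?_⟩
  · have h1 : a1.natAbs ≤ d := by
      have h2 : 1 ≤ a0.natAbs := Int.natAbs_pos.mpr ha0.ne_zero
      nlinarith
    have h3 : (a1.natAbs : ℝ) ≤ d := by exact_mod_cast h1
    linarith
  · rw [he1]
    rw [Int.natAbs_of_nonneg ha1pos.le, Int.natAbs_of_nonneg hy1.le]

theorem gf_qf {A B e : ℤ} (he : e ^ 3 + A * e + B = 0) (r s : ℤ) :
    Gf A B r s = (r - e * s) * Qf A e r s := by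
  unfold Gf Qf
  linear_combination s ^ 3 * he

theorem Fac_lin {r s : ℤ} (h : IsCoprime r s) (e : ℤ) : IsCoprime s (r - e * s) := by
  have h1 : r - e * s = r + s * (-e) := by ring
  rw [h1]
  exact h.symm.add_mul_left_right _

theorem Fac_qf {A e r s : ℤ} (h : IsCoprime r s) : IsCoprime s (Qf A e r s) := by
  have h1 : Qf A e r s = r ^ 2 + s * (e * r + (e ^ 2 + A) * s) := by
    unfold Qf
    ring
  rw [h1]
  exact (h.symm.pow_right (n := 2)).add_mul_left_right _

theorem Fac_gcd1 {A e r s : ℤ} (h : IsCoprime r s) :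
    Int.gcd (r - e * s) (Qf A e r s) ∣ (3 * e ^ 2 + A).natAbs := by
  have h0 : ((Int.gcd (r - e * s) (Qf A e r s) : ℕ) : ℤ) ∣ (3 * e ^ 2 + A) * s ^ 2 := by
    have h1 : (3 * e ^ 2 + A) * s ^ 2 = Qf A e r s - (r - e * s) * (r + 2 * e * s) := by
      unfold Qf
      ring
    rw [h1]
    exact dvd_sub (Int.gcd_dvd_right _ _) ((Int.gcd_dvd_left _ _).mul_right _)
  have h2 : IsCoprime ((Int.gcd (r - e * s) (Qf A e r s) : ℕ) : ℤ) (s ^ 2) :=
    ((Fac_lin h e).symm.of_isCoprime_of_dvd_left (Int.gcd_dvd_left _ _)).pow_right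
  have h3 := h2.dvd_of_dvd_mul_right h0
  exact Int.natCast_dvd.mp h3

theorem Fac_gcd2 {r s : ℤ} (h : IsCoprime r s) (e f : ℤ) :
    Int.gcd (r - e * s) (r - f * s) ∣ (e - f).natAbs := by
  have h0 : ((Int.gcd (r - e * s) (r - f * s) : ℕ) : ℤ) ∣ (e - f) * s := by
    have h1 : (e - f) * s = (r - f * s) - (r - e * s) := by ring
    rw [h1]
    exact dvd_sub (Int.gcd_dvd_right _ _) (Int.gcd_dvd_left _ _)
  have h2 : IsCoprime ((Int.gcd (r - e * s) (r - f * s) : ℕ) : ℤ) s :=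
    (Fac_lin h e).symm.of_isCoprime_of_dvd_left (Int.gcd_dvd_left _ _)
  have h3 := h2.dvd_of_dvd_mul_right h0
  exact Int.natCast_dvd.mp h3

theorem Fac_ne {A B e : ℤ} (hD : 4 * A ^ 3 + 27 * B ^ 2 ≠ 0) (he : e ^ 3 + A * e + B = 0) :
    3 * e ^ 2 + A ≠ 0 := by
  intro h
  apply hD
  have hA : A = -(3 * e ^ 2) := by linarith
  have hB : B = 2 * e ^ 3 := by
    rw [hA] at he
    linarith
  rw [hA, hB]
  ring

theorem fac1 {A B : ℤ} (hD : 4 * A ^ 3 + 27 * B ^ 2 ≠ 0) {e : ℤ} (he : e ^ 3 + A * e + B = 0) :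
    ∃ K : ℝ, 0 < K ∧ (∀ (H X : ℝ) (p : ℤ × ℤ), p ∈ Om A B H X → ∃ a y : Fin 3 → ℤ,
      (∀ i, Squarefree (a i)) ∧ (∀ i, 0 < y i) ∧ p.2 = a 0 * y 0 ^ 2 ∧ p.1 - e * p.2 = a 1 * y 1 ^ 2 ∧
      Qf A e p.1 p.2 = a 2 * y 2 ^ 2 ∧ |((a 0 * a 1 * a 2 : ℤ) : ℝ)| ≤ K * X) ∧
    ∀ (r s a₁ a₂ y₁ y₂ : ℤ) (g z : ℕ), IsCoprime r s → Squarefree a₁ → Squarefree a₂ → y₁ ≠ 0 → y₂ ≠ 0 →
      r - e * s = a₁ * y₁ ^ 2 → Qf A e r s = a₂ * y₂ ^ 2 → Squarefree g → 0 < z →
      Gf A B r s = g * z ^ 2 → |((a₁ * a₂ : ℤ) : ℝ)| ≤ K * g := by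
  have hne := Fac_ne hD he
  set Δ : ℕ := (3 * e ^ 2 + A).natAbs with hΔ
  have hΔ0 : 0 < Δ := Int.natAbs_pos.mpr hne
  have hΔ1 : (1 : ℝ) ≤ Δ := by exact_mod_cast hΔ0
  refine ⟨(Δ : ℝ) ^ 3, by positivity, ?_, ?_⟩
  · rintro H X p ⟨hc, hs, -, -, d, hd, hdX, w, hw, hdw⟩
    have hd0 : (0 : ℤ) < d := by
      have := hd.ne_zero
      positivity
    rw [gf_qf he] at hdw
    have hprod : p.2 * ((p.1 - e * p.2) * Qf A e p.1 p.2) ≠ 0 := by
      rw [hdw]
      positivity
    have hn1 : p.1 - e * p.2 ≠ 0 := fun h => hprod (by rw [h]; ring)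
    have hn2 : Qf A e p.1 p.2 ≠ 0 := fun h => hprod (by rw [h]; ring)
    obtain ⟨a0, y0, ha0, hy0, he0⟩ := sqf_dec p.2 hs.ne'
    obtain ⟨a1, y1, ha1, hy1, he1⟩ := sqf_dec _ hn1
    obtain ⟨a2, y2, ha2, hy2, he2⟩ := sqf_dec _ hn2
    have g01 : Int.gcd p.2 (p.1 - e * p.2) = 1 := Int.isCoprime_iff_gcd_eq_one.mp (Fac_lin hc e)
    have g02 : Int.gcd p.2 (Qf A e p.1 p.2) = 1 := Int.isCoprime_iff_gcd_eq_one.mp (Fac_qf hc)
    have g12 := Fac_gcd1 (A := A) (e := e) hc
    have key := Fac_core 3 Δ hΔ0 ![p.2, p.1 - e * p.2, Qf A e p.1 p.2] ![a0, a1, a2] ![y0, y1, y2] d w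
      (by intro i; fin_cases i <;> simp [he0.symm, he1.symm, he2.symm])
      (by intro i; fin_cases i <;> simpa)
      (by intro i; fin_cases i <;> simp [hy0.ne', hy1.ne', hy2.ne'])
      hw hd
      (by
        intro i j hij
        fin_cases i <;> fin_cases j
        · exact absurd rfl hij
        · simp [g01]
        · simp [g02]
        · simp [Int.gcd_comm _ p.2, g01]
        · exact absurd rfl hij
        · simpa using g12
        · simp [Int.gcd_comm _ p.2, g02]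
        · rw [Int.gcd_comm]
          simpa using g12
        · exact absurd rfl hij)
      (by rw [Fin.prod_univ_three]; simp only [Matrix.cons_val]; rw [← hdw]; ring)
    rw [Fin.prod_univ_three] at key
    simp only [Matrix.cons_val] at key
    refine ⟨![a0, a1, a2], ![y0, y1, y2], ?_, ?_, ?_, ?_, ?_, ?_⟩
    · intro i; fin_cases i <;> simpa
    · intro i; fin_cases i <;> simpa
    · simpa using he0
    · simpa using he1
    · simpa using he2
    · simp only [Matrix.cons_val]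
      have h1 : |((a0 * a1 * a2 : ℤ) : ℝ)| = ((a0.natAbs * a1.natAbs * a2.natAbs : ℕ) : ℝ) := by
        push_cast
        rw [abs_mul, abs_mul, Nat.cast_natAbs, Nat.cast_natAbs, Nat.cast_natAbs]
        push_cast
        rfl
      rw [h1]
      have h2 : ((a0.natAbs * a1.natAbs * a2.natAbs : ℕ) : ℝ) ≤ ((Δ ^ 3 * d : ℕ) : ℝ) := by
        exact_mod_cast key
      refine h2.trans ?_
      push_cast
      exact mul_le_mul_of_nonneg_left hdX (by positivity)
  · intro r s a₁ a₂ y₁ y₂ g z hc ha1 ha2 hy1 hy2 he1 he2 hg hz hG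
    rw [gf_qf he] at hG
    have g12 := Fac_gcd1 (A := A) (e := e) hc
    have key := Fac_core 2 Δ hΔ0 ![r - e * s, Qf A e r s] ![a₁, a₂] ![y₁, y₂] g z
      (by intro i; fin_cases i <;> simp [he1.symm, he2.symm])
      (by intro i; fin_cases i <;> simpa)
      (by intro i; fin_cases i <;> simp [hy1, hy2])
      (by positivity) hg
      (by
        intro i j hij
        fin_cases i <;> fin_cases j
        · exact absurd rfl hij
        · simpa using g12
        · rw [Int.gcd_comm]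
          simpa using g12
        · exact absurd rfl hij)
      (by rw [Fin.prod_univ_two]; simpa using hG)
    rw [Fin.prod_univ_two] at key
    simp only [Matrix.cons_val_zero, Matrix.cons_val_one] at key
    have h1 : |((a₁ * a₂ : ℤ) : ℝ)| = ((a₁.natAbs * a₂.natAbs : ℕ) : ℝ) := by
      push_cast
      rw [abs_mul, Nat.cast_natAbs, Nat.cast_natAbs]
      push_cast
      rfl
    rw [h1]
    have h2 : ((a₁.natAbs * a₂.natAbs : ℕ) : ℝ) ≤ ((Δ ^ 2 * g : ℕ) : ℝ) := by
      exact_mod_cast key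
    refine h2.trans ?_
    push_cast
    apply mul_le_mul_of_nonneg_right _ (by positivity)
    exact pow_le_pow_right₀ hΔ1 (by norm_num)

theorem fac3 {A B : ℤ} {e : Fin 3 → ℤ} (hρ : Roots A B (fun v => (e v : ℂ))) :
    ∃ K : ℝ, 0 < K ∧ (∀ (H X : ℝ) (p : ℤ × ℤ), p ∈ Om A B H X → ∃ a y : Fin 4 → ℤ,
      (∀ i, Squarefree (a i)) ∧ (∀ i, 0 < y i) ∧ (∀ i, frm e i p.1 p.2 = a i * y i ^ 2) ∧
      |((∏ i, a i : ℤ) : ℝ)| ≤ K * X) ∧
    ∀ (r s : ℤ) (a y : Fin 4 → ℤ) (g z : ℕ), IsCoprime r s → (∀ i, Squarefree (a i)) → (∀ i, y i ≠ 0) →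
      (∀ i, frm e i r s = a i * y i ^ 2) → Squarefree g → 0 < z →
      Gf A B r s = g * z ^ 2 → |((a 1 * a 2 * a 3 : ℤ) : ℝ)| ≤ K * g := by
  have hGf : ∀ r s : ℤ, Gf A B r s = (r - e 0 * s) * (r - e 1 * s) * (r - e 2 * s) := by
    intro r s
    have h := Gf_prod hρ r s
    exact_mod_cast h
  have hne : ∀ u v : Fin 3, u ≠ v → (e u - e v).natAbs ≠ 0 := by
    intro u v huv h
    rw [Int.natAbs_eq_zero] at h
    apply hρ.ne u v huv
    have : e u = e v := by linarith
    simp only [this]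
  set Δ : ℕ := (e 0 - e 1).natAbs * (e 0 - e 2).natAbs * (e 1 - e 2).natAbs with hΔ
  have h01 := hne 0 1 (by decide)
  have h02 := hne 0 2 (by decide)
  have h12 := hne 1 2 (by decide)
  have hΔ0 : 0 < Δ := by positivity
  have hΔ1 : (1 : ℝ) ≤ Δ := by exact_mod_cast hΔ0
  have d01 : (e 0 - e 1).natAbs ∣ Δ := ⟨(e 0 - e 2).natAbs * (e 1 - e 2).natAbs, by rw [hΔ]; ring⟩
  have d02 : (e 0 - e 2).natAbs ∣ Δ := ⟨(e 0 - e 1).natAbs * (e 1 - e 2).natAbs, by rw [hΔ]; ring⟩
  have d12 : (e 1 - e 2).natAbs ∣ Δ := ⟨(e 0 - e 1).natAbs * (e 0 - e 2).natAbs, by rw [hΔ]; ring⟩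
  refine ⟨(Δ : ℝ) ^ 4, by positivity, ?_, ?_⟩
  · rintro H X p ⟨hc, hs, -, -, d, hd, hdX, w, hw, hdw⟩
    have hd0 : (0 : ℤ) < d := by
      have := hd.ne_zero
      positivity
    have hfr : ∏ i, frm e i p.1 p.2 = d * w ^ 2 := by
      rw [← hdw, hGf, Fin.prod_univ_four]
      simp only [frm, Matrix.cons_val]
      ring
    have hnz : ∀ i, frm e i p.1 p.2 ≠ 0 := by
      have h1 : ∏ i, frm e i p.1 p.2 ≠ 0 := by
        rw [hfr]
        positivity
      intro i
      exact (Finset.prod_ne_zero_iff.mp h1) i (Finset.mem_univ i)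
    choose a y ha hy hay using fun i => sqf_dec _ (hnz i)
    have g01 := (Fac_gcd2 hc (e 0) (e 1)).trans d01
    have g02 := (Fac_gcd2 hc (e 0) (e 2)).trans d02
    have g12 := (Fac_gcd2 hc (e 1) (e 2)).trans d12
    have gs : ∀ v, Int.gcd p.2 (p.1 - e v * p.2) ∣ Δ := by
      intro v
      rw [Int.isCoprime_iff_gcd_eq_one.mp (Fac_lin hc (e v))]
      exact one_dvd _
    have key := Fac_core 4 Δ hΔ0 (fun i => frm e i p.1 p.2) a y d w hay ha (fun i => (hy i).ne')
      hw hd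
      (by
        intro i j hij
        fin_cases i <;> fin_cases j <;> simp only [frm, Matrix.cons_val, Fin.mk_one, Fin.zero_eta,
          Fin.reduceFinMk, ne_eq, not_true_eq_false] at hij ⊢ <;>
        first
          | exact gs _
          | exact g01
          | exact g02
          | exact g12
          | (rw [Int.gcd_comm]; exact gs _)
          | (rw [Int.gcd_comm]; exact g01)
          | (rw [Int.gcd_comm]; exact g02)
          | (rw [Int.gcd_comm]; exact g12))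
      hfr
    refine ⟨a, y, ha, hy, hay, ?_⟩
    have h1 : |((∏ i, a i : ℤ) : ℝ)| = ((∏ i, (a i).natAbs : ℕ) : ℝ) := by
      push_cast
      rw [Finset.abs_prod]
      apply Finset.prod_congr rfl
      intro i _
      rw [Nat.cast_natAbs]
      push_cast
      rfl
    rw [h1]
    have h2 : ((∏ i, (a i).natAbs : ℕ) : ℝ) ≤ ((Δ ^ 4 * d : ℕ) : ℝ) := by
      exact_mod_cast key
    refine h2.trans ?_
    push_cast
    exact mul_le_mul_of_nonneg_left hdX (by positivity)
  · intro r s a y g z hc ha hy hay hg hz hG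
    have hG' : (r - e 0 * s) * (r - e 1 * s) * (r - e 2 * s) = g * z ^ 2 := by
      rw [← hG, hGf]
    have g01 := (Fac_gcd2 hc (e 0) (e 1)).trans d01
    have g02 := (Fac_gcd2 hc (e 0) (e 2)).trans d02
    have g12 := (Fac_gcd2 hc (e 1) (e 2)).trans d12
    have e1 := hay 1
    have e2 := hay 2
    have e3 := hay 3
    simp only [frm, Matrix.cons_val] at e1 e2 e3
    have key := Fac_core 3 Δ hΔ0 ![r - e 0 * s, r - e 1 * s, r - e 2 * s] ![a 1, a 2, a 3]
      ![y 1, y 2, y 3] g z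
      (by intro i; fin_cases i <;> simp [e1.symm, e2.symm, e3.symm])
      (by intro i; fin_cases i <;> simp [ha])
      (by intro i; fin_cases i <;> simp [hy])
      (by positivity) hg
      (by
        intro i j hij
        fin_cases i <;> fin_cases j
        · exact absurd rfl hij
        · simpa using g01
        · simpa using g02
        · rw [Int.gcd_comm]
          simpa using g01
        · exact absurd rfl hij
        · simpa using g12
        · rw [Int.gcd_comm]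
          simpa using g02
        · rw [Int.gcd_comm]
          simpa using g12
        · exact absurd rfl hij)
      (by rw [Fin.prod_univ_three]; simpa using hG')
    rw [Fin.prod_univ_three] at key
    simp only [Matrix.cons_val] at key
    have h1 : |((a 1 * a 2 * a 3 : ℤ) : ℝ)| =
        (((a 1).natAbs * (a 2).natAbs * (a 3).natAbs : ℕ) : ℝ) := by
      push_cast
      rw [abs_mul, abs_mul, Nat.cast_natAbs, Nat.cast_natAbs, Nat.cast_natAbs]
      push_cast
      rfl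
    rw [h1]
    have h2 : (((a 1).natAbs * (a 2).natAbs * (a 3).natAbs : ℕ) : ℝ) ≤ ((Δ ^ 3 * g : ℕ) : ℝ) := by
      exact_mod_cast key
    refine h2.trans ?_
    push_cast
    apply mul_le_mul_of_nonneg_right _ (by positivity)
    exact pow_le_pow_right₀ hΔ1 (by norm_num)

end Pool.Agent.H12.EH
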