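import Pool.Agent.H12.EH.Basic

/-!
[H12 EH HTA]  Duplication changes the height by the factor 4 up to `O(1)`, uniformly in the twist.

`P = some X Y _` with `Y ≠ - Y` (otherwise `P + P = 0`), `2 • P = P + P` has abscissa `slope² - 2 X` with
`slope = (3 X² + A d²) / (2 Y)`, `Y² = X³ + A d² X + B d³` (`WeierstrassCurve.Affine.Point.add_self_of_Y_ne`,
`Affine.slope_of_Y_ne`, `Affine.addX`, `Affine.equation_iff`, `Affine.negY`).  With `x = X / d`:
`x(2P) = (x⁴ - 2 A x² - 8 B x + A²) / (4 (x³ + A x + B))`, and the denominator is not zero.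

Heights: `Height.logHeight₁_div_eq_logHeight`, `Height.logHeight₁_eq_logHeight` turn the claim into
`|logHeight ![F(x,1), G(x,1)] - 4 logHeight ![x, 1]| ≤ C` with the quartic forms
`F = X⁴ - 2 A X² Z² - 8 B X Z³ + A² Z⁴`, `G = 4 X³ Z + 4 A X Z³ + 4 B Z⁴` (as `MvPolynomial (Fin 2) ℚ`).
Upper bound: `Height.logHeight_eval_le'`.  Lower bound: `Height.logHeight_eval_ge'` with the cofactors (cubic forms) of
`f₁ F - g₁ G = 4 D Z⁷`, `f₂ F + g₂ G = 4 D X⁷`, `D = 4 A³ + 27 B²`,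
`f₁ = 12 X² Z + 16 A Z³`, `g₁ = 3 X³ - 5 A X Z² - 27 B Z³`,
`f₂ = 4 D X³ - 4 A² B X² Z + 4 A (3 A³ + 22 B²) X Z² + 12 B (A³ + 8 B²) Z³`,
`g₂ = A² B X³ + A (5 A³ + 32 B²) X² Z + 2 B (13 A³ + 96 B²) X Z² - 3 A² (A³ + 8 B²) Z³` (checked), divided by `4 D`.
(The use of these two theorems is modelled in `Mathlib/NumberTheory/Height/EllipticCurve.lean`.)
If the Mathlib route is inconvenient: for `x = r / s` in lowest terms `Rat.mulHeight₁_eq_max`-type formulas give a direct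
proof: numerator and denominator of `x(2P)` are `F(r,s) / h`, `G(r,s) / h` with `h ∣ 4 D`, and `|F|, |G| ≤ C max(|r|,s)⁴`,
`max(|F|,|G|) ≥ c max(|r|,s)⁴` by the two identities.
-/

set_option autoImplicit false

namespace Pool.Agent.H12.EH

open MvPolynomial in
/-- a monomial -/
noncomputable def htaM (a : ℚ) (i j : ℕ) : MvPolynomial (Fin 2) ℚ := C a * X 0 ^ i * X 1 ^ j

open MvPolynomial in
theorem htaM_hom (a : ℚ) (i j n : ℕ) (h : i + j = n) : (htaM a i j).IsHomogeneous n := by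
  have h1 : (C a * X 0 ^ i : MvPolynomial (Fin 2) ℚ).IsHomogeneous i :=
    isHomogeneous_C_mul_X_pow a 0 i
  have h2 : (X 1 ^ j : MvPolynomial (Fin 2) ℚ).IsHomogeneous j := isHomogeneous_X_pow 1 j
  have h3 := h1.mul h2
  rw [h] at h3
  exact h3

open MvPolynomial in
theorem htaM_eval (a : ℚ) (i j : ℕ) (x : Fin 2 → ℚ) :
    (htaM a i j).eval x = a * x 0 ^ i * x 1 ^ j := by
  unfold htaM
  simp

/-- the two quartic forms -/
noncomputable def htaP (A B : ℚ) : Fin 2 → MvPolynomial (Fin 2) ℚ :=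
  ![htaM 1 4 0 + htaM (-2 * A) 2 2 + htaM (-8 * B) 1 3 + htaM (A ^ 2) 0 4,
    htaM 4 3 1 + htaM (4 * A) 1 3 + htaM (4 * B) 0 4]

theorem htaP_hom (A B : ℚ) (i : Fin 2) : (htaP A B i).IsHomogeneous 4 := by
  have h : ∀ a i j, i + j = 4 → (htaM a i j).IsHomogeneous 4 := fun a i j h => htaM_hom a i j 4 h
  fin_cases i
  · exact (((h _ _ _ rfl).add (h _ _ _ rfl)).add (h _ _ _ rfl)).add (h _ _ _ rfl)
  · exact ((h _ _ _ rfl).add (h _ _ _ rfl)).add (h _ _ _ rfl)

/-- the cofactors, multiplied by `k = 1 / (4 D)` -/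
noncomputable def htaQ (A B D k : ℚ) : Fin 2 × Fin 2 → MvPolynomial (Fin 2) ℚ := fun a =>
  ![![htaM (k * (4 * D)) 3 0 + htaM (k * (-4 * A ^ 2 * B)) 2 1 +
      htaM (k * (4 * A * (3 * A ^ 3 + 22 * B ^ 2))) 1 2 +
      htaM (k * (12 * B * (A ^ 3 + 8 * B ^ 2))) 0 3,
     htaM (k * (A ^ 2 * B)) 3 0 + htaM (k * (A * (5 * A ^ 3 + 32 * B ^ 2))) 2 1 +
      htaM (k * (2 * B * (13 * A ^ 3 + 96 * B ^ 2))) 1 2 +
      htaM (k * (-3 * A ^ 2 * (A ^ 3 + 8 * B ^ 2))) 0 3],
    ![htaM (k * 12) 2 1 + htaM (k * (16 * A)) 0 3,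
     htaM (k * (-3)) 3 0 + htaM (k * (5 * A)) 1 2 + htaM (k * (27 * B)) 0 3]] a.1 a.2

theorem htaQ_hom (A B D k : ℚ) (a : Fin 2 × Fin 2) : (htaQ A B D k a).IsHomogeneous 3 := by
  have h : ∀ a i j, i + j = 3 → (htaM a i j).IsHomogeneous 3 := fun a i j h => htaM_hom a i j 3 h
  obtain ⟨i, j⟩ := a
  fin_cases i <;> fin_cases j
  · exact (((h _ _ _ rfl).add (h _ _ _ rfl)).add (h _ _ _ rfl)).add (h _ _ _ rfl)
  · exact (((h _ _ _ rfl).add (h _ _ _ rfl)).add (h _ _ _ rfl)).add (h _ _ _ rfl)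
  · exact (h _ _ _ rfl).add (h _ _ _ rfl)
  · exact ((h _ _ _ rfl).add (h _ _ _ rfl)).add (h _ _ _ rfl)

theorem htaQ_cond (A B D k : ℚ) (hD : D = 4 * A ^ 3 + 27 * B ^ 2) (hk : k * (4 * D) = 1)
    (x : Fin 2 → ℚ) (i : Fin 2) :
    ∑ j, (htaQ A B D k (i, j)).eval x * (htaP A B j).eval x = x i ^ (3 + 4) := by
  subst hD
  rw [Fin.sum_univ_two]
  fin_cases i
  · simp only [htaQ, htaP, Fin.zero_eta, Fin.isValue, Matrix.cons_val_zero, Matrix.cons_val_one,
      map_add, htaM_eval]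
    linear_combination (x 0 ^ 7) * hk
  · simp only [htaQ, htaP, Fin.mk_one, Fin.isValue, Matrix.cons_val_zero, Matrix.cons_val_one,
      map_add, htaM_eval]
    linear_combination (x 1 ^ 7) * hk

/-- the height of the value of the rational function of degree four -/
theorem hta_height (A B : ℚ) (hD : 4 * A ^ 3 + 27 * B ^ 2 ≠ 0) : ∃ C : ℝ, 0 ≤ C ∧ ∀ x : ℚ,
    |Height.logHeight₁ ((x ^ 4 - 2 * A * x ^ 2 - 8 * B * x + A ^ 2) /
      (4 * (x ^ 3 + A * x + B))) - 4 * Height.logHeight₁ x| ≤ C := by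
  obtain ⟨C₁, hC₁⟩ := Height.logHeight_eval_le' (htaP_hom A B)
  obtain ⟨C₂, hC₂⟩ := Height.logHeight_eval_ge' (N := 4) (htaQ_hom A B (4 * A ^ 3 + 27 * B ^ 2)
    (1 / (4 * (4 * A ^ 3 + 27 * B ^ 2))))
  have hk : 1 / (4 * (4 * A ^ 3 + 27 * B ^ 2)) * (4 * (4 * A ^ 3 + 27 * B ^ 2)) = 1 := by
    field_simp
  refine ⟨|C₁| + |C₂|, by positivity, fun x => ?_⟩
  have h1 := hC₁ ![x, 1]
  have h2 := hC₂ (htaP A B) (x := ![x, 1]) (fun i => htaQ_cond A B _ _ rfl hk ![x, 1] i)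
  have h3 : (fun j => (htaP A B j).eval ![x, 1]) =
      ![x ^ 4 - 2 * A * x ^ 2 - 8 * B * x + A ^ 2, 4 * (x ^ 3 + A * x + B)] := by
    funext j
    fin_cases j
    · simp only [htaP, Fin.zero_eta, Fin.isValue, Matrix.cons_val_zero, Matrix.cons_val_one,
        map_add, htaM_eval]
      ring
    · simp only [htaP, Fin.mk_one, Fin.isValue, Matrix.cons_val_zero, Matrix.cons_val_one,
        map_add, htaM_eval]
      ring
  rw [h3, ← Height.logHeight₁_eq_logHeight, ← Height.logHeight₁_div_eq_logHeight] at h1 h2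
  push_cast at h1 h2
  rw [abs_le]
  have e1 := le_abs_self C₁
  have e2 := neg_abs_le C₂
  have e3 := abs_nonneg C₁
  have e4 := abs_nonneg C₂
  constructor <;> linarith

theorem hta (A B : ℤ) (hD : 4 * A ^ 3 + 27 * B ^ 2 ≠ 0) : ∃ C : ℝ, 0 ≤ C ∧ ∀ d : ℕ, 0 < d →
    ∀ P : (twist A B d).Point, 2 • P ≠ 0 → |hx (2 • P) - 4 * hx P| ≤ C := by
  have hD' : 4 * (A : ℚ) ^ 3 + 27 * (B : ℚ) ^ 2 ≠ 0 := by exact_mod_cast hD
  obtain ⟨C, hC, h⟩ := hta_height (A : ℚ) (B : ℚ) hD'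
  refine ⟨C, hC, fun d hd P hP => ?_⟩
  have hd0 : (d : ℚ) ≠ 0 := by exact_mod_cast hd.ne'
  rw [two_nsmul] at hP ⊢
  rcases P with _ | ⟨x, y, hxy⟩
  · exfalso
    apply hP
    exact add_zero _
  · by_cases hy : y = (twist A B d).negY x y
    · exact absurd (WeierstrassCurve.Affine.Point.add_self_of_Y_eq hy) hP
    · rw [WeierstrassCurve.Affine.Point.add_self_of_Y_ne hy]
      have hsl := WeierstrassCurve.Affine.slope_of_Y_ne (W := twist A B d) (x₁ := x) (y₁ := y) rfl hy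
      have heq := (WeierstrassCurve.Affine.equation_iff x y).1 hxy.1
      have hy2 : 2 * y ≠ 0 := by
        intro h0
        apply hy
        unfold WeierstrassCurve.Affine.negY
        simp only [twist]
        linarith
      have hy0 : y ≠ 0 := fun h0 => hy2 (by rw [h0, mul_zero])
      have hneg : (twist A B d).negY x y = -y := by
        unfold WeierstrassCurve.Affine.negY
        simp only [twist]
        ring
      have heq' : y ^ 2 = x ^ 3 + A * d ^ 2 * x + B * d ^ 3 := by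
        simp only [twist] at heq
        linear_combination heq
      have hkey : (twist A B d).addX x x ((twist A B d).slope x x y y) / d =
          ((x / d) ^ 4 - 2 * A * (x / d) ^ 2 - 8 * B * (x / d) + A ^ 2) /
            (4 * ((x / d) ^ 3 + A * (x / d) + B)) := by
        rw [hsl, hneg]
        unfold WeierstrassCurve.Affine.addX
        simp only [twist]
        have hden : (x / d) ^ 3 + A * (x / d) + B = y ^ 2 / d ^ 3 := by
          rw [heq']
          field_simp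
        rw [hden]
        have hyy : y - -y = 2 * y := by ring
        rw [hyy]
        field_simp
        rw [heq']
        ring
      have hx1 : ∀ (X Y : ℚ) (hXY : (twist A B d).Nonsingular X Y),
          hx (WeierstrassCurve.Affine.Point.some X Y hXY) = Height.logHeight₁ (X / (d : ℚ)) :=
        fun X Y hXY => rfl
      rw [hx1, hx1, hkey]
      exact h (x / d)

end Pool.Agent.H12.EH
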