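import Pool.Agent.H12.EH.Hta

/-!
[H12 EH HTB]  The canonical height is at least half of the naive height, up to a constant (Tate's telescoping).

`a k = hx (2^k • P) / (2 · 4^k)`.  `P` has infinite order, so `2 • (2^k • P) ≠ 0` for all `k`, and `hta` gives
`|a (k+1) - a k| ≤ C / (8 · 4^k)` (`2^(k+1) • P = 2 • (2^k • P)`).  So `a` is Cauchy (`cauchySeq_of_le_geometric` with ratio
`1/4`), converges, and the limit is `canHeight P` (`Filter.Tendsto.limUnder_eq`).  `dist_le_of_le_geometric_of_tendsto₀`: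
`|a 0 - canHeight P| ≤ (C/8) / (1 - 1/4) = C/6`; `a 0 = hx P / 2`.
-/

set_option autoImplicit false

namespace Pool.Agent.H12.EH

theorem htb (A B : ℤ) (hD : 4 * A ^ 3 + 27 * B ^ 2 ≠ 0) : ∃ C : ℝ, 0 ≤ C ∧ ∀ d : ℕ, 0 < d →
    ∀ P : (twist A B d).Point, ¬ IsOfFinAddOrder P → hx P ≤ 2 * canHeight P + C := by
  obtain ⟨C, hC, h⟩ := hta A B hD
  refine ⟨C / 3, by positivity, fun d hd P hP => ?_⟩
  set a : ℕ → ℝ := fun k => hx (2 ^ k • P) / (2 * 4 ^ k) with ha
  have h2 : ∀ k : ℕ, 2 • (2 ^ k • P) ≠ 0 := by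
    intro k hk
    apply hP
    rw [isOfFinAddOrder_iff_nsmul_eq_zero]
    refine ⟨2 * 2 ^ k, by positivity, ?_⟩
    rw [mul_nsmul']
    exact hk
  have hstep : ∀ k : ℕ, dist (a k) (a (k + 1)) ≤ C / 8 * (1 / 4) ^ k := by
    intro k
    have h3 := h d hd (2 ^ k • P) (h2 k)
    have h4 : (2 ^ (k + 1) • P : (twist A B d).Point) = 2 • (2 ^ k • P) := by
      rw [pow_succ, mul_comm, mul_nsmul']
    have h5 : a k - a (k + 1) =
        -(hx (2 • (2 ^ k • P)) - 4 * hx (2 ^ k • P)) / (8 * 4 ^ k) := by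
      simp only [ha]
      rw [h4, pow_succ]
      field_simp
      ring
    rw [Real.dist_eq, h5, abs_div, abs_neg, abs_of_pos (by positivity : (0 : ℝ) < 8 * 4 ^ k)]
    have h6 : C / 8 * (1 / 4) ^ k = C / (8 * 4 ^ k) := by
      rw [one_div, inv_pow]
      field_simp
    rw [h6]
    exact div_le_div_of_nonneg_right h3 (by positivity)
  have hcau : CauchySeq a := cauchySeq_of_le_geometric (1 / 4) (C / 8) (by norm_num) hstep
  obtain ⟨l, hl⟩ := cauchySeq_tendsto_of_complete hcau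
  have hcan : canHeight P = l := hl.limUnder_eq
  have h7 := dist_le_of_le_geometric_of_tendsto₀ (1 / 4) (C / 8) (by norm_num) hstep hl
  have h8 : a 0 = hx P / 2 := by
    simp only [ha]
    rw [pow_zero, pow_zero, one_nsmul, mul_one]
  rw [h8, Real.dist_eq] at h7
  have h9 := (abs_le.1 h7).2
  rw [hcan]
  have h10 : C / 8 / (1 - 1 / 4) = C / 6 := by ring
  rw [h10] at h9
  linarith

end Pool.Agent.H12.EH
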