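import Pool.Agent.H12.EH.Basic
import Pool.Agent.H89.CSD.Mink

/-!
[H12 EH MK2]  Minkowski's theorem for the lattice `{ζ : z ∣ ζ(t)}` in the quadratic order.

Vectors of the lattice: `ζ₁ = x₁`, `ζ₀ = z x₀ - x₁ t`; `ev2 ζ ρ = z x₀ + x₁ (ρ - t)`.
Both `ρ₁, ρ₂` real: `Pool.Agent.H89.CSD.minkowski_forms` with the rows `(z, ρ_v - t)`, `v = 1, 2`, determinant
`± z (ρ₁ - ρ₂)`.  `ρ₂ = conj ρ₁`, `b₂ = b₁`: the real and imaginary part of the row of `ρ₁`, `τ = (b₁ / 2, b₁ / 2)`, determinant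
`± z Im ρ₁`.  `C` large enough for the strict inequality.
-/

set_option autoImplicit false

open scoped ComplexConjugate

namespace Pool.Agent.H12.EH

theorem mk2_real {x : ℂ} (h : x.im = 0) : x = (x.re : ℂ) := by
  apply Complex.ext
  · simp
  · simp [h]

/-- the vector of the lattice -/
def mk2_vec (z : ℕ) (t : ℤ) (x : Fin 2 → ℤ) : Fin 2 → ℤ := ![(z : ℤ) * x 0 - x 1 * t, x 1]

theorem mk2_vec_ne {z : ℕ} (hz : 0 < z) {t : ℤ} {x : Fin 2 → ℤ} (hx : x ≠ 0) : mk2_vec z t x ≠ 0 := by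
  intro h
  apply hx
  have h1 : x 1 = 0 := congrFun h 1
  have h0 : (z : ℤ) * x 0 - x 1 * t = 0 := congrFun h 0
  rw [h1, zero_mul, sub_zero] at h0
  have h2 : x 0 = 0 := by
    rcases mul_eq_zero.1 h0 with h3 | h3
    · exact absurd h3 (by exact_mod_cast hz.ne')
    · exact h3
  funext i
  fin_cases i
  · exact h2
  · exact h1

theorem mk2_vec_dvd (z : ℕ) (t : ℤ) (x : Fin 2 → ℤ) :
    (z : ℤ) ∣ mk2_vec z t x 0 + mk2_vec z t x 1 * t := by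
  refine ⟨x 0, ?_⟩
  show (z : ℤ) * x 0 - x 1 * t + x 1 * t = z * x 0
  ring

theorem mk2_ev (z : ℕ) (t : ℤ) (x : Fin 2 → ℤ) (y : ℂ) :
    ev2 (mk2_vec z t x) y = (z : ℂ) * (x 0 : ℂ) + (y - t) * (x 1 : ℂ) := by
  show (((z : ℤ) * x 0 - x 1 * t : ℤ) : ℂ) + ((x 1 : ℤ) : ℂ) * y = _
  push_cast
  ring

theorem mk2 {A B : ℤ} {ρ : Fin 3 → ℂ} (hρ : Roots A B ρ) : ∃ C : ℝ, 1 ≤ C ∧
    ∀ (z : ℕ) (t : ℤ) (b₁ b₂ : ℝ), 0 < z → 0 < b₁ → 0 < b₂ → (ρ 2 = conj (ρ 1) → b₂ = b₁) →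
    C * z ≤ b₁ * b₂ → ∃ ζ : Fin 2 → ℤ, ζ ≠ 0 ∧ (z : ℤ) ∣ ζ 0 + ζ 1 * t ∧
      ‖ev2 ζ (ρ 1)‖ ≤ b₁ ∧ ‖ev2 ζ (ρ 2)‖ ≤ b₂ := by
  rcases hρ.real with hr | ⟨h0, hc⟩
  · refine ⟨|(ρ 2).re - (ρ 1).re| + 1, by linarith [abs_nonneg ((ρ 2).re - (ρ 1).re)], ?_⟩
    intro z t b₁ b₂ hz hb₁ hb₂ _ hC
    have hz' : (0 : ℝ) < z := by exact_mod_cast hz
    have e1 : ρ 1 = ((ρ 1).re : ℂ) := mk2_real (hr 1)
    have e2 : ρ 2 = ((ρ 2).re : ℂ) := mk2_real (hr 2)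
    have hne : (ρ 2).re - (ρ 1).re ≠ 0 := by
      intro h
      apply hρ.ne 2 1 (by decide)
      rw [e1, e2, sub_eq_zero.1 h]
    have hdet : (!![(z : ℝ), (ρ 1).re - t; (z : ℝ), (ρ 2).re - t]).det = z * ((ρ 2).re - (ρ 1).re) := by
      rw [Matrix.det_fin_two_of]
      ring
    obtain ⟨x, hx0, hx⟩ := Pool.Agent.H89.CSD.minkowski_forms
      (!![(z : ℝ), (ρ 1).re - t; (z : ℝ), (ρ 2).re - t]) (by rw [hdet]; exact mul_ne_zero hz'.ne' hne)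
      ![b₁, b₂] (by
        intro i
        fin_cases i
        · exact hb₁
        · exact hb₂) (by
        rw [hdet, Fin.prod_univ_two, abs_mul, abs_of_pos hz']
        show (z : ℝ) * |(ρ 2).re - (ρ 1).re| < b₁ * b₂
        nlinarith)
    have hx1 := hx 0
    have hx2 := hx 1
    rw [Fin.sum_univ_two] at hx1 hx2
    change |(z : ℝ) * (x 0 : ℝ) + ((ρ 1).re - t) * (x 1 : ℝ)| ≤ b₁ at hx1
    change |(z : ℝ) * (x 0 : ℝ) + ((ρ 2).re - t) * (x 1 : ℝ)| ≤ b₂ at hx2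
    refine ⟨mk2_vec z t x, mk2_vec_ne hz hx0, mk2_vec_dvd z t x, ?_, ?_⟩
    · have h : ev2 (mk2_vec z t x) (ρ 1)
          = (((z : ℝ) * (x 0 : ℝ) + ((ρ 1).re - t) * (x 1 : ℝ) : ℝ) : ℂ) := by
        rw [mk2_ev]
        push_cast
        rw [← e1]
      rw [h, Complex.norm_real]
      exact hx1
    · have h : ev2 (mk2_vec z t x) (ρ 2)
          = (((z : ℝ) * (x 0 : ℝ) + ((ρ 2).re - t) * (x 1 : ℝ) : ℝ) : ℂ) := by
        rw [mk2_ev]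
        push_cast
        rw [← e2]
      rw [h, Complex.norm_real]
      exact hx2
  · refine ⟨4 * |(ρ 1).im| + 4, by linarith [abs_nonneg (ρ 1).im], ?_⟩
    intro z t b₁ b₂ hz hb₁ hb₂ hb hC
    have hz' : (0 : ℝ) < z := by exact_mod_cast hz
    have hbb : b₂ = b₁ := hb hc
    subst hbb
    have him : (ρ 1).im ≠ 0 := by
      intro h
      apply hρ.ne 2 1 (by decide)
      rw [hc]
      exact Complex.conj_eq_iff_im.2 h
    have hdet : (!![(z : ℝ), (ρ 1).re - t; (0 : ℝ), (ρ 1).im]).det = z * (ρ 1).im := by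
      rw [Matrix.det_fin_two_of]
      ring
    obtain ⟨x, hx0, hx⟩ := Pool.Agent.H89.CSD.minkowski_forms
      (!![(z : ℝ), (ρ 1).re - t; (0 : ℝ), (ρ 1).im]) (by rw [hdet]; exact mul_ne_zero hz'.ne' him)
      (fun _ => b₂ / 2) (by intro i; linarith) (by
        rw [hdet, Fin.prod_univ_two, abs_mul, abs_of_pos hz']
        nlinarith)
    have hx1 := hx 0
    have hx2 := hx 1
    rw [Fin.sum_univ_two] at hx1 hx2
    change |(z : ℝ) * (x 0 : ℝ) + ((ρ 1).re - t) * (x 1 : ℝ)| ≤ b₂ / 2 at hx1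
    change |(0 : ℝ) * (x 0 : ℝ) + (ρ 1).im * (x 1 : ℝ)| ≤ b₂ / 2 at hx2
    have hn : ‖ev2 (mk2_vec z t x) (ρ 1)‖ ≤ b₂ := by
      have hre : (ev2 (mk2_vec z t x) (ρ 1)).re = (z : ℝ) * (x 0 : ℝ) + ((ρ 1).re - t) * (x 1 : ℝ) := by
        rw [mk2_ev]
        simp
      have him' : (ev2 (mk2_vec z t x) (ρ 1)).im = (0 : ℝ) * (x 0 : ℝ) + (ρ 1).im * (x 1 : ℝ) := by
        rw [mk2_ev]
        simp
      have h := Complex.norm_le_abs_re_add_abs_im (ev2 (mk2_vec z t x) (ρ 1))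
      rw [hre, him'] at h
      linarith
    refine ⟨mk2_vec z t x, mk2_vec_ne hz hx0, mk2_vec_dvd z t x, hn, ?_⟩
    have hconj : ev2 (mk2_vec z t x) (ρ 2) = conj (ev2 (mk2_vec z t x) (ρ 1)) := by
      unfold ev2
      rw [hc, map_add, map_mul, map_intCast, map_intCast]
    rw [hconj, Complex.norm_conj]
    exact hn

end Pool.Agent.H12.EH
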