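import Pool.Agent.H12.EH.Alg2
import Pool.Agent.H12.EH.Mk2

/-!
[H12 EH LAB2]  Every pair `(r, s)` has a label in the quadratic order with few possibilities.

`q(T) = T² + e T + e² + A`.  `gcd(s, z) = 1` (a common prime divides `Qf = r² + ...`, so `r²`), so there is `t` with
`z² ∣ r - t s`, and `s² q(t) ≡ Qf(r, s) ≡ 0 (mod z²)`, `z² ∣ q(t)`.
`C₁` the constant of `mk2`, `α_v = r - ρ_v s`, `v = 1, 2`, `α₁ α₂ = Qf(r, s) = a z²` (`nrm2_prod`, `nrm2_alpha`),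
`b_v = C₁^(1/2) (‖α_v‖ / |a|^(1/2))^(1/2)`, `b₁ b₂ = C₁ z`.  `mk2`: `ζ ≠ 0`, `N = nrm2 ζ ≠ 0` (`nrm2_ne`), `z ∣ N`
(`dvd_nrm2`), `m = |N| / z ≤ C₁`.
`c` = the quotient of `mul2 ![r,-s] (mul2 ζ* ζ*)` by `z²` (`dvd_lab2`), `c ζ² = m² α = ![m² r, -(m² s)]`.
Norms: `nrm2 c · N² = m⁴ a z²`, so `nrm2 c = m² a`.
Size: `‖ev2 c ρ_v‖ = m² ‖α_v‖ / ‖ev2 ζ ρ_v‖²`, `‖ev2 ζ ρ_v‖ = m z / ‖ev2 ζ ρ_w‖ ≥ m b_v / C₁`, so
`‖ev2 c ρ_v‖ ≤ C₁² ‖α_v‖ / b_v² = C₁ |a|^(1/2)`; `ev2_bound`.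
-/

set_option autoImplicit false

namespace Pool.Agent.H12.EH

private theorem lab2_sm (A e : ℤ) (k : ℤ) (c f : Fin 2 → ℤ) (i : Fin 2) :
    mul2 A e (fun j => k * c j) f i = k * mul2 A e c f i := by
  fin_cases i <;> simp [mul2] <;> ring

private theorem lab2_adj (A e : ℤ) (c ζ : Fin 2 → ℤ) (i : Fin 2) :
    mul2 A e (mul2 A e c (mul2 A e (adj2 e ζ) (adj2 e ζ))) (mul2 A e ζ ζ) i = nrm2 A e ζ ^ 2 * c i := by
  fin_cases i <;> simp [mul2, adj2, nrm2] <;> ring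

private theorem lab2_ev (k : ℕ) (r s : ℤ) (w : ℂ) :
    ev2 ![((k : ℕ) : ℤ) ^ 2 * r, -(((k : ℕ) : ℤ) ^ 2 * s)] w = ((k : ℕ) : ℂ) ^ 2 * ev2 ![r, -s] w := by
  simp [ev2]
  ring

private theorem lab2_size {x1 x2 b1 b2 m C z y α S : ℝ} (hx1 : 0 < x1) (hb1 : 0 < b1) (hb2 : 0 < b2)
    (hm : 0 < m) (hC : 0 < C) (hz : 0 < z) (hS : 0 < S) (hx : x1 * x2 = z * m) (hxb : x2 ≤ b2)
    (hb : b1 * b2 = C * z) (hy : y * x1 ^ 2 = m ^ 2 * α) (hb' : b1 ^ 2 = C * α / S) : y ≤ C * S := by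
  have h1 : z * m ≤ x1 * b2 := by
    rw [← hx]
    exact mul_le_mul_of_nonneg_left hxb hx1.le
  have h2 : m * b1 ≤ C * x1 := by
    have h3 : z * m * b1 ≤ x1 * b2 * b1 := mul_le_mul_of_nonneg_right h1 hb1.le
    have h4 : x1 * b2 * b1 = z * (C * x1) := by
      calc x1 * b2 * b1 = x1 * (b1 * b2) := by ring
        _ = z * (C * x1) := by rw [hb]; ring
    rw [h4] at h3
    have h5 : z * (m * b1) ≤ z * (C * x1) := by linarith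
    exact le_of_mul_le_mul_left h5 hz
  have h6 : (m * b1) ^ 2 ≤ (C * x1) ^ 2 := pow_le_pow_left₀ (by positivity) h2 2
  have h7 : m ^ 2 * (C * α / S) ≤ C ^ 2 * x1 ^ 2 := by
    rw [← hb']
    nlinarith
  have h8 : m ^ 2 * (C * α / S) * S = C * (m ^ 2 * α) := by
    field_simp
  have h9 : C * (m ^ 2 * α) ≤ C * (C * S * x1 ^ 2) := by
    rw [← h8]
    calc m ^ 2 * (C * α / S) * S ≤ C ^ 2 * x1 ^ 2 * S := mul_le_mul_of_nonneg_right h7 hS.le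
      _ = C * (C * S * x1 ^ 2) := by ring
  have h10 : m ^ 2 * α ≤ C * S * x1 ^ 2 := le_of_mul_le_mul_left h9 hC
  rw [← hy] at h10
  exact le_of_mul_le_mul_right h10 (by positivity)

theorem lab2 {A B : ℤ} {ρ : Fin 3 → ℂ} (hρ : Roots A B ρ) {e : ℤ} (he : ρ 0 = e)
    (hirr : ∀ x : ℚ, x ^ 2 + e * x + (e ^ 2 + A) ≠ 0) :
    ∃ C : ℝ, 1 ≤ C ∧ ∀ (r s a : ℤ) (z : ℕ), IsCoprime r s → 0 < s → a ≠ 0 → 0 < z →
    Qf A e r s = a * z ^ 2 → ∃ (ζ c : Fin 2 → ℤ) (m : ℕ), 0 < m ∧ (m : ℝ) ≤ C ∧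
      mul2 A e c (mul2 A e ζ ζ) = ![(m : ℤ) ^ 2 * r, -((m : ℤ) ^ 2 * s)] ∧
      nrm2 A e c = (m : ℤ) ^ 2 * a ∧ ∀ i, |((c i : ℤ) : ℝ)| ≤ C * (|a| : ℝ) ^ (1 / 2 : ℝ) := by
  obtain ⟨C₁, hC₁, hmk⟩ := mk2 hρ
  obtain ⟨K, hK, hev⟩ := ev2_bound hρ
  have hC0 : 0 < C₁ := by linarith
  refine ⟨C₁ * (1 + K), by nlinarith, ?_⟩
  intro r s a z hrs hs ha hz hQ
  have hzR : (0 : ℝ) < z := by exact_mod_cast hz
  have hzZ : (z : ℤ) ≠ 0 := by exact_mod_cast hz.ne'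
  -- the point t
  have hcop : IsCoprime s ((z : ℤ) ^ 2) := by
    have h1 : IsCoprime s (r ^ 2) := hrs.symm.pow_right
    have h2 : IsCoprime s (r ^ 2 + s * (e * r + (e ^ 2 + A) * s)) := h1.add_mul_left_right _
    have h3 : r ^ 2 + s * (e * r + (e ^ 2 + A) * s) = a * (z : ℤ) ^ 2 := by
      rw [← hQ]
      unfold Qf
      ring
    rw [h3] at h2
    exact h2.of_mul_right_right
  obtain ⟨u, v, huv⟩ := hcop
  obtain ⟨t, ht⟩ : ∃ t : ℤ, t = r * u := ⟨_, rfl⟩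
  have hr : (z : ℤ) ^ 2 ∣ r - t * s := ⟨r * v, by
    rw [ht]
    linear_combination -r * huv⟩
  have hf : (z : ℤ) ^ 2 ∣ t ^ 2 + e * t + (e ^ 2 + A) := by
    have hcop2 : IsCoprime ((z : ℤ) ^ 2) (s ^ 2) := (IsCoprime.pow_left ⟨u, v, huv⟩ : IsCoprime (s ^ 2) ((z : ℤ) ^ 2)).symm
    refine hcop2.dvd_of_dvd_mul_left ?_
    have h1 : s ^ 2 * (t ^ 2 + e * t + (e ^ 2 + A)) = a * (z : ℤ) ^ 2 - (r - t * s) * (r + t * s + e * s) := by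
      rw [← hQ]
      unfold Qf
      ring
    rw [h1]
    exact dvd_sub (Dvd.intro_left _ rfl) (Dvd.dvd.mul_right hr _)
  -- the absolute values of alpha
  have haR : (0 : ℝ) < |(a : ℝ)| := abs_pos.mpr (by exact_mod_cast ha)
  have hprod : ‖ev2 ![r, -s] (ρ 1)‖ * ‖ev2 ![r, -s] (ρ 2)‖ = |(a : ℝ)| * (z : ℝ) ^ 2 := by
    rw [← norm_mul, ← nrm2_prod hρ he, nrm2_alpha, hQ, Complex.norm_intCast]
    push_cast
    rw [abs_mul, abs_of_pos (pow_pos hzR 2)]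
  have hpos : 0 < ‖ev2 ![r, -s] (ρ 1)‖ * ‖ev2 ![r, -s] (ρ 2)‖ := by
    rw [hprod]
    positivity
  have hα1 : 0 < ‖ev2 ![r, -s] (ρ 1)‖ := by
    rcases (norm_nonneg (ev2 ![r, -s] (ρ 1))).lt_or_eq with h | h
    · exact h
    · rw [← h, zero_mul] at hpos
      exact absurd hpos (lt_irrefl _)
  have hα2 : 0 < ‖ev2 ![r, -s] (ρ 2)‖ := by
    rcases (norm_nonneg (ev2 ![r, -s] (ρ 2))).lt_or_eq with h | h
    · exact h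
    · rw [← h, mul_zero] at hpos
      exact absurd hpos (lt_irrefl _)
  obtain ⟨α1, hα1d⟩ : ∃ x, x = ‖ev2 ![r, -s] (ρ 1)‖ := ⟨_, rfl⟩
  obtain ⟨α2, hα2d⟩ : ∃ x, x = ‖ev2 ![r, -s] (ρ 2)‖ := ⟨_, rfl⟩
  rw [← hα1d, ← hα2d] at hprod
  rw [← hα1d] at hα1
  rw [← hα2d] at hα2
  obtain ⟨S, hSd⟩ : ∃ x, x = Real.sqrt |(a : ℝ)| := ⟨_, rfl⟩
  have hS : 0 < S := by
    rw [hSd]
    exact Real.sqrt_pos.mpr haR
  have hSS : S * S = |(a : ℝ)| := by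
    rw [hSd]
    exact Real.mul_self_sqrt haR.le
  obtain ⟨b1, hb1d⟩ : ∃ x, x = Real.sqrt (C₁ * α1 / S) := ⟨_, rfl⟩
  obtain ⟨b2, hb2d⟩ : ∃ x, x = Real.sqrt (C₁ * α2 / S) := ⟨_, rfl⟩
  have hb1 : 0 < b1 := by
    rw [hb1d]
    exact Real.sqrt_pos.mpr (by positivity)
  have hb2 : 0 < b2 := by
    rw [hb2d]
    exact Real.sqrt_pos.mpr (by positivity)
  have hb1s : b1 ^ 2 = C₁ * α1 / S := by
    rw [hb1d]
    exact Real.sq_sqrt (by positivity)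
  have hb2s : b2 ^ 2 = C₁ * α2 / S := by
    rw [hb2d]
    exact Real.sq_sqrt (by positivity)
  have hbb : b1 * b2 = C₁ * z := by
    have h1 : (b1 * b2) ^ 2 = (C₁ * z) ^ 2 := by
      rw [mul_pow, hb1s, hb2s]
      have h2 : C₁ * α1 / S * (C₁ * α2 / S) = C₁ ^ 2 * (α1 * α2) / (S * S) := by
        field_simp
      rw [h2, hprod, hSS]
      field_simp
    exact (pow_left_inj₀ (by positivity) (by positivity) two_ne_zero).mp h1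
  obtain ⟨ζ, hζ0, hζt, hζ1, hζ2⟩ := hmk z t b1 b2 hz hb1 hb2 (by
    intro hc
    rw [hb1d, hb2d, hα1d, hα2d, hc]
    congr 3
    have h1 : ev2 ![r, -s] ((starRingEnd ℂ) (ρ 1)) = (starRingEnd ℂ) (ev2 ![r, -s] (ρ 1)) := by
      simp [ev2]
    rw [h1]
    exact RCLike.norm_conj _) hbb.ge
  have hN0 : nrm2 A e ζ ≠ 0 := nrm2_ne hirr hζ0
  obtain ⟨n, hn⟩ := dvd_nrm2 A e ζ hf hζt
  have hn0 : n ≠ 0 := by
    rintro rfl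
    exact hN0 (by rw [hn, mul_zero])
  have hm2 : ((n.natAbs : ℕ) : ℤ) ^ 2 = n ^ 2 := by
    rw [Int.natCast_natAbs, sq_abs]
  have hm0 : 0 < n.natAbs := Int.natAbs_pos.mpr hn0
  have hmR : (0 : ℝ) < (n.natAbs : ℝ) := by exact_mod_cast hm0
  have hNN : ‖ev2 ζ (ρ 1)‖ * ‖ev2 ζ (ρ 2)‖ = z * (n.natAbs : ℝ) := by
    rw [← norm_mul, ← nrm2_prod hρ he, hn, Complex.norm_intCast]
    push_cast
    rw [abs_mul, abs_of_pos hzR, Nat.cast_natAbs, Int.cast_abs]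
  have hζpos : 0 < ‖ev2 ζ (ρ 1)‖ * ‖ev2 ζ (ρ 2)‖ := by
    rw [hNN]
    positivity
  have hx1 : 0 < ‖ev2 ζ (ρ 1)‖ := by
    rcases (norm_nonneg (ev2 ζ (ρ 1))).lt_or_eq with h | h
    · exact h
    · rw [← h, zero_mul] at hζpos
      exact absurd hζpos (lt_irrefl _)
  have hx2 : 0 < ‖ev2 ζ (ρ 2)‖ := by
    rcases (norm_nonneg (ev2 ζ (ρ 2))).lt_or_eq with h | h
    · exact h
    · rw [← h, mul_zero] at hζpos
      exact absurd hζpos (lt_irrefl _)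
  have hmC : (n.natAbs : ℝ) ≤ C₁ := by
    have h1 : (z : ℝ) * (n.natAbs : ℝ) ≤ z * C₁ := by
      rw [← hNN]
      calc ‖ev2 ζ (ρ 1)‖ * ‖ev2 ζ (ρ 2)‖ ≤ b1 * b2 := mul_le_mul hζ1 hζ2 hx2.le hb1.le
        _ = z * C₁ := by rw [hbb, mul_comm]
    exact le_of_mul_le_mul_left h1 hzR
  have hdv := fun i => dvd_lab2 A e ζ hf hζt hr i
  choose c hc using hdv
  have hz2 : (z : ℤ) ^ 2 ≠ 0 := pow_ne_zero 2 hzZ
  have hcf : mul2 A e ![r, -s] (mul2 A e (adj2 e ζ) (adj2 e ζ)) = fun j => (z : ℤ) ^ 2 * c j := funext hc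
  have hmain : ∀ i, mul2 A e c (mul2 A e ζ ζ) i = ((n.natAbs : ℕ) : ℤ) ^ 2 * (![r, -s] : Fin 2 → ℤ) i := by
    intro i
    have h1 := lab2_adj A e ![r, -s] ζ i
    rw [hcf, lab2_sm, hn, mul_pow, mul_assoc] at h1
    rw [hm2]
    exact mul_left_cancel₀ hz2 h1
  have hmainv : mul2 A e c (mul2 A e ζ ζ) =
      ![((n.natAbs : ℕ) : ℤ) ^ 2 * r, -(((n.natAbs : ℕ) : ℤ) ^ 2 * s)] := by
    funext i
    rw [hmain i]
    fin_cases i <;> simp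
  refine ⟨ζ, c, n.natAbs, hm0, ?_, hmainv, ?_, ?_⟩
  · calc (n.natAbs : ℝ) ≤ C₁ := hmC
      _ ≤ C₁ * (1 + K) := by nlinarith
  · have h1 : nrm2 A e (mul2 A e c (mul2 A e ζ ζ)) = nrm2 A e c * (nrm2 A e ζ * nrm2 A e ζ) := by
      rw [nrm2_mul, nrm2_mul]
    have h2 : nrm2 A e ![((n.natAbs : ℕ) : ℤ) ^ 2 * r, -(((n.natAbs : ℕ) : ℤ) ^ 2 * s)] =
        (((n.natAbs : ℕ) : ℤ) ^ 2) ^ 2 * nrm2 A e ![r, -s] := by
      simp [nrm2]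
      ring
    rw [hmainv, h2, nrm2_alpha, hQ, hn, hm2] at h1
    rw [hm2]
    have h3 : (n ^ 2 * (z : ℤ) ^ 2) * (n ^ 2 * a) = (n ^ 2 * (z : ℤ) ^ 2) * nrm2 A e c := by
      linear_combination h1
    exact (mul_left_cancel₀ (mul_ne_zero (pow_ne_zero 2 hn0) hz2) h3).symm
  · have hq := q_root hρ he
    have hy : ∀ w : ℂ, w ^ 2 + e * w + (e ^ 2 + A) = 0 →
        ‖ev2 c w‖ * ‖ev2 ζ w‖ ^ 2 = (n.natAbs : ℝ) ^ 2 * ‖ev2 ![r, -s] w‖ := by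
      intro w hw
      have h1 : ev2 (mul2 A e c (mul2 A e ζ ζ)) w = ev2 c w * (ev2 ζ w * ev2 ζ w) := by
        rw [ev2_mul2 hw, ev2_mul2 hw]
      have h2 : ev2 (mul2 A e c (mul2 A e ζ ζ)) w = ((n.natAbs : ℕ) : ℂ) ^ 2 * ev2 ![r, -s] w := by
        rw [hmainv]
        exact lab2_ev n.natAbs r s w
      rw [h2] at h1
      have h3 := congrArg norm h1
      rw [norm_mul, norm_mul, norm_mul, norm_pow, Complex.norm_natCast] at h3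
      rw [h3]
      ring
    have hA1 : ‖ev2 c (ρ 1)‖ ≤ C₁ * S :=
      lab2_size hx1 hb1 hb2 hmR hC0 hzR hS hNN hζ2 hbb (by rw [hy _ hq.1, hα1d]) hb1s
    have hA2 : ‖ev2 c (ρ 2)‖ ≤ C₁ * S :=
      lab2_size hx2 hb2 hb1 hmR hC0 hzR hS (by rw [mul_comm, hNN]) hζ1 (by rw [mul_comm, hbb])
        (by rw [hy _ hq.2, hα2d]) hb2s
    intro i
    have h1 := hev c (C₁ * S) hA1 hA2 i
    have h2 : (|a| : ℝ) ^ (1 / 2 : ℝ) = S := by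
      rw [hSd, Real.sqrt_eq_rpow]
    rw [h2]
    calc |((c i : ℤ) : ℝ)| ≤ K * (C₁ * S) := h1
      _ ≤ C₁ * (1 + K) * S := by nlinarith [mul_pos hC0 hS]

end Pool.Agent.H12.EH
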