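import Pool.Agent.H12.EH.Basic
import Pool.Agent.H89.CSD.Mink

/-!
[H12 EH MK3]  Minkowski's theorem for the lattice `{ζ : z ∣ ζ(t)}` in the cubic order.

Vectors of the lattice: `ζ₁ = x₁`, `ζ₂ = x₂`, `ζ₀ = z x₀ - x₁ t - x₂ t²`, `x ∈ ℤ³` (bijective, `x ≠ 0` gives `ζ ≠ 0`
because `z > 0`), `ev ζ ρ = z x₀ + x₁ (ρ - t) + x₂ (ρ² - t²)`.
Case all `ρ v` real: apply `Pool.Agent.H89.CSD.minkowski_forms` to the real matrix with the rows
`(z, ρ_v - t, ρ_v² - t²)`, determinant `± z (ρ₀ - ρ₁)(ρ₀ - ρ₂)(ρ₁ - ρ₂)` (independent of `t`), and `τ = b`.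
Case `ρ₀` real, `ρ₂ = conj ρ₁`, `b 2 = b 1`: rows `v = 0` and the real and imaginary part of the row `v = 1`,
`τ = (b 0, b 1 / 2, b 1 / 2)`, determinant `z · |Im ρ₁| |ρ₀ - ρ₁|²` up to sign (non zero: `ρ₁ ≠ ρ₂`, `ρ₀ ≠ ρ₁`);
`‖ev ζ ρ₁‖ ≤ |re| + |im| ≤ b 1` and `ev ζ ρ₂ = conj (ev ζ ρ₁)`.
`C` = 1 + 4 times the maximum of the two determinants divided by `z` (strict inequality `|det| < ∏ τ` is needed: take `C` larger).
-/

set_option autoImplicit false

open scoped ComplexConjugate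

namespace Pool.Agent.H12.EH

/-- the vector of the lattice with the coordinates `x` -/
private def mk3v (z : ℕ) (t : ℤ) (x : Fin 3 → ℤ) : Fin 3 → ℤ :=
  ![(z : ℤ) * x 0 - x 1 * t - x 2 * t ^ 2, x 1, x 2]

private theorem mk3v_ne {z : ℕ} (hz : 0 < z) (t : ℤ) {x : Fin 3 → ℤ} (hx : x ≠ 0) : mk3v z t x ≠ 0 := by
  intro h
  apply hx
  have h0 := congrFun h 0
  have h1 := congrFun h 1
  have h2 := congrFun h 2
  simp only [mk3v, Matrix.cons_val_zero, Matrix.cons_val_one, Matrix.cons_val, Pi.zero_apply] at h0 h1 h2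
  rw [h1, h2] at h0
  have h3 : x 0 = 0 := by
    have hz' : (z : ℤ) ≠ 0 := by exact_mod_cast hz.ne'
    have : (z : ℤ) * x 0 = 0 := by linarith
    exact (mul_eq_zero.1 this).resolve_left hz'
  funext i
  fin_cases i
  · exact h3
  · exact h1
  · exact h2

private theorem mk3v_dvd (z : ℕ) (t : ℤ) (x : Fin 3 → ℤ) :
    (z : ℤ) ∣ mk3v z t x 0 + mk3v z t x 1 * t + mk3v z t x 2 * t ^ 2 := by
  refine ⟨x 0, ?_⟩
  simp only [mk3v, Matrix.cons_val_zero, Matrix.cons_val_one, Matrix.cons_val]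
  ring

private theorem mk3v_ev (z : ℕ) (t : ℤ) (x : Fin 3 → ℤ) (y : ℂ) :
    ev (mk3v z t x) y = z * x 0 + x 1 * (y - t) + x 2 * (y ^ 2 - t ^ 2) := by
  simp only [ev, mk3v, Matrix.cons_val_zero, Matrix.cons_val_one, Matrix.cons_val]
  push_cast
  ring

theorem mk3 {A B : ℤ} {ρ : Fin 3 → ℂ} (hρ : Roots A B ρ) : ∃ C : ℝ, 1 ≤ C ∧
    ∀ (z : ℕ) (t : ℤ) (b : Fin 3 → ℝ), 0 < z → (∀ v, 0 < b v) → (ρ 2 = conj (ρ 1) → b 2 = b 1) →
    C * z ≤ b 0 * b 1 * b 2 →
    ∃ ζ : Fin 3 → ℤ, ζ ≠ 0 ∧ (z : ℤ) ∣ ζ 0 + ζ 1 * t + ζ 2 * t ^ 2 ∧ ∀ v, ‖ev ζ (ρ v)‖ ≤ b v := by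
  have hne := hρ.ne
  rcases hρ.real with hr | ⟨hr0, hr2⟩
  · -- all roots real
    have hre : ∀ v, ρ v = ((ρ v).re : ℂ) := fun v => by
      apply Complex.ext
      · simp
      · simp [hr v]
    set r : Fin 3 → ℝ := fun v => (ρ v).re with hrdef
    have hrne : ∀ u v, u ≠ v → r u - r v ≠ 0 := by
      intro u v huv h
      apply hne u v huv
      rw [hre u, hre v]
      have : (ρ u).re = (ρ v).re := by
        simp only [hrdef] at h
        linarith
      rw [this]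
    set Δ : ℝ := (r 1 - r 0) * (r 2 - r 0) * (r 2 - r 1) with hΔ
    have hΔ0 : Δ ≠ 0 :=
      mul_ne_zero (mul_ne_zero (hrne 1 0 (by decide)) (hrne 2 0 (by decide))) (hrne 2 1 (by decide))
    refine ⟨1 + |Δ|, by linarith [abs_nonneg Δ], fun z t b hz hb _ hC => ?_⟩
    have hz0 : (0 : ℝ) < z := by exact_mod_cast hz
    set M : Matrix (Fin 3) (Fin 3) ℝ := fun i => ![(z : ℝ), r i - t, r i ^ 2 - t ^ 2] with hM
    have hdet : M.det = z * Δ := by
      rw [Matrix.det_fin_three]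
      simp only [hM, Matrix.cons_val_zero, Matrix.cons_val_one, Matrix.cons_val]
      rw [hΔ]
      ring
    have hdet0 : M.det ≠ 0 := by
      rw [hdet]
      exact mul_ne_zero hz0.ne' hΔ0
    have hlt : |M.det| < ∏ i, b i := by
      rw [hdet, abs_mul, abs_of_pos hz0, Fin.prod_univ_three]
      nlinarith
    obtain ⟨x, hx0, hx⟩ := Pool.Agent.H89.CSD.minkowski_forms M hdet0 b hb hlt
    refine ⟨mk3v z t x, mk3v_ne hz t hx0, mk3v_dvd z t x, fun v => ?_⟩
    have hv := hx v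
    rw [mk3v_ev]
    have he : ((z : ℂ) * x 0 + x 1 * (ρ v - t) + x 2 * (ρ v ^ 2 - t ^ 2)) =
        ((∑ j, M v j * (x j : ℝ) : ℝ) : ℂ) := by
      rw [Fin.sum_univ_three]
      simp only [hM, Matrix.cons_val_zero, Matrix.cons_val_one, Matrix.cons_val]
      rw [hre v]
      push_cast
      ring
    rw [he, Complex.norm_real]
    exact hv
  · -- one real root
    have hre0 : ρ 0 = ((ρ 0).re : ℂ) := by
      apply Complex.ext
      · simp
      · simp [hr0]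
    have him : (ρ 1).im ≠ 0 := by
      intro h
      apply hne 1 2 (by decide)
      rw [hr2]
      apply Complex.ext
      · simp
      · simp [h]
    set r0 : ℝ := (ρ 0).re with hr0d
    set a : ℝ := (ρ 1).re with ha
    set β : ℝ := (ρ 1).im with hβ
    set Δ : ℝ := β * ((a - r0) ^ 2 + β ^ 2) with hΔ
    have hpos : 0 < (a - r0) ^ 2 + β ^ 2 := by positivity
    have hΔ0 : Δ ≠ 0 := mul_ne_zero him hpos.ne'
    refine ⟨1 + 4 * |Δ|, by linarith [abs_nonneg Δ], fun z t b hz hb hb2 hC => ?_⟩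
    have hz0 : (0 : ℝ) < z := by exact_mod_cast hz
    have hb21 : b 2 = b 1 := hb2 hr2
    rw [hb21] at hC
    set M : Matrix (Fin 3) (Fin 3) ℝ := ![![(z : ℝ), r0 - t, r0 ^ 2 - t ^ 2],
      ![(z : ℝ), a - t, a ^ 2 - β ^ 2 - t ^ 2], ![0, β, 2 * a * β]] with hM
    have hdet : M.det = z * Δ := by
      rw [Matrix.det_fin_three]
      simp only [hM, Matrix.cons_val_zero, Matrix.cons_val_one, Matrix.cons_val]
      rw [hΔ]
      ring
    have hdet0 : M.det ≠ 0 := by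
      rw [hdet]
      exact mul_ne_zero hz0.ne' hΔ0
    set τ : Fin 3 → ℝ := ![b 0, b 1 / 2, b 1 / 2] with hτ
    have hτ0 : ∀ i, 0 < τ i := by
      intro i
      fin_cases i
      · exact hb 0
      · exact half_pos (hb 1)
      · exact half_pos (hb 1)
    have hlt : |M.det| < ∏ i, τ i := by
      rw [hdet, abs_mul, abs_of_pos hz0, Fin.prod_univ_three]
      simp only [hτ, Matrix.cons_val_zero, Matrix.cons_val_one, Matrix.cons_val]
      nlinarith
    obtain ⟨x, hx0, hx⟩ := Pool.Agent.H89.CSD.minkowski_forms M hdet0 τ hτ0 hlt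
    have h0 := hx 0
    have h1 := hx 1
    have h2 := hx 2
    rw [Fin.sum_univ_three] at h0 h1 h2
    simp only [hM, hτ, Matrix.cons_val_zero, Matrix.cons_val_one, Matrix.cons_val] at h0 h1 h2
    have hev0 : ‖ev (mk3v z t x) (ρ 0)‖ ≤ b 0 := by
      have he : ev (mk3v z t x) (ρ 0) =
          ((z * (x 0 : ℝ) + (r0 - t) * (x 1 : ℝ) + (r0 ^ 2 - t ^ 2) * (x 2 : ℝ) : ℝ) : ℂ) := by
        rw [mk3v_ev, hre0]
        push_cast
        ring
      rw [he, Complex.norm_real]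
      exact h0
    have hev1 : ‖ev (mk3v z t x) (ρ 1)‖ ≤ b 1 := by
      have h1e : ρ 1 = (a : ℂ) + (β : ℂ) * Complex.I := (Complex.re_add_im (ρ 1)).symm
      have he : ev (mk3v z t x) (ρ 1) =
          ((z * (x 0 : ℝ) + (a - t) * (x 1 : ℝ) + (a ^ 2 - β ^ 2 - t ^ 2) * (x 2 : ℝ) : ℝ) : ℂ) +
          ((0 * (x 0 : ℝ) + β * (x 1 : ℝ) + 2 * a * β * (x 2 : ℝ) : ℝ) : ℂ) * Complex.I := by
        rw [mk3v_ev, h1e]
        push_cast
        linear_combination ((x 2 : ℂ)) * (β : ℂ) ^ 2 * Complex.I_sq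
      rw [he]
      refine (norm_add_le _ _).trans ?_
      rw [norm_mul, Complex.norm_I, mul_one, Complex.norm_real, Complex.norm_real,
        Real.norm_eq_abs, Real.norm_eq_abs]
      linarith
    have hev2 : ‖ev (mk3v z t x) (ρ 2)‖ ≤ b 2 := by
      rw [hb21, hr2]
      have he : ev (mk3v z t x) (conj (ρ 1)) = conj (ev (mk3v z t x) (ρ 1)) := by
        simp only [ev, map_add, map_mul, map_pow, map_intCast]
      rw [he, Complex.norm_conj]
      exact hev1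
    refine ⟨mk3v z t x, mk3v_ne hz t hx0, mk3v_dvd z t x, fun v => ?_⟩
    fin_cases v
    · exact hev0
    · exact hev1
    · exact hev2

end Pool.Agent.H12.EH
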