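import Pool.Agent.H12.EH.Alg3
import Pool.Agent.H12.EH.Mk3

/-!
[H12 EH LAB3]  Every pair `(r, s)` has a label with few possibilities (irreducible cubic).

`gcd(s, z) = 1` (a common prime divides `G(r,s)`, so `r³`), so there is `t` with `z² ∣ r - t s`; then
`s³ f(t) ≡ G(r, s) ≡ 0 (mod z²)` and `z² ∣ f(t)`.
Let `C₁` be the constant of `mk3`, `α_v = r - ρ_v s` (`≠ 0` as `∏ α_v = G = g z² ≠ 0`, `Gf_prod`),
`b_v = C₁^(1/3) (‖α_v‖ / g^(1/3))^(1/2)`; `b₀ b₁ b₂ = C₁ (g z² / g)^(1/2) = C₁ z`; if `ρ₂ = conj ρ₁` then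
`‖α₂‖ = ‖α₁‖`.  `mk3`: `ζ ≠ 0`, `z ∣ ζ(t)`, `‖ev ζ ρ_v‖ ≤ b_v`.  `N = nrm3 ζ ≠ 0` (`nrm3_ne`), `z ∣ N` (`dvd_nrm3`),
`m = |N| / z`: `0 < m ≤ b₀ b₁ b₂ / z = C₁` (`nrm3_prod`).
`c` = the quotient of `mul3 ![r,-s,0] (mul3 ζ* ζ*)` by `z²` (`dvd_lab`), `ζ* = adj3 ζ`.  Then
`z² c ζ² = α (ζ ζ*)² = α N² = α m² z²` (`mul3_comm`, `mul3_assoc`, `mul3_adj3`; commutative ring identities), so
`c ζ² = m² α = ![m² r, -(m² s), 0]`.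
Norms: `nrm3` of both sides: `nrm3 c · N² = m⁶ · nrm3 α = m⁶ g z²` (`nrm3 ![r,-s,0] = G(r,s)`, directly), so `nrm3 c = m⁴ g`.
Size: `‖ev c ρ_v‖ ‖ev ζ ρ_v‖² = m² ‖α_v‖`, and `‖ev ζ ρ_v‖ = m z / ∏_{w ≠ v} ‖ev ζ ρ_w‖ ≥ m z b_v / (C₁ z) = m b_v / C₁`, so
`‖ev c ρ_v‖ ≤ C₁² ‖α_v‖ / b_v² = C₁² g^(1/3) / C₁^(2/3)`; `ev_bound` gives the bound for the coordinates.
-/

set_option autoImplicit false

namespace Pool.Agent.H12.EH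

/-- the residue class of `r / s` modulo `z²` -/
theorem lab3_arith {A B r s g z : ℤ} (hc : IsCoprime r s) (hG : Gf A B r s = g * z ^ 2) :
    ∃ t : ℤ, z ^ 2 ∣ r - t * s ∧ z ^ 2 ∣ t ^ 3 + A * t + B := by
  have h1 : IsCoprime (Gf A B r s) s := by
    have h2 : IsCoprime (r ^ 3) s := hc.pow_left
    have h3 : Gf A B r s = r ^ 3 + s * (A * r * s + B * s ^ 2) := by
      unfold Gf
      ring
    rw [h3]
    exact IsCoprime.add_mul_left_left h2 _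
  rw [hG] at h1
  have h2 : IsCoprime (z ^ 2) s := h1.of_mul_left_right
  obtain ⟨a, b, hab⟩ := h2.symm
  obtain ⟨t, ht⟩ : ∃ t : ℤ, t = r * a := ⟨_, rfl⟩
  have h3 : z ^ 2 ∣ r - t * s := ⟨r * b, by rw [ht]; linear_combination -r * hab⟩
  refine ⟨t, h3, ?_⟩
  have h4 : z ^ 2 ∣ s ^ 3 * (t ^ 3 + A * t + B) := by
    obtain ⟨k, hk⟩ := h3
    have h5 : s ^ 3 * (t ^ 3 + A * t + B) = Gf A B r s -
        (r - t * s) * (r ^ 2 + r * (t * s) + (t * s) ^ 2 + A * s ^ 2) := by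
      unfold Gf
      ring
    rw [h5, hG, hk]
    exact ⟨g - k * (r ^ 2 + r * (t * s) + (t * s) ^ 2 + A * s ^ 2), by ring⟩
  exact (h2.pow_right).dvd_of_dvd_mul_left h4

theorem lab3_lower {m z C : ℝ} (hz : 0 < z) {b e : Fin 3 → ℝ} (hb : ∀ v, 0 < b v)
    (he : ∀ v, 0 ≤ e v) (heb : ∀ v, e v ≤ b v) (hbp : b 0 * b 1 * b 2 = C * z)
    (hep : e 0 * e 1 * e 2 = m * z) (v : Fin 3) : m * b v ≤ C * e v := by
  refine le_of_mul_le_mul_right ?_ hz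
  fin_cases v
  · change m * b 0 * z ≤ C * e 0 * z
    have h1 : e 1 * e 2 ≤ b 1 * b 2 := mul_le_mul (heb 1) (heb 2) (he 2) (hb 1).le
    calc m * b 0 * z = (m * z) * b 0 := by ring
      _ = e 0 * b 0 * (e 1 * e 2) := by rw [← hep]; ring
      _ ≤ e 0 * b 0 * (b 1 * b 2) :=
          mul_le_mul_of_nonneg_left h1 (mul_nonneg (he 0) (hb 0).le)
      _ = e 0 * (b 0 * b 1 * b 2) := by ring
      _ = C * e 0 * z := by rw [hbp]; ring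
  · change m * b 1 * z ≤ C * e 1 * z
    have h1 : e 0 * e 2 ≤ b 0 * b 2 := mul_le_mul (heb 0) (heb 2) (he 2) (hb 0).le
    calc m * b 1 * z = (m * z) * b 1 := by ring
      _ = e 1 * b 1 * (e 0 * e 2) := by rw [← hep]; ring
      _ ≤ e 1 * b 1 * (b 0 * b 2) :=
          mul_le_mul_of_nonneg_left h1 (mul_nonneg (he 1) (hb 1).le)
      _ = e 1 * (b 0 * b 1 * b 2) := by ring
      _ = C * e 1 * z := by rw [hbp]; ring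
  · change m * b 2 * z ≤ C * e 2 * z
    have h1 : e 0 * e 1 ≤ b 0 * b 1 := mul_le_mul (heb 0) (heb 1) (he 1) (hb 0).le
    calc m * b 2 * z = (m * z) * b 2 := by ring
      _ = e 2 * b 2 * (e 0 * e 1) := by rw [← hep]; ring
      _ ≤ e 2 * b 2 * (b 0 * b 1) :=
          mul_le_mul_of_nonneg_left h1 (mul_nonneg (he 2) (hb 2).le)
      _ = e 2 * (b 0 * b 1 * b 2) := by ring
      _ = C * e 2 * z := by rw [hbp]; ring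

theorem lab3 {A B : ℤ} {ρ : Fin 3 → ℂ} (hρ : Roots A B ρ) (hirr : ∀ x : ℚ, x ^ 3 + A * x + B ≠ 0) :
    ∃ C : ℝ, 1 ≤ C ∧ ∀ (r s : ℤ) (g z : ℕ), IsCoprime r s → 0 < s → 0 < g → 0 < z →
    Gf A B r s = g * z ^ 2 → ∃ (ζ c : Fin 3 → ℤ) (m : ℕ), 0 < m ∧ (m : ℝ) ≤ C ∧
      mul3 A B c (mul3 A B ζ ζ) = ![(m : ℤ) ^ 2 * r, -((m : ℤ) ^ 2 * s), 0] ∧
      nrm3 A B c = (m : ℤ) ^ 4 * g ∧ ∀ i, |((c i : ℤ) : ℝ)| ≤ C * (g : ℝ) ^ (1 / 3 : ℝ) := by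
  obtain ⟨C₁, hC₁, hmk⟩ := mk3 hρ
  obtain ⟨K, hK, hev⟩ := ev_bound hρ
  have hC0 : 0 < C₁ := by linarith
  refine ⟨C₁ + K * C₁ ^ 2, by nlinarith [mul_pos hK (pow_pos hC0 2)], ?_⟩
  intro r s g z hc hs hg hz hG
  obtain ⟨t, ht1, ht2⟩ := lab3_arith hc hG
  have hgR : (0 : ℝ) < g := by exact_mod_cast hg
  have hzR : (0 : ℝ) < z := by exact_mod_cast hz
  have hzC : (z : ℂ) ≠ 0 := by
    have : z ≠ 0 := by omega
    exact_mod_cast this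
  -- cube roots
  obtain ⟨c1, hc1⟩ : ∃ c1 : ℝ, c1 = C₁ ^ (1 / 3 : ℝ) := ⟨_, rfl⟩
  obtain ⟨g1, hg1⟩ : ∃ g1 : ℝ, g1 = (g : ℝ) ^ (1 / 3 : ℝ) := ⟨_, rfl⟩
  have hc13 : c1 ^ 3 = C₁ := by
    rw [hc1, ← Real.rpow_natCast, ← Real.rpow_mul hC0.le]
    norm_num
  have hg13 : g1 ^ 3 = g := by
    rw [hg1, ← Real.rpow_natCast, ← Real.rpow_mul hgR.le]
    norm_num
  have hc11 : 1 ≤ c1 := by
    rw [hc1]
    exact Real.one_le_rpow hC₁ (by norm_num)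
  have hg10 : 0 < g1 := by
    rw [hg1]
    exact Real.rpow_pos_of_pos hgR _
  have hc10 : 0 < c1 := by linarith
  -- the linear forms
  obtain ⟨α, hα⟩ : ∃ α : Fin 3 → ℂ, ∀ v, α v = (r : ℂ) - ρ v * s := ⟨_, fun _ => rfl⟩
  have hαp : α 0 * α 1 * α 2 = (g : ℂ) * (z : ℂ) ^ 2 := by
    rw [hα, hα, hα, ← Gf_prod hρ, hG]
    push_cast
    ring
  have hgC : (g : ℂ) ≠ 0 := by
    have : g ≠ 0 := by omega
    exact_mod_cast this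
  have hαp0 : α 0 * α 1 * α 2 ≠ 0 := by
    rw [hαp]
    exact mul_ne_zero hgC (pow_ne_zero 2 hzC)
  have hα0 : ∀ v, α v ≠ 0 := by
    have h1 := mul_ne_zero_iff.1 hαp0
    have h2 := mul_ne_zero_iff.1 h1.1
    intro v
    fin_cases v
    · exact h2.1
    · exact h2.2
    · exact h1.2
  have hαn : ∀ v, 0 < ‖α v‖ := fun v => norm_pos_iff.2 (hα0 v)
  have hαnp : ‖α 0‖ * ‖α 1‖ * ‖α 2‖ = g * (z : ℝ) ^ 2 := by
    rw [← norm_mul, ← norm_mul, hαp, norm_mul, norm_pow, Complex.norm_natCast,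
      Complex.norm_natCast]
  -- the bounds
  obtain ⟨b, hb⟩ : ∃ b : Fin 3 → ℝ, ∀ v, b v = c1 * √(‖α v‖ / g1) := ⟨_, fun _ => rfl⟩
  have hb0 : ∀ v, 0 < b v := by
    intro v
    rw [hb]
    exact mul_pos hc10 (Real.sqrt_pos.2 (div_pos (hαn v) hg10))
  have hbsq : ∀ v, b v ^ 2 = c1 ^ 2 * (‖α v‖ / g1) := by
    intro v
    rw [hb, mul_pow, Real.sq_sqrt (div_pos (hαn v) hg10).le]
  have hbp : b 0 * b 1 * b 2 = C₁ * z := by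
    have h1 : 0 ≤ ‖α 0‖ / g1 := (div_pos (hαn 0) hg10).le
    have h2 : 0 ≤ ‖α 0‖ / g1 * (‖α 1‖ / g1) := mul_nonneg h1 (div_pos (hαn 1) hg10).le
    have h3 : √(‖α 0‖ / g1) * √(‖α 1‖ / g1) * √(‖α 2‖ / g1) = z := by
      rw [← Real.sqrt_mul h1, ← Real.sqrt_mul h2]
      have h4 : ‖α 0‖ / g1 * (‖α 1‖ / g1) * (‖α 2‖ / g1) = (z : ℝ) ^ 2 := by
        have h5 : ‖α 0‖ / g1 * (‖α 1‖ / g1) * (‖α 2‖ / g1) =
            (‖α 0‖ * ‖α 1‖ * ‖α 2‖) / g1 ^ 3 := by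
          field_simp
        rw [h5, hαnp, hg13]
        field_simp
      rw [h4, Real.sqrt_sq hzR.le]
    rw [hb, hb, hb]
    calc c1 * √(‖α 0‖ / g1) * (c1 * √(‖α 1‖ / g1)) * (c1 * √(‖α 2‖ / g1)) =
        c1 ^ 3 * (√(‖α 0‖ / g1) * √(‖α 1‖ / g1) * √(‖α 2‖ / g1)) := by ring
      _ = C₁ * z := by rw [h3, hc13]
  have hconj : ρ 2 = (starRingEnd ℂ) (ρ 1) → b 2 = b 1 := by
    intro h1
    have h2 : α 2 = (starRingEnd ℂ) (α 1) := by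
      rw [hα, hα, h1, map_sub, map_mul]
      simp
    rw [hb, hb, h2, Complex.norm_conj]
  obtain ⟨ζ, hζ0, hζt, hζb⟩ := hmk z t b hz hb0 hconj hbp.ge
  -- the norm
  have hN0 := nrm3_ne hρ hirr hζ0
  have hzN : (z : ℤ) ∣ nrm3 A B ζ := dvd_nrm3 A B ζ ht2 hζt
  obtain ⟨m, hm⟩ : ∃ m : ℕ, (nrm3 A B ζ).natAbs = m * z := by
    obtain ⟨m, hm⟩ := Int.natCast_dvd.1 hzN
    exact ⟨m, by rw [hm, mul_comm]⟩
  have hm0 : 0 < m := by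
    rcases Nat.eq_zero_or_pos m with h | h
    · rw [h, zero_mul, Int.natAbs_eq_zero] at hm
      exact absurd hm hN0
    · exact h
  have hNsq : (nrm3 A B ζ) ^ 2 = (m : ℤ) ^ 2 * (z : ℤ) ^ 2 := by
    rw [← Int.natAbs_sq, hm]
    push_cast
    ring
  have hNnorm : ‖((nrm3 A B ζ : ℤ) : ℂ)‖ = m * z := by
    rw [Complex.norm_intCast, ← Int.cast_abs, Int.abs_eq_natAbs, hm]
    push_cast
    ring
  have hprod := nrm3_prod hρ ζ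
  have hep : ‖ev ζ (ρ 0)‖ * ‖ev ζ (ρ 1)‖ * ‖ev ζ (ρ 2)‖ = m * z := by
    rw [← norm_mul, ← norm_mul, ← hprod, hNnorm]
  have hmC : (m : ℝ) ≤ C₁ := by
    have h1 : (m : ℝ) * z ≤ C₁ * z := by
      rw [← hep, ← hbp]
      exact mul_le_mul (mul_le_mul (hζb 0) (hζb 1) (norm_nonneg _) (hb0 0).le) (hζb 2)
        (norm_nonneg _) (mul_nonneg (hb0 0).le (hb0 1).le)
    exact le_of_mul_le_mul_right h1 hzR
  -- the quotient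
  have hdiv : ∀ i, ∃ c : ℤ, mul3 A B ![r, -s, 0] (mul3 A B (adj3 A B ζ) (adj3 A B ζ)) i =
      (z : ℤ) ^ 2 * c := fun i => dvd_lab A B ζ ht2 hζt ht1 i
  choose c hcdef using hdiv
  have hevc : ∀ v, ev c (ρ v) * ev ζ (ρ v) ^ 2 = (m : ℂ) ^ 2 * α v := by
    intro v
    have hx := hρ.root v
    have h1 : (z : ℂ) ^ 2 * ev c (ρ v) = α v * ev (adj3 A B ζ) (ρ v) ^ 2 := by
      have h2 := ev_mul3 hx ![r, -s, 0] (mul3 A B (adj3 A B ζ) (adj3 A B ζ))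
      have h2' := ev_mul3 hx (adj3 A B ζ) (adj3 A B ζ)
      have h3 : ev (mul3 A B ![r, -s, 0] (mul3 A B (adj3 A B ζ) (adj3 A B ζ))) (ρ v) =
          (z : ℂ) ^ 2 * ev c (ρ v) := by
        unfold ev
        rw [hcdef 0, hcdef 1, hcdef 2]
        push_cast
        ring
      have h4 : ev ![r, -s, 0] (ρ v) = α v := by
        rw [hα]
        unfold ev
        simp
        ring
      rw [h3, h4, h2'] at h2
      rw [h2]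
      ring
    have h5 : ev ζ (ρ v) * ev (adj3 A B ζ) (ρ v) = ((nrm3 A B ζ : ℤ) : ℂ) := by
      rw [← ev_mul3 hx, mul3_adj3]
      unfold ev
      simp
    have h6 : ((nrm3 A B ζ : ℤ) : ℂ) ^ 2 = (m : ℂ) ^ 2 * (z : ℂ) ^ 2 := by
      exact_mod_cast congrArg (fun x : ℤ => (x : ℂ)) hNsq
    have h7 : (z : ℂ) ^ 2 * (ev c (ρ v) * ev ζ (ρ v) ^ 2) = (z : ℂ) ^ 2 * ((m : ℂ) ^ 2 * α v) := by
      calc (z : ℂ) ^ 2 * (ev c (ρ v) * ev ζ (ρ v) ^ 2) =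
          ((z : ℂ) ^ 2 * ev c (ρ v)) * ev ζ (ρ v) ^ 2 := by ring
        _ = α v * (ev ζ (ρ v) * ev (adj3 A B ζ) (ρ v)) ^ 2 := by rw [h1]; ring
        _ = α v * ((m : ℂ) ^ 2 * (z : ℂ) ^ 2) := by rw [h5, h6]
        _ = _ := by ring
    exact mul_left_cancel₀ (pow_ne_zero 2 hzC) h7
  have hmCne : (m : ℂ) ≠ 0 := by
    have : m ≠ 0 := by omega
    exact_mod_cast this
  refine ⟨ζ, c, m, hm0, ?_, ?_, ?_, ?_⟩
  · have : 0 < K * C₁ ^ 2 := by positivity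
    linarith
  · refine ev_inj hρ fun v => ?_
    rw [ev_mul3 (hρ.root v), ev_mul3 (hρ.root v)]
    have h1 := hevc v
    have h2 : ev ![(m : ℤ) ^ 2 * r, -((m : ℤ) ^ 2 * s), 0] (ρ v) = (m : ℂ) ^ 2 * α v := by
      rw [hα]
      unfold ev
      simp
      ring
    rw [h2, ← h1]
    ring
  · have h1 : ((nrm3 A B c : ℤ) : ℂ) = (m : ℂ) ^ 4 * g := by
      have h2 : ((nrm3 A B ζ : ℤ) : ℂ) ^ 2 = (m : ℂ) ^ 2 * (z : ℂ) ^ 2 := by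
        exact_mod_cast congrArg (fun x : ℤ => (x : ℂ)) hNsq
      have h3 : ((nrm3 A B c : ℤ) : ℂ) * ((m : ℂ) ^ 2 * (z : ℂ) ^ 2) =
          ((m : ℂ) ^ 4 * g) * ((m : ℂ) ^ 2 * (z : ℂ) ^ 2) := by
        rw [nrm3_prod hρ c, ← h2, hprod]
        calc ev c (ρ 0) * ev c (ρ 1) * ev c (ρ 2) * (ev ζ (ρ 0) * ev ζ (ρ 1) * ev ζ (ρ 2)) ^ 2 =
            (ev c (ρ 0) * ev ζ (ρ 0) ^ 2) * (ev c (ρ 1) * ev ζ (ρ 1) ^ 2) *
              (ev c (ρ 2) * ev ζ (ρ 2) ^ 2) := by ring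
          _ = (m : ℂ) ^ 6 * (α 0 * α 1 * α 2) := by rw [hevc, hevc, hevc]; ring
          _ = (m : ℂ) ^ 4 * g * ((m : ℂ) ^ 2 * (z : ℂ) ^ 2) := by rw [hαp]; ring
          _ = (m : ℂ) ^ 4 * g * (ev ζ (ρ 0) * ev ζ (ρ 1) * ev ζ (ρ 2)) ^ 2 := by
              rw [← hprod, h2]
      exact mul_right_cancel₀ (mul_ne_zero (pow_ne_zero 2 hmCne) (pow_ne_zero 2 hzC)) h3
    exact_mod_cast h1
  · have hR : ∀ v, ‖ev c (ρ v)‖ ≤ C₁ ^ 2 * g1 := by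
      intro v
      have h1 := lab3_lower hzR hb0 (e := fun v => ‖ev ζ (ρ v)‖) (fun v => norm_nonneg _) hζb hbp
        hep v
      have h2 : ‖ev c (ρ v)‖ * ‖ev ζ (ρ v)‖ ^ 2 = (m : ℝ) ^ 2 * ‖α v‖ := by
        have h3 := congrArg norm (hevc v)
        rw [norm_mul, norm_pow, norm_mul, norm_pow, Complex.norm_natCast] at h3
        exact h3
      have hmR : (0 : ℝ) < m := by exact_mod_cast hm0
      have h3 : ((m : ℝ) * b v) ^ 2 ≤ (C₁ * ‖ev ζ (ρ v)‖) ^ 2 :=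
        pow_le_pow_left₀ (mul_pos hmR (hb0 v)).le h1 2
      rw [mul_pow, mul_pow, hbsq] at h3
      have h4 : ‖ev c (ρ v)‖ * ((m : ℝ) ^ 2 * (c1 ^ 2 * (‖α v‖ / g1))) ≤
          C₁ ^ 2 * ((m : ℝ) ^ 2 * ‖α v‖) := by
        calc ‖ev c (ρ v)‖ * ((m : ℝ) ^ 2 * (c1 ^ 2 * (‖α v‖ / g1))) ≤
            ‖ev c (ρ v)‖ * (C₁ ^ 2 * ‖ev ζ (ρ v)‖ ^ 2) :=
              mul_le_mul_of_nonneg_left h3 (norm_nonneg _)
          _ = C₁ ^ 2 * (‖ev c (ρ v)‖ * ‖ev ζ (ρ v)‖ ^ 2) := by ring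
          _ = _ := by rw [h2]
      have h5 : (‖ev c (ρ v)‖ * c1 ^ 2) * ((m : ℝ) ^ 2 * ‖α v‖) ≤
          (C₁ ^ 2 * g1) * ((m : ℝ) ^ 2 * ‖α v‖) := by
        have h6 := mul_le_mul_of_nonneg_right h4 hg10.le
        have h7 : ‖ev c (ρ v)‖ * ((m : ℝ) ^ 2 * (c1 ^ 2 * (‖α v‖ / g1))) * g1 =
            (‖ev c (ρ v)‖ * c1 ^ 2) * ((m : ℝ) ^ 2 * ‖α v‖) := by
          field_simp
        rw [h7] at h6
        linarith
      have h8 := le_of_mul_le_mul_right h5 (mul_pos (pow_pos hmR 2) (hαn v))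
      have h9 : 1 ≤ c1 ^ 2 := one_le_pow₀ hc11
      exact (le_mul_of_one_le_right (norm_nonneg _) h9).trans h8
    intro i
    have h1 := hev c (C₁ ^ 2 * g1) hR i
    rw [← hg1]
    have h2 : K * (C₁ ^ 2 * g1) ≤ (C₁ + K * C₁ ^ 2) * g1 := by
      have : 0 ≤ C₁ * g1 := (mul_pos hC0 hg10).le
      linarith
    exact h1.trans h2

end Pool.Agent.H12.EH
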