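import Pool.Agent.H12.EH.Pair
import Pool.Agent.H12.EH.Fac

/-!
[H12 EH LABC]  The label for three rational roots: three of the four squarefree parts.

`lab2r e o a`: the three forms `frm e (o.succAbove v)`, weights = cross products (`w = l × k`, so `∑ w_v l_v = ∑ w_v k_v = 0`),
`γ_v = a_v`, `E` = identity, `M = diag(w_v a_v)`, `m = 1`.  Do the four cases of `o` (`fin_cases o`, `simp`).
`ind`, `w0`: the `e_i` are different.  `lab3r_ne`: `q ∤ w_v`: if `q` divides the three entries `w_v a_v y_v`, then (as `q` divides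
at most one of the `a_v`, `h1`) `q` divides two of the `y_v`, so two of the forms, so (`w_v` is the determinant of two forms) it divides
`w_v r`, `w_v s`, so `gcd(r, s)`.  `h1` is proved in the same way: if `q ∣ a_u, a_v`, `u ≠ v`, then `q` divides two of the forms.
-/

set_option autoImplicit false

namespace Pool.Agent.H12.EH

/-- coefficients of the four forms -/
def frl (i : Fin 4) : ℤ := (![0, 1, 1, 1] : Fin 4 → ℤ) i

/-- coefficients of the four forms -/
def frk (e : Fin 3 → ℤ) (i : Fin 4) : ℤ := (![1, -e 0, -e 1, -e 2] : Fin 4 → ℤ) i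

/-- the weights -/
def frw (e : Fin 3 → ℤ) (o : Fin 4) (v : Fin 3) : ℤ :=
  frl (o.succAbove (v + 1)) * frk e (o.succAbove (v + 2)) - frl (o.succAbove (v + 2)) * frk e (o.succAbove (v + 1))

/-- the label -/
noncomputable def lab3r (e : Fin 3 → ℤ) (o : Fin 4) (a : Fin 3 → ℤ) : Lab where
  l := fun v => frl (o.succAbove v)
  k := fun v => frk e (o.succAbove v)
  w := fun v => frw e o v
  γ := fun v => a v
  E := fun v j => if v = j then 1 else 0
  M := Matrix.diagonal fun v => frw e o v * a v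
  m := 1

private theorem frm_eq (e : Fin 3 → ℤ) (i : Fin 4) (r s : ℤ) : frm e i r s = frl i * r + frk e i * s := by
  fin_cases i <;> simp [frm, frl, frk] <;> ring

theorem frw_ne {e : Fin 3 → ℤ} (he : ∀ i j, i ≠ j → e i ≠ e j) (o : Fin 4) (v : Fin 3) : frw e o v ≠ 0 := by
  have h01 := sub_ne_zero.mpr (he 0 1 (by decide))
  have h02 := sub_ne_zero.mpr (he 0 2 (by decide))
  have h12 := sub_ne_zero.mpr (he 1 2 (by decide))
  have key : ∀ p q : Fin 4, p ≠ q → frl p * frk e q - frl q * frk e p ≠ 0 := by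
    intro p q hpq
    fin_cases p <;> fin_cases q <;> first | exact absurd rfl hpq | (simp [frl, frk]; try omega)
  unfold frw
  apply key
  intro h
  have h2 : v + 1 = v + 2 := Fin.succAbove_right_injective h
  have h3 : ∀ v : Fin 3, v + 1 ≠ v + 2 := by decide
  exact h3 v h2

/-- the weight of the third index -/
private theorem frw_third (e : Fin 3 → ℤ) (o : Fin 4) {u v : Fin 3} (huv : u ≠ v) : ∃ t : Fin 3,
    frl (o.succAbove u) * frk e (o.succAbove v) - frl (o.succAbove v) * frk e (o.succAbove u) = frw e o t ∨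
    frl (o.succAbove u) * frk e (o.succAbove v) - frl (o.succAbove v) * frk e (o.succAbove u) = -frw e o t := by
  have h : (∃ t : Fin 3, u = t + 1 ∧ v = t + 2) ∨ (∃ t : Fin 3, v = t + 1 ∧ u = t + 2) := by
    revert u v
    decide
  rcases h with ⟨t, rfl, rfl⟩ | ⟨t, rfl, rfl⟩
  · exact ⟨t, Or.inl rfl⟩
  · refine ⟨t, Or.inr ?_⟩
    unfold frw
    ring

theorem lab3r_ok {e : Fin 3 → ℤ} (he : ∀ i j, i ≠ j → e i ≠ e j) (o : Fin 4) {a : Fin 3 → ℤ}
    (ha : ∀ v, a v ≠ 0) : (lab3r e o a).Ok := by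
  have e1 : (0 : Fin 3) + 1 = 1 := by decide
  have e2 : (0 : Fin 3) + 2 = 2 := by decide
  have e3 : (1 : Fin 3) + 1 = 2 := by decide
  have e4 : (1 : Fin 3) + 2 = 0 := by decide
  have e5 : (2 : Fin 3) + 1 = 0 := by decide
  have e6 : (2 : Fin 3) + 2 = 1 := by decide
  refine ⟨?_, ?_, ?_, ?_, ?_, ?_, ?_⟩
  · rw [Fin.sum_univ_three]
    simp only [lab3r, frw, e1, e2, e3, e4, e5, e6]
    push_cast
    ring
  · rw [Fin.sum_univ_three]
    simp only [lab3r, frw, e1, e2, e3, e4, e5, e6]
    push_cast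
    ring
  · intro v
    simp only [lab3r]
    exact_mod_cast frw_ne he o v
  · intro v
    simp only [lab3r]
    exact_mod_cast ha v
  · simp [lab3r]
  · intro u v huv
    simp only [lab3r]
    intro h
    have h' : frl (o.succAbove u) * frk e (o.succAbove v) = frl (o.succAbove v) * frk e (o.succAbove u) := by
      exact_mod_cast h
    obtain ⟨t, ht⟩ := frw_third e o huv
    have := frw_ne he o t
    rcases ht with ht | ht <;> omega
  · intro i j
    simp only [lab3r, Matrix.diagonal_apply]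
    rw [Fin.sum_univ_three]
    fin_cases i <;> fin_cases j <;> simp

theorem lab3r_pt {e : Fin 3 → ℤ} (o : Fin 4) {a y : Fin 3 → ℤ} {r s : ℤ}
    (h : ∀ v, frm e (o.succAbove v) r s = a v * y v ^ 2) : (lab3r e o a).Pt r s y := by
  intro v
  have h1 := h v
  rw [frm_eq] at h1
  have h2 : (lab3r e o a).u y v = (y v : ℂ) := by
    unfold Lab.u
    simp [lab3r]
  rw [h2]
  simp only [lab3r]
  have h3 : ((frl (o.succAbove v) : ℤ) : ℂ) * r + frk e (o.succAbove v) * s = a v * (y v : ℂ) ^ 2 := by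
    exact_mod_cast h1
  rw [h3]
  simp

theorem lab3r_det {e : Fin 3 → ℤ} (o : Fin 4) (a : Fin 3 → ℤ) (v : Fin 3) : a v ∣ (lab3r e o a).M.det := by
  simp only [lab3r, Matrix.det_diagonal]
  exact (Dvd.intro_left _ rfl).trans (Finset.dvd_prod_of_mem (fun v => frw e o v * a v) (Finset.mem_univ v))

theorem lab3r_gcd {e : Fin 3 → ℤ} (o : Fin 4) {a y : Fin 3 → ℤ} {r s : ℤ} (hrs : IsCoprime r s)
    (h : ∀ v, frm e (o.succAbove v) r s = a v * y v ^ 2) {q : ℕ} (hq : q.Prime)
    (hqw : ∀ v, ¬ (q : ℤ) ∣ frw e o v) {u v : Fin 3} (huv : u ≠ v)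
    (hu : (q : ℤ) ∣ frm e (o.succAbove u) r s) (hv : (q : ℤ) ∣ frm e (o.succAbove v) r s) : False := by
  rw [frm_eq] at hu hv
  obtain ⟨t, ht⟩ := frw_third e o huv
  have hqp : Prime (q : ℤ) := Nat.prime_iff_prime_int.mp hq
  have h1 : (q : ℤ) ∣ (frl (o.succAbove u) * frk e (o.succAbove v) -
      frl (o.succAbove v) * frk e (o.succAbove u)) * r := by
    have h0 := dvd_sub (hu.mul_left (frk e (o.succAbove v))) (hv.mul_left (frk e (o.succAbove u)))
    have he : (frl (o.succAbove u) * frk e (o.succAbove v) -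
      frl (o.succAbove v) * frk e (o.succAbove u)) * r =
      frk e (o.succAbove v) * (frl (o.succAbove u) * r + frk e (o.succAbove u) * s) -
      frk e (o.succAbove u) * (frl (o.succAbove v) * r + frk e (o.succAbove v) * s) := by ring
    rw [he]
    exact h0
  have h2 : (q : ℤ) ∣ (frl (o.succAbove u) * frk e (o.succAbove v) -
      frl (o.succAbove v) * frk e (o.succAbove u)) * s := by
    have h0 := dvd_sub (hv.mul_left (frl (o.succAbove u))) (hu.mul_left (frl (o.succAbove v)))
    have he : (frl (o.succAbove u) * frk e (o.succAbove v) -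
      frl (o.succAbove v) * frk e (o.succAbove u)) * s =
      frl (o.succAbove u) * (frl (o.succAbove v) * r + frk e (o.succAbove v) * s) -
      frl (o.succAbove v) * (frl (o.succAbove u) * r + frk e (o.succAbove u) * s) := by ring
    rw [he]
    exact h0
  have h3 : ¬ (q : ℤ) ∣ (frl (o.succAbove u) * frk e (o.succAbove v) -
      frl (o.succAbove v) * frk e (o.succAbove u)) := by
    rcases ht with ht | ht
    · rw [ht]
      exact hqw t
    · rw [ht, dvd_neg]
      exact hqw t
  have h4 : (q : ℤ) ∣ r := (hqp.dvd_or_dvd h1).resolve_left h3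
  have h5 : (q : ℤ) ∣ s := (hqp.dvd_or_dvd h2).resolve_left h3
  exact hqp.not_isUnit (hrs.isUnit_of_dvd' h4 h5)

theorem lab3r_ne {e : Fin 3 → ℤ} (o : Fin 4) {a y : Fin 3 → ℤ} {r s : ℤ} (hrs : IsCoprime r s)
    (h : ∀ v, frm e (o.succAbove v) r s = a v * y v ^ 2) {q : ℕ} (hq : q.Prime)
    (hqw : ∀ v, ¬ (q : ℤ) ∣ frw e o v) : ∃ i, ¬ (q : ℤ) ∣ ((lab3r e o a).M.mulVec y) i := by
  by_contra hcon
  push Not at hcon
  have hqp : Prime (q : ℤ) := Nat.prime_iff_prime_int.mp hq
  have key : ∀ v, (q : ℤ) ∣ frm e (o.succAbove v) r s := by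
    intro v
    have h1 := hcon v
    simp only [lab3r, Matrix.mulVec_diagonal] at h1
    rw [h v]
    rw [mul_assoc] at h1
    have h2 := (hqp.dvd_or_dvd h1).resolve_left (hqw v)
    have : a v * y v ^ 2 = a v * y v * y v := by ring
    rw [this]
    exact h2.mul_right _
  exact lab3r_gcd o hrs h hq hqw (u := 0) (v := 1) (by decide) (key 0) (key 1)

end Pool.Agent.H12.EH
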