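import Pool.Agent.H12.EH.Htb

/-!
[H12 EH RED]  From twists with a low point to pairs `(r, s)`.

`om_finite`: bounded integers.
`red`: for `d ∈ low A B X Y` take the point `P`, `P = some X₀ Y₀ _` (`P ≠ 0`, as `0` has finite order), `Y₀ ≠ 0` (otherwise
`P + P = 0`).  `x = X₀ / d = r / s` with `r = x.num`, `s = x.den`, coprime.  `Y₀² = X₀³ + A d² X₀ + B d³ = d³ (x³ + A x + B)`,
so with `y = Y₀ / d²`: `d y² = x³ + A x + B = G(r,s) / s³` and `s G(r,s) = d (y s²)²`; `w = y s²` is rational with `d w²`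
an integer and `d` squarefree, so `w` is an integer (denominator `b` of `w`: `b² ∣ d`), `w ≠ 0`.  Height:
`hx P = log (max |r| s)` (`Rat.logHeight₁_eq_log_max`) and `hx P ≤ 2 canHeight P + C₀ ≤ 2 log Y + C₀` (`htb`), so
`max |r| s ≤ exp C₀ · Y²`: `(r, s) ∈ Om A B (C Y²) X` with `C = exp C₀`.
The map `d ↦ (r, s)` is injective on `low`: `d w² = s G(r,s) = d' w'²` with `d, d'` squarefree gives `d = d'`.
-/

set_option autoImplicit false

namespace Pool.Agent.H12.EH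

theorem om_finite (A B : ℤ) (H X : ℝ) : (Om A B H X).Finite := by
  apply ((Set.finite_Icc (-⌈|H|⌉) ⌈|H|⌉).prod (Set.finite_Icc (-⌈|H|⌉) ⌈|H|⌉)).subset
  rintro ⟨r, s⟩ ⟨_, hs, hr, hs2, _⟩
  simp only at hs hr hs2
  have hH : H ≤ ⌈|H|⌉ := (le_abs_self H).trans (Int.le_ceil _)
  have h1 := abs_le.mp (hr.trans hH)
  have h0 : (0 : ℤ) ≤ ⌈|H|⌉ := Int.ceil_nonneg (abs_nonneg H)
  have h2 : s ≤ ⌈|H|⌉ := by exact_mod_cast hs2.trans hH
  have h3 : -⌈|H|⌉ ≤ r := by exact_mod_cast h1.1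
  have h4 : r ≤ ⌈|H|⌉ := by exact_mod_cast h1.2
  exact ⟨⟨h3, h4⟩, ⟨by omega, h2⟩⟩

/-- a rational number whose square times a squarefree number is an integer is an integer -/
theorem int_of_sq {d : ℕ} (hd : Squarefree d) {w : ℚ} {N : ℤ} (h : (N : ℚ) = d * w ^ 2) : ∃ n : ℤ, w = n := by
  have hm0 : (w.den : ℚ) ≠ 0 := by exact_mod_cast w.den_nz
  have h1 : (N : ℚ) * (w.den : ℚ) ^ 2 = d * (w.num : ℚ) ^ 2 := by
    rw [h, mul_assoc, ← mul_pow, Rat.mul_den_eq_num]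
  have h2 : N * (w.den : ℤ) ^ 2 = d * w.num ^ 2 := by exact_mod_cast h1
  have hc : IsCoprime ((w.den : ℤ) ^ 2) (w.num ^ 2) := by
    apply IsCoprime.pow
    exact (Rat.isCoprime_num_den w).symm
  have h3 : (w.den : ℤ) ^ 2 ∣ d := hc.dvd_of_dvd_mul_right (Dvd.intro_left N h2)
  have h4 : w.den ^ 2 ∣ d := by exact_mod_cast h3
  rw [pow_two] at h4
  have h5 : w.den = 1 := Nat.isUnit_iff.mp (hd _ h4)
  exact ⟨w.num, (Rat.coe_int_num_of_den_eq_one h5).symm⟩

theorem sqf_unique {d d' a b : ℕ} (hd : Squarefree d) (hd' : Squarefree d') (hb : b ≠ 0)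
    (h : d * a ^ 2 = d' * b ^ 2) : d = d' := by
  have h1 : (d * a) ^ 2 = d * d' * b ^ 2 := by
    calc (d * a) ^ 2 = d * (d * a ^ 2) := by ring
      _ = d * (d' * b ^ 2) := by rw [h]
      _ = d * d' * b ^ 2 := by ring
  have h2 : b ∣ d * a := by
    have : b ^ 2 ∣ (d * a) ^ 2 := ⟨d * d', by rw [h1]; ring⟩
    exact (Nat.pow_dvd_pow_iff two_ne_zero).mp this
  obtain ⟨c, hc⟩ := h2
  have h3 : c ^ 2 = d * d' := by
    rw [hc, mul_pow, mul_comm] at h1
    exact Nat.eq_of_mul_eq_mul_right (pow_pos (Nat.pos_of_ne_zero hb) 2) h1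
  have key : ∀ x y : ℕ, Squarefree x → c ^ 2 = x * y → x ∣ y := by
    intro x y hx hxy
    have h4 : x ∣ c := (hx.dvd_pow_iff_dvd two_ne_zero).mp ⟨y, hxy⟩
    have h5 : x * x ∣ x * y := by
      rw [← hxy, ← pow_two]
      exact pow_dvd_pow_of_dvd h4 2
    exact Nat.dvd_of_mul_dvd_mul_left (Nat.pos_of_ne_zero hx.ne_zero) h5
  exact Nat.dvd_antisymm (key d d' hd h3) (key d' d hd' (by rw [h3, mul_comm]))

/-- the pair of a point of infinite order -/
theorem pair_of_pt {A B : ℤ} {d : ℕ} (hd : Squarefree d) (P : (twist A B d).Point) (hP : ¬ IsOfFinAddOrder P) :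
    ∃ r s w : ℤ, IsCoprime r s ∧ 0 < s ∧ w ≠ 0 ∧ s * Gf A B r s = d * w ^ 2 ∧ |(r : ℝ)| ≤ Real.exp (hx P) ∧
      (s : ℝ) ≤ Real.exp (hx P) := by
  have hd0 : (d : ℚ) ≠ 0 := by exact_mod_cast hd.ne_zero
  cases P with
  | zero =>
    exfalso
    exact hP IsOfFinAddOrder.zero
  | some X₀ Y₀ h =>
    have heq := (WeierstrassCurve.Affine.equation_iff X₀ Y₀).mp h.1
    simp only [twist, zero_mul, add_zero] at heq
    have hY : Y₀ ≠ 0 := by
      intro hY
      apply hP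
      rw [isOfFinAddOrder_iff_nsmul_eq_zero]
      refine ⟨2, by norm_num, ?_⟩
      rw [two_nsmul]
      apply WeierstrassCurve.Affine.Point.add_self_of_Y_eq
      simp [WeierstrassCurve.Affine.negY, twist, hY]
    set x : ℚ := X₀ / d with hx'
    have hden : (x.den : ℚ) ≠ 0 := by exact_mod_cast x.den_nz
    have hX : X₀ = d * x := by rw [hx']; field_simp
    have hr : (x.num : ℚ) = x * x.den := (Rat.mul_den_eq_num x).symm
    have hw : ((((x.den : ℤ) * Gf A B x.num x.den : ℤ)) : ℚ) = d * (Y₀ / d ^ 2 * (x.den : ℚ) ^ 2) ^ 2 := by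
      have e1 : (d : ℚ) * (Y₀ / d ^ 2 * (x.den : ℚ) ^ 2) ^ 2 = Y₀ ^ 2 / d ^ 3 * (x.den : ℚ) ^ 4 := by
        field_simp
      rw [e1, heq, hX]
      unfold Gf
      push_cast
      rw [hr]
      field_simp
    obtain ⟨w, hw2⟩ := int_of_sq hd hw
    refine ⟨x.num, x.den, w, Rat.isCoprime_num_den x, by exact_mod_cast x.den_pos, ?_, ?_, ?_, ?_⟩
    · intro h0
      rw [h0, Int.cast_zero] at hw2
      have : Y₀ / (d : ℚ) ^ 2 * (x.den : ℚ) ^ 2 ≠ 0 := by positivity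
      exact this hw2
    · rw [hw2] at hw
      exact_mod_cast hw
    · have e : hx (WeierstrassCurve.Affine.Point.some X₀ Y₀ h : (twist A B d).Point) = Height.logHeight₁ x := rfl
      rw [e, Rat.logHeight₁_eq_log_max, Real.exp_log (by
        have : 0 < max x.num.natAbs x.den := lt_max_of_lt_right x.den_pos
        exact_mod_cast this)]
      have : |(x.num : ℝ)| = ((x.num.natAbs : ℕ) : ℝ) := by
        rw [Nat.cast_natAbs, Int.cast_abs]
      rw [this]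
      exact_mod_cast le_max_left _ _
    · have e : hx (WeierstrassCurve.Affine.Point.some X₀ Y₀ h : (twist A B d).Point) = Height.logHeight₁ x := rfl
      rw [e, Rat.logHeight₁_eq_log_max, Real.exp_log (by
        have : 0 < max x.num.natAbs x.den := lt_max_of_lt_right x.den_pos
        exact_mod_cast this)]
      rw [Int.cast_natCast]
      exact_mod_cast le_max_right x.num.natAbs x.den

theorem red (A B : ℤ) (hD : 4 * A ^ 3 + 27 * B ^ 2 ≠ 0) : ∃ C : ℝ, 1 ≤ C ∧ ∀ X Y : ℝ, 0 < Y →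
    (low A B X Y).ncard ≤ (Om A B (C * Y ^ 2) X).ncard := by
  obtain ⟨C₀, hC₀, hb⟩ := htb A B hD
  refine ⟨Real.exp C₀, Real.one_le_exp hC₀, ?_⟩
  intro X Y hY
  have key : ∀ d ∈ low A B X Y, ∃ p : ℤ × ℤ, p ∈ Om A B (Real.exp C₀ * Y ^ 2) X ∧
      ∃ w : ℤ, w ≠ 0 ∧ p.2 * Gf A B p.1 p.2 = d * w ^ 2 := by
    rintro d ⟨hdX, hd, P, hP, hPY⟩
    obtain ⟨r, s, w, hc, hs, hw, he, h1, h2⟩ := pair_of_pt hd P hP
    have hexp : Real.exp (hx P) ≤ Real.exp C₀ * Y ^ 2 := by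
      calc Real.exp (hx P) ≤ Real.exp (2 * canHeight P + C₀) :=
            Real.exp_le_exp.mpr (hb d (Nat.pos_of_ne_zero hd.ne_zero) P hP)
        _ = Real.exp C₀ * Real.exp (canHeight P) ^ 2 := by
            rw [Real.exp_add, ← Real.exp_nat_mul, mul_comm]
            norm_num
        _ ≤ Real.exp C₀ * Y ^ 2 := by
            apply mul_le_mul_of_nonneg_left _ (Real.exp_pos _).le
            exact pow_le_pow_left₀ (Real.exp_pos _).le hPY 2
    exact ⟨(r, s), ⟨hc, hs, h1.trans hexp, h2.trans hexp, d, hd, hdX, w, hw, he⟩, w, hw, he⟩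
  choose! f hf w hw0 hw using key
  apply Set.ncard_le_ncard_of_injOn f hf _ (om_finite _ _ _ _)
  intro d hd d' hd' hdd
  have h1 := hw d hd
  have h2 := hw d' hd'
  rw [hdd, h2] at h1
  apply sqf_unique hd.2.1 hd'.2.1 (Int.natAbs_ne_zero.mpr (hw0 d' hd')) (a := (w d).natAbs)
  have h3 : (d : ℤ) * (w d) ^ 2 = d' * (w d') ^ 2 := h1.symm
  have h4 := congrArg Int.natAbs h3
  rw [Int.natAbs_mul, Int.natAbs_mul, Int.natAbs_pow, Int.natAbs_pow, Int.natAbs_natCast, Int.natAbs_natCast] at h4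
  exact h4

end Pool.Agent.H12.EH
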