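import Pool.Agent.H12.EH.Acnt1
import Pool.Agent.H12.EH.Acnta
import Pool.Agent.H12.EH.Dya
import Pool.Agent.H12.EH.Fac
import Pool.Agent.H12.EH.Red

/-!
[H12 EH OM1]  One rational root: at most `C X^ε (X^(7/8) + √H X^(7/16) + H X^(-1/8))` pairs.

`T = (om_finite ..).toFinset`; choose `a, y` by `fac1`, `|a₀ a₁ a₂| ≤ K X` (each factor is at least 1, so each is `≤ K X`).
`dya1`: a fiber, `S lam ≤ C₁ H`.  `dya2` for `|a₀|, |a₁|, |a₂|, y₂` (`y₂² ≤ |Qf| ≤ C H²`): parameters `A₀, A₁, G, Z` (powers of 2),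
`A₀ A₁ G ≤ K X`, `G Z² ≤ C H²`.
If `G ≤ X^(3/4)`: let `j = 0` (`μ = ![0, -1]`) if `A₀ ≤ A₁`, else `j = 1` (`μ = ![1, e]`); `A_j² G² ≤ A₀ A₁ G² ≤ K X G ≤ K X^(7/4)`;
a further `dya2` for `|a_j a₂| ≤ 4 A_j G ≤ 4 √K X^(7/8)` and `acnt1`:
`card ≤ C L^(ε') (L + √(C₁ H L)) ≤ C X^(ε') (X^(7/8) + √H X^(7/16))`.
If `G > X^(3/4)`: `acnta`: `card ≤ C Z^(ε') (A₀ A₁ Z + √(A₀ A₁ G))`, `A₀ A₁ Z ≤ (K X / G) · C H / √G ≤ C X H X^(-9/8)`,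
`√(A₀ A₁ G) ≤ √(K X) ≤ C X^(7/8)`.
The number of classes is at most `C (log X + 1)^7` (`log H ≤ 2 log X`).
-/

set_option autoImplicit false

namespace Pool.Agent.H12.EH

/-- the data of a point of `Om` with one rational root -/
def om1Dat (A e : ℤ) (K H X : ℝ) (a y : Fin 3 → ℤ) (p : ℤ × ℤ) : Prop :=
  IsCoprime p.1 p.2 ∧ 0 < p.2 ∧ |(p.1 : ℝ)| ≤ H ∧ (p.2 : ℝ) ≤ H ∧
  (∀ i, Squarefree (a i)) ∧ (∀ i, 0 < y i) ∧ p.2 = a 0 * y 0 ^ 2 ∧ p.1 - e * p.2 = a 1 * y 1 ^ 2 ∧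
  Qf A e p.1 p.2 = a 2 * y 2 ^ 2 ∧ |((a 0 * a 1 * a 2 : ℤ) : ℝ)| ≤ K * X

theorem om1_abs_ge {a : ℤ} (ha : Squarefree a) : (1 : ℝ) ≤ |(a : ℝ)| := by
  have h1 : a ≠ 0 := ha.ne_zero
  have h2 : (1 : ℤ) ≤ |a| := Int.one_le_abs h1
  exact_mod_cast h2

theorem om1_qf_up (A e : ℤ) : ∃ C : ℝ, 1 ≤ C ∧ ∀ (H : ℝ) (r s : ℤ), |(r : ℝ)| ≤ H → 0 < s → (s : ℝ) ≤ H →
    |((Qf A e r s : ℤ) : ℝ)| ≤ C * H ^ 2 := by
  refine ⟨1 + |(e : ℝ)| + |((e : ℝ) ^ 2 + A)|, by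
    have := abs_nonneg (e : ℝ)
    have := abs_nonneg ((e : ℝ) ^ 2 + A)
    linarith, ?_⟩
  intro H r s hr hs hsH
  have hs' : |(s : ℝ)| ≤ H := by
    rw [abs_of_pos (by exact_mod_cast hs)]
    exact hsH
  have hH : 0 ≤ H := (abs_nonneg _).trans hr
  unfold Qf
  push_cast
  have h1 : |(r : ℝ) ^ 2| ≤ H ^ 2 := by
    rw [abs_pow]
    gcongr
  have h2 : |(e : ℝ) * r * s| ≤ |(e : ℝ)| * H ^ 2 := by
    rw [abs_mul, abs_mul]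
    calc |(e : ℝ)| * |(r : ℝ)| * |(s : ℝ)| ≤ |(e : ℝ)| * H * H := by gcongr
      _ = _ := by ring
  have h3 : |((e : ℝ) ^ 2 + A) * (s : ℝ) ^ 2| ≤ |((e : ℝ) ^ 2 + A)| * H ^ 2 := by
    rw [abs_mul, abs_pow]
    gcongr
  calc |(r : ℝ) ^ 2 + e * r * s + ((e : ℝ) ^ 2 + A) * (s : ℝ) ^ 2|
      ≤ |(r : ℝ) ^ 2| + |(e : ℝ) * r * s| + |((e : ℝ) ^ 2 + A) * (s : ℝ) ^ 2| := abs_add_three _ _ _
    _ ≤ H ^ 2 + |(e : ℝ)| * H ^ 2 + |((e : ℝ) ^ 2 + A)| * H ^ 2 := by gcongr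
    _ = _ := by ring

/-- the case of a small `|a₂|`, one class -/
theorem om1_small {A B : ℤ} (hD : 4 * A ^ 3 + 27 * B ^ 2 ≠ 0) {ρ : Fin 3 → ℂ} (hρ : Roots A B ρ) {e : ℤ}
    (he : ρ 0 = e) (hirr : ∀ x : ℚ, x ^ 2 + e * x + (e ^ 2 + A) ≠ 0) {K C₁ : ℝ} (hK : 1 ≤ K) (hC₁ : 1 ≤ C₁)
    (ε : ℝ) (hε : 0 < ε) :
    ∃ C : ℝ, 0 < C ∧ ∀ (H u : ℝ), 1 ≤ H → 1 ≤ u →
    ∀ (v : Fin 3) (S lam : ℝ), 0 < S → 0 < lam → S * lam ≤ C₁ * H →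
    ∀ (A₀ A₁ G : ℝ), 1 ≤ A₀ → 1 ≤ A₁ → 1 ≤ G → A₀ * A₁ * G ≤ K * u ^ 8 → G ≤ u ^ 6 →
    ∀ (N : ℕ), K * u ^ 8 ≤ N →
    ∀ (T : Finset (ℤ × ℤ)) (a y : ℤ × ℤ → Fin 3 → ℤ),
      (∀ p ∈ T, om1Dat A e K H (u ^ 8) (a p) (y p) p ∧ Fib ρ v S lam p.1 p.2 ∧
        |(a p 0 : ℝ)| ≤ 2 * A₀ ∧ |(a p 1 : ℝ)| ≤ 2 * A₁ ∧ |(a p 2 : ℝ)| ≤ 2 * G) →
      (T.card : ℝ) ≤ (Nat.log 2 N + 1) * (C * (u ^ 8) ^ ε * (u ^ 7 + √(H * u ^ 7))) := by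
  obtain ⟨Ca, hCa, hacnt⟩ := acnt1 hD hρ he hirr ε hε
  have hKp : 0 < K := by linarith
  have hC₁p : 0 < C₁ := by linarith
  refine ⟨Ca * (4 * K) ^ ε * (4 * K * C₁), by positivity, ?_⟩
  intro H u hH hu v S lam hS hlam hSl A₀ A₁ G hA₀ hA₁ hG hAG hGu N hN T a y hT
  have hu0 : 0 < u := by linarith
  have hu8 : (1 : ℝ) ≤ u ^ 8 := one_le_pow₀ hu
  -- the choice of the form
  obtain ⟨j, μ, Aj, hj, hμ, hAj, hμj, hAjle⟩ : ∃ (j : Fin 3) (μ : Fin 2 → ℤ) (Aj : ℝ),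
      (j = 0 ∨ j = 1) ∧ (μ = ![1, e] ∨ μ = ![0, -1]) ∧
      (1 ≤ Aj ∧ Aj ^ 2 ≤ A₀ * A₁) ∧
      (∀ p ∈ T, μ 0 * p.1 - μ 1 * p.2 = a p j * y p j ^ 2) ∧ (∀ p ∈ T, |(a p j : ℝ)| ≤ 2 * Aj) := by
    rcases le_total A₀ A₁ with h | h
    · refine ⟨0, ![0, -1], A₀, Or.inl rfl, Or.inr rfl, ⟨hA₀, by nlinarith⟩, ?_, fun p hp => (hT p hp).2.2.1⟩
      intro p hp
      obtain ⟨-, -, -, -, -, -, h0, -⟩ := (hT p hp).1
      simp only [Matrix.cons_val_zero, Matrix.cons_val_one]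
      rw [← h0]
      ring
    · refine ⟨1, ![1, e], A₁, Or.inr rfl, Or.inl rfl, ⟨hA₁, by nlinarith⟩, ?_, fun p hp => (hT p hp).2.2.2.1⟩
      intro p hp
      obtain ⟨-, -, -, -, -, -, -, h1, -⟩ := (hT p hp).1
      simp only [Matrix.cons_val_zero, Matrix.cons_val_one]
      rw [← h1]
      ring
  have hAjG : Aj * G ≤ K * u ^ 7 := by
    have h1 : (Aj * G) ^ 2 ≤ (K * u ^ 7) ^ 2 := by
      calc (Aj * G) ^ 2 = Aj ^ 2 * G ^ 2 := by ring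
        _ ≤ (A₀ * A₁) * G ^ 2 := by gcongr; exact hAj.2
        _ = (A₀ * A₁ * G) * G := by ring
        _ ≤ (K * u ^ 8) * u ^ 6 := by gcongr
        _ = K * u ^ 14 := by ring
        _ ≤ K ^ 2 * u ^ 14 := by
            have : K ≤ K ^ 2 := by nlinarith
            gcongr
        _ = (K * u ^ 7) ^ 2 := by ring
    exact (abs_le_of_sq_le_sq' h1 (by positivity)).2
  have hprodle : ∀ p ∈ T, |((a p j * a p 2 : ℤ) : ℝ)| ≤ 4 * (K * u ^ 7) := by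
    intro p hp
    rw [Int.cast_mul, abs_mul]
    have h1 := hAjle p hp
    have h2 := (hT p hp).2.2.2.2
    have hAj0 : 0 ≤ 2 * Aj := by linarith [hAj.1]
    calc |(a p j : ℝ)| * |(a p 2 : ℝ)| ≤ (2 * Aj) * (2 * G) := by gcongr
      _ = 4 * (Aj * G) := by ring
      _ ≤ _ := by gcongr
  have hsqf : ∀ p ∈ T, ∀ i, Squarefree (a p i) := fun p hp => (hT p hp).1.2.2.2.2.1
  have hge : ∀ p ∈ T, (1 : ℝ) ≤ |((a p j * a p 2 : ℤ) : ℝ)| := by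
    intro p hp
    rw [Int.cast_mul, abs_mul]
    have h1 := om1_abs_ge (hsqf p hp j)
    have h2 := om1_abs_ge (hsqf p hp 2)
    nlinarith
  have hleN : ∀ p ∈ T, |((a p j * a p 2 : ℤ) : ℝ)| ≤ N := by
    intro p hp
    refine le_trans ?_ hN
    have h3 := (hT p hp).1.2.2.2.2.2.2.2.2.2
    refine le_trans ?_ h3
    rw [Int.cast_mul, Int.cast_mul, Int.cast_mul, abs_mul, abs_mul, abs_mul]
    have h0 := om1_abs_ge (hsqf p hp 0)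
    have h1 := om1_abs_ge (hsqf p hp 1)
    have h2 := om1_abs_ge (hsqf p hp 2)
    rcases hj with rfl | rfl
    · nlinarith [mul_nonneg (abs_nonneg (a p 0 : ℝ)) (abs_nonneg (a p 2 : ℝ))]
    · nlinarith [mul_nonneg (abs_nonneg (a p 1 : ℝ)) (abs_nonneg (a p 2 : ℝ))]
  have hnat : ∀ n : ℤ, ((n.natAbs : ℕ) : ℝ) = |(n : ℝ)| := by
    intro n
    rw [Nat.cast_natAbs, Int.cast_abs]
  refine dya2 T (fun p => (a p j * a p 2).natAbs) N _ (by positivity) ?_ ?_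
  · intro p hp
    constructor
    · have := hge p hp
      rw [← hnat] at this
      exact_mod_cast this
    · have := hleN p hp
      rw [← hnat] at this
      exact_mod_cast this
  · intro k hk T' hT' hkT'
    rcases T'.eq_empty_or_nonempty with rfl | ⟨p₀, hp₀⟩
    · simp only [Finset.card_empty, Nat.cast_zero]
      positivity
    set L : ℝ := (2 : ℝ) ^ k with hL
    have hL1 : 1 ≤ L := one_le_pow₀ (by norm_num)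
    have hLle : L ≤ 4 * (K * u ^ 7) := by
      refine le_trans ?_ (hprodle p₀ (hT' hp₀))
      have := (hkT' p₀ hp₀).1
      rw [← hnat, hL]
      exact_mod_cast this
    have hkey := hacnt μ hμ v S lam L hS hlam hL1 T' (by
      intro p hp
      have hd := (hT p (hT' hp)).1
      refine ⟨hd.1, hd.2.1, (hT p (hT' hp)).2.1, a p j, a p 2, y p j, y p 2, hd.2.2.2.2.1 j, hd.2.2.2.2.1 2,
        hd.2.2.2.2.2.1 j, hd.2.2.2.2.2.1 2, hμj p (hT' hp), hd.2.2.2.2.2.2.2.2.1, ?_, ?_⟩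
      · have := (hkT' p hp).1
        rw [← hnat, hL]
        exact_mod_cast this
      · have := (hkT' p hp).2
        rw [← hnat, hL]
        exact_mod_cast this)
    refine hkey.trans ?_
    have hL' : L ≤ 4 * K * u ^ 8 := by
      refine hLle.trans ?_
      have : u ^ 7 ≤ u ^ 8 := pow_le_pow_right₀ hu (by norm_num)
      nlinarith
    have e1 : L ^ ε ≤ (4 * K) ^ ε * (u ^ 8) ^ ε := by
      rw [← Real.mul_rpow (by positivity) (by positivity)]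
      exact Real.rpow_le_rpow (by positivity) hL' hε.le
    have hc : (1 : ℝ) ≤ 4 * K * C₁ := by nlinarith
    have e2 : √(S * lam * L) ≤ (4 * K * C₁) * √(H * u ^ 7) := by
      have h1 : S * lam * L ≤ (4 * K * C₁) * (H * u ^ 7) := by
        calc S * lam * L ≤ (C₁ * H) * (4 * (K * u ^ 7)) := by gcongr
          _ = _ := by ring
      calc √(S * lam * L) ≤ √((4 * K * C₁) * (H * u ^ 7)) := Real.sqrt_le_sqrt h1
        _ = √(4 * K * C₁) * √(H * u ^ 7) := Real.sqrt_mul (by positivity) _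
        _ ≤ (4 * K * C₁) * √(H * u ^ 7) := by
            gcongr
            exact Real.sqrt_le_iff.2 ⟨by linarith, by nlinarith⟩
    have e3 : L ≤ (4 * K * C₁) * u ^ 7 := by
      refine hLle.trans ?_
      have : 4 * (K * u ^ 7) = (4 * K) * 1 * u ^ 7 := by ring
      rw [this]
      gcongr
    calc Ca * L ^ ε * (L + √(S * lam * L))
        ≤ Ca * ((4 * K) ^ ε * (u ^ 8) ^ ε) * ((4 * K * C₁) * u ^ 7 + (4 * K * C₁) * √(H * u ^ 7)) := by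
          gcongr
      _ = _ := by ring

/-- the case of a large `|a₂|` -/
theorem om1_large {A B : ℤ} (hD : 4 * A ^ 3 + 27 * B ^ 2 ≠ 0) {ρ : Fin 3 → ℂ} (hρ : Roots A B ρ) {e : ℤ}
    (he : ρ 0 = e) {K Q : ℝ} (hK : 1 ≤ K) (hQ : 1 ≤ Q)
    (ε : ℝ) (hε : 0 < ε) :
    ∃ C : ℝ, 0 < C ∧ ∀ (H u : ℝ), 1 ≤ H → 1 ≤ u → H ≤ (u ^ 8) ^ 2 →
    ∀ (v : Fin 3) (S lam : ℝ), 0 < S → 0 < lam →
    ∀ (A₀ A₁ G Z : ℝ), 1 ≤ A₀ → 1 ≤ A₁ → 1 ≤ G → 1 ≤ Z → A₀ * A₁ * G ≤ K * u ^ 8 → u ^ 6 ≤ G →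
      G * Z ^ 2 ≤ Q * H ^ 2 →
    ∀ (T : Finset (ℤ × ℤ)) (a y : ℤ × ℤ → Fin 3 → ℤ),
      (∀ p ∈ T, om1Dat A e K H (u ^ 8) (a p) (y p) p ∧ Fib ρ v S lam p.1 p.2 ∧
        A₀ ≤ |(a p 0 : ℝ)| ∧ |(a p 0 : ℝ)| ≤ 2 * A₀ ∧ A₁ ≤ |(a p 1 : ℝ)| ∧ |(a p 1 : ℝ)| ≤ 2 * A₁ ∧
        G ≤ |(a p 2 : ℝ)| ∧ |(a p 2 : ℝ)| ≤ 2 * G ∧ Z ≤ y p 2 ∧ (y p 2 : ℝ) ≤ 2 * Z) →
      (T.card : ℝ) ≤ C * ((u ^ 8) ^ 2) ^ ε * (u ^ 7 + H * u⁻¹) := by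
  obtain ⟨Cb, hCb, hacnta⟩ := acnta hD hρ he ε hε
  have hKp : 0 < K := by linarith
  have hQp : 0 < Q := by linarith
  refine ⟨Cb * Q ^ ε * (K * Q), by positivity, ?_⟩
  intro H u hH hu hHu v S lam hS hlam A₀ A₁ G Z hA₀ hA₁ hG hZ hAG hGu hGZ T a y hT
  have hu0 : 0 < u := by linarith
  have hH0 : 0 < H := by linarith
  have hkey := hacnta v S lam A₀ A₁ G Z hS hlam hA₀ hA₁ hG hZ T (by
    intro p hp
    obtain ⟨hd, hf, h1, h2, h3, h4, h5, h6, h7, h8⟩ := hT p hp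
    exact ⟨hd.1, hd.2.1, hf, a p, y p, hd.2.2.2.2.2.1, hd.2.2.2.2.2.2.1, hd.2.2.2.2.2.2.2.1,
      hd.2.2.2.2.2.2.2.2.1, h1, h2, h3, h4, h5, h6, h7, h8⟩)
  refine hkey.trans ?_
  have hZle : Z ≤ Q * (u ^ 8) ^ 2 := by
    have h1 : Z ^ 2 ≤ (Q * H) ^ 2 := by
      calc Z ^ 2 = 1 * Z ^ 2 := by ring
        _ ≤ G * Z ^ 2 := by gcongr
        _ ≤ Q * H ^ 2 := hGZ
        _ ≤ Q ^ 2 * H ^ 2 := by
            have : Q ≤ Q ^ 2 := by nlinarith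
            gcongr
        _ = (Q * H) ^ 2 := by ring
    have h2 : Z ≤ Q * H := (abs_le_of_sq_le_sq' h1 (by positivity)).2
    exact h2.trans (by gcongr)
  have e1 : Z ^ ε ≤ Q ^ ε * ((u ^ 8) ^ 2) ^ ε := by
    rw [← Real.mul_rpow (by positivity) (by positivity)]
    exact Real.rpow_le_rpow (by positivity) hZle hε.le
  have e2 : A₀ * A₁ * Z ≤ K * Q * (H * u⁻¹) := by
    have hG3 : u ^ 18 ≤ G ^ 3 := by
      calc u ^ 18 = (u ^ 6) ^ 3 := by ring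
        _ ≤ G ^ 3 := by gcongr
    have h1 : (A₀ * A₁ * Z) ^ 2 * u ^ 18 ≤ (K * Q * (H * u⁻¹)) ^ 2 * u ^ 18 := by
      calc (A₀ * A₁ * Z) ^ 2 * u ^ 18 ≤ (A₀ * A₁ * Z) ^ 2 * G ^ 3 := by gcongr
        _ = (A₀ * A₁ * G) ^ 2 * (G * Z ^ 2) := by ring
        _ ≤ (K * u ^ 8) ^ 2 * (Q * H ^ 2) := by gcongr
        _ = K ^ 2 * Q * H ^ 2 * u ^ 16 := by ring
        _ ≤ K ^ 2 * Q ^ 2 * H ^ 2 * u ^ 16 := by
            have : Q ≤ Q ^ 2 := by nlinarith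
            gcongr
        _ = (K * Q * (H * u⁻¹)) ^ 2 * u ^ 18 := by
            field_simp
    have h2 : (A₀ * A₁ * Z) ^ 2 ≤ (K * Q * (H * u⁻¹)) ^ 2 := le_of_mul_le_mul_right h1 (by positivity)
    exact (abs_le_of_sq_le_sq' h2 (by positivity)).2
  have e3 : √(A₀ * A₁ * G) ≤ K * Q * u ^ 7 := by
    have h1 : A₀ * A₁ * G ≤ (K * Q * u ^ 7) ^ 2 := by
      calc A₀ * A₁ * G ≤ K * u ^ 8 := hAG
        _ ≤ K ^ 2 * Q ^ 2 * u ^ 14 := by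
            have h2 : K ≤ K ^ 2 := by nlinarith
            have h3 : 1 ≤ Q ^ 2 := one_le_pow₀ hQ
            have h4 : u ^ 8 ≤ u ^ 14 := pow_le_pow_right₀ hu (by norm_num)
            calc K * u ^ 8 = K * 1 * u ^ 8 := by ring
              _ ≤ K ^ 2 * Q ^ 2 * u ^ 14 := by gcongr
        _ = (K * Q * u ^ 7) ^ 2 := by ring
    calc √(A₀ * A₁ * G) ≤ √((K * Q * u ^ 7) ^ 2) := Real.sqrt_le_sqrt h1
      _ = K * Q * u ^ 7 := Real.sqrt_sq (by positivity)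
  calc Cb * Z ^ ε * (A₀ * A₁ * Z + √(A₀ * A₁ * G))
      ≤ Cb * (Q ^ ε * ((u ^ 8) ^ 2) ^ ε) * (K * Q * (H * u⁻¹) + K * Q * u ^ 7) := by gcongr
    _ = _ := by ring

/-- one class of the four parameters -/
theorem om1_class {A B : ℤ} (hD : 4 * A ^ 3 + 27 * B ^ 2 ≠ 0) {ρ : Fin 3 → ℂ} (hρ : Roots A B ρ) {e : ℤ}
    (he : ρ 0 = e) (hirr : ∀ x : ℚ, x ^ 2 + e * x + (e ^ 2 + A) ≠ 0) {K C₁ : ℝ} (hK : 1 ≤ K) (hC₁ : 1 ≤ C₁)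
    (ε : ℝ) (hε : 0 < ε) :
    ∃ C : ℝ, 0 < C ∧ ∀ (H u : ℝ), 1 ≤ H → 1 ≤ u → H ≤ (u ^ 8) ^ 2 →
    ∀ (N : ℕ), K * u ^ 8 ≤ N →
    ∀ (v : Fin 3) (S lam : ℝ), 0 < S → 0 < lam → S * lam ≤ C₁ * H →
    ∀ (T : Finset (ℤ × ℤ)) (a y : ℤ × ℤ → Fin 3 → ℤ) (k₀ k₁ k₂ k₃ : ℕ),
      (∀ p ∈ T, om1Dat A e K H (u ^ 8) (a p) (y p) p ∧ Fib ρ v S lam p.1 p.2) →
      (∀ p ∈ T, 2 ^ k₀ ≤ (a p 0).natAbs ∧ (a p 0).natAbs ≤ 2 * 2 ^ k₀) →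
      (∀ p ∈ T, 2 ^ k₁ ≤ (a p 1).natAbs ∧ (a p 1).natAbs ≤ 2 * 2 ^ k₁) →
      (∀ p ∈ T, 2 ^ k₂ ≤ (a p 2).natAbs ∧ (a p 2).natAbs ≤ 2 * 2 ^ k₂) →
      (∀ p ∈ T, 2 ^ k₃ ≤ (y p 2).natAbs ∧ (y p 2).natAbs ≤ 2 * 2 ^ k₃) →
      (T.card : ℝ) ≤ (Nat.log 2 N + 1) * (C * ((u ^ 8) ^ 2) ^ ε * (u ^ 7 + √(H * u ^ 7) + H * u⁻¹)) := by
  obtain ⟨Q, hQ, hQf⟩ := om1_qf_up A e
  obtain ⟨Cs, hCs, hsm⟩ := om1_small hD hρ he hirr hK hC₁ ε hε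
  obtain ⟨Cl, hCl, hla⟩ := om1_large hD hρ he hK hQ ε hε
  refine ⟨Cs + Cl, by positivity, ?_⟩
  intro H u hH hu hHu N hN v S lam hS hlam hSl T a y k₀ k₁ k₂ k₃ hT h0 h1 h2 h3
  have hu0 : 0 < u := by linarith
  have hH0 : 0 < H := by linarith
  have hnat : ∀ n : ℤ, ((n.natAbs : ℕ) : ℝ) = |(n : ℝ)| := by
    intro n
    rw [Nat.cast_natAbs, Int.cast_abs]
  rcases T.eq_empty_or_nonempty with rfl | ⟨p₀, hp₀⟩
  · simp only [Finset.card_empty, Nat.cast_zero]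
    positivity
  have hr0 : ∀ p ∈ T, (2 : ℝ) ^ k₀ ≤ |(a p 0 : ℝ)| ∧ |(a p 0 : ℝ)| ≤ 2 * 2 ^ k₀ := by
    intro p hp
    rw [← hnat]
    exact ⟨by exact_mod_cast (h0 p hp).1, by exact_mod_cast (h0 p hp).2⟩
  have hr1 : ∀ p ∈ T, (2 : ℝ) ^ k₁ ≤ |(a p 1 : ℝ)| ∧ |(a p 1 : ℝ)| ≤ 2 * 2 ^ k₁ := by
    intro p hp
    rw [← hnat]
    exact ⟨by exact_mod_cast (h1 p hp).1, by exact_mod_cast (h1 p hp).2⟩
  have hr2 : ∀ p ∈ T, (2 : ℝ) ^ k₂ ≤ |(a p 2 : ℝ)| ∧ |(a p 2 : ℝ)| ≤ 2 * 2 ^ k₂ := by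
    intro p hp
    rw [← hnat]
    exact ⟨by exact_mod_cast (h2 p hp).1, by exact_mod_cast (h2 p hp).2⟩
  have hr3 : ∀ p ∈ T, (2 : ℝ) ^ k₃ ≤ (y p 2 : ℝ) ∧ (y p 2 : ℝ) ≤ 2 * 2 ^ k₃ := by
    intro p hp
    have hy : 0 < y p 2 := (hT p hp).1.2.2.2.2.2.1 2
    have : |(y p 2 : ℝ)| = (y p 2 : ℝ) := abs_of_pos (by exact_mod_cast hy)
    rw [← this, ← hnat]
    exact ⟨by exact_mod_cast (h3 p hp).1, by exact_mod_cast (h3 p hp).2⟩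
  have hA₀ : (1 : ℝ) ≤ 2 ^ k₀ := one_le_pow₀ (by norm_num)
  have hA₁ : (1 : ℝ) ≤ 2 ^ k₁ := one_le_pow₀ (by norm_num)
  have hG : (1 : ℝ) ≤ 2 ^ k₂ := one_le_pow₀ (by norm_num)
  have hZ : (1 : ℝ) ≤ 2 ^ k₃ := one_le_pow₀ (by norm_num)
  have hd := (hT p₀ hp₀).1
  have hAG : (2 : ℝ) ^ k₀ * 2 ^ k₁ * 2 ^ k₂ ≤ K * u ^ 8 := by
    refine le_trans ?_ hd.2.2.2.2.2.2.2.2.2
    rw [Int.cast_mul, Int.cast_mul, abs_mul, abs_mul]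
    have := (hr0 p₀ hp₀).1
    have := (hr1 p₀ hp₀).1
    have := (hr2 p₀ hp₀).1
    gcongr
  have hGZ : (2 : ℝ) ^ k₂ * (2 ^ k₃) ^ 2 ≤ Q * H ^ 2 := by
    have hq := hQf H p₀.1 p₀.2 hd.2.2.1 hd.2.1 hd.2.2.2.1
    refine le_trans ?_ hq
    rw [hd.2.2.2.2.2.2.2.2.1, Int.cast_mul, Int.cast_pow, abs_mul, abs_pow]
    have h2' := (hr2 p₀ hp₀).1
    have h3' : (2 : ℝ) ^ k₃ ≤ |(y p₀ 2 : ℝ)| := (hr3 p₀ hp₀).1.trans (le_abs_self _)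
    gcongr
  have hu8 : (1 : ℝ) ≤ u ^ 8 := one_le_pow₀ hu
  rcases le_total ((2 : ℝ) ^ k₂) (u ^ 6) with hcase | hcase
  · have hkey := hsm H u hH hu v S lam hS hlam hSl (2 ^ k₀) (2 ^ k₁) (2 ^ k₂) hA₀ hA₁ hG hAG hcase N hN T a y
      (fun p hp => ⟨(hT p hp).1, (hT p hp).2, (hr0 p hp).2, (hr1 p hp).2, (hr2 p hp).2⟩)
    refine hkey.trans ?_
    have e1 : (u ^ 8) ^ ε ≤ ((u ^ 8) ^ 2) ^ ε := by
      apply Real.rpow_le_rpow (by positivity) _ hε.le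
      nlinarith
    have e2 : (0 : ℝ) ≤ H * u⁻¹ := by positivity
    have e3 : u ^ 7 + √(H * u ^ 7) ≤ u ^ 7 + √(H * u ^ 7) + H * u⁻¹ := by linarith
    have e4 : Cs ≤ Cs + Cl := by linarith
    gcongr
  · have hkey := hla H u hH hu hHu v S lam hS hlam (2 ^ k₀) (2 ^ k₁) (2 ^ k₂) (2 ^ k₃) hA₀ hA₁ hG hZ hAG hcase
      hGZ T a y (fun p hp => ⟨(hT p hp).1, (hT p hp).2, (hr0 p hp).1, (hr0 p hp).2, (hr1 p hp).1, (hr1 p hp).2,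
        (hr2 p hp).1, (hr2 p hp).2, (hr3 p hp).1, (hr3 p hp).2⟩)
    refine hkey.trans ?_
    have e2 : (0 : ℝ) ≤ √(H * u ^ 7) := Real.sqrt_nonneg _
    have e3 : u ^ 7 + H * u⁻¹ ≤ u ^ 7 + √(H * u ^ 7) + H * u⁻¹ := by linarith
    have e4 : Cl ≤ Cs + Cl := by linarith
    have e5 : (1 : ℝ) ≤ (Nat.log 2 N : ℝ) + 1 := by
      have : (0 : ℝ) ≤ (Nat.log 2 N : ℝ) := Nat.cast_nonneg _
      linarith
    calc Cl * ((u ^ 8) ^ 2) ^ ε * (u ^ 7 + H * u⁻¹)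
        ≤ (Cs + Cl) * ((u ^ 8) ^ 2) ^ ε * (u ^ 7 + √(H * u ^ 7) + H * u⁻¹) := by gcongr
      _ = 1 * ((Cs + Cl) * ((u ^ 8) ^ 2) ^ ε * (u ^ 7 + √(H * u ^ 7) + H * u⁻¹)) := by ring
      _ ≤ _ := by
          apply mul_le_mul_of_nonneg_right e5
          positivity

theorem om1 {A B : ℤ} (hD : 4 * A ^ 3 + 27 * B ^ 2 ≠ 0) {ρ : Fin 3 → ℂ} (hρ : Roots A B ρ) {e : ℤ}
    (he : ρ 0 = e) (hirr : ∀ x : ℚ, x ^ 2 + e * x + (e ^ 2 + A) ≠ 0) (ε : ℝ) (hε : 0 < ε) :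
    ∃ C : ℝ, 0 < C ∧ ∀ H X : ℝ, 1 ≤ H → 1 ≤ X → H ≤ X ^ 2 →
    ((Om A B H X).ncard : ℝ) ≤
      C * X ^ ε * (X ^ (7 / 8 : ℝ) + √H * X ^ (7 / 16 : ℝ) + H * X ^ (-(1 / 8) : ℝ)) := by
  have hroot : e ^ 3 + A * e + B = 0 := by
    have h := hρ.fac (ρ 0)
    rw [sub_self, zero_mul, zero_mul, he] at h
    exact_mod_cast h
  obtain ⟨K₀, hK₀, hfac, -⟩ := fac1 hD hroot
  obtain ⟨C₁, hC₁, hdya⟩ := dya1 hρ
  obtain ⟨Q, hQ, hQf⟩ := om1_qf_up A e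
  set K : ℝ := max K₀ 1 with hKdef
  have hK : 1 ≤ K := le_max_right _ _
  set ε' : ℝ := ε / 3 with hε'
  have hε'0 : 0 < ε' := by rw [hε']; positivity
  obtain ⟨C, hC, hcl⟩ := om1_class hD hρ he hirr hK hC₁ ε' hε'0
  obtain ⟨CL, hCL, hlog⟩ := log_pow_le 7 ε' hε'0
  set C₂ : ℝ := K + Q with hC₂
  have hC₂1 : 1 ≤ C₂ := by rw [hC₂]; linarith
  set C₃ : ℝ := 2 * Real.log C₂ + 5 with hC₃
  have hC₃1 : 1 ≤ C₃ := by
    have := Real.log_nonneg hC₂1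
    rw [hC₃]
    linarith
  refine ⟨C₁ * 4 * C₃ ^ 5 * C * CL, by positivity, ?_⟩
  intro H X hH hX hHX
  have hX0 : 0 < X := by linarith
  set u : ℝ := X ^ (1 / 8 : ℝ) with hu
  have hu1 : 1 ≤ u := Real.one_le_rpow hX (by norm_num)
  have hu0 : 0 < u := by linarith
  have huX : u ^ 8 = X := by
    rw [hu, ← Real.rpow_natCast, ← Real.rpow_mul hX0.le]
    norm_num
  have hu7 : u ^ 7 = X ^ (7 / 8 : ℝ) := by
    rw [hu, ← Real.rpow_natCast, ← Real.rpow_mul hX0.le]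
    norm_num
  have huinv : u⁻¹ = X ^ (-(1 / 8) : ℝ) := by
    rw [hu, Real.rpow_neg hX0.le]
  have hsq : √(H * u ^ 7) = √H * X ^ (7 / 16 : ℝ) := by
    rw [Real.sqrt_mul (by linarith), hu7, Real.sqrt_eq_rpow (X ^ (7 / 8 : ℝ)), ← Real.rpow_mul hX0.le]
    norm_num
  rw [← hu7, ← huinv, ← hsq]
  set N : ℕ := ⌊C₂ * X ^ 2⌋₊ with hN
  have hX2 : X ≤ X ^ 2 := by nlinarith
  have hKN' : K * X ≤ K * X ^ 2 := by gcongr
  -- everything below is an integer and at most `C₂ X²`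
  have hleN : ∀ n : ℕ, (n : ℝ) ≤ C₂ * X ^ 2 → n ≤ N := fun n hn => Nat.le_floor hn
  set T : Finset (ℤ × ℤ) := (om_finite A B H X).toFinset with hT
  have hTmem : ∀ p ∈ T, p ∈ Om A B H X := fun p hp => (Set.Finite.mem_toFinset _).1 hp
  have hcard : ((Om A B H X).ncard : ℝ) = T.card := by
    rw [hT, Set.ncard_eq_toFinset_card _ (om_finite A B H X)]
  rw [hcard]
  have hex : ∀ p ∈ T, ∃ a y : Fin 3 → ℤ,
      (∀ i, Squarefree (a i)) ∧ (∀ i, 0 < y i) ∧ p.2 = a 0 * y 0 ^ 2 ∧ p.1 - e * p.2 = a 1 * y 1 ^ 2 ∧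
      Qf A e p.1 p.2 = a 2 * y 2 ^ 2 ∧ |((a 0 * a 1 * a 2 : ℤ) : ℝ)| ≤ K₀ * X :=
    fun p hp => hfac H X p (hTmem p hp)
  choose! a y hay using hex
  have hdat : ∀ p ∈ T, om1Dat A e K H (u ^ 8) (a p) (y p) p := by
    intro p hp
    obtain ⟨h1, h2, h3, h4, h5, h6⟩ := hay p hp
    obtain ⟨g1, g2, g3, g4, -⟩ := hTmem p hp
    refine ⟨g1, g2, g3, g4, h1, h2, h3, h4, h5, h6.trans ?_⟩
    rw [huX]
    gcongr
    exact le_max_left _ _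
  have hnat : ∀ n : ℤ, ((n.natAbs : ℕ) : ℝ) = |(n : ℝ)| := by
    intro n
    rw [Nat.cast_natAbs, Int.cast_abs]
  have hone : ∀ p ∈ T, ∀ i, 1 ≤ (a p i).natAbs := by
    intro p hp i
    have := om1_abs_ge ((hdat p hp).2.2.2.2.1 i)
    rw [← hnat] at this
    exact_mod_cast this
  have haN : ∀ p ∈ T, ∀ i, (a p i).natAbs ≤ N := by
    intro p hp i
    apply hleN
    rw [hnat]
    have h0 := om1_abs_ge ((hdat p hp).2.2.2.2.1 0)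
    have h1 := om1_abs_ge ((hdat p hp).2.2.2.2.1 1)
    have h2 := om1_abs_ge ((hdat p hp).2.2.2.2.1 2)
    have h3 := (hdat p hp).2.2.2.2.2.2.2.2.2
    rw [Int.cast_mul, Int.cast_mul, abs_mul, abs_mul, huX] at h3
    have h4 : |(a p i : ℝ)| ≤ |(a p 0 : ℝ)| * |(a p 1 : ℝ)| * |(a p 2 : ℝ)| := by
      have h01 : (1 : ℝ) ≤ |(a p 0 : ℝ)| * |(a p 1 : ℝ)| := by nlinarith
      fin_cases i
      · simp only [Fin.zero_eta]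
        have : |(a p 0 : ℝ)| ≤ |(a p 0 : ℝ)| * |(a p 1 : ℝ)| := by nlinarith
        nlinarith
      · simp only [Fin.mk_one]
        have : |(a p 1 : ℝ)| ≤ |(a p 0 : ℝ)| * |(a p 1 : ℝ)| := by nlinarith
        nlinarith
      · simp only [Fin.reduceFinMk]
        nlinarith
    have h5 : K * X ^ 2 ≤ C₂ * X ^ 2 := by
      rw [hC₂]
      nlinarith
    linarith
  have hyN : ∀ p ∈ T, 1 ≤ (y p 2).natAbs ∧ (y p 2).natAbs ≤ N := by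
    intro p hp
    have hd := hdat p hp
    have hy : 0 < y p 2 := hd.2.2.2.2.2.1 2
    constructor
    · omega
    · apply hleN
      rw [hnat]
      have hq := hQf H p.1 p.2 hd.2.2.1 hd.2.1 hd.2.2.2.1
      rw [hd.2.2.2.2.2.2.2.2.1, Int.cast_mul, Int.cast_pow, abs_mul, abs_pow] at hq
      have h2 := om1_abs_ge (hd.2.2.2.2.1 2)
      have h3 : |(y p 2 : ℝ)| ^ 2 ≤ (Q * H) ^ 2 := by
        calc |(y p 2 : ℝ)| ^ 2 = 1 * |(y p 2 : ℝ)| ^ 2 := by ring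
          _ ≤ |(a p 2 : ℝ)| * |(y p 2 : ℝ)| ^ 2 := by gcongr
          _ ≤ Q * H ^ 2 := hq
          _ ≤ Q ^ 2 * H ^ 2 := by
              have : Q ≤ Q ^ 2 := by nlinarith
              gcongr
          _ = (Q * H) ^ 2 := by ring
      have h4 : |(y p 2 : ℝ)| ≤ Q * H := (abs_le_of_sq_le_sq' h3 (by positivity)).2
      have h5 : Q * H ≤ Q * X ^ 2 := by gcongr
      have h6 : Q * X ^ 2 ≤ C₂ * X ^ 2 := by
        rw [hC₂]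
        nlinarith
      linarith
  have hKuN : K * u ^ 8 ≤ N + 1 := by
    rw [huX]
    have h1 : K * X ^ 2 ≤ C₂ * X ^ 2 := by
      rw [hC₂]
      nlinarith
    have h2 := Nat.lt_floor_add_one (C₂ * X ^ 2)
    rw [← hN] at h2
    linarith
  set Nn : ℕ := N + 1 with hNn
  set M₀ : ℝ := C * ((u ^ 8) ^ 2) ^ ε' * (u ^ 7 + √(H * u ^ 7) + H * u⁻¹) with hM₀
  have hM₀0 : 0 ≤ M₀ := by
    rw [hM₀]
    have : 0 ≤ H * u⁻¹ := by positivity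
    positivity
  set Lg : ℝ := (Nat.log 2 Nn : ℝ) + 1 with hLg
  have hLg0 : 0 ≤ Lg := by rw [hLg]; positivity
  have haN' : ∀ p ∈ T, ∀ i, 1 ≤ (a p i).natAbs ∧ (a p i).natAbs ≤ Nn :=
    fun p hp i => ⟨hone p hp i, (haN p hp i).trans (Nat.le_succ _)⟩
  have hyN' : ∀ p ∈ T, 1 ≤ (y p 2).natAbs ∧ (y p 2).natAbs ≤ Nn :=
    fun p hp => ⟨(hyN p hp).1, (hyN p hp).2.trans (Nat.le_succ _)⟩
  have hmain := hdya H hH T (Lg * (Lg * (Lg * (Lg * (Lg * M₀))))) (by positivity)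
    (fun p hp => by
      obtain ⟨g1, g2, g3, g4, d, -, -, w, hw, hpw⟩ := hTmem p hp
      refine ⟨g2, g3, g4, fun h0 => ?_⟩
      have hd := hdat p hp
      have e1 : p.2 ≠ 0 := g2.ne'
      -- `Gf = 0` contradicts the factorisation
      have hgq := gf_qf hroot p.1 p.2
      rw [h0, hd.2.2.2.2.2.2.2.1, hd.2.2.2.2.2.2.2.2.1] at hgq
      have a1 := (hd.2.2.2.2.1 1).ne_zero
      have a2 := (hd.2.2.2.2.1 2).ne_zero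
      have y1 := (hd.2.2.2.2.2.1 1).ne'
      have y2 := (hd.2.2.2.2.2.1 2).ne'
      have : a p 1 * y p 1 ^ 2 * (a p 2 * y p 2 ^ 2) ≠ 0 := by positivity
      exact this hgq.symm)
    (by
      intro v S lam hS hlam hSl T₁ hT₁ hF₁
      have hS0 : 0 < S := by linarith
      refine dya2 T₁ (fun p => (a p 0).natAbs) Nn _ (by positivity) (fun p hp => haN' p (hT₁ hp) 0) ?_
      intro k₀ _ T₂ hT₂ h₀
      refine dya2 T₂ (fun p => (a p 1).natAbs) Nn _ (by positivity)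
        (fun p hp => haN' p (hT₁ (hT₂ hp)) 1) ?_
      intro k₁ _ T₃ hT₃ h₁
      refine dya2 T₃ (fun p => (a p 2).natAbs) Nn _ (by positivity)
        (fun p hp => haN' p (hT₁ (hT₂ (hT₃ hp))) 2) ?_
      intro k₂ _ T₄ hT₄ h₂
      refine dya2 T₄ (fun p => (y p 2).natAbs) Nn _ (by positivity)
        (fun p hp => hyN' p (hT₁ (hT₂ (hT₃ (hT₄ hp))))) ?_
      intro k₃ _ T₅ hT₅ h₃
      refine hcl H u hH hu1 (by rw [huX]; exact hHX) Nn (by rw [hNn]; push_cast; exact hKuN) v S lam hS0 hlam hSl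
        T₅ a y k₀ k₁ k₂ k₃ ?_ ?_ ?_ ?_ ?_
      · intro p hp
        exact ⟨hdat p (hT₁ (hT₂ (hT₃ (hT₄ (hT₅ hp))))), hF₁ p (hT₂ (hT₃ (hT₄ (hT₅ hp))))⟩
      · intro p hp
        exact h₀ p (hT₃ (hT₄ (hT₅ hp)))
      · intro p hp
        exact h₁ p (hT₄ (hT₅ hp))
      · intro p hp
        exact h₂ p (hT₅ hp)
      · intro p hp
        exact h₃ p hp)
  refine hmain.trans ?_
  have hlX : 0 ≤ Real.log X := Real.log_nonneg hX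
  have hlH : 0 ≤ Real.log H := Real.log_nonneg hH
  have hlHX : Real.log H + 1 ≤ 2 * (Real.log X + 1) := by
    have h1 : Real.log H ≤ Real.log (X ^ 2) := Real.log_le_log (by linarith) hHX
    rw [Real.log_pow] at h1
    push_cast at h1
    linarith
  have hLgX : Lg ≤ C₃ * (Real.log X + 1) := by
    have h1 : (Nn : ℝ) ≤ 2 * (C₂ * X ^ 2) := by
      rw [hNn, hN]
      push_cast
      have h2 := Nat.floor_le (a := C₂ * X ^ 2) (by positivity)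
      have h3 : 1 ≤ C₂ * X ^ 2 := by nlinarith
      linarith
    have h2 : (Nat.log 2 Nn : ℝ) ≤ Real.logb 2 Nn := by
      have := Real.natLog_le_logb Nn 2
      exact_mod_cast this
    have h3 : Real.logb 2 Nn ≤ Real.logb 2 (2 * (C₂ * X ^ 2)) := by
      apply Real.logb_le_logb_of_le (by norm_num) _ h1
      rw [hNn]
      push_cast
      positivity
    have h4 : Real.logb 2 (2 * (C₂ * X ^ 2)) = 1 + (Real.log C₂ + 2 * Real.log X) / Real.log 2 := by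
      unfold Real.logb
      have : C₂ ≠ 0 := by linarith
      rw [Real.log_mul (by norm_num) (by positivity), Real.log_mul (by positivity) (by positivity), Real.log_pow]
      have hl2 : Real.log 2 ≠ 0 := (Real.log_pos (by norm_num)).ne'
      push_cast
      field_simp
    have hl2 : (1 / 2 : ℝ) ≤ Real.log 2 := by
      have := Real.log_two_gt_d9
      linarith
    have h5 : (Real.log C₂ + 2 * Real.log X) / Real.log 2 ≤ 2 * (Real.log C₂ + 2 * Real.log X) := by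
      rw [div_le_iff₀ (by linarith)]
      have := Real.log_nonneg hC₂1
      nlinarith
    have h6 := Real.log_nonneg hC₂1
    have h7 := mul_nonneg h6 hlX
    have h8 : (2 * Real.log C₂ + 5) * (Real.log X + 1) =
        2 * (Real.log C₂ * Real.log X) + 2 * Real.log C₂ + 5 * Real.log X + 5 := by ring
    rw [hLg, hC₃, h8]
    linarith
  have hXe : ((u ^ 8) ^ 2) ^ ε' = X ^ (2 * ε') := by
    rw [huX, ← Real.rpow_natCast, ← Real.rpow_mul hX0.le]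
    norm_num
  have hlog7 := hlog X hX
  have hM₀' : M₀ = C * X ^ (2 * ε') * (u ^ 7 + √(H * u ^ 7) + H * u⁻¹) := by rw [hM₀, hXe]
  have hXX : X ^ ε = X ^ ε' * X ^ (2 * ε') := by
    rw [← Real.rpow_add hX0]
    congr 1
    rw [hε']
    ring
  have hW : 0 ≤ u ^ 7 + √(H * u ^ 7) + H * u⁻¹ := by
    have : 0 ≤ H * u⁻¹ := by positivity
    positivity
  calc C₁ * (Real.log H + 1) ^ 2 * (Lg * (Lg * (Lg * (Lg * (Lg * M₀)))))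
      = C₁ * (Real.log H + 1) ^ 2 * (Lg ^ 5 * M₀) := by ring
    _ ≤ C₁ * (2 * (Real.log X + 1)) ^ 2 * ((C₃ * (Real.log X + 1)) ^ 5 * M₀) := by gcongr
    _ = C₁ * 4 * C₃ ^ 5 * (Real.log X + 1) ^ 7 * M₀ := by ring
    _ ≤ C₁ * 4 * C₃ ^ 5 * (CL * X ^ ε') * M₀ := by gcongr
    _ = C₁ * 4 * C₃ ^ 5 * C * CL * X ^ ε * (u ^ 7 + √(H * u ^ 7) + H * u⁻¹) := by
        rw [hM₀', hXX]
        ring

end Pool.Agent.H12.EH
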