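import Pool.Agent.H12.EH.Acnt3
import Pool.Agent.H12.EH.Dya
import Pool.Agent.H12.EH.Red

/-!
[H12 EH OM3]  Three rational roots: at most `C X^ε (X^(3/4) + √H X^(3/8))` pairs.

`T = (om_finite ..).toFinset`; choose `a, y : Fin 4 → ℤ` by `fac3`, `|∏ a_i| ≤ K X`.  `dya1` reduces to a fiber,
`S lam ≤ C₁ H`.  Split `T'` according to the index `o` with the largest `|a_o|` (4 classes); then
`P = ∏_{i ≠ o} |a_i| = |∏ a_i| / |a_o|` satisfies `P^(4/3) ≤ ∏ |a_i| ≤ K X` (`P ≤ |a_o|³`), `P ≤ (K X)^(3/4)`.  `dya2` for `P`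
with `N = ⌊(K X)^(3/4)⌋`, and `acnt3` with `L = 2^k ≤ (K X)^(3/4)`:
`card ≤ C L^(ε') (L + √(S lam L)) ≤ C X^(ε') (X^(3/4) + √H X^(3/8))`.
(`Fin.prod_univ_succAbove` splits the product at `o`; `|a_i| ≥ 1`.)
The number of classes is `≤ C (log X + 1)^3` because `log H ≤ 2 log X`.
-/

set_option autoImplicit false

namespace Pool.Agent.H12.EH

theorem om3 {A B : ℤ} {e : Fin 3 → ℤ} (hρ : Roots A B (fun v => (e v : ℂ))) (ε : ℝ) (hε : 0 < ε) :
    ∃ C : ℝ, 0 < C ∧ ∀ H X : ℝ, 1 ≤ H → 1 ≤ X → H ≤ X ^ 2 →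
    ((Om A B H X).ncard : ℝ) ≤ C * X ^ ε * (X ^ (3 / 4 : ℝ) + √H * X ^ (3 / 8 : ℝ)) := by
  classical
  obtain ⟨K0, hK0, hfac0, -⟩ := fac3 hρ
  obtain ⟨C1, hC1, hdya⟩ := dya1 hρ
  obtain ⟨C2, hC2, hacnt⟩ := acnt3 hρ (ε / 2) (by positivity)
  obtain ⟨C4, hC4, hlog⟩ := log_pow_le 3 (ε / 2) (by positivity)
  set K : ℝ := K0 + 1 with hK
  have hK1 : 1 ≤ K := by linarith
  have hKp : 0 < K := by linarith
  have hlK : 0 ≤ Real.log K := Real.log_nonneg hK1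
  have hC1p : 0 < C1 := by linarith
  refine ⟨C1 * 4 * (4 * (3 + 3 * Real.log K)) * C4 * C2 * K ^ (ε / 2) *
    (K ^ (3 / 4 : ℝ) + √C1 * K ^ (3 / 8 : ℝ)), by positivity, ?_⟩
  intro H X hH hX hHX
  have hX0 : 0 < X := by linarith
  have hH0 : 0 < H := by linarith
  have hKX1 : 1 ≤ K * X := one_le_mul_of_one_le_of_one_le hK1 hX
  set Q : ℝ := (K * X) ^ (3 / 4 : ℝ) with hQ
  have hQ1 : 1 ≤ Q := Real.one_le_rpow hKX1 (by norm_num)
  have hQ0 : 0 < Q := by linarith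
  set N : ℕ := ⌊Q⌋₊ with hN
  have hNQ : (N : ℝ) ≤ Q := Nat.floor_le hQ0.le
  set M : ℝ := C2 * Q ^ (ε / 2) * (Q + √(C1 * H * Q)) with hM
  have hM0 : 0 ≤ M := by positivity
  have hfin := om_finite A B H X
  set T : Finset (ℤ × ℤ) := hfin.toFinset with hT
  have hmem : ∀ p, p ∈ T ↔ p ∈ Om A B H X := fun p => Set.Finite.mem_toFinset _
  rw [Set.ncard_eq_toFinset_card _ hfin, ← hT]
  have hfac : ∀ p : ℤ × ℤ, ∃ a y : Fin 4 → ℤ, p ∈ T →
      ((∀ i, Squarefree (a i)) ∧ (∀ i, 0 < y i) ∧ (∀ i, frm e i p.1 p.2 = a i * y i ^ 2) ∧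
      |((∏ i, a i : ℤ) : ℝ)| ≤ K * X) := by
    intro p
    by_cases hp : p ∈ T
    · obtain ⟨a, y, h1, h2, h3, h4⟩ := hfac0 H X p ((hmem p).mp hp)
      refine ⟨a, y, fun _ => ⟨h1, h2, h3, h4.trans ?_⟩⟩
      gcongr
      linarith
    · exact ⟨0, 0, fun h => absurd h hp⟩
  choose a y hay using hfac
  -- the index with the largest a
  have ho : ∀ p : ℤ × ℤ, ∃ o : Fin 4, ∀ i, (a p i).natAbs ≤ (a p o).natAbs := by
    intro p
    obtain ⟨o, -, ho⟩ := Finset.exists_max_image Finset.univ (fun i => (a p i).natAbs)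
      ⟨0, Finset.mem_univ _⟩
    exact ⟨o, fun i => ho i (Finset.mem_univ _)⟩
  choose oo hoo using ho
  -- the product of the other three
  set g : Fin 4 → ℤ × ℤ → ℕ := fun o p => (∏ i : Fin 3, a p (o.succAbove i)).natAbs with hg
  have hg1 : ∀ p ∈ T, 1 ≤ g (oo p) p ∧ g (oo p) p ≤ N := by
    intro p hp
    obtain ⟨h1, h2, h3, h4⟩ := hay p hp
    have hne : ∀ i, a p i ≠ 0 := fun i => (h1 i).ne_zero
    have hg0 : g (oo p) p ≠ 0 := by
      rw [hg]
      show (∏ i : Fin 3, a p ((oo p).succAbove i)).natAbs ≠ 0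
      rw [Int.natAbs_ne_zero]
      exact Finset.prod_ne_zero_iff.mpr (fun i _ => hne _)
    refine ⟨Nat.one_le_iff_ne_zero.mpr hg0, ?_⟩
    rw [hN]
    apply Nat.le_floor
    have e1 : g (oo p) p ≤ (a p (oo p)).natAbs ^ 3 := by
      rw [hg]
      show (∏ i : Fin 3, a p ((oo p).succAbove i)).natAbs ≤ (a p (oo p)).natAbs ^ 3
      have hpr : (∏ i : Fin 3, a p ((oo p).succAbove i)).natAbs =
          ∏ i : Fin 3, (a p ((oo p).succAbove i)).natAbs := by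
        simp only [Fin.prod_univ_three, Int.natAbs_mul]
      rw [hpr]
      calc ∏ i : Fin 3, (a p ((oo p).succAbove i)).natAbs ≤ ∏ _i : Fin 3, (a p (oo p)).natAbs :=
            Finset.prod_le_prod' (fun i _ => hoo p _)
        _ = (a p (oo p)).natAbs ^ 3 := by simp
    have e2 : (((a p (oo p)).natAbs * g (oo p) p : ℕ) : ℝ) ≤ K * X := by
      have e3 : (a p (oo p)).natAbs * g (oo p) p = (∏ i, a p i).natAbs := by
        rw [hg]
        show (a p (oo p)).natAbs * (∏ i : Fin 3, a p ((oo p).succAbove i)).natAbs = _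
        rw [Fin.prod_univ_succAbove _ (oo p), Int.natAbs_mul]
      rw [e3, Nat.cast_natAbs, Int.cast_abs]
      exact h4
    have e4 : ((g (oo p) p : ℕ) : ℝ) ^ 4 ≤ (K * X) ^ 3 := by
      have e5 : ((g (oo p) p : ℕ) : ℝ) ≤ ((a p (oo p)).natAbs : ℝ) ^ 3 := by exact_mod_cast e1
      push_cast at e2
      calc ((g (oo p) p : ℕ) : ℝ) ^ 4 = (g (oo p) p : ℝ) ^ 3 * (g (oo p) p : ℝ) := by ring
        _ ≤ (g (oo p) p : ℝ) ^ 3 * ((a p (oo p)).natAbs : ℝ) ^ 3 := by gcongr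
        _ = (((a p (oo p)).natAbs : ℝ) * (g (oo p) p : ℝ)) ^ 3 := by ring
        _ ≤ (K * X) ^ 3 := by gcongr
    have e6 : (Q : ℝ) ^ 4 = (K * X) ^ 3 := by
      rw [hQ, ← Real.rpow_natCast, ← Real.rpow_mul (by positivity)]
      norm_num
    rw [← e6] at e4
    exact le_of_pow_le_pow_left₀ (by norm_num) hQ0.le e4
  -- one fiber
  have hfib : ∀ (v : Fin 3) (S lam : ℝ), 1 ≤ S → 0 < lam → S * lam ≤ C1 * H → ∀ T' ⊆ T,
      (∀ p ∈ T', Fib (fun v => (e v : ℂ)) v S lam p.1 p.2) →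
      (T'.card : ℝ) ≤ 4 * ((Nat.log 2 N + 1) * M) := by
    intro v S lam hS hlam hSl T' hT' hF
    have hcl : ∀ o : Fin 4, (((T'.filter (fun p => oo p = o)).card : ℕ) : ℝ) ≤ (Nat.log 2 N + 1) * M := by
      intro o
      apply dya2 _ (g o) N M hM0
      · intro p hp
        rw [Finset.mem_filter] at hp
        have := hg1 p (hT' hp.1)
        rwa [hp.2] at this
      · intro k hk T'' hT'' hT2
        have hL1 : (1 : ℝ) ≤ (2 : ℝ) ^ k := one_le_pow₀ (by norm_num)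
        have hLQ : (2 : ℝ) ^ k ≤ Q := by
          refine le_trans ?_ hNQ
          exact_mod_cast hk
        have := hacnt o v S lam ((2 : ℝ) ^ k) (by linarith) hlam hL1 T'' ?_
        · refine this.trans ?_
          rw [hM]
          have h1 : ((2 : ℝ) ^ k) ^ (ε / 2) ≤ Q ^ (ε / 2) :=
            Real.rpow_le_rpow (by positivity) hLQ (by positivity)
          have h2 : √(S * lam * (2 : ℝ) ^ k) ≤ √(C1 * H * Q) := by
            apply Real.sqrt_le_sqrt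
            gcongr
          gcongr
        · intro p hp
          have hp1 := hT'' hp
          rw [Finset.mem_filter] at hp1
          obtain ⟨hp1, hpo⟩ := hp1
          have hpT := hT' hp1
          obtain ⟨h1, h2, h3, h4⟩ := hay p hpT
          have hOm := (hmem p).mp hpT
          obtain ⟨o1, o2, -⟩ := hOm
          refine ⟨o1, o2, hF p hp1, fun i => a p (o.succAbove i), fun i => y p (o.succAbove i),
            fun i => h1 _, fun i => h2 _, fun i => h3 _, ?_, ?_⟩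
          · have := (hT2 p hp).1
            have h5 : ((g o p : ℕ) : ℝ) = |((∏ i, a p (o.succAbove i) : ℤ) : ℝ)| := by
              rw [hg, Nat.cast_natAbs, Int.cast_abs]
            rw [← h5]
            exact_mod_cast this
          · have := (hT2 p hp).2
            have h5 : ((g o p : ℕ) : ℝ) = |((∏ i, a p (o.succAbove i) : ℤ) : ℝ)| := by
              rw [hg, Nat.cast_natAbs, Int.cast_abs]
            rw [← h5]
            exact_mod_cast this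
    have hmap : ∀ p ∈ T', oo p ∈ (Finset.univ : Finset (Fin 4)) := fun p _ => Finset.mem_univ _
    rw [Finset.card_eq_sum_card_fiberwise hmap]
    push_cast
    calc ∑ o : Fin 4, (((T'.filter (fun p => oo p = o)).card : ℕ) : ℝ)
        ≤ ∑ _o : Fin 4, (Nat.log 2 N + 1) * M := Finset.sum_le_sum (fun o _ => hcl o)
      _ = 4 * ((Nat.log 2 N + 1) * M) := by simp
  have hne : ∀ p ∈ T, 0 < p.2 ∧ |(p.1 : ℝ)| ≤ H ∧ (p.2 : ℝ) ≤ H ∧ Gf A B p.1 p.2 ≠ 0 := by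
    intro p hp
    obtain ⟨h1, h2, h3, h4, d, hd1, hd2, w, hw, hG⟩ := (hmem p).mp hp
    refine ⟨h2, h3, h4, ?_⟩
    intro h0
    rw [h0, mul_zero] at hG
    have hd0 : (d : ℤ) ≠ 0 := by
      have := hd1.ne_zero
      exact_mod_cast this
    exact (mul_ne_zero hd0 (pow_ne_zero 2 hw)) hG.symm
  have hmain := hdya H hH T (4 * ((Nat.log 2 N + 1) * M)) (by positivity) hne hfib
  refine hmain.trans ?_
  -- estimates
  have hlX : 0 ≤ Real.log X := Real.log_nonneg hX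
  have g1 : Real.log H + 1 ≤ 2 * (Real.log X + 1) := by
    have := Real.log_le_log hH0 hHX
    rw [Real.log_pow] at this
    push_cast at this
    linarith
  have g1' : 0 ≤ Real.log H + 1 := by
    have := Real.log_nonneg hH
    linarith
  have g2 : ((Nat.log 2 N : ℕ) : ℝ) + 1 ≤ (3 + 3 * Real.log K) * (Real.log X + 1) := by
    have hl2 : (1 : ℝ) / 2 < Real.log 2 := by
      have := Real.log_two_gt_d9
      linarith
    have hN0 : N ≠ 0 := by
      rw [hN]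
      have := Nat.floor_pos.mpr hQ1
      omega
    have e1 : 2 ^ Nat.log 2 N ≤ N := Nat.pow_log_le_self 2 hN0
    have e2 : (2 : ℝ) ^ Nat.log 2 N ≤ Q := by
      refine le_trans ?_ hNQ
      exact_mod_cast e1
    have e3 := Real.log_le_log (by positivity) e2
    rw [Real.log_pow, hQ, Real.log_rpow (by positivity), Real.log_mul hKp.ne' hX0.ne'] at e3
    have e4 : (0 : ℝ) ≤ ((Nat.log 2 N : ℕ) : ℝ) := by positivity
    nlinarith [mul_nonneg hlK hlX]
  have g3 : Q ^ (ε / 2) ≤ K ^ (ε / 2) * X ^ (ε / 2) := by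
    rw [← Real.mul_rpow hKp.le hX0.le]
    apply Real.rpow_le_rpow hQ0.le _ (by positivity)
    rw [hQ]
    calc (K * X) ^ (3 / 4 : ℝ) ≤ (K * X) ^ (1 : ℝ) := Real.rpow_le_rpow_of_exponent_le hKX1 (by norm_num)
      _ = K * X := Real.rpow_one _
  have g4 : Q + √(C1 * H * Q) ≤ (K ^ (3 / 4 : ℝ) + √C1 * K ^ (3 / 8 : ℝ)) *
      (X ^ (3 / 4 : ℝ) + √H * X ^ (3 / 8 : ℝ)) := by
    have e1 : Q = K ^ (3 / 4 : ℝ) * X ^ (3 / 4 : ℝ) := by
      rw [hQ, Real.mul_rpow hKp.le hX0.le]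
    have e2 : √Q = K ^ (3 / 8 : ℝ) * X ^ (3 / 8 : ℝ) := by
      rw [hQ, Real.sqrt_eq_rpow, ← Real.rpow_mul (by positivity), Real.mul_rpow hKp.le hX0.le]
      norm_num
    have e3 : √(C1 * H * Q) = √C1 * √H * √Q := by
      rw [Real.sqrt_mul (by positivity), Real.sqrt_mul (by positivity)]
    rw [e3, e2, e1]
    have p1 : 0 ≤ K ^ (3 / 4 : ℝ) * (√H * X ^ (3 / 8 : ℝ)) := by positivity
    have p2 : 0 ≤ √C1 * K ^ (3 / 8 : ℝ) * X ^ (3 / 4 : ℝ) := by positivity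
    nlinarith
  have g5 := hlog X hX
  have hlX1 : 0 ≤ Real.log X + 1 := by linarith
  calc C1 * (Real.log H + 1) ^ 2 * (4 * ((Nat.log 2 N + 1) * M))
      ≤ C1 * (2 * (Real.log X + 1)) ^ 2 * (4 * (((3 + 3 * Real.log K) * (Real.log X + 1)) * M)) := by
        gcongr
    _ = C1 * 4 * (4 * (3 + 3 * Real.log K)) * (Real.log X + 1) ^ 3 * C2 * Q ^ (ε / 2) *
        (Q + √(C1 * H * Q)) := by
        rw [hM]
        ring
    _ ≤ C1 * 4 * (4 * (3 + 3 * Real.log K)) * (C4 * X ^ (ε / 2)) * C2 * (K ^ (ε / 2) * X ^ (ε / 2)) *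
        ((K ^ (3 / 4 : ℝ) + √C1 * K ^ (3 / 8 : ℝ)) * (X ^ (3 / 4 : ℝ) + √H * X ^ (3 / 8 : ℝ))) := by
        gcongr
    _ = C1 * 4 * (4 * (3 + 3 * Real.log K)) * C4 * C2 * K ^ (ε / 2) *
        (K ^ (3 / 4 : ℝ) + √C1 * K ^ (3 / 8 : ℝ)) * (X ^ (ε / 2) * X ^ (ε / 2)) *
        (X ^ (3 / 4 : ℝ) + √H * X ^ (3 / 8 : ℝ)) := by ring
    _ = C1 * 4 * (4 * (3 + 3 * Real.log K)) * C4 * C2 * K ^ (ε / 2) *
        (K ^ (3 / 4 : ℝ) + √C1 * K ^ (3 / 8 : ℝ)) * X ^ ε *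
        (X ^ (3 / 4 : ℝ) + √H * X ^ (3 / 8 : ℝ)) := by
        rw [← Real.rpow_add hX0]
        norm_num

end Pool.Agent.H12.EH
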