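import Pool.Agent.H12.EH.Unif
import Pool.Agent.H12.EH.Om3
import Pool.Agent.H12.EH.Om1
import Pool.Agent.H12.EH.Rho

/-!
[H12 EH MAIN]  The exponents `1/2`, `9/16`, `5/8` (proved from the modules).
-/

set_option autoImplicit false

namespace Pool.Agent.H12.EH

/-- the exponent: `1/2`, `9/16`, `5/8` if `x³ + A x + B` has 0, 1, 3 rational roots -/
noncomputable def expo (A B : ℤ) : ℝ :=
  if nroots A B = 0 then 1 / 2 else if nroots A B = 1 then 9 / 16 else 5 / 8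

theorem low_sub (A B : ℤ) (X Y : ℝ) : low A B X Y ⊆ ((Finset.range (⌊X⌋₊ + 1) : Finset ℕ) : Set ℕ) := by
  rintro d ⟨h1, _⟩
  simp only [Finset.coe_range, Set.mem_Iio]
  exact Nat.lt_succ_of_le (Nat.le_floor h1)

theorem low_fin (A B : ℤ) (X Y : ℝ) : (low A B X Y).Finite := (Finset.finite_toSet _).subset (low_sub A B X Y)

theorem low_card (A B : ℤ) (X Y : ℝ) (hX : 1 ≤ X) : ((low A B X Y).ncard : ℝ) ≤ 2 * X := by
  have h1 := Set.ncard_le_ncard (low_sub A B X Y) (Finset.finite_toSet _)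
  rw [Set.ncard_coe_finset, Finset.card_range] at h1
  have h2 : ((low A B X Y).ncard : ℝ) ≤ (⌊X⌋₊ + 1 : ℕ) := by exact_mod_cast h1
  push_cast at h2
  have h3 := Nat.floor_le (by linarith : (0 : ℝ) ≤ X)
  linarith

theorem low_mono (A B : ℤ) (X : ℝ) {Y Y' : ℝ} (h : Y ≤ Y') : low A B X Y ⊆ low A B X Y' := by
  rintro d ⟨h1, h2, P, h3, h4⟩
  exact ⟨h1, h2, P, h3, h4.trans h⟩

/-- reduction to small `ε` -/
theorem main_red {A B : ℤ} {c : ℝ}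
    (h : ∀ ε : ℝ, 0 < ε → ε ≤ 1 / 8 → ∃ δ C : ℝ, 0 < δ ∧ 0 < C ∧ ∀ X : ℝ, 1 ≤ X →
      ((low A B X (X ^ (c - ε))).ncard : ℝ) ≤ C * X ^ (1 - δ)) (ε : ℝ) (hε : 0 < ε) :
    ∃ δ C : ℝ, 0 < δ ∧ 0 < C ∧ ∀ X : ℝ, 1 ≤ X →
      ((low A B X (X ^ (c - ε))).ncard : ℝ) ≤ C * X ^ (1 - δ) := by
  obtain ⟨δ, C, hδ, hC, h1⟩ := h (min ε (1 / 8)) (lt_min hε (by norm_num)) (min_le_right _ _)
  refine ⟨δ, C, hδ, hC, fun X hX => ?_⟩
  refine le_trans ?_ (h1 X hX)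
  have h2 : X ^ (c - ε) ≤ X ^ (c - min ε (1 / 8)) :=
    Real.rpow_le_rpow_of_exponent_le hX (by linarith [min_le_left ε (1 / 8 : ℝ)])
  exact_mod_cast Set.ncard_le_ncard (low_mono A B X h2) (low_fin A B X _)

/-- from a bound for `Om` -/
theorem main_om {A B : ℤ} (hD : 4 * A ^ 3 + 27 * B ^ 2 ≠ 0) {c ε : ℝ} (hε : 0 < ε) (hε8 : ε ≤ 1 / 8)
    (hc : 1 / 2 ≤ c) (hc1 : c ≤ 5 / 8) {F : ℝ → ℝ → ℝ}
    (hF : ∀ C₀ : ℝ, 1 ≤ C₀ → ∃ C : ℝ, 0 < C ∧ ∀ X : ℝ, 1 ≤ X →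
      F (C₀ * (X ^ (c - ε)) ^ 2) X ≤ C * X ^ (1 - ε))
    (hO : ∃ C : ℝ, 0 < C ∧ ∀ H X : ℝ, 1 ≤ H → 1 ≤ X → H ≤ X ^ 2 →
      ((Om A B H X).ncard : ℝ) ≤ C * X ^ (ε / 2) * F H X) :
    ∃ δ C : ℝ, 0 < δ ∧ 0 < C ∧ ∀ X : ℝ, 1 ≤ X →
      ((low A B X (X ^ (c - ε))).ncard : ℝ) ≤ C * X ^ (1 - δ) := by
  obtain ⟨C₀, hC₀, hred⟩ := red A B hD
  obtain ⟨C₁, hC₁, h1⟩ := hF C₀ hC₀
  obtain ⟨C₂, hC₂, h2⟩ := hO
  -- for X ≥ X₀ = C₀^2 we have H ≤ X^2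
  refine ⟨ε / 2, C₂ * C₁ + 2 * C₀ ^ 4, by linarith, by positivity, fun X hX => ?_⟩
  have hX0 : 0 < X := by linarith
  have hY : 1 ≤ X ^ (c - ε) := Real.one_le_rpow hX (by linarith)
  rcases le_total (C₀ ^ 4) X with hcase | hcase
  · have hH1 : 1 ≤ C₀ * (X ^ (c - ε)) ^ 2 := by nlinarith [one_le_pow₀ hY (n := 2)]
    have hH2 : C₀ * (X ^ (c - ε)) ^ 2 ≤ X ^ 2 := by
      have e1 : (X ^ (c - ε)) ^ 2 ≤ X ^ (5 / 4 : ℝ) := by
        rw [← Real.rpow_natCast, ← Real.rpow_mul hX0.le]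
        exact Real.rpow_le_rpow_of_exponent_le hX (by push_cast; linarith)
      have e2 : C₀ ≤ X ^ (3 / 4 : ℝ) := by
        have e3 : C₀ ≤ C₀ ^ 3 := by nlinarith [one_le_pow₀ hC₀ (n := 2)]
        have e4 : C₀ ^ 3 = (C₀ ^ 4) ^ (3 / 4 : ℝ) := by
          rw [← Real.rpow_natCast, ← Real.rpow_natCast, ← Real.rpow_mul (by linarith)]
          norm_num
        rw [e4] at e3
        exact e3.trans (Real.rpow_le_rpow (by positivity) hcase (by norm_num))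
      calc C₀ * (X ^ (c - ε)) ^ 2 ≤ X ^ (3 / 4 : ℝ) * X ^ (5 / 4 : ℝ) :=
            mul_le_mul e2 e1 (by positivity) (by positivity)
        _ = X ^ 2 := by
          rw [← Real.rpow_add hX0, ← Real.rpow_natCast]
          norm_num
    have h3 := h2 _ X hH1 hX hH2
    have h4 := hred X (X ^ (c - ε)) (by positivity)
    have h5 : ((low A B X (X ^ (c - ε))).ncard : ℝ) ≤ ((Om A B (C₀ * (X ^ (c - ε)) ^ 2) X).ncard : ℝ) := by
      exact_mod_cast h4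
    have h6 := h1 X hX
    have e5 : X ^ (1 - ε / 2) = X ^ (ε / 2) * X ^ (1 - ε) := by
      rw [← Real.rpow_add hX0]
      congr 1
      ring
    calc ((low A B X (X ^ (c - ε))).ncard : ℝ) ≤ C₂ * X ^ (ε / 2) * F (C₀ * (X ^ (c - ε)) ^ 2) X :=
          h5.trans h3
      _ ≤ C₂ * X ^ (ε / 2) * (C₁ * X ^ (1 - ε)) := by gcongr
      _ = C₂ * C₁ * X ^ (1 - ε / 2) := by rw [e5]; ring
      _ ≤ (C₂ * C₁ + 2 * C₀ ^ 4) * X ^ (1 - ε / 2) := by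
          have : 0 ≤ 2 * C₀ ^ 4 * X ^ (1 - ε / 2) := by positivity
          linarith
  · have h3 := low_card A B X (X ^ (c - ε)) hX
    have e1 : 1 ≤ X ^ (1 - ε / 2) := Real.one_le_rpow hX (by linarith)
    have e2 : 0 ≤ C₂ * C₁ * X ^ (1 - ε / 2) := by positivity
    nlinarith [mul_le_mul_of_nonneg_left e1 (by positivity : 0 ≤ 2 * C₀ ^ 4)]

/-- For every `ε > 0` there are at most `C X^(1-δ)` squarefree `d ≤ X` with `η_d ≤ X^(expo - ε)`. -/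
theorem main (A B : ℤ) (hD : 4 * A ^ 3 + 27 * B ^ 2 ≠ 0) (ε : ℝ) (hε : 0 < ε) :
    ∃ δ C : ℝ, 0 < δ ∧ 0 < C ∧ ∀ X : ℝ, 1 ≤ X →
      ((low A B X (X ^ (expo A B - ε))).ncard : ℝ) ≤ C * X ^ (1 - δ) := by
  refine main_red (fun ε hε hε8 => ?_) ε hε
  rcases nroots_cases A B hD with ⟨hn, _⟩ | ⟨hn, e, he, hirr⟩ | ⟨hn, e, hne, hρ⟩
  · have hexp : expo A B = 1 / 2 := by unfold expo; rw [if_pos hn]
    rw [hexp]
    obtain ⟨C, hC, h1⟩ := low_unif A B hD (ε / 2) (by linarith)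
    refine ⟨ε / 2, C, by linarith, hC, fun X hX => ?_⟩
    have hX0 : 0 < X := by linarith
    have hY : 1 ≤ X ^ (1 / 2 - ε) := Real.one_le_rpow hX (by linarith)
    refine (h1 X _ hX hY).trans (le_of_eq ?_)
    rw [mul_assoc, ← Real.rpow_add hX0]
    congr 2
    ring
  · have hexp : expo A B = 9 / 16 := by
      unfold expo
      rw [if_neg (by omega), if_pos hn]
    rw [hexp]
    obtain ⟨ρ, hρ, hρe⟩ := exists_roots_of A B hD e he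
    refine main_om hD hε hε8 (by norm_num) (by norm_num)
      (F := fun H X => X ^ (7 / 8 : ℝ) + √H * X ^ (7 / 16 : ℝ) + H * X ^ (-(1 / 8) : ℝ)) ?_
      (om1 hD hρ hρe hirr (ε / 2) (by linarith))
    intro C₀ hC₀
    refine ⟨1 + C₀ + C₀, by linarith, fun X hX => ?_⟩
    have hX0 : 0 < X := by linarith
    have hY0 : 0 ≤ X ^ (9 / 16 - ε) := by positivity
    have t1 : X ^ (7 / 8 : ℝ) ≤ X ^ (1 - ε) := Real.rpow_le_rpow_of_exponent_le hX (by linarith)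
    have t2 : √(C₀ * (X ^ (9 / 16 - ε)) ^ 2) * X ^ (7 / 16 : ℝ) ≤ C₀ * X ^ (1 - ε) := by
      rw [Real.sqrt_mul (by linarith), Real.sqrt_sq hY0, mul_assoc, ← Real.rpow_add hX0]
      have e1 : √C₀ ≤ C₀ := Real.sqrt_le_iff.2 ⟨by linarith, by nlinarith⟩
      have e2 : (9 / 16 - ε + 7 / 16 : ℝ) = 1 - ε := by ring
      rw [e2]
      gcongr
    have t3 : C₀ * (X ^ (9 / 16 - ε)) ^ 2 * X ^ (-(1 / 8) : ℝ) ≤ C₀ * X ^ (1 - ε) := by
      rw [mul_assoc]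
      refine mul_le_mul_of_nonneg_left ?_ (by linarith)
      rw [← Real.rpow_natCast, ← Real.rpow_mul hX0.le, ← Real.rpow_add hX0]
      exact Real.rpow_le_rpow_of_exponent_le hX (by push_cast; linarith)
    calc _ ≤ X ^ (1 - ε) + C₀ * X ^ (1 - ε) + C₀ * X ^ (1 - ε) := by linarith
      _ = _ := by ring
  · have hexp : expo A B = 5 / 8 := by
      unfold expo
      rw [if_neg (by omega), if_neg (by omega)]
    rw [hexp]
    refine main_om hD hε hε8 (by norm_num) (by norm_num)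
      (F := fun H X => X ^ (3 / 4 : ℝ) + √H * X ^ (3 / 8 : ℝ)) ?_ (om3 hρ (ε / 2) (by linarith))
    intro C₀ hC₀
    refine ⟨1 + C₀, by linarith, fun X hX => ?_⟩
    have hX0 : 0 < X := by linarith
    have hY0 : 0 ≤ X ^ (5 / 8 - ε) := by positivity
    have t1 : X ^ (3 / 4 : ℝ) ≤ X ^ (1 - ε) := Real.rpow_le_rpow_of_exponent_le hX (by linarith)
    have t2 : √(C₀ * (X ^ (5 / 8 - ε)) ^ 2) * X ^ (3 / 8 : ℝ) ≤ C₀ * X ^ (1 - ε) := by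
      rw [Real.sqrt_mul (by linarith), Real.sqrt_sq hY0, mul_assoc, ← Real.rpow_add hX0]
      have e1 : √C₀ ≤ C₀ := Real.sqrt_le_iff.2 ⟨by linarith, by nlinarith⟩
      have e2 : (5 / 8 - ε + 3 / 8 : ℝ) = 1 - ε := by ring
      rw [e2]
      gcongr
    calc _ ≤ X ^ (1 - ε) + C₀ * X ^ (1 - ε) := by linarith
      _ = _ := by ring

end Pool.Agent.H12.EH
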