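import Pool.Agent.H12.EH.Pair

/-!
[H12 EH REST]  The real estimate for two points with the same label.
-/

set_option autoImplicit false

open scoped ComplexConjugate

namespace Pool.Agent.H12.EH

namespace Lab

variable {Λ : Lab}

/-- one coordinate -/
theorem coord {γ l k u u' : ℂ} {m : ℝ} {r s r' s' : ℤ} {lam t : ℝ}
    (hp : γ * u ^ 2 = (m : ℂ) ^ 2 * (l * r + k * s)) (hp' : γ * u' ^ 2 = (m : ℂ) ^ 2 * (l * r' + k * s'))
    (hs : 0 < s) (hs' : 0 < s') (hre : 0 ≤ (u * conj u').re) (hlam : 0 < lam) (ht : 0 < t)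
    (hts : t ^ 2 * s' = s) (hγ : γ ≠ 0) (hm : 0 < m)
    (hl : l ≠ 0 → lam * s ≤ ‖l * r + k * s‖) (hl' : l ≠ 0 → lam * s' ≤ ‖l * r' + k * s'‖) :
    ‖γ * (u - t * u') ^ 2‖ * (2 * lam * s) ≤ ‖l‖ ^ 2 * m ^ 2 * ((r * s' - r' * s : ℝ) / s') ^ 2 := by
  have hs'R : (0 : ℝ) < s' := by exact_mod_cast hs'
  have hsR : (0 : ℝ) < s := by exact_mod_cast hs
  have hs'C : (s' : ℂ) ≠ 0 := by exact_mod_cast hs'.ne'
  have htsC : (t : ℂ) ^ 2 * s' = s := by exact_mod_cast hts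
  -- product
  have e1 : γ * ((u - t * u') * (u + t * u')) =
      (m : ℂ) ^ 2 * l * (((r * s' - r' * s : ℝ) / s' : ℝ) : ℂ) := by
    push_cast
    have : γ * ((u - t * u') * (u + t * u')) = γ * u ^ 2 - (t : ℂ) ^ 2 * (γ * u' ^ 2) := by ring
    rw [this, hp, hp']
    field_simp
    linear_combination (-(m : ℂ) ^ 2 * (l * r' + k * s')) * htsC
  -- the sum is large
  have e2 : ‖u‖ ^ 2 + t ^ 2 * ‖u'‖ ^ 2 ≤ ‖u + t * u'‖ ^ 2 := by
    have h1 : ‖u + t * u'‖ ^ 2 = ‖u‖ ^ 2 + t ^ 2 * ‖u'‖ ^ 2 + 2 * t * (u * conj u').re := by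
      rw [← Complex.normSq_eq_norm_sq, ← Complex.normSq_eq_norm_sq, ← Complex.normSq_eq_norm_sq,
        Complex.normSq_add, Complex.normSq_mul, Complex.normSq_ofReal]
      simp only [map_mul, Complex.conj_ofReal]
      have h2 : (u * (↑t * conj u')).re = t * (u * conj u').re := by
        rw [show u * (↑t * conj u') = (t : ℂ) * (u * conj u') by ring, Complex.re_ofReal_mul]
      rw [h2]
      ring
    rw [h1]
    have : 0 ≤ 2 * t * (u * conj u').re := by positivity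
    linarith
  by_cases h0 : l = 0
  · subst h0
    have e3 : γ * ((u - t * u') * (u + t * u')) = 0 := by rw [e1]; ring
    have e4 : u - t * u' = 0 := by
      rcases mul_eq_zero.1 e3 with h | h
      · exact absurd h hγ
      rcases mul_eq_zero.1 h with h | h
      · exact h
      · rw [h, norm_zero] at e2
        have h1 : ‖u‖ ^ 2 = 0 := by
          have a1 : 0 ≤ ‖u‖ ^ 2 := by positivity
          have a2 : 0 ≤ t ^ 2 * ‖u'‖ ^ 2 := by positivity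
          nlinarith
        have h2 : t ^ 2 * ‖u'‖ ^ 2 = 0 := by
          have a1 : 0 ≤ ‖u‖ ^ 2 := by positivity
          have a2 : 0 ≤ t ^ 2 * ‖u'‖ ^ 2 := by positivity
          nlinarith
        have h3 : u = 0 := by simpa using h1
        have h4 : u' = 0 := by
          have : ‖u'‖ ^ 2 = 0 := by
            rcases mul_eq_zero.1 h2 with h5 | h5
            · exact absurd h5 (by positivity)
            · exact h5
          simpa using this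
        rw [h3, h4]
        ring
    rw [e4]
    simp
  · have hl1 := hl h0
    have hl2 := hl' h0
    -- lower bound for the sum
    have e5 : 2 * m ^ 2 * lam * s ≤ ‖γ‖ * ‖u + t * u'‖ ^ 2 := by
      have h1 : ‖γ‖ * ‖u‖ ^ 2 = m ^ 2 * ‖l * r + k * s‖ := by
        rw [← norm_pow, ← norm_mul, hp, norm_mul, norm_pow, Complex.norm_real, Real.norm_eq_abs,
          sq_abs]
      have h2 : ‖γ‖ * ‖u'‖ ^ 2 = m ^ 2 * ‖l * r' + k * s'‖ := by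
        rw [← norm_pow, ← norm_mul, hp', norm_mul, norm_pow, Complex.norm_real, Real.norm_eq_abs,
          sq_abs]
      calc 2 * m ^ 2 * lam * s = m ^ 2 * (lam * s) + t ^ 2 * (m ^ 2 * (lam * s')) := by
            rw [← hts]; ring
        _ ≤ m ^ 2 * ‖l * r + k * s‖ + t ^ 2 * (m ^ 2 * ‖l * r' + k * s'‖) := by gcongr
        _ = ‖γ‖ * (‖u‖ ^ 2 + t ^ 2 * ‖u'‖ ^ 2) := by rw [← h1, ← h2]; ring
        _ ≤ ‖γ‖ * ‖u + t * u'‖ ^ 2 := by gcongr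
    have e6 : ‖γ‖ * ‖u - t * u'‖ * ‖u + t * u'‖ = m ^ 2 * ‖l‖ * |(r * s' - r' * s : ℝ) / s'| := by
      have := congrArg norm e1
      rw [norm_mul, norm_mul, norm_mul, norm_mul, norm_pow, Complex.norm_real, Complex.norm_real,
        Real.norm_eq_abs, Real.norm_eq_abs, sq_abs] at this
      rw [← this]
      ring
    rw [norm_mul, norm_pow]
    have hm2 : 0 < m ^ 2 := by positivity
    have key : (‖γ‖ * ‖u - t * u'‖ ^ 2 * (2 * lam * s)) * m ^ 2 ≤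
        (‖l‖ ^ 2 * m ^ 2 * ((r * s' - r' * s : ℝ) / s') ^ 2) * m ^ 2 := by
      calc (‖γ‖ * ‖u - t * u'‖ ^ 2 * (2 * lam * s)) * m ^ 2
          = ‖γ‖ * ‖u - t * u'‖ ^ 2 * (2 * m ^ 2 * lam * s) := by ring
        _ ≤ ‖γ‖ * ‖u - t * u'‖ ^ 2 * (‖γ‖ * ‖u + t * u'‖ ^ 2) := by gcongr
        _ = (‖γ‖ * ‖u - t * u'‖ * ‖u + t * u'‖) ^ 2 := by ring
        _ = (m ^ 2 * ‖l‖ * |(r * s' - r' * s : ℝ) / s'|) ^ 2 := by rw [e6]
        _ = (‖l‖ ^ 2 * m ^ 2 * ((r * s' - r' * s : ℝ) / s') ^ 2) * m ^ 2 := by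
            rw [mul_pow, mul_pow, sq_abs]; ring
    exact le_of_mul_le_mul_right key hm2

theorem B_le (h : Λ.Ok) {r s r' s' : ℤ} {ζ ζ' : Fin 3 → ℤ} (hp : Λ.Pt r s ζ) (hp' : Λ.Pt r' s' ζ')
    (hs : 0 < s) (hs' : 0 < s') (hre : ∀ v, 0 ≤ (Λ.u ζ v * conj (Λ.u ζ' v)).re) {lam : ℝ} (hlam : 0 < lam)
    (hl : ∀ v, Λ.l v ≠ 0 → lam * s ≤ ‖Λ.l v * r + Λ.k v * s‖)
    (hl' : ∀ v, Λ.l v ≠ 0 → lam * s' ≤ ‖Λ.l v * r' + Λ.k v * s'‖) :
    |((Λ.B ζ ζ' : ℤ) : ℝ)| ≤ (∑ v, ‖Λ.w v‖ * ‖Λ.l v‖ ^ 2) * (Λ.m : ℝ) ^ 2 * ((r : ℝ) / s - r' / s') ^ 2 *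
      √(s * s') / (4 * lam) := by
  have hs'R : (0 : ℝ) < s' := by exact_mod_cast hs'
  have hsR : (0 : ℝ) < s := by exact_mod_cast hs
  set t : ℝ := √((s : ℝ) / s') with htdef
  have ht : 0 < t := Real.sqrt_pos.2 (by positivity)
  have ht2 : t ^ 2 = (s : ℝ) / s' := Real.sq_sqrt (by positivity)
  have hts : t ^ 2 * s' = s := by rw [ht2]; field_simp
  have hm : (0 : ℝ) < Λ.m := by exact_mod_cast h.m0
  -- the sum of squares
  have hsum : ∑ v, Λ.w v * (Λ.γ v * (Λ.u ζ v - t * Λ.u ζ' v) ^ 2) =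
      ((-(2 * t * (Λ.B ζ ζ' : ℤ) : ℝ)) : ℂ) := by
    have a1 := B_eq h ζ ζ
    have a2 := B_eq h ζ ζ'
    have a3 := B_eq h ζ' ζ'
    rw [B_self h hp] at a1
    rw [B_self h hp'] at a3
    have : ∑ v, Λ.w v * (Λ.γ v * (Λ.u ζ v - t * Λ.u ζ' v) ^ 2) =
        (∑ v, Λ.w v * Λ.γ v * Λ.u ζ v * Λ.u ζ v) - 2 * t * (∑ v, Λ.w v * Λ.γ v * Λ.u ζ v * Λ.u ζ' v) +
        t ^ 2 * (∑ v, Λ.w v * Λ.γ v * Λ.u ζ' v * Λ.u ζ' v) := by
      rw [Finset.mul_sum, Finset.mul_sum, ← Finset.sum_sub_distrib, ← Finset.sum_add_distrib]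
      refine Finset.sum_congr rfl fun v _ => ?_
      ring
    rw [this, ← a1, ← a2, ← a3]
    push_cast
    ring
  set D : ℝ := (r * s' - r' * s : ℝ) / s' with hD
  have hco : ∀ v, ‖Λ.w v * (Λ.γ v * (Λ.u ζ v - t * Λ.u ζ' v) ^ 2)‖ ≤
      ‖Λ.w v‖ * ‖Λ.l v‖ ^ 2 * ((Λ.m : ℝ) ^ 2 * D ^ 2 / (2 * lam * s)) := by
    intro v
    have hc := coord (γ := Λ.γ v) (l := Λ.l v) (k := Λ.k v) (u := Λ.u ζ v) (u' := Λ.u ζ' v)
      (m := (Λ.m : ℝ)) (r := r) (s := s) (r' := r') (s' := s') (lam := lam) (t := t)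
      (by have := hp v; push_cast; exact this) (by have := hp' v; push_cast; exact this) hs hs' (hre v) hlam ht hts
      (h.γ0 v) hm (hl v) (hl' v)
    rw [norm_mul]
    have hpos : 0 < 2 * lam * s := by positivity
    rw [mul_assoc ‖Λ.w v‖]
    refine mul_le_mul_of_nonneg_left ?_ (norm_nonneg _)
    rw [mul_div_assoc', le_div_iff₀ hpos]
    calc _ ≤ ‖Λ.l v‖ ^ 2 * (Λ.m : ℝ) ^ 2 * ((r * s' - r' * s : ℝ) / s') ^ 2 := hc
      _ = _ := by rw [← hD]; ring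
  have hB : 2 * t * |((Λ.B ζ ζ' : ℤ) : ℝ)| ≤
      (∑ v, ‖Λ.w v‖ * ‖Λ.l v‖ ^ 2) * ((Λ.m : ℝ) ^ 2 * D ^ 2 / (2 * lam * s)) := by
    have a1 : ‖∑ v, Λ.w v * (Λ.γ v * (Λ.u ζ v - t * Λ.u ζ' v) ^ 2)‖ =
        2 * t * |((Λ.B ζ ζ' : ℤ) : ℝ)| := by
      rw [hsum]
      rw [← Complex.ofReal_neg, Complex.norm_real, Real.norm_eq_abs, abs_neg, abs_mul, abs_mul,
        abs_of_pos ht]
      norm_num
    rw [← a1, Finset.sum_mul]
    exact (norm_sum_le _ _).trans (Finset.sum_le_sum fun v _ => hco v)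
  have hsq : √((s : ℝ) * s') = t * s' := by
    rw [Real.sqrt_eq_iff_mul_self_eq (by positivity) (by positivity)]
    symm
    calc t * s' * (t * s') = (t ^ 2 * s') * s' := by ring
      _ = s * s' := by rw [hts]
  rw [hsq]
  have hW : 0 ≤ ∑ v, ‖Λ.w v‖ * ‖Λ.l v‖ ^ 2 := Finset.sum_nonneg fun v _ => by positivity
  have hx : D = s * ((r : ℝ) / s - r' / s') := by
    rw [hD]; field_simp
  have e1 : (∑ v, ‖Λ.w v‖ * ‖Λ.l v‖ ^ 2) * ((Λ.m : ℝ) ^ 2 * D ^ 2 / (2 * lam * s)) =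
      2 * t * ((∑ v, ‖Λ.w v‖ * ‖Λ.l v‖ ^ 2) * (Λ.m : ℝ) ^ 2 * ((r : ℝ) / s - r' / s') ^ 2 *
      (t * s') / (4 * lam)) := by
    rw [hx, ← hts]
    have hs0 : (t ^ 2 * (s' : ℝ)) ≠ 0 := by positivity
    field_simp
    ring
  rw [e1] at hB
  exact le_of_mul_le_mul_left hB (by positivity)

end Lab

end Pool.Agent.H12.EH
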