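import Pool.Agent.H12.EH.Acnt
import Pool.Agent.H12.EH.Bcnt
import Pool.Agent.H12.EH.Red
import Pool.Agent.H12.EH.Fac

/-!
[H12 EH UNIF]  The bound for all curves: at most `C X^ε √(H X)` pairs if `H ≤ X`.

`T = (om_finite ..).toFinset`.  For `p ∈ T` choose `g, z` with `Gf = g z²`, `g` squarefree, `1 ≤ g ≤ X`, `z ≥ 1` (`fac0`);
`g z² ≤ C₀ H³` (`gf_up`).  `dya1` reduces to a fiber `(v, S, lam)`, `S lam ≤ C₁ H`; `dya2` for `g` and for `z` (`N` = `⌊X⌋` and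
`⌊C₀ H³⌋`) reduces to `G = 2^k ≤ X`, `g ∈ [G, 2G]`, `Z = 2^l`, `z ∈ [Z, 2 Z]`.  If the class is not empty then
`G Z² ≤ g z² ≤ C₀ H³`.  `acnt` and `bcnt` with exponent `ε / 4`-ish:
`card ≤ C X^(ε') min(G + √(S lam G), Z + √(S lam G)) ≤ C X^(ε') (min(G, Z) + √(C₁ H X))` and
`min(G, Z)³ ≤ G Z² ≤ C₀ H³`, so `min(G, Z) ≤ C₀ H ≤ C₀ √(H X)`.  (`Z ≤ C H^(3/2) ≤ C X²`, so `Z^(ε')` is a power of `X`.)
The number of classes is at most `C (log X + 1)^4 ≤ C X^(ε')` (`log_pow_le`).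
`low_unif`: `red` gives the constant `C₀` with `(low A B X Y).ncard ≤ (Om A B (C₀ Y²) X).ncard`.  If `C₀ Y² ≤ X`: `unif` with
`H = C₀ Y² ≥ 1`: `√(C₀ Y² X) = √C₀ · Y X^(1/2)`.  Otherwise `low ⊆ {1, ..., ⌊X⌋}` has at most `X` elements and
`X^(1/2) Y ≥ X / √C₀`.
-/

set_option autoImplicit false

namespace Pool.Agent.H12.EH

/-- dyadic classes up to `x` -/
private theorem unif_natLog {x : ℝ} (hx : 1 ≤ x) : (Nat.log 2 ⌊x⌋₊ : ℝ) + 1 ≤ 2 * (Real.log x + 1) := by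
  have h1 : (1 : ℕ) ≤ ⌊x⌋₊ := Nat.le_floor (by simpa using hx)
  have h2 : (Nat.log 2 ⌊x⌋₊ : ℝ) ≤ Real.logb 2 (⌊x⌋₊ : ℝ) := by
    exact_mod_cast Real.natLog_le_logb ⌊x⌋₊ 2
  have h3 : Real.logb 2 (⌊x⌋₊ : ℝ) ≤ Real.logb 2 x :=
    Real.logb_le_logb_of_le (by norm_num) (by exact_mod_cast h1) (Nat.floor_le (by linarith))
  have h4 : Real.logb 2 x ≤ 2 * Real.log x := by
    unfold Real.logb
    rw [div_le_iff₀ (Real.log_pos (by norm_num))]
    have h5 := Real.log_two_gt_d9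
    have h0 : 0 ≤ Real.log x := Real.log_nonneg hx
    nlinarith
  linarith

/-- the bound in a class -/
private theorem unif_class {c Ca Cb C₀ C₁ G Z P H X ε : ℝ} (hε : 0 < ε) (hCa : 0 < Ca) (hCb : 0 < Cb)
    (hC₀ : 1 ≤ C₀) (hC₁ : 1 ≤ C₁) (hG1 : 1 ≤ G) (hZ1 : 1 ≤ Z) (hGX : G ≤ X) (hH : 1 ≤ H) (hHX : H ≤ X)
    (_hP0 : 0 ≤ P) (hP : P ≤ C₁ * H) (hGZ : G * Z ^ 2 ≤ C₀ * H ^ 3)
    (ha : c ≤ Ca * G ^ (ε / 2) * (G + √(P * G))) (hb : c ≤ Cb * Z ^ (ε / 6) * (Z + √(P * G))) :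
    c ≤ (Ca + Cb * C₀ ^ (ε / 6)) * (C₀ + √C₁) * X ^ (ε / 2) * √(H * X) := by
  have hX1 : 1 ≤ X := hH.trans hHX
  have hX0 : 0 < X := by linarith
  have hH0 : 0 < H := by linarith
  have hHs : H ≤ √(H * X) := by
    apply Real.le_sqrt_of_sq_le
    nlinarith
  have hs : √(P * G) ≤ √C₁ * √(H * X) := by
    rw [← Real.sqrt_mul (by linarith)]
    apply Real.sqrt_le_sqrt
    have h1 : P * G ≤ C₁ * H * X := mul_le_mul hP hGX (by linarith) (by positivity)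
    linarith [h1, mul_assoc C₁ H X]
  have hq : 0 ≤ √(H * X) := Real.sqrt_nonneg _
  have hXe : 0 < X ^ (ε / 2) := Real.rpow_pos_of_pos hX0 _
  have hCe : 0 < C₀ ^ (ε / 6) := Real.rpow_pos_of_pos (by linarith) _
  have hmin : ∀ m : ℝ, 0 < m → m ^ 3 ≤ C₀ * H ^ 3 → m ≤ C₀ * √(H * X) := by
    intro m hm hm3
    have h1 : m ^ 3 ≤ (C₀ * H) ^ 3 := by
      have h2 : C₀ ≤ C₀ ^ 3 := by nlinarith [mul_pos (show (0:ℝ) < C₀ by linarith) (show (0:ℝ) < C₀ by linarith)]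
      calc m ^ 3 ≤ C₀ * H ^ 3 := hm3
        _ ≤ C₀ ^ 3 * H ^ 3 := mul_le_mul_of_nonneg_right h2 (by positivity)
        _ = (C₀ * H) ^ 3 := by ring
    have h2 : m ≤ C₀ * H := le_of_pow_le_pow_left₀ (by norm_num) (by positivity) h1
    exact h2.trans (mul_le_mul_of_nonneg_left hHs (by linarith))
  have hfac : ∀ m : ℝ, m ≤ C₀ * √(H * X) → m + √(P * G) ≤ (C₀ + √C₁) * √(H * X) := by
    intro m hm
    nlinarith
  rcases le_total G Z with h | h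
  · have h3 : G ^ 3 ≤ C₀ * H ^ 3 := by
      have : G ^ 3 ≤ G * Z ^ 2 := by
        have h5 : G ^ 2 ≤ Z ^ 2 := pow_le_pow_left₀ (by linarith) h 2
        nlinarith
      linarith
    have h4 := hfac G (hmin G (by linarith) h3)
    have h5 : G ^ (ε / 2) ≤ X ^ (ε / 2) := Real.rpow_le_rpow (by linarith) hGX (by positivity)
    calc c ≤ Ca * G ^ (ε / 2) * (G + √(P * G)) := ha
      _ ≤ Ca * X ^ (ε / 2) * ((C₀ + √C₁) * √(H * X)) := by
          apply mul_le_mul (mul_le_mul_of_nonneg_left h5 hCa.le) h4 (by positivity) (by positivity)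
      _ ≤ (Ca + Cb * C₀ ^ (ε / 6)) * X ^ (ε / 2) * ((C₀ + √C₁) * √(H * X)) := by
          apply mul_le_mul_of_nonneg_right _ (by positivity)
          apply mul_le_mul_of_nonneg_right _ hXe.le
          nlinarith [mul_pos hCb hCe]
      _ = _ := by ring
  · have h3 : Z ^ 3 ≤ C₀ * H ^ 3 := by
      have : Z ^ 3 ≤ G * Z ^ 2 := by
        have h5 : 0 < Z ^ 2 := by positivity
        nlinarith
      linarith
    have h4 := hfac Z (hmin Z (by linarith) h3)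
    have hZX : Z ≤ C₀ * X ^ 3 := by
      have h5 : Z ≤ G * Z ^ 2 := by nlinarith
      have h6 : H ^ 3 ≤ X ^ 3 := pow_le_pow_left₀ (by linarith) hHX 3
      nlinarith
    have h5 : Z ^ (ε / 6) ≤ C₀ ^ (ε / 6) * X ^ (ε / 2) := by
      calc Z ^ (ε / 6) ≤ (C₀ * X ^ 3) ^ (ε / 6) := Real.rpow_le_rpow (by linarith) hZX (by positivity)
        _ = C₀ ^ (ε / 6) * (X ^ 3) ^ (ε / 6) := Real.mul_rpow (by linarith) (by positivity)
        _ = C₀ ^ (ε / 6) * X ^ (ε / 2) := by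
            rw [← Real.rpow_natCast, ← Real.rpow_mul hX0.le]
            congr 2
            push_cast
            ring
    calc c ≤ Cb * Z ^ (ε / 6) * (Z + √(P * G)) := hb
      _ ≤ Cb * (C₀ ^ (ε / 6) * X ^ (ε / 2)) * ((C₀ + √C₁) * √(H * X)) := by
          apply mul_le_mul (mul_le_mul_of_nonneg_left h5 hCb.le) h4 (by positivity) (by positivity)
      _ = (Cb * C₀ ^ (ε / 6)) * X ^ (ε / 2) * ((C₀ + √C₁) * √(H * X)) := by ring
      _ ≤ (Ca + Cb * C₀ ^ (ε / 6)) * X ^ (ε / 2) * ((C₀ + √C₁) * √(H * X)) := by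
          apply mul_le_mul_of_nonneg_right _ (by positivity)
          apply mul_le_mul_of_nonneg_right _ hXe.le
          linarith
      _ = _ := by ring

theorem unif (A B : ℤ) (hD : 4 * A ^ 3 + 27 * B ^ 2 ≠ 0) (ε : ℝ) (hε : 0 < ε) : ∃ C : ℝ, 0 < C ∧
    ∀ H X : ℝ, 1 ≤ H → H ≤ X → ((Om A B H X).ncard : ℝ) ≤ C * X ^ ε * √(H * X) := by
  obtain ⟨ρ, hρ, ha⟩ := acnt A B hD
  obtain ⟨Ca, hCa, ha⟩ := ha (ε / 2) (by positivity)
  obtain ⟨Cb, hCb, hb⟩ := bcnt hD hρ (ε / 6) (by positivity)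
  obtain ⟨C₁, hC₁, h1⟩ := dya1 hρ
  obtain ⟨C₀, hC₀, h0⟩ := gf_up A B
  obtain ⟨CL, hCL, hL⟩ := log_pow_le 4 (ε / 2) (by positivity)
  obtain ⟨K, hK⟩ : ∃ K : ℝ, K = (Ca + Cb * C₀ ^ (ε / 6)) * (C₀ + √C₁) := ⟨_, rfl⟩
  have hCe : 0 < C₀ ^ (ε / 6) := Real.rpow_pos_of_pos (by linarith) _
  have hK0 : 0 < K := by
    rw [hK]
    have : 0 ≤ √C₁ := Real.sqrt_nonneg _
    have h2 : 0 < C₀ + √C₁ := by linarith
    positivity
  have hlC : 0 ≤ Real.log C₀ := Real.log_nonneg hC₀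
  refine ⟨C₁ * (2 * (2 * (Real.log C₀ + 3))) * CL * K, by positivity, fun H X hH hHX => ?_⟩
  have hX1 : 1 ≤ X := hH.trans hHX
  have hX0 : 0 < X := by linarith
  have hq : 0 ≤ √(H * X) := Real.sqrt_nonneg _
  have hXe : 0 < X ^ (ε / 2) := Real.rpow_pos_of_pos hX0 _
  -- the functions `g` and `z`
  have hf : ∀ p : ℤ × ℤ, ∃ g z : ℕ, p ∈ Om A B H X → Squarefree g ∧ 0 < z ∧ (g : ℝ) ≤ X ∧
      Gf A B p.1 p.2 = g * z ^ 2 := by
    intro p
    by_cases hp : p ∈ Om A B H X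
    · obtain ⟨g, z, h⟩ := fac0 hp
      exact ⟨g, z, fun _ => h⟩
    · exact ⟨0, 0, fun h => absurd h hp⟩
  choose g z hgz using hf
  obtain ⟨T, hT⟩ : ∃ T : Finset (ℤ × ℤ), T = (om_finite A B H X).toFinset := ⟨_, rfl⟩
  have hmem : ∀ p, p ∈ T ↔ p ∈ Om A B H X := by
    intro p
    rw [hT, Set.Finite.mem_toFinset]
  have hcard : (Om A B H X).ncard = T.card := by
    rw [hT, Set.ncard_eq_toFinset_card _ (om_finite A B H X)]
  rw [hcard]
  have hg0 : ∀ p ∈ T, 1 ≤ g p := by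
    intro p hp
    have := (hgz p ((hmem p).1 hp)).1.ne_zero
    omega
  have hGle : ∀ p ∈ T, (g p : ℝ) * (z p : ℝ) ^ 2 ≤ C₀ * H ^ 3 := by
    intro p hp
    have hp' := (hmem p).1 hp
    have h2 := h0 H p.1 p.2 hp'.2.2.1 hp'.2.1 hp'.2.2.2.1
    rw [(hgz p hp').2.2.2] at h2
    have h3 : |(((g p : ℤ) * (z p : ℤ) ^ 2 : ℤ) : ℝ)| = (g p : ℝ) * (z p : ℝ) ^ 2 := by
      push_cast
      exact abs_of_nonneg (by positivity)
    rwa [h3] at h2
  obtain ⟨M₀, hM₀⟩ : ∃ M₀ : ℝ, M₀ = K * X ^ (ε / 2) * √(H * X) := ⟨_, rfl⟩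
  have hM₀0 : 0 ≤ M₀ := by
    rw [hM₀]
    positivity
  have hH3 : 1 ≤ C₀ * H ^ 3 := by
    have : 1 ≤ H ^ 3 := one_le_pow₀ hH
    nlinarith
  have key := h1 H hH T (((Nat.log 2 ⌊X⌋₊ : ℕ) + 1) * (((Nat.log 2 ⌊C₀ * H ^ 3⌋₊ : ℕ) + 1) * M₀))
    (by positivity)
    (by
      intro p hp
      have hp' := (hmem p).1 hp
      refine ⟨hp'.2.1, hp'.2.2.1, hp'.2.2.2.1, ?_⟩
      rw [(hgz p hp').2.2.2]
      have h2 := hg0 p hp
      have h3 := (hgz p hp').2.1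
      positivity)
    (by
      intro v S lam hS hlam hSl T' hT' hFib
      refine dya2 T' g ⌊X⌋₊ _ (by positivity)
        (fun p hp => ⟨hg0 p (hT' hp), Nat.le_floor (hgz p ((hmem p).1 (hT' hp))).2.2.1⟩) ?_
      intro k hk T₂ hT₂ hgk
      refine dya2 T₂ z ⌊C₀ * H ^ 3⌋₊ _ hM₀0 ?_ ?_
      · intro p hp
        have hpT : p ∈ T := hT' (hT₂ hp)
        have h3 := (hgz p ((hmem p).1 hpT)).2.1
        refine ⟨h3, Nat.le_floor ?_⟩
        refine le_trans ?_ (hGle p hpT)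
        have h4 : (1 : ℝ) ≤ g p := by exact_mod_cast hg0 p hpT
        have h5 : (1 : ℝ) ≤ z p := by exact_mod_cast h3
        nlinarith [mul_nonneg (sub_nonneg.2 h4) (sq_nonneg (z p : ℝ))]
      · intro l hl T₃ hT₃ hzl
        rcases T₃.eq_empty_or_nonempty with he | ⟨q, hq3⟩
        · rw [he]
          simpa using hM₀0
        · have hG1 : (1 : ℝ) ≤ 2 ^ k := one_le_pow₀ (by norm_num)
          have hZ1 : (1 : ℝ) ≤ 2 ^ l := one_le_pow₀ (by norm_num)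
          have hGX : (2 : ℝ) ^ k ≤ X := by
            have h2 : ((2 ^ k : ℕ) : ℝ) ≤ (⌊X⌋₊ : ℝ) := by exact_mod_cast hk
            have h3 : (⌊X⌋₊ : ℝ) ≤ X := Nat.floor_le hX0.le
            push_cast at h2
            linarith
          have hGZ : (2 : ℝ) ^ k * (2 ^ l) ^ 2 ≤ C₀ * H ^ 3 := by
            refine le_trans ?_ (hGle q (hT' (hT₂ (hT₃ hq3))))
            have h2 : ((2 : ℝ) ^ k) ≤ g q := by exact_mod_cast (hgk q (hT₃ hq3)).1
            have h3 : ((2 : ℝ) ^ l) ≤ z q := by exact_mod_cast (hzl q hq3).1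
            exact mul_le_mul h2 (pow_le_pow_left₀ (by positivity) h3 2) (by positivity) (by positivity)
          have hca := ha v S lam (2 ^ k) (by linarith) hlam hG1 T₃ (by
            intro p hp
            have hpT : p ∈ T := hT' (hT₂ (hT₃ hp))
            have hp' := (hmem p).1 hpT
            refine ⟨hp'.1, hp'.2.1, hFib p (hT₂ (hT₃ hp)), g p, z p, (hgz p hp').1, (hgz p hp').2.1,
              ?_, ?_, (hgz p hp').2.2.2⟩
            · exact_mod_cast (hgk p (hT₃ hp)).1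
            · exact_mod_cast (hgk p (hT₃ hp)).2)
          have hcb := hb v S lam (2 ^ k) (2 ^ l) (by linarith) hlam hG1 hZ1 T₃ (by
            intro p hp
            have hpT : p ∈ T := hT' (hT₂ (hT₃ hp))
            have hp' := (hmem p).1 hpT
            refine ⟨hp'.1, hp'.2.1, hFib p (hT₂ (hT₃ hp)), g p, z p,
              ?_, ?_, ?_, ?_, (hgz p hp').2.2.2⟩
            · exact_mod_cast (hgk p (hT₃ hp)).1
            · exact_mod_cast (hgk p (hT₃ hp)).2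
            · exact_mod_cast (hzl p hp).1
            · exact_mod_cast (hzl p hp).2)
          rw [hM₀, hK]
          exact unif_class hε hCa hCb hC₀ hC₁ hG1 hZ1 hGX hH hHX (mul_nonneg (by linarith) hlam.le) hSl
            hGZ hca hcb)
  have hlX : 0 ≤ Real.log X := Real.log_nonneg hX1
  have hlH : 0 ≤ Real.log H := Real.log_nonneg hH
  have hlHX : Real.log H ≤ Real.log X := Real.log_le_log (by linarith) hHX
  have hn1 := unif_natLog hX1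
  have hn2 : (Nat.log 2 ⌊C₀ * H ^ 3⌋₊ : ℝ) + 1 ≤ 2 * (Real.log C₀ + 3) * (Real.log X + 1) := by
    refine (unif_natLog hH3).trans ?_
    rw [Real.log_mul (by linarith) (by positivity), Real.log_pow]
    push_cast
    nlinarith
  have hL4 := hL X hX1
  have hXX : X ^ (ε / 2) * X ^ (ε / 2) = X ^ ε := by
    rw [← Real.rpow_add hX0]
    congr 1
    ring
  calc (T.card : ℝ) ≤ C₁ * (Real.log H + 1) ^ 2 *
        (((Nat.log 2 ⌊X⌋₊ : ℕ) + 1) * (((Nat.log 2 ⌊C₀ * H ^ 3⌋₊ : ℕ) + 1) * M₀)) := key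
    _ ≤ C₁ * (Real.log X + 1) ^ 2 *
        ((2 * (Real.log X + 1)) * ((2 * (Real.log C₀ + 3) * (Real.log X + 1)) * M₀)) := by
        gcongr
    _ = C₁ * (2 * (2 * (Real.log C₀ + 3))) * (Real.log X + 1) ^ 4 * M₀ := by ring
    _ ≤ C₁ * (2 * (2 * (Real.log C₀ + 3))) * (CL * X ^ (ε / 2)) * M₀ := by
        gcongr
    _ = C₁ * (2 * (2 * (Real.log C₀ + 3))) * CL * K * (X ^ (ε / 2) * X ^ (ε / 2)) * √(H * X) := by
        rw [hM₀]
        ring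
    _ = C₁ * (2 * (2 * (Real.log C₀ + 3))) * CL * K * X ^ ε * √(H * X) := by rw [hXX]

/-- at most `C X^(1/2 + ε) Y` squarefree `d ≤ X` with `η_d ≤ Y` -/
theorem low_unif (A B : ℤ) (hD : 4 * A ^ 3 + 27 * B ^ 2 ≠ 0) (ε : ℝ) (hε : 0 < ε) : ∃ C : ℝ, 0 < C ∧
    ∀ X Y : ℝ, 1 ≤ X → 1 ≤ Y → ((low A B X Y).ncard : ℝ) ≤ C * X ^ (1 / 2 + ε) * Y := by
  obtain ⟨C₀, hC₀, h0⟩ := red A B hD
  obtain ⟨C, hC, h1⟩ := unif A B hD ε hε
  have hC₀0 : 0 < C₀ := by linarith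
  have hsC : 1 ≤ √C₀ := by
    rw [Real.one_le_sqrt]
    exact hC₀
  refine ⟨(C + 1) * √C₀, by positivity, fun X Y hX hY => ?_⟩
  have hX0 : 0 < X := by linarith
  have hY0 : 0 < Y := by linarith
  have hXe : X ^ (1 / 2 + ε) = √X * X ^ ε := by
    rw [Real.rpow_add hX0, Real.sqrt_eq_rpow]
  have hXe1 : 1 ≤ X ^ ε := Real.one_le_rpow hX hε.le
  have hsX : 0 < √X := Real.sqrt_pos.2 hX0
  rw [hXe]
  by_cases h : C₀ * Y ^ 2 ≤ X
  · have hH : 1 ≤ C₀ * Y ^ 2 := by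
      have : 1 ≤ Y ^ 2 := one_le_pow₀ hY
      nlinarith
    have h2 := h1 (C₀ * Y ^ 2) X hH h
    have h3 : ((low A B X Y).ncard : ℝ) ≤ ((Om A B (C₀ * Y ^ 2) X).ncard : ℝ) := by
      exact_mod_cast h0 X Y hY0
    have h4 : √(C₀ * Y ^ 2 * X) = √C₀ * Y * √X := by
      rw [Real.sqrt_mul (by positivity), Real.sqrt_mul (by positivity), Real.sqrt_sq hY0.le]
    rw [h4] at h2
    have h5 : 0 ≤ √C₀ * (√X * X ^ ε) * Y := by positivity
    calc ((low A B X Y).ncard : ℝ) ≤ C * X ^ ε * (√C₀ * Y * √X) := h3.trans h2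
      _ = C * (√C₀ * (√X * X ^ ε) * Y) := by ring
      _ ≤ (C + 1) * (√C₀ * (√X * X ^ ε) * Y) := by nlinarith
      _ = (C + 1) * √C₀ * (√X * X ^ ε) * Y := by ring
  · push Not at h
    have hsub : low A B X Y ⊆ ((Finset.Icc 1 ⌊X⌋₊ : Finset ℕ) : Set ℕ) := by
      intro d hd
      have h2 := hd.2.1.ne_zero
      rw [Finset.mem_coe, Finset.mem_Icc]
      exact ⟨by omega, Nat.le_floor hd.1⟩
    have hn : ((low A B X Y).ncard : ℝ) ≤ X := by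
      have h3 : (low A B X Y).ncard ≤ (Finset.Icc 1 ⌊X⌋₊ : Finset ℕ).card := by
        have h4 := Set.ncard_le_ncard hsub (Finset.finite_toSet _)
        rwa [Set.ncard_coe_finset] at h4
      rw [Nat.card_Icc, Nat.add_sub_cancel] at h3
      have h5 : ((low A B X Y).ncard : ℝ) ≤ (⌊X⌋₊ : ℝ) := by exact_mod_cast h3
      exact h5.trans (Nat.floor_le hX0.le)
    have h6 : √X ≤ √C₀ * Y := by
      rw [← Real.sqrt_sq hY0.le, ← Real.sqrt_mul hC₀0.le]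
      exact Real.sqrt_le_sqrt h.le
    have h7 : X ≤ √C₀ * √X * Y := by
      calc X = √X * √X := (Real.mul_self_sqrt hX0.le).symm
        _ ≤ √X * (√C₀ * Y) := mul_le_mul_of_nonneg_left h6 hsX.le
        _ = √C₀ * √X * Y := by ring
    have h8 : 0 ≤ √C₀ * √X * Y := by positivity
    calc ((low A B X Y).ncard : ℝ) ≤ √C₀ * √X * Y := hn.trans h7
      _ ≤ (√C₀ * √X * Y) * ((C + 1) * X ^ ε) := by
          have : 1 ≤ (C + 1) * X ^ ε := by nlinarith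
          nlinarith
      _ = (C + 1) * √C₀ * (√X * X ^ ε) * Y := by ring

end Pool.Agent.H12.EH
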